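import Mathlib.Algebra.Ring.Int.Defs
import Mathlib.Data.Sign.Defs

/-! Multi-tape Turing machines (deterministic or nondeterministic), as in Hopcroft-Ullman. -/

namespace Pool.Agent.MP_8c2300_lc.PP

/-- A multi-tape Turing machine with `k + 1` two-way infinite tapes, finite state set `Q` and
finite tape alphabet `Γ`.  `δ q s` is the set of allowed moves in state `q` with scanned symbols
`s`: next state and, for every tape, the symbol written and the head move (-1, 0 or 1). -/
structure TM where
  k : ℕ
  Q : Type
  Γ : Type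
  finQ : Finite Q
  finΓ : Finite Γ
  blank : Γ
  inp : Bool → Γ
  inp_inj : Function.Injective inp
  inp_ne : ∀ b, inp b ≠ blank
  start : Q
  acc : Set Q
  δ : Q → (Fin (k + 1) → Γ) → Set (Q × (Fin (k + 1) → Γ × SignType))

/-- Configuration: state, tape contents, head positions. -/
structure TM.Cfg (M : TM) where
  q : M.Q
  tape : Fin (M.k + 1) → ℤ → M.Γ
  head : Fin (M.k + 1) → ℤ

/-- Initial configuration: the input is on cells `0, ..., n - 1` of tape `0`, all else blank. -/
def TM.init (M : TM) (x : List Bool) : M.Cfg where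
  q := M.start
  tape := fun i p => if i = 0 ∧ 0 ≤ p then (x[p.toNat]?.map M.inp).getD M.blank else M.blank
  head := fun _ => 0

/-- One step. -/
def TM.Step (M : TM) (c c' : M.Cfg) : Prop :=
  ∃ a ∈ M.δ c.q (fun i => c.tape i (c.head i)),
    c'.q = a.1 ∧ (∀ i, c'.tape i = Function.update (c.tape i) (c.head i) (a.2 i).1) ∧
      ∀ i, c'.head i = c.head i + ((a.2 i).2 : ℤ)

/-- A computation of length `n` from `c` to `c'`. -/
def TM.Run (M : TM) : ℕ → M.Cfg → M.Cfg → Prop
  | 0, c, c' => c = c'
  | n + 1, c, c' => ∃ d, M.Step c d ∧ M.Run n d c'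

/-- Some computation on input `x` enters an accepting state. -/
def TM.Accepts (M : TM) (x : List Bool) : Prop :=
  ∃ n c, M.Run n (M.init x) c ∧ c.q ∈ M.acc

/-- Every computation on an input of length `n` has length at most `t n`. -/
def TM.Bounded (M : TM) (t : ℕ → ℕ) : Prop :=
  ∀ x n c, M.Run n (M.init x) c → n ≤ t x.length

/-- At most one move is allowed in each situation. -/
def TM.Det (M : TM) : Prop :=
  ∀ q s, (M.δ q s).Subsingleton

end Pool.Agent.MP_8c2300_lc.PP
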