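import Mathlib.Order.Lattice.Nat
import Mathlib.Algebra.BigOperators.Group.Finset.Defs
import Mathlib.Tactic.Bound
import Pool.Agent.MP_8c2300_lc.pp.Defs

/-! PROJECT PPST: intermediate models (stack machines, structured programs, rule systems, the
reference verifier, segregators).  Definitions and basic lemmas only. -/

namespace Pool.Agent.MP_8c2300_lc.PP

/-! ### Stack machines -/

/-- One instruction of a multi-stack machine. -/
inductive Act (ι Γ Q : Type) : Type
  | push (i : ι) (γ : Γ) (q : Q)
  | pop (i : ι) (f : Option Γ → Q)
  | goto (q : Q)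

/-- Effect of an instruction; the head of a list is the top of the stack. -/
def Act.run {ι Γ Q : Type} [DecidableEq ι] : Act ι Γ Q → (ι → List Γ) → Q × (ι → List Γ)
  | .push i γ q, S => (q, Function.update S i (γ :: S i))
  | .pop i f, S => (f (S i).head?, Function.update S i (S i).tail)
  | .goto q, S => (q, S)

/-- Initial stacks: `x` on stack `i0`, `y` on stack `i1`, the others empty. -/
def initS {ι Γ : Type} [DecidableEq ι] (i0 i1 : ι) (x y : List Γ) : ι → List Γ :=
  fun i => if i = i0 then x else if i = i1 then y else []

/-- Deterministic multi-stack machine with two binary inputs. -/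
structure SM where
  ι : Type
  Γ : Type
  Q : Type
  finι : Fintype ι
  decι : DecidableEq ι
  finΓ : Finite Γ
  finQ : Finite Q
  in0 : ι
  in1 : ι
  in_ne : in0 ≠ in1
  inp : Bool → Γ
  inp_inj : Function.Injective inp
  start : Q
  act : Q → Act ι Γ Q
  out : Q → Option Bool

attribute [instance] SM.finι SM.decι SM.finΓ SM.finQ

abbrev SM.Cf (D : SM) : Type := D.Q × (D.ι → List D.Γ)

/-- One step; states with an output are absorbing. -/
def SM.step (D : SM) (c : D.Cf) : D.Cf :=
  match D.out c.1 with
  | none => (D.act c.1).run c.2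
  | some _ => c

def SM.init (D : SM) (x y : List Bool) : D.Cf :=
  (D.start, initS D.in0 D.in1 (x.map D.inp) (y.map D.inp))

/-- Output (if any) after `n` steps on inputs `x`, `y`. -/
def SM.outAt (D : SM) (x y : List Bool) (n : ℕ) : Option Bool :=
  D.out (D.step^[n] (D.init x y)).1

/-- `D` has halted with output `r` after `n` steps (hence within `n` steps). -/
def SM.Halts (D : SM) (x y : List Bool) (n : ℕ) (r : Bool) : Prop :=
  D.outAt x y n = some r

theorem SM.step_of_out (D : SM) {c : D.Cf} {r : Bool} (h : D.out c.1 = some r) :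
    D.step c = c := by
  simp [SM.step, h]

theorem SM.step_of_none (D : SM) {c : D.Cf} (h : D.out c.1 = none) :
    D.step c = (D.act c.1).run c.2 := by
  simp [SM.step, h]

theorem SM.iter_of_out (D : SM) {c : D.Cf} {r : Bool} (h : D.out c.1 = some r) (n : ℕ) :
    D.step^[n] c = c :=
  Function.iterate_fixed (D.step_of_out h) n

theorem SM.Halts.mono {D : SM} {x y : List Bool} {n m : ℕ} {r : Bool} (h : D.Halts x y n r)
    (hnm : n ≤ m) : D.Halts x y m r := by
  obtain ⟨k, rfl⟩ := Nat.exists_eq_add_of_le hnm
  unfold SM.Halts SM.outAt at *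
  rw [add_comm, Function.iterate_add_apply, D.iter_of_out h]
  exact h

theorem SM.Halts.unique {D : SM} {x y : List Bool} {n m : ℕ} {r r' : Bool}
    (h : D.Halts x y n r) (h' : D.Halts x y m r') : r = r' := by
  have h1 := h.mono (le_max_left n m)
  have h2 := h'.mono (le_max_right n m)
  unfold SM.Halts at h1 h2
  rw [h1] at h2
  exact Option.some.inj h2

/-- Locality, one step. -/
theorem SM.step_append (D : SM) (q : D.Q) (S U : D.ι → List D.Γ) (n : ℕ)
    (h : ∀ j, U j ≠ [] → n + 1 ≤ (S j).length) :
    D.step (q, fun j => S j ++ U j) =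
        ((D.step (q, S)).1, fun j => (D.step (q, S)).2 j ++ U j) ∧
      ∀ j, U j ≠ [] → n ≤ ((D.step (q, S)).2 j).length := by
  unfold SM.step
  cases ho : D.out q with
  | some r => exact ⟨by simp, fun j hj => by simpa using (Nat.le_succ n).trans (h j hj)⟩
  | none =>
    simp only []
    cases ha : D.act q with
    | goto q' => exact ⟨by simp [Act.run], fun j hj => by
        simpa [Act.run] using (Nat.le_succ n).trans (h j hj)⟩
    | push i γ q' =>
      refine ⟨?_, fun j hj => ?_⟩
      · simp only [Act.run, Prod.mk.injEq, true_and]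
        funext j
        by_cases hji : j = i
        · subst hji; simp
        · simp [Function.update_of_ne hji]
      · have := h j hj
        by_cases hji : j = i
        · subst hji; simp [Act.run]; omega
        · simp [Act.run, Function.update_of_ne hji]; omega
    | pop i f =>
      have key : (S i ++ U i).head? = (S i).head? ∧ (S i ++ U i).tail = (S i).tail ++ U i := by
        by_cases hU : U i = []
        · simp [hU]
        · have := h i hU
          cases hS : S i with
          | nil => simp [hS] at this
          | cons a l => simp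
      refine ⟨?_, fun j hj => ?_⟩
      · simp only [Act.run, Prod.mk.injEq, key.1, true_and]
        funext j
        by_cases hji : j = i
        · subst hji; simp [key.2]
        · simp [Function.update_of_ne hji]
      · have := h j hj
        by_cases hji : j = i
        · subst hji; simp [Act.run]; omega
        · simp [Act.run, Function.update_of_ne hji]; omega

/-- Locality: `n` steps do not see what lies more than `n` cells below the top. -/
theorem SM.iter_append (D : SM) (n : ℕ) : ∀ (q : D.Q) (S U : D.ι → List D.Γ),
    (∀ j, U j ≠ [] → n ≤ (S j).length) →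
    D.step^[n] (q, fun j => S j ++ U j) =
      ((D.step^[n] (q, S)).1, fun j => (D.step^[n] (q, S)).2 j ++ U j) := by
  induction n with
  | zero => intro q S U _; rfl
  | succ n ih =>
    intro q S U h
    obtain ⟨h1, h2⟩ := D.step_append q S U n h
    rw [Function.iterate_succ_apply, Function.iterate_succ_apply, h1]
    exact ih _ _ _ h2

theorem SM.step_length (D : SM) (c : D.Cf) (j : D.ι) :
    ((D.step c).2 j).length ≤ (c.2 j).length + 1 := by
  unfold SM.step
  cases ho : D.out c.1 with
  | some r => simp
  | none =>
    simp only []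
    cases ha : D.act c.1 with
    | goto q' => simp [Act.run]
    | push i γ q' =>
      by_cases hji : j = i
      · subst hji; simp [Act.run]
      · simp [Act.run, Function.update_of_ne hji]
    | pop i f =>
      by_cases hji : j = i
      · subst hji; simp [Act.run]; omega
      · simp [Act.run, Function.update_of_ne hji]

theorem SM.iter_length (D : SM) (n : ℕ) (c : D.Cf) (j : D.ι) :
    ((D.step^[n] c).2 j).length ≤ (c.2 j).length + n := by
  induction n with
  | zero => simp
  | succ n ih =>
    rw [Function.iterate_succ_apply']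
    have := D.step_length (D.step^[n] c) j
    omega

/-! ### Structured programs -/

/-- Structured programs over finite control `V` and stacks `ι → List Γ`. -/
inductive Prog (ι Γ V : Type) : Type
  | act (f : V → Act ι Γ V)
  | seq (p q : Prog ι Γ V)
  | ite (c : V → Prop) (p q : Prog ι Γ V)
  | loop (c : V → Prop) (p : Prog ι Γ V)

/-- Big-step semantics with a time bound. -/
inductive Exec {ι Γ V : Type} [DecidableEq ι] :
    Prog ι Γ V → V × (ι → List Γ) → V × (ι → List Γ) → ℕ → Prop
  | act (f : V → Act ι Γ V) (σ : V × (ι → List Γ)) : Exec (.act f) σ ((f σ.1).run σ.2) 1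
  | seq {p q : Prog ι Γ V} {σ σ' σ'' : V × (ι → List Γ)} {m n : ℕ} :
      Exec p σ σ' m → Exec q σ' σ'' n → Exec (.seq p q) σ σ'' (m + n)
  | iteT {c : V → Prop} {p q : Prog ι Γ V} {σ σ' : V × (ι → List Γ)} {n : ℕ} :
      c σ.1 → Exec p σ σ' n → Exec (.ite c p q) σ σ' (n + 1)
  | iteF {c : V → Prop} {p q : Prog ι Γ V} {σ σ' : V × (ι → List Γ)} {n : ℕ} :
      ¬ c σ.1 → Exec q σ σ' n → Exec (.ite c p q) σ σ' (n + 1)
  | loopF {c : V → Prop} {p : Prog ι Γ V} {σ : V × (ι → List Γ)} :
      ¬ c σ.1 → Exec (.loop c p) σ σ 1
  | loopT {c : V → Prop} {p : Prog ι Γ V} {σ σ' σ'' : V × (ι → List Γ)} {m n : ℕ} :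
      c σ.1 → Exec p σ σ' m → Exec (.loop c p) σ' σ'' n → Exec (.loop c p) σ σ'' (m + n + 1)
  | weak {p : Prog ι Γ V} {σ σ' : V × (ι → List Γ)} {m n : ℕ} :
      Exec p σ σ' m → m ≤ n → Exec p σ σ' n

/-! ### Rule systems (transcripts checked column by column) -/

/-- A field: a word to pop and a word to push. -/
abbrev Field : Type := List Bool × List Bool

/-- A rule: one field per column. -/
abbrev Rule : Type := List Field

/-- Column `j` of a transcript. -/
def col (ρs : List Rule) (j : ℕ) : List Field := ρs.map fun ρ => ρ.getD j ([], [])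

/-- Run one column on one binary stack; `none` if a pop does not match. -/
def runCol : List Field → List Bool → Option (List Bool)
  | [], s => some s
  | f :: fs, s => if f.1 <+: s then runCol fs (f.2 ++ s.drop f.1.length) else none

/-- Initial content of column `j`. -/
def initB (x : List Bool) : ℕ → List Bool
  | 0 => [false]
  | 1 => (x.flatMap fun b => [true, b]) ++ [false, false]
  | _ + 2 => [false, false]

/-- All columns run, and column `0` ends empty. -/
def Valid (x : List Bool) (ρs : List Rule) : Prop :=
  (∀ j, runCol (col ρs j) (initB x j) ≠ none) ∧ runCol (col ρs 0) (initB x 0) = some []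

/-- Shape of the diagonal inputs: `1^z 0 e 1^(j+1)`. -/
def mkX (z : ℕ) (e : List Bool) (j : ℕ) : List Bool :=
  List.replicate z true ++ false :: (e ++ List.replicate (j + 1) true)

/-- Number of leading ones. -/
def lead (x : List Bool) : ℕ := (x.takeWhile fun b => b).length

theorem lead_mkX (z : ℕ) (e : List Bool) (j : ℕ) : lead (mkX z e j) = z := by
  induction z with
  | zero => simp [lead, mkX]
  | succ z ih => simp [lead, mkX, List.replicate_succ]

theorem length_mkX (z : ℕ) (e : List Bool) (j : ℕ) :
    (mkX z e j).length = z + e.length + j + 2 := by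
  simp [mkX]; omega

/-! ### The reference verifier -/

/-- An item of an item stack: unknown, a block of zeros, or a known word. -/
inductive Item (Γ : Type) : Type
  | unk
  | zer
  | full (l : List Γ)

/-- The record of one time block of `E`: state at the end, number of full blocks pushed on each
stack, and optional claims on the contents of the two items popped from each stack. -/
structure Rec (E : SM) where
  qe : E.Q
  mv : E.ι → Fin 3
  cp : E.ι → Option (List E.Γ)
  cb : E.ι → Option (List E.Γ)

/-- State of the verifier between two records. -/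
structure VSt (E : SM) where
  q : E.Q
  its : E.ι → List (Item E.Γ)

/-- A claim is compatible with an item. -/
def Item.Ok {Γ : Type} : Item Γ → Option (List Γ) → Prop
  | .unk, _ => True
  | .zer, c => c = none
  | .full l, c => c = none ∨ c = some l

/-- Content of a slot, when known (`z` is the block of zeros). -/
def Item.val {Γ : Type} (z : List Γ) : Item Γ → Option (List Γ) → Option (List Γ)
  | .unk, c => c
  | .zer, _ => some z
  | .full l, _ => some l

/-- Cut `m` blocks of length `b` from the bottom of `l`; the rest is the first piece. -/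
def cutL {Γ : Type} (b : ℕ) : ℕ → List Γ → List (List Γ)
  | 0, l => [l]
  | m + 1, l => cutL b m (l.take (l.length - b)) ++ [l.drop (l.length - b)]

/-- First and second item of an item stack (an absent item is the empty word). -/
def VSt.itP {E : SM} (s : VSt E) (j : E.ι) : Item E.Γ := (s.its j).headD (.full [])

def VSt.itB {E : SM} (s : VSt E) (j : E.ι) : Item E.Γ := (s.its j).tail.headD (.full [])

/-- The block of zeros. -/
def SM.zeros (E : SM) (b : ℕ) : List E.Γ := List.replicate b (E.inp false)

/-- Configuration of `E` after `b` steps from the two popped items. -/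
def VSt.sim {E : SM} (b : ℕ) (r : Rec E) (s : VSt E) : E.Cf :=
  E.step^[b] (s.q, fun j => ((s.itP j).val (E.zeros b) (r.cp j)).getD [] ++
    ((s.itB j).val (E.zeros b) (r.cb j)).getD [])

open Classical in
/-- Process one record; `a` says whether the block is simulated; `none` means: refuted. -/
noncomputable def vstep {E : SM} (b : ℕ) (a : Bool) (r : Rec E) (s : VSt E) : Option (VSt E) :=
  if ∀ j, (s.itP j).Ok (r.cp j) ∧ (s.itB j).Ok (r.cb j) then
    if a = true then
      if (∀ j, (s.itP j).val (E.zeros b) (r.cp j) ≠ none ∧
            (s.itB j).val (E.zeros b) (r.cb j) ≠ none) ∧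
          (s.sim b r).1 = r.qe ∧
          ∀ j, (r.mv j : ℕ) * b ≤ ((s.sim b r).2 j).length ∧
            ((s.sim b r).2 j).length < ((r.mv j : ℕ) + 1) * b then
        some ⟨r.qe, fun j =>
          (cutL b (r.mv j) ((s.sim b r).2 j)).map Item.full ++ (s.its j).drop 2⟩
      else none
    else some ⟨r.qe, fun j => List.replicate ((r.mv j : ℕ) + 1) Item.unk ++ (s.its j).drop 2⟩
  else none

/-- Process a list of records; `a i` is the bit of the `i`-th record. -/
noncomputable def vrun {E : SM} (b : ℕ) : List (Rec E) → (ℕ → Bool) → VSt E → Option (VSt E)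
  | [], _, s => some s
  | r :: rs, a, s => (vstep b (a 0) r s).bind (vrun b rs fun i => a (i + 1))

/-- Initial state for the input `x 0^(lead x * |x|)` of `E`. -/
def vinit (E : SM) (x : List Bool) : VSt E where
  q := E.start
  its := fun j => if j = E.in0 then
    Item.full [] :: Item.full (x.map E.inp) :: List.replicate (lead x) Item.zer else []

/-- Which blocks are simulated in run `d`: those of row `d`, and block `d`. -/
def abit (rows : List (List Bool)) (d : ℕ) (τ : ℕ) : Bool :=
  (rows.getD d []).getD τ false || decide (τ = d)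

/-- Number of simulated blocks in run `d`. -/
def numA (rows : List (List Bool)) (len d : ℕ) : ℕ :=
  ((Finset.range len).filter fun τ => abit rows d τ = true).card

open Classical in
/-- Result of run `d`: `true` if the claimed rejecting computation is refuted. -/
noncomputable def ref (E : SM) (x : List Bool) (rows : List (List Bool)) (recs : List (Rec E))
    (d : ℕ) : Bool :=
  match vrun x.length recs (abit rows d) (vinit E x) with
  | none => true
  | some s => decide (E.out s.q ≠ some false)

def Rec.size {E : SM} (r : Rec E) : ℕ :=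
  1 + ∑ j, (((r.cp j).getD []).length + ((r.cb j).getD []).length)

/-- Size of a certificate. -/
def vsize {E : SM} (rows : List (List Bool)) (recs : List (Rec E)) : ℕ :=
  (rows.map fun l => l.length + 1).sum + (recs.map Rec.size).sum

/-! ### Segregators -/

/-- `G` is a graph on `0, ..., N - 1` with forward edges `(σ, τ, j)` on pages `j`, total degree at
most `d`, and no two edges of one page cross. -/
structure PageGraph {κ : Type} (d N : ℕ) (G : Finset (ℕ × ℕ × κ)) : Prop where
  fwd : ∀ e ∈ G, e.1 < e.2.1 ∧ e.2.1 < N
  deg : ∀ v, (G.filter fun e => e.1 = v ∨ e.2.1 = v).card ≤ d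
  noncross : ∀ e ∈ G, ∀ e' ∈ G, e.2.2 = e'.2.2 →
    ¬ (e.1 < e'.1 ∧ e'.1 < e.2.1 ∧ e.2.1 < e'.2.1)

/-- Every such graph has a cut of at most `P` edges after which every vertex has at most `P`
ancestors. -/
def SegAt (κ : Type) (d N P : ℕ) : Prop :=
  ∀ G : Finset (ℕ × ℕ × κ), PageGraph d N G →
    ∃ C ⊆ G, C.card ≤ P ∧ ∀ τ < N, ∃ A : Finset ℕ, τ ∈ A ∧ A.card ≤ P ∧
      ∀ e ∈ G, e ∉ C → e.2.1 ∈ A → e.1 ∈ A

/-- Level of the least dyadic interval that contains both `s` and `t`. -/
noncomputable def lev (s t : ℕ) : ℕ := sInf {h | s / 2 ^ h = t / 2 ^ h}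

theorem same_mono {s t h h' : ℕ} (H : s / 2 ^ h = t / 2 ^ h) (hh : h ≤ h') :
    s / 2 ^ h' = t / 2 ^ h' := by
  obtain ⟨k, rfl⟩ := Nat.exists_eq_add_of_le hh
  rw [pow_add, ← Nat.div_div_eq_div_mul, ← Nat.div_div_eq_div_mul, H]

theorem lev_spec (s t : ℕ) : s / 2 ^ lev s t = t / 2 ^ lev s t := by
  have : ({h | s / 2 ^ h = t / 2 ^ h} : Set ℕ).Nonempty := ⟨s + t, by
    have h1 : s + t < 2 ^ (s + t) := Nat.lt_two_pow_self
    show s / 2 ^ (s + t) = t / 2 ^ (s + t)
    rw [Nat.div_eq_of_lt (by omega), Nat.div_eq_of_lt (by omega)]⟩
  exact Nat.sInf_mem this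

theorem lev_le_iff {s t h : ℕ} : lev s t ≤ h ↔ s / 2 ^ h = t / 2 ^ h :=
  ⟨fun H => same_mono (lev_spec s t) H, fun H => Nat.sInf_le H⟩

end Pool.Agent.MP_8c2300_lc.PP
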