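import Mathlib.Analysis.SpecialFunctions.Log.Basic
import Pool.Agent.MP_8c2300_lc.pp.Mach

/-! PROJECT PPST: module statements.  Proofs on paper are in the blueprint. -/

namespace Pool.Agent.MP_8c2300_lc.PP

open Finset

/-! ### Machines -/

/-- COMPILE: a program is a stack machine (same time). -/
def CompileStmt : Prop :=
  ∀ (ι Γ V : Type) [Fintype ι] [DecidableEq ι] [Finite Γ] [Finite V] (i0 i1 : ι), i0 ≠ i1 →
    ∀ inp : Bool → Γ, Function.Injective inp → ∀ (p : Prog ι Γ V) (v0 : V) (o : V → Bool),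
      ∃ D : SM, ∀ (x y : List Bool) (v : V) (S : ι → List Γ) (n : ℕ),
        Exec p (v0, initS i0 i1 (x.map inp) (y.map inp)) (v, S) n → D.Halts x y n (o v)

/-- TMSM: a deterministic Turing machine is simulated by a stack machine in linear time. -/
def TmSmStmt : Prop :=
  ∀ (M : TM) (t : ℕ → ℕ), M.Det → M.Bounded t →
    ∃ (E : SM) (C : ℕ), ∀ x : List Bool, ∃ r : Bool,
      E.Halts x [] (C * (t x.length + 1)) r ∧ (r = true ↔ M.Accepts x)

/-- `L` is accepted by a nondeterministic Turing machine in linear time. -/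
def NLin (L : Set (List Bool)) : Prop :=
  ∃ (M : TM) (c : ℕ), M.Bounded (fun n => c * n + c) ∧ ∀ x, M.Accepts x ↔ x ∈ L

/-- SMTM: guess the second input and run a linear time stack machine. -/
def SmTmStmt : Prop :=
  ∀ (D : SM) (C : ℕ),
    (∀ w g : List Bool, g.length ≤ w.length → ∃ r, D.Halts w g (C * (w.length + 1)) r) →
      NLin {w | ∃ g : List Bool, g.length ≤ w.length ∧ D.Halts w g (C * (w.length + 1)) true}

/-- CLOCK: run `D` for exactly `c (|w| + 1)` steps and answer. -/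
def ClockStmt : Prop :=
  ∀ (D : SM) (c : ℕ) (o : Option Bool → Bool), ∃ (D' : SM) (C : ℕ), ∀ w g : List Bool,
    D'.Halts w g (C * (w.length + 1)) (o (D.outAt w g (c * (w.length + 1))))

/-- NPROG: encode the first input, put it in front of the second, run `E`, negate. -/
def NStmt : Prop :=
  ∀ (E : SM) (cd : Bool → List Bool) (ce : List Bool), ∃ (D : SM) (C : ℕ),
    ∀ (x y : List Bool) (n : ℕ) (r : Bool), E.Halts (x.flatMap cd ++ ce ++ y) [] n r →
      D.Halts x y (C * (x.length + y.length + n + 1)) (!r)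

/-- RULES: accepting computations of a stack machine (second input guessed) are the valid
transcripts of a finite table of rules. -/
def RulesStmt : Prop :=
  ∀ D : SM, ∃ tab : List Rule, ∀ x : List Bool,
    (∀ (y : List Bool) (n : ℕ), D.Halts x y n true →
      ∃ ρs : List Rule, (∀ ρ ∈ ρs, ρ ∈ tab) ∧ ρs.length ≤ n + y.length + 2 ∧ Valid x ρs) ∧
    (∀ ρs : List Rule, (∀ ρ ∈ ρs, ρ ∈ tab ∨ ρ = []) → Valid x ρs →
      ∃ (y : List Bool) (n : ℕ), D.Halts x y n true)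

/-- UPROG: a universal checker of transcripts. -/
def UStmt : Prop :=
  ∃ (D : SM) (enc : List Rule → List Bool) (C : ℕ), ∀ tab : List Rule, ∃ K : ℕ,
    ∀ (z j p : ℕ) (x w : List Bool), x = mkX z (enc tab) j → w = x ++ List.replicate p false →
      (∀ ρs : List Rule, (∀ ρ ∈ ρs, ρ ∈ tab) → Valid x ρs → K * (ρs.length + 1) ≤ w.length →
        ∃ g : List Bool, g.length ≤ w.length ∧ D.Halts w g (C * (w.length + 1)) true) ∧
      (∀ (g : List Bool) (n : ℕ), D.Halts w g n true →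
        ∃ ρs : List Rule, (∀ ρ ∈ ρs, ρ ∈ tab ∨ ρ = []) ∧ Valid x ρs)

/-- VIMPL: a stack machine computes `ref`. -/
def VStmt : Prop :=
  ∀ E : SM, ∃ (D : SM) (cd : Bool → List Bool) (ce : List Bool)
    (enc : List (List Bool) → List (Rec E) → List Bool) (C : ℕ),
    (∀ rows recs, (enc rows recs).length ≤ C * (vsize rows recs + 1)) ∧
    (∀ x y : List Bool, x ≠ [] → ∃ (rows : List (List Bool)) (recs : List (Rec E)),
      recs.length ≤ y.length ∧ ∀ g : List Bool, ∃ n,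
        D.Halts (x.flatMap cd ++ ce ++ y) g n (ref E x rows recs g.length)) ∧
    (∀ (x : List Bool) (rows : List (List Bool)) (recs : List (Rec E)) (p : ℕ) (w g : List Bool),
      x ≠ [] → w = x.flatMap cd ++ ce ++ (enc rows recs ++ List.replicate p false) →
        D.Halts w g
          (C * (w.length + g.length + 1 + x.length * numA rows recs.length g.length))
          (ref E x rows recs g.length))

/-- VC: if `E` accepts, every certificate is refuted in some run. -/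
def VcStmt : Prop :=
  ∀ (E : SM) (x : List Bool) (rows : List (List Bool)) (recs : List (Rec E)) (n : ℕ), x ≠ [] →
    E.Halts (x ++ List.replicate (lead x * x.length) false) [] n true →
      ∃ d ≤ recs.length, ref E x rows recs d = true

/-- VS: if `E` rejects, there is a small certificate that is never refuted. -/
def VsStmt : Prop :=
  ∀ (E : SM) (x : List Bool) (N P : ℕ), x ≠ [] →
    E.Halts (x ++ List.replicate (lead x * x.length) false) [] (N * x.length) false →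
    SegAt E.ι (5 * Fintype.card E.ι) N P →
      ∃ (rows : List (List Bool)) (recs : List (Rec E)),
        (∀ d, ref E x rows recs d = false) ∧ (∀ d, numA rows recs.length d ≤ P) ∧
          vsize rows recs ≤ N * (N + 2) + 2 * P * x.length

/-! ### Segregators -/

open Classical in
/-- HOLE: few points avoid the holes of many active dyadic nodes. -/
def HoleStmt : Prop :=
  ∀ (b q M H : ℕ) (act : ℕ → ℕ → Prop) (hole : ℕ → ℕ → ℕ), 1 ≤ b → H ≤ M →
    (∀ h x, act h x → b ≤ h ∧ hole h x / 2 ^ b = x) →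
      ((range (2 ^ M)).filter fun z =>
          (∀ h < H, act h (z / 2 ^ h) → z / 2 ^ (h - b) ≠ hole h (z / 2 ^ h)) ∧
            b * q ≤ ((range H).filter fun h => act h (z / 2 ^ h)).card).card * (2 ^ b) ^ q ≤
        b * (2 ^ b - 1) ^ q * 2 ^ M

open Classical in
/-- EPOCH: cutting few edges bounds the length of all descending chains. -/
def EpochStmt : Prop :=
  ∀ (κ ι : Type) [Fintype κ] (ε : Finset ι) (s t lv : ι → ℕ) (pg : ι → κ)
    (act : κ → ℕ → ℕ → Prop) (w r : ℕ), 1 ≤ r →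
    (∀ e ∈ ε, s e / 2 ^ lv e = t e / 2 ^ lv e ∧ act (pg e) (lv e) (s e / 2 ^ lv e)) →
    (∀ e ∈ ε, ∀ z, z = s e ∨ z = t e →
      ((range (lv e)).filter fun h => act (pg e) h (z / 2 ^ h)).card ≤ w) →
      ∃ C ⊆ ε, C.card * r ≤ 2 ^ (Fintype.card κ + 1) * (w + 1) * ε.card ∧ ∃ rank : ι → ℕ,
        (∀ e ∈ ε, e ∉ C → rank e < (r + 1) ^ Fintype.card κ) ∧
        ∀ e ∈ ε, e ∉ C → ∀ e' ∈ ε, e' ∉ C → lv e' < lv e →
          (s e / 2 ^ lv e' = s e' / 2 ^ lv e' ∨ t e / 2 ^ lv e' = s e' / 2 ^ lv e') →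
            rank e' < rank e

/-- PATH: bounded rank and bounded in-degree give few ancestors. -/
def PathStmt : Prop :=
  ∀ (ι : Type) (ε : Finset ι) (s t rank : ι → ℕ) (R d' : ℕ),
    (∀ e ∈ ε, s e < t e ∧ rank e < R) →
    (∀ e ∈ ε, ∀ e' ∈ ε, lev (s e') (t e') < lev (s e) (t e) →
      (s e / 2 ^ lev (s e') (t e') = s e' / 2 ^ lev (s e') (t e') ∨
        t e / 2 ^ lev (s e') (t e') = s e' / 2 ^ lev (s e') (t e')) → rank e' < rank e) →
    (∀ z, ((ε.filter fun e => t e = z).image s).card ≤ d') →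
      ∀ z, ∃ A : Finset ℕ, z ∈ A ∧ A.card ≤ (d' + 1) ^ 2 ^ R ∧ ∀ e ∈ ε, t e ∈ A → s e ∈ A

/-- CORE: the graph of long good edges between segments. -/
def CoreStmt : Prop :=
  ∀ (κ ι : Type) [Fintype κ] (ε : Finset ι) (s t : ι → ℕ) (pg : ι → κ)
    (M i0 b q r d' Δ : ℕ), 1 ≤ b → 1 ≤ r → 1 ≤ d' → i0 + b ≤ M →
    (∀ e ∈ ε, s e < t e ∧ t e < 2 ^ M ∧ M < lev (s e) (t e) + i0 ∧
      s e + 2 * 2 ^ (lev (s e) (t e) - b) ≤ t e) →
    (∀ z, (ε.filter fun e => s e = z ∨ t e = z).card ≤ Δ) →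
    (∀ e ∈ ε, ∀ e' ∈ ε, pg e = pg e' → ¬ (s e < s e' ∧ s e' < t e ∧ t e < t e')) →
      ∃ C ⊆ ε,
        (C.card : ℝ) ≤ 2 ^ (Fintype.card κ + 1) * (b * q + 1) / r * ε.card +
          Δ * 2 ^ M * (Fintype.card κ * i0 * (b * (1 - 1 / 2 ^ b) ^ q + 1 / d')) ∧
        ∀ z, ∃ A : Finset ℕ, z ∈ A ∧ A.card ≤ (d' + 1) ^ 2 ^ (r + 1) ^ Fintype.card κ ∧
          ∀ e ∈ ε, e ∉ C → t e ∈ A → s e ∈ A

/-- OUTER: shift, windows, segments. -/
def SegParStmt : Prop :=
  ∀ (κ : Type) [Fintype κ] (d N P m W b : ℕ) (i q r d' : ℕ → ℕ),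
    N ≤ 2 ^ m → 1 ≤ W → 2 ≤ b → i W ≤ m + 1 →
    (∀ u < W, i u + b ≤ i (u + 1) ∧ 1 ≤ r u ∧ 1 ≤ d' u ∧
      (8 / 2 ^ b + 1 / W + 2 ^ (Fintype.card κ + 1) * (b * q u + 1) / r u : ℝ) * (d * N) +
          d * 2 ^ (m + 1) * (Fintype.card κ * i u * (b * (1 - 1 / 2 ^ b) ^ q u + 1 / d' u)) ≤ P ∧
      (d' u + 1) ^ 2 ^ (r u + 1) ^ Fintype.card κ * 2 ^ (m + 1 - i (u + 1)) ≤ P) →
      SegAt κ d N P

/-- NUM: the segregator theorem. -/
def SegStmt : Prop :=
  ∀ (κ : Type) [Fintype κ] (d : ℕ), ∃ K c : ℕ, ∀ W N P : ℕ,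
    2 ^ 2 ^ 2 ^ K ^ W ≤ N → c * N ≤ P * W → SegAt κ d N P

/-! ### The theorem -/

/-- The final statement. -/
def MainStmt : Prop :=
  ∃ L : Set (List Bool),
    (∃ (M : TM) (c : ℕ), M.Bounded (fun n => c * n + c) ∧ ∀ x, M.Accepts x ↔ x ∈ L) ∧
    ∀ (M : TM) (t : ℕ → ℕ), M.Det → M.Bounded t → (∀ x, M.Accepts x ↔ x ∈ L) →
      ¬ (fun n : ℕ => (t n : ℝ)) =o[Filter.atTop]
        fun n : ℕ => (n : ℝ) * √(Real.log (Real.log (Real.log (Real.log n))))

end Pool.Agent.MP_8c2300_lc.PP
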