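import Mathlib.Tactic.Monotonicity.Lemmas
import Mathlib.Algebra.Order.Ring.Star
import Mathlib.Combinatorics.Pigeonhole
import Pool.Agent.MP_8c2300_lc.pp.Spec

/-! PROJECT PPST, modules HOLE and PATH (dyadic counting). -/

namespace Pool.Agent.MP_8c2300_lc.PP

open Finset

namespace Hole

theorem sum_range_mul (f : ℕ → ℝ) (B K : ℕ) :
    ∑ i ∈ range (B * K), f i = ∑ a ∈ range B, ∑ c ∈ range K, f (a * K + c) := by
  induction B with
  | zero => simp
  | succ B ih => rw [Nat.succ_mul, Finset.sum_range_add, ih, Finset.sum_range_succ]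

open Classical in
/-- The factor contributed by level `h`. -/
noncomputable def g (b : ℕ) (act : ℕ → ℕ → Prop) (hole : ℕ → ℕ → ℕ) (β : ℝ) (h z : ℕ) : ℝ :=
  if act h (z / 2 ^ h) then (if z / 2 ^ (h - b) = hole h (z / 2 ^ h) then 0 else β) else 1

/-- The weight of a point: the product of the factors of the levels `ρ + b, ..., ρ + n b`. -/
noncomputable def w (b : ℕ) (act : ℕ → ℕ → Prop) (hole : ℕ → ℕ → ℕ) (β : ℝ) (ρ n z : ℕ) : ℝ :=
  ∏ j ∈ range n, g b act hole β (ρ + (j + 1) * b) z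

variable {b : ℕ} {act : ℕ → ℕ → Prop} {hole : ℕ → ℕ → ℕ} {β : ℝ}

theorem g_nonneg (hβ : 0 ≤ β) (h z : ℕ) : 0 ≤ g b act hole β h z := by
  unfold g
  split_ifs <;> simp [hβ]

theorem w_nonneg (hβ : 0 ≤ β) (ρ n z : ℕ) : 0 ≤ w b act hole β ρ n z :=
  Finset.prod_nonneg fun _ _ => g_nonneg hβ _ _

theorem sum_hole (B x y : ℕ) (hB : 0 < B) (hy : y / B = x) (hβ : ((B : ℝ) - 1) * β = B) :
    ∑ a ∈ range B, (if x * B + a = y then (0 : ℝ) else β) = B := by
  have h1 : y % B ∈ range B := mem_range.2 (Nat.mod_lt _ hB)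
  have h2 : x * B + y % B = y := by
    rw [← hy, Nat.mul_comm]; exact Nat.div_add_mod y B
  rw [← Finset.add_sum_erase _ _ h1, if_pos h2, zero_add]
  rw [Finset.sum_congr rfl (g := fun _ => β)]
  · rw [Finset.sum_const, Finset.card_erase_of_mem h1, card_range, nsmul_eq_mul,
      Nat.cast_sub hB]
    simpa using hβ
  · intro a ha
    have := (mem_erase.1 ha).1
    rw [if_neg]
    omega

theorem block (hβ0 : 0 ≤ β) (hβ : (((2 ^ b : ℕ) : ℝ) - 1) * β = (2 ^ b : ℕ))
    (hh : ∀ h x, act h x → hole h x / 2 ^ b = x) (ρ n : ℕ) : ∀ x : ℕ,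
    ∑ c ∈ range (2 ^ (ρ + n * b)), w b act hole β ρ n (x * 2 ^ (ρ + n * b) + c) ≤
      (2 ^ (ρ + n * b) : ℕ) := by
  induction n with
  | zero => intro x; simp [w]
  | succ n ih =>
    intro x
    have hK : 0 < 2 ^ (ρ + n * b) := Nat.two_pow_pos _
    have hB : 0 < 2 ^ b := Nat.two_pow_pos _
    have e1 : 2 ^ (ρ + (n + 1) * b) = 2 ^ b * 2 ^ (ρ + n * b) := by
      rw [← pow_add]; congr 1; ring
    have e2 : ρ + (n + 1) * b - b = ρ + n * b := by
      rw [Nat.succ_mul]; omega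
    classical
    have key : ∀ a ∈ range (2 ^ b), ∀ c ∈ range (2 ^ (ρ + n * b)),
        w b act hole β ρ (n + 1) (x * 2 ^ (ρ + (n + 1) * b) + (a * 2 ^ (ρ + n * b) + c)) =
          w b act hole β ρ n ((x * 2 ^ b + a) * 2 ^ (ρ + n * b) + c) *
            (if act (ρ + (n + 1) * b) x then
              (if x * 2 ^ b + a = hole (ρ + (n + 1) * b) x then 0 else β) else 1) := by
      intro a ha c hc
      have ha' := mem_range.1 ha
      have hc' := mem_range.1 hc
      have e3 : x * 2 ^ (ρ + (n + 1) * b) + (a * 2 ^ (ρ + n * b) + c) =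
          (x * 2 ^ b + a) * 2 ^ (ρ + n * b) + c := by
        rw [e1]; ring
      have e4 : ((x * 2 ^ b + a) * 2 ^ (ρ + n * b) + c) / 2 ^ (ρ + n * b) = x * 2 ^ b + a := by
        rw [Nat.add_comm, Nat.add_mul_div_right _ _ hK, Nat.div_eq_of_lt hc', zero_add]
      have e5 : ((x * 2 ^ b + a) * 2 ^ (ρ + n * b) + c) / 2 ^ (ρ + (n + 1) * b) = x := by
        rw [e1, Nat.mul_comm (2 ^ b), ← Nat.div_div_eq_div_mul, e4, Nat.add_comm,
          Nat.add_mul_div_right _ _ hB, Nat.div_eq_of_lt ha', zero_add]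
      rw [e3]
      unfold w
      rw [Finset.prod_range_succ]
      congr 1
      unfold g
      rw [e2, e4, e5]
    calc ∑ c ∈ range (2 ^ (ρ + (n + 1) * b)),
          w b act hole β ρ (n + 1) (x * 2 ^ (ρ + (n + 1) * b) + c)
        = ∑ a ∈ range (2 ^ b), ∑ c ∈ range (2 ^ (ρ + n * b)),
            w b act hole β ρ (n + 1)
              (x * 2 ^ (ρ + (n + 1) * b) + (a * 2 ^ (ρ + n * b) + c)) := by
          rw [← sum_range_mul (fun i => w b act hole β ρ (n + 1)
            (x * 2 ^ (ρ + (n + 1) * b) + i)), ← e1]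
      _ ≤ ∑ a ∈ range (2 ^ b), ((2 ^ (ρ + n * b) : ℕ) : ℝ) *
            (if act (ρ + (n + 1) * b) x then
              (if x * 2 ^ b + a = hole (ρ + (n + 1) * b) x then 0 else β) else 1) := by
          refine Finset.sum_le_sum fun a ha => ?_
          rw [Finset.sum_congr rfl (key a ha), ← Finset.sum_mul]
          refine mul_le_mul_of_nonneg_right (ih _) ?_
          split_ifs <;> simp [hβ0]
      _ = (2 ^ (ρ + (n + 1) * b) : ℕ) := by
          rw [← Finset.mul_sum, e1]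
          by_cases ha : act (ρ + (n + 1) * b) x
          · simp only [if_pos ha]
            rw [sum_hole _ _ _ hB (hh _ _ ha) hβ]
            push_cast; ring
          · simp only [if_neg ha]
            simp [mul_comm]

theorem top (hβ0 : 0 ≤ β) (hβ : (((2 ^ b : ℕ) : ℝ) - 1) * β = (2 ^ b : ℕ))
    (hh : ∀ h x, act h x → hole h x / 2 ^ b = x) (ρ M : ℕ) :
    ∑ z ∈ range (2 ^ M), w b act hole β ρ ((M - ρ) / b) z ≤ (2 ^ M : ℕ) := by
  by_cases hρ : ρ ≤ M
  · have h1 : ρ + (M - ρ) / b * b ≤ M := by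
      have := Nat.div_mul_le_self (M - ρ) b
      omega
    obtain ⟨k, hk⟩ := Nat.exists_eq_add_of_le h1
    have e : 2 ^ M = 2 ^ k * 2 ^ (ρ + (M - ρ) / b * b) := by
      rw [← pow_add]; congr 1; omega
    generalize (M - ρ) / b = n at e ⊢
    rw [e, sum_range_mul]
    refine (Finset.sum_le_sum fun a _ => block hβ0 hβ hh ρ n a).trans ?_
    simp
  · have : M - ρ = 0 := by omega
    simp [this, w]

open Classical in
theorem low (hβ1 : 1 ≤ β) (hb : 1 ≤ b) {H M q ρ z : ℕ} (hH : H ≤ M)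
    (h1 : ∀ h x, act h x → b ≤ h ∧ h < H)
    (h2 : ∀ h, act h (z / 2 ^ h) → z / 2 ^ (h - b) ≠ hole h (z / 2 ^ h))
    (h3 : q ≤ (((range H).filter fun h => act h (z / 2 ^ h)).filter fun h => h % b = ρ).card) :
    β ^ q ≤ w b act hole β ρ ((M - ρ) / b) z := by
  have e : w b act hole β ρ ((M - ρ) / b) z =
      β ^ ((range ((M - ρ) / b)).filter fun j =>
        act (ρ + (j + 1) * b) (z / 2 ^ (ρ + (j + 1) * b))).card := by
    unfold w
    rw [← Finset.prod_const, Finset.prod_filter]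
    refine Finset.prod_congr rfl fun j _ => ?_
    unfold g
    by_cases ha : act (ρ + (j + 1) * b) (z / 2 ^ (ρ + (j + 1) * b))
    · rw [if_pos ha, if_pos ha, if_neg (h2 _ ha)]
    · rw [if_neg ha, if_neg ha]
  rw [e]
  refine pow_le_pow_right₀ hβ1 (h3.trans ?_)
  have aux : ∀ h, b ≤ h → h % b = ρ → ρ + (h / b - 1 + 1) * b = h := by
    intro h hh hr
    have h4 : 1 ≤ h / b := (Nat.one_le_div_iff hb).2 hh
    rw [Nat.sub_add_cancel h4, ← hr, Nat.mul_comm]
    exact Nat.mod_add_div h b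
  refine Finset.card_le_card_of_injOn (fun h => h / b - 1) ?_ ?_
  · intro h hh
    simp only [coe_filter, mem_filter, mem_range, Set.mem_ofPred_eq] at hh ⊢
    obtain ⟨⟨_, ha⟩, hr⟩ := hh
    obtain ⟨h5, h6⟩ := h1 _ _ ha
    have h7 := aux h h5 hr
    refine ⟨?_, by rw [h7]; exact ha⟩
    rw [Nat.lt_iff_add_one_le, Nat.le_div_iff_mul_le hb]
    omega
  · intro h hh h' hh' he
    simp only [coe_filter, mem_filter, mem_range, Set.mem_ofPred_eq] at hh hh' he
    have h7 := aux h (h1 _ _ hh.1.2).1 hh.2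
    have h8 := aux h' (h1 _ _ hh'.1.2).1 hh'.2
    rw [← h7, ← h8, he]

end Hole

open Hole in
theorem hole : HoleStmt := by
  classical
  intro b q M H act hole hb hH hact
  set act' : ℕ → ℕ → Prop := fun h x => act h x ∧ h < H with hact'
  have hB : (2 : ℝ) ≤ ((2 ^ b : ℕ) : ℝ) := by
    have : 2 ^ 1 ≤ 2 ^ b := Nat.pow_le_pow_right (by norm_num) hb
    exact_mod_cast this
  set B : ℝ := ((2 ^ b : ℕ) : ℝ) with hBdef
  have hB1 : 0 < B - 1 := by linarith
  set β : ℝ := B / (B - 1) with hβdef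
  have hβ : (B - 1) * β = B := by rw [hβdef]; field_simp
  have hβ1 : 1 ≤ β := by rw [hβdef, le_div_iff₀ hB1]; linarith
  have hβ0 : 0 ≤ β := by linarith
  have hh : ∀ h x, act' h x → hole h x / 2 ^ b = x := fun h x H => (hact h x H.1).2
  suffices main : ∀ Z : Finset ℕ, (∀ z ∈ Z, z ∈ range (2 ^ M) ∧
      (∀ h < H, act h (z / 2 ^ h) → z / 2 ^ (h - b) ≠ hole h (z / 2 ^ h)) ∧
        b * q ≤ ((range H).filter fun h => act h (z / 2 ^ h)).card) →
      Z.card * (2 ^ b) ^ q ≤ b * (2 ^ b - 1) ^ q * 2 ^ M from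
    main _ fun z hz => by simpa only [mem_filter] using hz
  intro Z hZ
  have hZ1 : Z ⊆ range (2 ^ M) := fun z hz => (hZ z hz).1
  have hZ2 : ∀ z ∈ Z, β ^ q ≤ ∑ ρ ∈ range b, w b act' hole β ρ ((M - ρ) / b) z := by
    intro z hz
    obtain ⟨_, hz1, hz2⟩ := hZ z hz
    have e : ((range H).filter fun h => act h (z / 2 ^ h)) =
        (range H).filter fun h => act' h (z / 2 ^ h) := by
      refine Finset.filter_congr fun h hh => ?_
      simp only [hact', mem_range.1 hh, and_true]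
    rw [e] at hz2
    obtain ⟨ρ, hρ, hq⟩ := Finset.exists_le_card_fiber_of_mul_le_card_of_maps_to
      (s := (range H).filter fun h => act' h (z / 2 ^ h)) (t := range b) (f := fun h => h % b)
      (n := q) (fun h _ => mem_range.2 (Nat.mod_lt _ hb)) ⟨0, mem_range.2 hb⟩
      (by rw [card_range]; exact hz2)
    have h1 : β ^ q ≤ w b act' hole β ρ ((M - ρ) / b) z :=
      low hβ1 hb hH (fun h x H => ⟨(hact h x H.1).1, H.2⟩) (fun h H => hz1 h H.2 H.1)
        (by convert hq)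
    exact h1.trans (Finset.single_le_sum (f := fun ρ => w b act' hole β ρ ((M - ρ) / b) z)
      (fun _ _ => w_nonneg hβ0 _ _ _) hρ)
  have h1 : (Z.card : ℝ) * β ^ q ≤ b * (2 ^ M : ℕ) := by
    calc (Z.card : ℝ) * β ^ q = ∑ _z ∈ Z, β ^ q := by simp
      _ ≤ ∑ z ∈ Z, ∑ ρ ∈ range b, w b act' hole β ρ ((M - ρ) / b) z := Finset.sum_le_sum hZ2
      _ ≤ ∑ z ∈ range (2 ^ M), ∑ ρ ∈ range b, w b act' hole β ρ ((M - ρ) / b) z :=
          Finset.sum_le_sum_of_subset_of_nonneg hZ1 fun _ _ _ =>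
            Finset.sum_nonneg fun _ _ => w_nonneg hβ0 _ _ _
      _ = ∑ ρ ∈ range b, ∑ z ∈ range (2 ^ M), w b act' hole β ρ ((M - ρ) / b) z :=
          Finset.sum_comm
      _ ≤ ∑ _ρ ∈ range b, ((2 ^ M : ℕ) : ℝ) :=
          Finset.sum_le_sum fun ρ _ => top hβ0 hβ hh ρ M
      _ = b * (2 ^ M : ℕ) := by simp
  have h2 : (Z.card : ℝ) * B ^ q ≤ b * (B - 1) ^ q * (2 ^ M : ℕ) := by
    calc (Z.card : ℝ) * B ^ q = (Z.card : ℝ) * β ^ q * (B - 1) ^ q := by
          rw [mul_assoc, ← mul_pow, mul_comm β, hβ]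
      _ ≤ b * (2 ^ M : ℕ) * (B - 1) ^ q :=
          mul_le_mul_of_nonneg_right h1 (pow_nonneg hB1.le _)
      _ = b * (B - 1) ^ q * (2 ^ M : ℕ) := by ring
  have h3 : B - 1 = ((2 ^ b - 1 : ℕ) : ℝ) := by
    rw [Nat.cast_sub (Nat.two_pow_pos b), hBdef, Nat.cast_one]
  rw [h3, hBdef] at h2
  exact_mod_cast h2

namespace PathAux

theorem sandwich {u v x h : ℕ} (H : u / 2 ^ h = v / 2 ^ h) (h1 : u ≤ x) (h2 : x ≤ v) :
    x / 2 ^ h = u / 2 ^ h :=
  le_antisymm (H ▸ Nat.div_le_div_right h2) (Nat.div_le_div_right h1)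

variable {ι : Type} {ε : Finset ι} {s t rank : ι → ℕ}

/-- A walk of `c - a` edges contains an edge of large rank. -/
theorem walk (hst : ∀ e ∈ ε, s e < t e)
    (hr : ∀ e ∈ ε, ∀ e' ∈ ε, lev (s e') (t e') < lev (s e) (t e) →
      (s e / 2 ^ lev (s e') (t e') = s e' / 2 ^ lev (s e') (t e') ∨
        t e / 2 ^ lev (s e') (t e') = s e' / 2 ^ lev (s e') (t e')) → rank e' < rank e)
    {n : ℕ} {x : ℕ → ℕ} (hx : ∀ i < n, ∃ e ∈ ε, s e = x i ∧ t e = x (i + 1)) :
    ∀ k a c : ℕ, c ≤ n → a < c → c - a ≤ k → ∃ e ∈ ε, x a ≤ s e ∧ t e ≤ x c ∧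
      lev (s e) (t e) = lev (x a) (x c) ∧ c - a + 1 ≤ 2 ^ (rank e + 1) := by
  have step : ∀ i < n, x i < x (i + 1) := by
    intro i hi
    obtain ⟨e, he, h1, h2⟩ := hx i hi
    rw [← h1, ← h2]; exact hst e he
  have mono : ∀ i j, i ≤ j → j ≤ n → x i ≤ x j := by
    intro i j hij hj
    induction j, hij using Nat.le_induction with
    | base => exact le_rfl
    | succ j hij ih => exact (ih (by omega)).trans (step j (by omega)).le
  intro k
  induction k with
  | zero => intro a c _ _ _; omega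
  | succ k ih =>
    intro a c hc hac hk
    have hlt : x a < x c := (step a (by omega)).trans_le (mono _ _ hac hc)
    have hL := lev_spec (x a) (x c)
    obtain ⟨l, hl⟩ : ∃ l, lev (x a) (x c) = l + 1 := by
      refine Nat.exists_eq_succ_of_ne_zero fun h0 => ?_
      rw [h0] at hL
      simp at hL
      omega
    have hne : x a / 2 ^ l ≠ x c / 2 ^ l := fun h => by
      have := lev_le_iff.2 h
      omega
    have hex : ∃ i, a ≤ i ∧ x (i + 1) / 2 ^ l ≠ x a / 2 ^ l :=
      ⟨c - 1, by omega, by rw [Nat.sub_add_cancel (by omega)]; exact hne.symm⟩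
    classical
    obtain ⟨i, ⟨hai, hi⟩, hmin⟩ : ∃ i, (a ≤ i ∧ x (i + 1) / 2 ^ l ≠ x a / 2 ^ l) ∧
        ∀ j < i, ¬ (a ≤ j ∧ x (j + 1) / 2 ^ l ≠ x a / 2 ^ l) :=
      ⟨Nat.find hex, Nat.find_spec hex, fun j hj => Nat.find_min hex hj⟩
    have hic : i < c := by
      by_contra hcon
      refine hmin (c - 1) (by omega) ⟨by omega, ?_⟩
      rw [Nat.sub_add_cancel (by omega)]; exact hne.symm
    have hleft : x i / 2 ^ l = x a / 2 ^ l := by
      rcases Nat.eq_or_lt_of_le hai with h | h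
      · rw [h]
      · by_contra hcon
        refine hmin (i - 1) (by omega) ⟨by omega, ?_⟩
        rw [Nat.sub_add_cancel (by omega)]; exact hcon
    have m1 : x a ≤ x i := mono _ _ hai (by omega)
    have m2 : x i ≤ x (i + 1) := (step i (by omega)).le
    have m3 : x (i + 1) ≤ x c := mono _ _ hic hc
    have hright : x (i + 1) / 2 ^ l = x c / 2 ^ l := by
      have h1 : x a / 2 ^ l ≤ x (i + 1) / 2 ^ l := Nat.div_le_div_right (m1.trans m2)
      have h2 : x (i + 1) / 2 ^ l ≤ x c / 2 ^ l := Nat.div_le_div_right m3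
      rw [hl, pow_succ, ← Nat.div_div_eq_div_mul, ← Nat.div_div_eq_div_mul] at hL
      omega
    obtain ⟨e, he, hs, ht⟩ := hx i (by omega)
    have hlev : lev (s e) (t e) = l + 1 := by
      rw [hs, ht]
      apply le_antisymm
      · rw [lev_le_iff, ← hl, sandwich hL m1 (m2.trans m3), sandwich hL (m1.trans m2) m3]
      · by_contra hcon
        have := (lev_le_iff (s := x i) (t := x (i + 1)) (h := l)).1 (by omega)
        exact hi (this ▸ hleft)
    have hA : i - a + 1 ≤ 2 ^ rank e := by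
      rcases Nat.eq_or_lt_of_le hai with h | h
      · have := Nat.two_pow_pos (rank e)
        omega
      · obtain ⟨e', he', h1, h2, h3, h4⟩ := ih a i (by omega) h (by omega)
        have h5 : lev (x a) (x i) ≤ l := lev_le_iff.2 hleft.symm
        have h6 := lev_spec (x a) (x i)
        have h7 : rank e' < rank e := by
          refine hr e he e' he' (by omega) (Or.inl ?_)
          rw [h3, hs, sandwich h6 h1 ((hst e' he').le.trans h2), h6]
        exact h4.trans (Nat.pow_le_pow_right (by norm_num) h7)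
    have hB : c - (i + 1) + 1 ≤ 2 ^ rank e := by
      rcases Nat.eq_or_lt_of_le (Nat.succ_le_of_lt hic) with h | h
      · have := Nat.two_pow_pos (rank e)
        omega
      · obtain ⟨e', he', h1, h2, h3, h4⟩ := ih (i + 1) c hc h (by omega)
        have h5 : lev (x (i + 1)) (x c) ≤ l := lev_le_iff.2 hright
        have h6 := lev_spec (x (i + 1)) (x c)
        have h7 : rank e' < rank e := by
          refine hr e he e' he' (by omega) (Or.inr ?_)
          rw [h3, ht, sandwich h6 h1 ((hst e' he').le.trans h2)]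
        exact h4.trans (Nat.pow_le_pow_right (by norm_num) h7)
    refine ⟨e, he, hs ▸ m1, ht ▸ m3, by rw [hlev, hl], ?_⟩
    rw [pow_succ]
    omega

/-- There is a walk of `m` edges from `u` to `z`. -/
def W (ε : Finset ι) (s t : ι → ℕ) (z m u : ℕ) : Prop :=
  ∃ x : ℕ → ℕ, x 0 = u ∧ x m = z ∧ ∀ i < m, ∃ e ∈ ε, s e = x i ∧ t e = x (i + 1)

theorem W.cons {z m : ℕ} {e : ι} (he : e ∈ ε) (h : W ε s t z m (t e)) :
    W ε s t z (m + 1) (s e) := by
  obtain ⟨x, h0, hm, hx⟩ := h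
  refine ⟨fun i => Nat.casesOn i (s e) x, rfl, hm, fun i hi => ?_⟩
  cases i with
  | zero => exact ⟨e, he, rfl, h0.symm⟩
  | succ i => exact hx i (by omega)

theorem W.tail {z m u : ℕ} (h : W ε s t z (m + 1) u) :
    ∃ e ∈ ε, s e = u ∧ W ε s t z m (t e) := by
  obtain ⟨x, h0, hm, hx⟩ := h
  obtain ⟨e, he, h1, h2⟩ := hx 0 (by omega)
  exact ⟨e, he, h1.trans h0, fun i => x (i + 1), h2.symm, hm, fun i hi => hx (i + 1) (by omega)⟩

/-- Ancestors within `n` steps. -/
def A (ε : Finset ι) (s t : ι → ℕ) (z : ℕ) : ℕ → Finset ℕ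
  | 0 => {z}
  | n + 1 => A ε s t z n ∪ (A ε s t z n).biUnion fun v => (ε.filter fun e => t e = v).image s

theorem card_A {d' : ℕ} (hd : ∀ z, ((ε.filter fun e => t e = z).image s).card ≤ d') (z n : ℕ) :
    (A ε s t z n).card ≤ (d' + 1) ^ n := by
  induction n with
  | zero => simp [A]
  | succ n ih =>
    have h1 : ((A ε s t z n).biUnion fun v => (ε.filter fun e => t e = v).image s).card ≤
        (A ε s t z n).card * d' := Finset.card_biUnion_le_card_mul _ _ _ fun v _ => hd v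
    calc (A ε s t z (n + 1)).card ≤ (A ε s t z n).card + (A ε s t z n).card * d' :=
          (Finset.card_union_le _ _).trans (Nat.add_le_add_left h1 _)
      _ = (A ε s t z n).card * (d' + 1) := by ring
      _ ≤ (d' + 1) ^ (n + 1) := by rw [pow_succ]; exact Nat.mul_le_mul_right _ ih

theorem mem_A (z n : ℕ) : ∀ u, u ∈ A ε s t z n ↔ ∃ m ≤ n, W ε s t z m u := by
  induction n with
  | zero =>
    intro u
    simp only [A, mem_singleton, Nat.le_zero, exists_eq_left]
    constructor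
    · rintro rfl
      exact ⟨fun _ => u, rfl, rfl, fun i hi => absurd hi (Nat.not_lt_zero i)⟩
    · rintro ⟨x, h0, hm, _⟩
      exact h0.symm.trans hm
  | succ n ih =>
    intro u
    simp only [A, mem_union, mem_biUnion, mem_image, mem_filter, ih]
    constructor
    · rintro (⟨m, hm, h⟩ | ⟨v, ⟨m, hm, h⟩, e, ⟨he, rfl⟩, rfl⟩)
      · exact ⟨m, by omega, h⟩
      · exact ⟨m + 1, by omega, h.cons he⟩
    · rintro ⟨m, hm, h⟩
      cases m with
      | zero => exact Or.inl ⟨0, by omega, h⟩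
      | succ m =>
        obtain ⟨e, he, h1, h2⟩ := h.tail
        exact Or.inr ⟨t e, ⟨m, by omega, h2⟩, e, ⟨he, rfl⟩, h1⟩

end PathAux

open PathAux in
theorem path : PathStmt := by
  intro ι ε s t rank R d' h1 h2 h3 z
  refine ⟨A ε s t z (2 ^ R), (mem_A z _ z).2 ⟨0, Nat.zero_le _, fun _ => z, rfl, rfl,
    fun i hi => absurd hi (Nat.not_lt_zero i)⟩, card_A h3 z _, fun e he ht => ?_⟩
  obtain ⟨m, _, h⟩ := (mem_A z _ _).1 ht
  have h' := h.cons he
  refine (mem_A z _ _).2 ⟨m + 1, ?_, h'⟩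
  obtain ⟨x, _, _, hx⟩ := h'
  obtain ⟨e', he', _, _, _, h4⟩ := walk (rank := rank) (fun e he => (h1 e he).1) h2 hx (m + 1) 0
    (m + 1) le_rfl (by omega) (by omega)
  have h5 : 2 ^ (rank e' + 1) ≤ 2 ^ R := Nat.pow_le_pow_right (by norm_num) (h1 e' he').2
  omega

end Pool.Agent.MP_8c2300_lc.PP
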