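import Mathlib.Data.Int.Star
import Mathlib.Algebra.Order.Ring.Star
import Pool.Agent.MP_8c2300_lc.pp.Spec

/-! PROJECT PPST: program primitives with their `Exec` rules.  The control of most primitives is
`W × Option Γ`: a user part `W` and a register that holds the last popped symbol. -/

namespace Pool.Agent.MP_8c2300_lc.PP

open Function

variable {ι Γ V W : Type} [DecidableEq ι]

theorem Exec.of_eq {p : Prog ι Γ V} {σ σ' σ'' : V × (ι → List Γ)} {m n : ℕ}
    (h : Exec p σ σ' m) (he : σ' = σ'') (hm : m ≤ n) : Exec p σ σ'' n :=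
  he ▸ h.weak hm

theorem Exec.seq' {p q : Prog ι Γ V} {σ σ' σ'' : V × (ι → List Γ)} {m n k : ℕ}
    (h : Exec p σ σ' m) (h' : Exec q σ' σ'' n) (hk : m + n ≤ k) : Exec (.seq p q) σ σ'' k :=
  (h.seq h').weak hk

/-! ### Single instructions -/

def skip : Prog ι Γ V := .act fun v => .goto v

def setV (f : V → V) : Prog ι Γ V := .act fun v => .goto (f v)

def pushF (i : ι) (f : V → Γ) : Prog ι Γ V := .act fun v => .push i (f v) v

def push (i : ι) (γ : Γ) : Prog ι Γ V := .act fun v => .push i γ v

/-- Programs with a register. -/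
abbrev Pr (ι Γ W : Type) : Type := Prog ι Γ (W × Option Γ)

/-- Pop stack `i` into the register. -/
def pop (i : ι) : Pr ι Γ W := .act fun v => .pop i fun o => (v.1, o)

/-- Push `f` of the register (nothing if the register is empty). -/
def pushReg (j : ι) (f : Γ → Γ) : Pr ι Γ W := .act fun v =>
  match v.2 with
  | some γ => .push j (f γ) v
  | none => .goto v

theorem exec_skip (σ : V × (ι → List Γ)) : Exec (skip : Prog ι Γ V) σ σ 1 :=
  Exec.act _ σ

theorem exec_setV (f : V → V) (v : V) (S : ι → List Γ) :
    Exec (setV f : Prog ι Γ V) (v, S) (f v, S) 1 :=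
  Exec.act _ (v, S)

theorem exec_pushF (i : ι) (f : V → Γ) (v : V) (S : ι → List Γ) :
    Exec (pushF i f) (v, S) (v, update S i (f v :: S i)) 1 :=
  Exec.act _ (v, S)

theorem exec_push (i : ι) (γ : Γ) (v : V) (S : ι → List Γ) :
    Exec (push i γ : Prog ι Γ V) (v, S) (v, update S i (γ :: S i)) 1 :=
  Exec.act _ (v, S)

theorem exec_pop (i : ι) (w : W) (r : Option Γ) (S : ι → List Γ) :
    Exec (pop i : Pr ι Γ W) ((w, r), S) ((w, (S i).head?), update S i (S i).tail) 1 :=
  Exec.act _ ((w, r), S)

theorem exec_pushReg (j : ι) (f : Γ → Γ) (w : W) (γ : Γ) (S : ι → List Γ) :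
    Exec (pushReg j f : Pr ι Γ W) ((w, some γ), S) ((w, some γ), update S j (f γ :: S j)) 1 :=
  Exec.act _ ((w, some γ), S)

theorem exec_pushReg_none (j : ι) (f : Γ → Γ) (w : W) (S : ι → List Γ) :
    Exec (pushReg j f : Pr ι Γ W) ((w, none), S) ((w, none), S) 1 :=
  Exec.act _ ((w, none), S)

/-- Push a fixed word: the stack becomes `l ++ S j`. -/
def pushL (j : ι) : List Γ → Prog ι Γ V
  | [] => skip
  | a :: l => .seq (pushL j l) (push j a)

theorem exec_pushL (j : ι) (l : List Γ) (v : V) (S : ι → List Γ) :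
    Exec (pushL j l : Prog ι Γ V) (v, S) (v, update S j (l ++ S j)) (l.length + 1) := by
  induction l with
  | nil => exact (exec_skip _).of_eq (by simp) (by simp)
  | cons a l ih => exact (ih.seq (exec_push j a v _)).of_eq (by simp) (by simp)

/-! ### Loops -/

/-- Loop rule with an invariant `I σ n` and a budget `n`. -/
theorem loop_rule (c : V → Prop) (p : Prog ι Γ V) (I : V × (ι → List Γ) → ℕ → Prop)
    (hstep : ∀ σ n, I σ n → c σ.1 → ∃ σ' m n', Exec p σ σ' m ∧ I σ' n' ∧ n' + m + 1 ≤ n) :
    ∀ (n : ℕ) (σ : V × (ι → List Γ)), I σ n →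
      ∃ σ' n', I σ' n' ∧ ¬ c σ'.1 ∧ n' ≤ n ∧ Exec (.loop c p) σ σ' (n - n' + 1) := by
  intro n
  induction n using Nat.strong_induction_on with
  | _ n ih =>
    intro σ hI
    by_cases hc : c σ.1
    · obtain ⟨σ1, m, n1, h1, h2, h3⟩ := hstep σ n hI hc
      obtain ⟨σ2, n2, g1, g2, g3, g4⟩ := ih n1 (by omega) σ1 h2
      exact ⟨σ2, n2, g1, g2, by omega, (Exec.loopT hc h1 g4).weak (by omega)⟩
    · exact ⟨σ, n, hI, hc, le_rfl, (Exec.loopF hc).weak (by omega)⟩

/-- Pop stack `i`; while the popped symbol satisfies `c`, run `body` and pop again.  At the end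
the register holds the first symbol that fails `c` (it has been removed), or `none`. -/
def whileP (i : ι) (c : Γ → Prop) (body : Pr ι Γ W) : Pr ι Γ W :=
  .seq (pop i) (.loop (fun v => ∃ γ, v.2 = some γ ∧ c γ) (.seq body (pop i)))

theorem whileP_stop (i : ι) (c : Γ → Prop) (body : Pr ι Γ W) (w : W) (r : Option Γ)
    (S : ι → List Γ) (h : ∀ γ, (S i).head? = some γ → ¬ c γ) :
    Exec (whileP i c body) ((w, r), S) ((w, (S i).head?), update S i (S i).tail) 2 :=
  (exec_pop i w r S).seq (Exec.loopF (by rintro ⟨γ, h1, h2⟩; exact h γ h1 h2))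

theorem whileP_cons {i : ι} {c : Γ → Prop} {body : Pr ι Γ W} {w w' : W} {r r' : Option Γ}
    {S S' : ι → List Γ} {γ : Γ} {l : List Γ} {σ : (W × Option Γ) × (ι → List Γ)} {m n : ℕ}
    (hS : S i = γ :: l) (hc : c γ)
    (hb : Exec body ((w, some γ), update S i l) ((w', r'), S') m)
    (hr : Exec (whileP i c body) ((w', r'), S') σ n) :
    Exec (whileP i c body) ((w, r), S) σ (m + n + 2) := by
  have inv : ∀ (P : Pr ι Γ W) (τ σ : (W × Option Γ) × (ι → List Γ)) (n : ℕ), Exec P τ σ n →
      ∀ a b, P = .seq a b → ∃ τ' n1 n2, Exec a τ τ' n1 ∧ Exec b τ' σ n2 ∧ n1 + n2 ≤ n := by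
    intro P τ σ n h
    induction h with
    | seq h1 h2 _ _ =>
      intro a b hab
      injection hab with ha hb
      subst ha hb
      exact ⟨_, _, _, h1, h2, le_rfl⟩
    | weak _ hm ih =>
      intro a b hab
      obtain ⟨τ', n1, n2, g1, g2, g3⟩ := ih a b hab
      exact ⟨τ', n1, n2, g1, g2, g3.trans hm⟩
    | act => intro a b hab; cases hab
    | iteT => intro a b hab; cases hab
    | iteF => intro a b hab; cases hab
    | loopF => intro a b hab; cases hab
    | loopT => intro a b hab; cases hab
  obtain ⟨τ', n1, n2, g1, g2, g3⟩ := inv _ _ _ _ hr _ _ rfl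
  have h0 := exec_pop i w r S
  rw [hS] at h0
  exact (h0.seq (Exec.loopT (σ := ((w, some γ), update S i l)) ⟨γ, rfl, hc⟩ (hb.seq g1) g2)).weak
    (by omega)

/-- `whileP` with an invariant `I w S n` (at the moments just before a pop) and a budget. -/
theorem whileP_rule (i : ι) (c : Γ → Prop) (body : Pr ι Γ W)
    (I : W → (ι → List Γ) → ℕ → Prop)
    (hstep : ∀ w S n γ l, I w S n → S i = γ :: l → c γ → ∃ w' r' S' m n',
      Exec body ((w, some γ), update S i l) ((w', r'), S') m ∧ I w' S' n' ∧ n' + m + 2 ≤ n) :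
    ∀ (n : ℕ) (w : W) (r : Option Γ) (S : ι → List Γ), I w S n →
      ∃ w' S' n', I w' S' n' ∧ (∀ γ, (S' i).head? = some γ → ¬ c γ) ∧ n' ≤ n ∧
        Exec (whileP i c body) ((w, r), S) ((w', (S' i).head?), update S' i (S' i).tail)
          (n - n' + 2) := by
  intro n
  induction n using Nat.strong_induction_on with
  | _ n ih =>
    intro w r S hI
    by_cases hc : ∀ γ, (S i).head? = some γ → ¬ c γ
    · exact ⟨w, S, n, hI, hc, le_rfl, (whileP_stop i c body w r S hc).weak (by omega)⟩
    · push Not at hc
      obtain ⟨γ, h1, h2⟩ := hc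
      obtain ⟨l, hl⟩ : ∃ l, S i = γ :: l := by
        cases hS : S i with
        | nil => simp [hS] at h1
        | cons a l => exact ⟨l, by simp [hS] at h1; rw [h1]⟩
      obtain ⟨w1, r1, S1, m, n1, g1, g2, g3⟩ := hstep w S n γ l hI hl h2
      obtain ⟨w2, S2, n2, k1, k2, k3, k4⟩ := ih n1 (by omega) w1 r1 S1 g2
      exact ⟨w2, S2, n2, k1, k2, by omega, (whileP_cons hl h2 g1 k4).weak (by omega)⟩

/-- `whileP` over an explicit family of states: `G n` is the state after `n` rounds. -/
theorem whileP_count (i : ι) (c : Γ → Prop) (body : Pr ι Γ W) (k b : ℕ)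
    (G : ℕ → W × (ι → List Γ))
    (hstep : ∀ n < b, ∃ γ l r', (G n).2 i = γ :: l ∧ c γ ∧
      Exec body (((G n).1, some γ), update (G n).2 i l) (((G (n + 1)).1, r'), (G (n + 1)).2) k)
    (hend : ∀ γ, ((G b).2 i).head? = some γ → ¬ c γ) (r : Option Γ) :
    Exec (whileP i c body) (((G 0).1, r), (G 0).2)
      (((G b).1, ((G b).2 i).head?), update (G b).2 i ((G b).2 i).tail) ((k + 2) * b + 2) := by
  induction b generalizing G r with
  | zero => exact (whileP_stop i c body _ r _ hend).weak (by simp)
  | succ b ih =>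
    obtain ⟨γ, l, r', h1, h2, h3⟩ := hstep 0 (by omega)
    have := ih (fun n => G (n + 1)) (fun n hn => hstep (n + 1) (by omega)) hend r'
    exact (whileP_cons h1 h2 h3 this).weak (by nlinarith)

/-- Move (and map) symbols from `i` to `j` while they satisfy `c`. -/
def mvW (i j : ι) (c : Γ → Prop) (f : Γ → Γ) : Pr ι Γ W := whileP i c (pushReg j f)

theorem exec_mvW {i j : ι} (hij : i ≠ j) (c : Γ → Prop) (f : Γ → Γ) (l1 l2 : List Γ) (w : W)
    (r : Option Γ) (S : ι → List Γ) (hS : S i = l1 ++ l2) (h1 : ∀ γ ∈ l1, c γ)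
    (h2 : ∀ γ, l2.head? = some γ → ¬ c γ) :
    Exec (mvW i j c f : Pr ι Γ W) ((w, r), S)
      ((w, l2.head?), update (update S i l2.tail) j ((l1.map f).reverse ++ S j))
      (3 * l1.length + 2) := by
  induction l1 generalizing S r with
  | nil =>
    refine (whileP_stop i c _ w r S (by simpa [hS] using h2)).of_eq ?_ (by simp)
    simp only [hS, List.nil_append, List.map_nil, List.reverse_nil, Prod.mk.injEq, true_and]
    funext x
    by_cases hx : x = j
    · subst hx; simp [update_of_ne hij.symm]
    · simp [update_of_ne hx]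
  | cons a l1 ih =>
    have := ih (some a) (update (update S i (l1 ++ l2)) j (f a :: S j))
      (by simp [update_of_ne hij]) (fun γ h => h1 γ (by simp [h]))
    refine (whileP_cons (r := r) (by simpa using hS) (h1 a (by simp))
      ((exec_pushReg j f w a _).of_eq (by simp [update_of_ne hij.symm]) le_rfl) this).of_eq ?_
      (by simp; omega)
    simp only [Prod.mk.injEq, true_and]
    funext x
    by_cases hx : x = j
    · subst hx; simp
    · by_cases hy : x = i
      · subst hy; simp [update_of_ne hx]
      · simp [update_of_ne hx, update_of_ne hy]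

/-- Move (and map) all of `i` onto `j`, reversed. -/
def mvMap (i j : ι) (f : Γ → Γ) : Pr ι Γ W := mvW i j (fun _ => True) f

theorem exec_mvMap {i j : ι} (hij : i ≠ j) (f : Γ → Γ) (w : W) (r : Option Γ)
    (S : ι → List Γ) :
    Exec (mvMap i j f : Pr ι Γ W) ((w, r), S)
      ((w, none), update (update S i []) j (((S i).map f).reverse ++ S j))
      (3 * (S i).length + 2) :=
  exec_mvW hij _ f (S i) [] w r S (by simp) (by simp) (by simp)

/-- Move all of `i` onto `j`, reversed. -/
def mv (i j : ι) : Pr ι Γ W := mvMap i j id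

theorem exec_mv {i j : ι} (hij : i ≠ j) (w : W) (r : Option Γ) (S : ι → List Γ) :
    Exec (mv i j : Pr ι Γ W) ((w, r), S)
      ((w, none), update (update S i []) j ((S i).reverse ++ S j)) (3 * (S i).length + 2) := by
  simpa [mv] using exec_mvMap hij id w r S

/-- Move symbols from `i` to both `j` and `k` while they satisfy `c`. -/
def mv2W (i j k : ι) (c : Γ → Prop) (f g : Γ → Γ) : Pr ι Γ W :=
  whileP i c (.seq (pushReg j f) (pushReg k g))

theorem exec_mv2W {i j k : ι} (hij : i ≠ j) (hik : i ≠ k) (hjk : j ≠ k) (c : Γ → Prop)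
    (f g : Γ → Γ) (l1 l2 : List Γ) (w : W) (r : Option Γ) (S : ι → List Γ)
    (hS : S i = l1 ++ l2) (h1 : ∀ γ ∈ l1, c γ) (h2 : ∀ γ, l2.head? = some γ → ¬ c γ) :
    Exec (mv2W i j k c f g : Pr ι Γ W) ((w, r), S)
      ((w, l2.head?), update (update (update S i l2.tail) j ((l1.map f).reverse ++ S j)) k
        ((l1.map g).reverse ++ S k)) (4 * l1.length + 2) := by
  induction l1 generalizing S r with
  | nil =>
    refine (whileP_stop i c _ w r S (by simpa [hS] using h2)).of_eq ?_ (by simp)
    simp only [hS, List.nil_append, List.map_nil, List.reverse_nil, Prod.mk.injEq, true_and]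
    funext x
    by_cases hx : x = k
    · subst hx; simp [update_of_ne hik.symm]
    · by_cases hy : x = j
      · subst hy; simp [update_of_ne hx, update_of_ne hij.symm]
      · simp [update_of_ne hx, update_of_ne hy]
  | cons a l1 ih =>
    have := ih (some a) (update (update (update S i (l1 ++ l2)) j (f a :: S j)) k (g a :: S k))
      (by simp [update_of_ne hij, update_of_ne hik]) (fun γ h => h1 γ (by simp [h]))
    refine (whileP_cons (r := r) (by simpa using hS) (h1 a (by simp))
      (((exec_pushReg j f w a _).seq (exec_pushReg k g w a _)).of_eq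
        (by simp [update_of_ne hij.symm, update_of_ne hik.symm, update_of_ne hjk.symm]) le_rfl)
      this).of_eq ?_ (by simp; omega)
    simp only [Prod.mk.injEq, true_and]
    funext x
    by_cases hx : x = k
    · subst hx; simp
    · by_cases hy : x = j
      · subst hy; simp [update_of_ne hx]
      · by_cases hz : x = i
        · subst hz; simp [update_of_ne hx, update_of_ne hy]
        · simp [update_of_ne hx, update_of_ne hy, update_of_ne hz]

/-- Move all of `i` onto both `j` and `k`. -/
def mv2 (i j k : ι) (f g : Γ → Γ) : Pr ι Γ W := mv2W i j k (fun _ => True) f g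

theorem exec_mv2 {i j k : ι} (hij : i ≠ j) (hik : i ≠ k) (hjk : j ≠ k) (f g : Γ → Γ) (w : W)
    (r : Option Γ) (S : ι → List Γ) :
    Exec (mv2 i j k f g : Pr ι Γ W) ((w, r), S)
      ((w, none), update (update (update S i []) j (((S i).map f).reverse ++ S j)) k
        (((S i).map g).reverse ++ S k)) (4 * (S i).length + 2) :=
  exec_mv2W hij hik hjk _ f g (S i) [] w r S (by simp) (by simp) (by simp)

/-- Drop symbols from `i` while they satisfy `c`. -/
def dropW (i : ι) (c : Γ → Prop) : Pr ι Γ W := whileP i c skip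

theorem exec_dropW (i : ι) (c : Γ → Prop) (l1 l2 : List Γ) (w : W) (r : Option Γ)
    (S : ι → List Γ) (hS : S i = l1 ++ l2) (h1 : ∀ γ ∈ l1, c γ)
    (h2 : ∀ γ, l2.head? = some γ → ¬ c γ) :
    Exec (dropW i c : Pr ι Γ W) ((w, r), S) ((w, l2.head?), update S i l2.tail)
      (3 * l1.length + 2) := by
  induction l1 generalizing S r with
  | nil => exact (whileP_stop i c _ w r S (by simpa [hS] using h2)).of_eq (by simp [hS]) (by simp)
  | cons a l1 ih =>
    have := ih (some a) (update S i (l1 ++ l2)) (by simp) (fun γ h => h1 γ (by simp [h]))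
    exact (whileP_cons (r := r) (by simpa using hS) (h1 a (by simp)) (exec_skip _) this).of_eq
      (by simp) (by simp; omega)

/-- Empty stack `i`. -/
def clear (i : ι) : Pr ι Γ W := dropW i fun _ => True

theorem exec_clear (i : ι) (w : W) (r : Option Γ) (S : ι → List Γ) :
    Exec (clear i : Pr ι Γ W) ((w, r), S) ((w, none), update S i []) (3 * (S i).length + 2) :=
  exec_dropW i _ (S i) [] w r S (by simp) (by simp) (by simp)

/-- Run `p a` for the elements `a` of a fixed list, in order. -/
def forL {α : Type} (p : α → Prog ι Γ V) : List α → Prog ι Γ V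
  | [] => skip
  | a :: l => .seq (p a) (forL p l)

theorem forL_rule {α : Type} (p : α → Prog ι Γ V)
    (I : List α → V × (ι → List Γ) → ℕ → Prop)
    (hstep : ∀ a l σ n, I (a :: l) σ n → ∃ σ' m n', Exec (p a) σ σ' m ∧ I l σ' n' ∧ n' + m ≤ n) :
    ∀ (l : List α) (σ : V × (ι → List Γ)) (n : ℕ), I l σ n →
      ∃ σ' n', I [] σ' n' ∧ n' ≤ n ∧ Exec (forL p l) σ σ' (n - n' + 1) := by
  intro l
  induction l with
  | nil => intro σ n h; exact ⟨σ, n, h, le_rfl, (exec_skip σ).weak (by omega)⟩
  | cons a l ih =>
    intro σ n h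
    obtain ⟨σ1, m, n1, h1, h2, h3⟩ := hstep a l σ n h
    obtain ⟨σ2, n2, g1, g2, g3⟩ := ih σ1 n1 h2
    exact ⟨σ2, n2, g1, by omega, (h1.seq g3).weak (by omega)⟩

/-- Run `p` a fixed number of times. -/
def rep (p : Prog ι Γ V) : ℕ → Prog ι Γ V
  | 0 => skip
  | n + 1 => .seq p (rep p n)

theorem exec_rep (p : Prog ι Γ V) (k c : ℕ) (G : ℕ → V × (ι → List Γ))
    (h : ∀ n < c, Exec p (G n) (G (n + 1)) k) : Exec (rep p c) (G 0) (G c) (k * c + 1) := by
  induction c generalizing G with
  | zero => exact (exec_skip _).weak (by simp)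
  | succ c ih =>
    exact ((h 0 (by omega)).seq (ih (fun n => G (n + 1)) fun n hn => h (n + 1) (by omega))).weak
      (by nlinarith)

/-- Run `p` once for every token on stack `k` (which is restored, `k'` is scratch). -/
def timesP (k k' : ι) (tok : Γ) (p : Pr ι Γ W) : Pr ι Γ W :=
  .seq (whileP k (fun _ => True) (.seq p (push k' tok))) (mv k' k)

theorem exec_timesP {k k' : ι} (hk : k ≠ k') (tok : Γ) (p : Pr ι Γ W) (c b : ℕ)
    (G : ℕ → W × (ι → List Γ))
    (hp : ∀ n < b, ∀ (l l' : List Γ) (r : Option Γ), ∃ r',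
      Exec p (((G n).1, r), update (update (G n).2 k l) k' l')
        (((G (n + 1)).1, r'), update (update (G (n + 1)).2 k l) k' l') c) (r : Option Γ) :
    Exec (timesP k k' tok p)
      (((G 0).1, r), update (update (G 0).2 k (List.replicate b tok)) k' [])
      (((G b).1, none), update (update (G b).2 k (List.replicate b tok)) k' [])
      ((c + 6) * b + 4) := by
  have h1 := whileP_count k (fun _ => True) (.seq p (push k' tok)) (c + 1) b
    (fun n => ((G n).1, update (update (G n).2 k (List.replicate (b - n) tok)) k'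
      (List.replicate n tok))) (fun n hn => by
      obtain ⟨r', h⟩ := hp n hn (List.replicate (b - (n + 1)) tok) (List.replicate n tok)
        (some tok)
      refine ⟨tok, List.replicate (b - (n + 1)) tok, r', ?_, trivial, ?_⟩
      · have : b - n = b - (n + 1) + 1 := by omega
        simp [update_of_ne hk, this, List.replicate_succ]
      · have e1 : update (update (update (G n).2 k (List.replicate (b - n) tok)) k'
            (List.replicate n tok)) k (List.replicate (b - (n + 1)) tok) =
            update (update (G n).2 k (List.replicate (b - (n + 1)) tok)) k'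
              (List.replicate n tok) := by
          rw [update_comm hk.symm, update_idem]
        simp only [e1]
        exact (h.seq (exec_push k' tok _ _)).of_eq (by simp [List.replicate_succ]) le_rfl)
    (by simp [update_of_ne hk]) r
  have h2 := h1.seq (exec_mv hk.symm _ _ _)
  simp only [Nat.sub_zero, List.replicate_zero] at h2
  refine h2.of_eq ?_ ?_
  · simp only [Prod.mk.injEq, true_and]
    funext x
    by_cases hx : x = k
    · subst hx; simp [update_of_ne hk, update_of_ne hk.symm]
    · by_cases hy : x = k'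
      · subst hy; simp [update_of_ne hx]
      · simp [update_of_ne hx, update_of_ne hy]
  · simp [update_of_ne hk.symm]; nlinarith

/-! ### Simulating one step of a stack machine -/

/-- One step of `E` on the stacks `φ i`, with symbols `ψ γ` and state `get v`. -/
def simStep (E : SM) (φ : E.ι → ι) (ψ : E.Γ → Γ) (χ : Γ → Option E.Γ) (get : V → E.Q)
    (put : V → E.Q → V) : Prog ι Γ V := .act fun v =>
  match E.out (get v) with
  | some _ => .goto v
  | none =>
    match E.act (get v) with
    | .push i γ q => .push (φ i) (ψ γ) (put v q)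
    | .pop i f => .pop (φ i) fun o => put v (f (o.bind χ))
    | .goto q => .goto (put v q)

theorem exec_simStep (E : SM) {φ : E.ι → ι} (hφ : Injective φ) {ψ : E.Γ → Γ}
    {χ : Γ → Option E.Γ} (hχ : ∀ γ, χ (ψ γ) = some γ) (get : V → E.Q) (put : V → E.Q → V)
    (v : V) (hv : put v (get v) = v) (S : ι → List Γ) (T : E.ι → List E.Γ)
    (hT : ∀ i, S (φ i) = (T i).map ψ) :
    ∃ S', Exec (simStep E φ ψ χ get put) (v, S) (put v (E.step (get v, T)).1, S') 1 ∧
      (∀ i, S' (φ i) = ((E.step (get v, T)).2 i).map ψ) ∧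
      ∀ x, (∀ i, φ i ≠ x) → S' x = S x := by
  have h0 := Exec.act (fun v : V => (match E.out (get v) with
    | some _ => .goto v
    | none =>
      match E.act (get v) with
      | .push i γ q => .push (φ i) (ψ γ) (put v q)
      | .pop i f => .pop (φ i) fun o => put v (f (o.bind χ))
      | .goto q => .goto (put v q) : Act ι Γ V)) (v, S)
  cases ho : E.out (get v) with
  | some r =>
    rw [E.step_of_out (c := (get v, T)) ho]
    refine ⟨S, h0.of_eq ?_ le_rfl, hT, fun _ _ => rfl⟩
    simp [ho, Act.run, hv]
  | none =>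
    rw [E.step_of_none (c := (get v, T)) ho]
    cases ha : E.act (get v) with
    | goto q =>
      refine ⟨S, h0.of_eq ?_ le_rfl, by simpa [Act.run] using hT, fun _ _ => rfl⟩
      simp [ho, ha, Act.run]
    | push i γ q =>
      refine ⟨update S (φ i) (ψ γ :: S (φ i)), h0.of_eq ?_ le_rfl, fun j => ?_, fun x hx => ?_⟩
      · simp [ho, ha, Act.run]
      · by_cases hj : j = i
        · subst hj; simp [Act.run, hT]
        · simp [Act.run, update_of_ne hj, update_of_ne (hφ.ne hj), hT]
      · simp [update_of_ne (hx i).symm]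
    | pop i f =>
      refine ⟨update S (φ i) (S (φ i)).tail, h0.of_eq ?_ le_rfl, fun j => ?_, fun x hx => ?_⟩
      · simp only [ho, ha, Act.run, hT, Prod.mk.injEq, and_true]
        cases T i <;> simp [hχ]
      · by_cases hj : j = i
        · subst hj; simp [Act.run, hT]
        · simp [Act.run, update_of_ne hj, update_of_ne (hφ.ne hj), hT]
      · simp [update_of_ne (hx i).symm]

/-! ### Unary decoding -/

/-- Saturating successor. -/
def sat {N : ℕ} (c : Fin (N + 1)) : Fin (N + 1) := ⟨min (c + 1) N, by omega⟩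

/-- Decode `1^c 0` as the symbol `sy c` (saturating); trailing ones are dropped. -/
def dec {N : ℕ} (sy : Fin (N + 1) → Γ) : Fin (N + 1) → List Bool → List Γ
  | _, [] => []
  | c, true :: u => dec sy (sat c) u
  | c, false :: u => sy c :: dec sy 0 u

theorem length_dec_le {N : ℕ} (sy : Fin (N + 1) → Γ) (c : Fin (N + 1)) (u : List Bool) :
    (dec sy c u).length ≤ u.length := by
  induction u generalizing c with
  | nil => simp [dec]
  | cons a u ih =>
    cases a
    · simpa [dec] using ih 0
    · simpa [dec] using (ih (sat c)).trans (Nat.le_succ _)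

theorem dec_ones {N : ℕ} (sy : Fin (N + 1) → Γ) (z : ℕ) (c : Fin (N + 1)) (u : List Bool) :
    dec sy c (List.replicate z true ++ false :: u) =
      sy ⟨min (c + z) N, by omega⟩ :: dec sy 0 u := by
  induction z generalizing c with
  | zero =>
    have : (⟨min (c + 0) N, by omega⟩ : Fin (N + 1)) = c := by
      ext; have := c.2; simp; omega
    simp only [List.replicate_zero, List.nil_append, dec, this]
  | succ z ih =>
    rw [List.replicate_succ, List.cons_append, dec, ih]
    congr 2
    ext; simp [sat]; omega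

theorem dec_zeros {N : ℕ} (sy : Fin (N + 1) → Γ) (p : ℕ) :
    dec sy 0 (List.replicate p false) = List.replicate p (sy 0) := by
  induction p with
  | zero => simp [dec]
  | succ p ih => simp [List.replicate_succ, dec, ih]

/-- Every finite alphabet has a unary code; zeros decode to a chosen symbol `γ0`. -/
theorem exists_code [Finite Γ] (γ0 : Γ) : ∃ (N : ℕ) (sy : Fin (N + 1) → Γ) (cod : Γ → List Bool),
    sy 0 = γ0 ∧ (∀ γ, (cod γ).length ≤ N + 1) ∧
      (∀ γ u, dec sy 0 (cod γ ++ u) = γ :: dec sy 0 u) ∧
      ∀ (l : List Γ) (u : List Bool), dec sy 0 (l.flatMap cod ++ u) = l ++ dec sy 0 u := by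
  obtain ⟨N, ⟨e⟩⟩ := Finite.exists_equiv_fin Γ
  let sy : Fin (N + 1) → Γ := Fin.cases γ0 e.symm
  let cod : Γ → List Bool := fun γ => List.replicate ((e γ : ℕ) + 1) true ++ [false]
  have key : ∀ γ u, dec sy 0 (cod γ ++ u) = γ :: dec sy 0 u := by
    intro γ u
    have h1 : cod γ ++ u = List.replicate ((e γ : ℕ) + 1) true ++ false :: u := by simp [cod]
    rw [h1, dec_ones]
    have h2 : (⟨min (((0 : Fin (N + 1)) : ℕ) + ((e γ : ℕ) + 1)) N, by omega⟩ : Fin (N + 1)) =
        (e γ).succ := by
      ext; simp
    rw [h2]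
    simp [sy]
  refine ⟨N, sy, cod, rfl, fun γ => ?_, key, fun l u => ?_⟩
  · have := (e γ).2
    simp [cod]
  · induction l with
    | nil => simp
    | cons a l ih => rw [List.flatMap_cons, List.append_assoc, key, ih]; rfl

/-- Decode the bits on stack `i`; the decoded word is put, reversed, on stack `j`. -/
def decodeP {N : ℕ} (i j : ι) (raw : Bool → Γ) (sy : Fin (N + 1) → Γ) (get : W → Fin (N + 1))
    (put : W → Fin (N + 1) → W) : Pr ι Γ W :=
  whileP i (fun _ => True) (.ite (fun v => v.2 = some (raw true))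
    (setV fun v => (put v.1 (sat (get v.1)), v.2))
    (.seq (pushF j fun v => sy (get v.1)) (setV fun v => (put v.1 0, v.2))))

theorem exec_decodeP {N : ℕ} {i j : ι} (hij : i ≠ j) {raw : Bool → Γ} (hraw : Injective raw)
    (sy : Fin (N + 1) → Γ) {get : W → Fin (N + 1)} {put : W → Fin (N + 1) → W}
    (hgp : ∀ w c, get (put w c) = c) (hpp : ∀ w c c', put (put w c) c' = put w c')
    (u : List Bool) (w : W) (c : Fin (N + 1)) (r : Option Γ) (S : ι → List Γ)
    (hS : S i = u.map raw) :
    ∃ c', Exec (decodeP i j raw sy get put) ((put w c, r), S)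
      ((put w c', none), update (update S i []) j ((dec sy c u).reverse ++ S j))
      (5 * u.length + 2) := by
  induction u generalizing S r c with
  | nil =>
    refine ⟨c, (whileP_stop i _ _ _ r S (by simp [hS])).of_eq ?_ (by simp)⟩
    simp only [hS, List.map_nil, List.head?_nil, List.tail_nil, dec, List.reverse_nil,
      List.nil_append, Prod.mk.injEq, true_and]
    funext x
    by_cases hx : x = j
    · subst hx; simp [update_of_ne hij.symm]
    · simp [update_of_ne hx]
  | cons a u ih =>
    cases a with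
    | true =>
      obtain ⟨c', h⟩ := ih (sat c) (some (raw true)) (update S i (u.map raw)) (by simp)
      unfold decodeP at h ⊢
      refine ⟨c', (whileP_cons (r := r) (γ := raw true) (l := u.map raw) (m := 2)
        (by simpa using hS) trivial ?_ h).of_eq ?_ (by simp; omega)⟩
      · exact Exec.iteT rfl ((exec_setV _ _ _).of_eq (by simp [hgp, hpp]) le_rfl)
      · simp [dec, update_of_ne hij.symm]
    | false =>
      obtain ⟨c', h⟩ := ih 0 (some (raw false))
        (update (update S i (u.map raw)) j (sy c :: S j)) (by simp [update_of_ne hij])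
      unfold decodeP at h ⊢
      refine ⟨c', (whileP_cons (r := r) (γ := raw false) (l := u.map raw) (m := 3)
        (by simpa using hS) trivial ?_ h).of_eq ?_ (by simp; omega)⟩
      · exact Exec.iteF (by simp [hraw.eq_iff])
          (((exec_pushF _ _ _ _).seq (exec_setV _ _ _)).of_eq
            (by simp [hgp, hpp, update_of_ne hij.symm]) le_rfl)
      simp only [dec, Prod.mk.injEq, true_and]
      funext x
      by_cases hx : x = j
      · subst hx; simp
      · by_cases hy : x = i
        · subst hy; simp [update_of_ne hx]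
        · simp [update_of_ne hx, update_of_ne hy]

end Pool.Agent.MP_8c2300_lc.PP
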