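import Pool.Agent.MP_8c2300_lc.pp.VImplB

/-! PROJECT PPST, module VIMPL, part C: records and the main loop. -/

namespace Pool.Agent.MP_8c2300_lc.PP.VI

open Function

variable {E : SM} {N : ℕ}

/-- The list of stacks of `E`. -/
noncomputable def js (E : SM) : List E.ι := (Finset.univ : Finset E.ι).toList

theorem js_nodup : (js E).Nodup := Finset.nodup_toList _

@[simp] theorem mem_js (j : E.ι) : j ∈ js E := by simp [js]

/-- Total model of one record: the new item stacks. -/
def tits (b : ℕ) (a : Bool) (r : Rec E) (st : VSt E) (j : E.ι) : List (Item E.Γ) :=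
  (if a = true then (cutR b (r.mv j) ((st.sim b r).2 j).reverse).map Item.full
    else List.replicate ((r.mv j : ℕ) + 1) Item.unk) ++ (st.its j).drop 2

/-- Total model of one record: refutation. -/
def tbad (b : ℕ) (a : Bool) (r : Rec E) (st : VSt E) : Prop :=
  (∃ j, bad2 b a (st.its j) (r.cp j) (r.cb j)) ∨ (a = true ∧ ((st.sim b r).1 ≠ r.qe ∨
    ∃ j, ¬ ((r.mv j : ℕ) * b ≤ ((st.sim b r).2 j).length ∧
      ((st.sim b r).2 j).length < ((r.mv j : ℕ) + 1) * b)))

theorem vstep_bad {b : ℕ} {a : Bool} {r : Rec E} {st : VSt E} (h : tbad b a r st) :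
    vstep b a r st = none := by
  unfold vstep
  split_ifs with h1 h2 h3
  · exfalso
    rcases h with ⟨j, h | h⟩ | ⟨-, h | ⟨j, h⟩⟩
    · rcases h with h | h
      exacts [h (h1 j).1, (h3.1 j).1 h.2]
    · rcases h with h | h
      exacts [h (h1 j).2, (h3.1 j).2 h.2]
    · exact h h3.2.1
    · exact h (h3.2.2 j)
  · rfl
  · exfalso
    rcases h with ⟨j, h | h⟩ | ⟨h, -⟩
    · rcases h with h | h
      exacts [h (h1 j).1, h2 h.1]
    · rcases h with h | h
      exacts [h (h1 j).2, h2 h.1]
    · exact h2 h
  · rfl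

theorem vstep_good {b : ℕ} {a : Bool} {r : Rec E} {st : VSt E} (h : ¬ tbad b a r st) :
    vstep b a r st = some ⟨r.qe, tits b a r st⟩ := by
  simp only [tbad, bad2, badS, not_or, not_exists, not_and, not_not] at h
  obtain ⟨h1, h2⟩ := h
  unfold vstep
  rw [if_pos fun j => ⟨(h1 j).1.1, (h1 j).2.1⟩]
  by_cases ha : a = true
  · have h3 : ∀ j, (r.mv j : ℕ) * b ≤ ((st.sim b r).2 j).length ∧
        ((st.sim b r).2 j).length < ((r.mv j : ℕ) + 1) * b := fun j => by
      have := (h2 ha).2 j
      by_contra hc
      exact this fun h4 h5 => hc ⟨h4, h5⟩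
    rw [if_pos ha, if_pos ⟨fun j => ⟨(h1 j).1.2 ha, (h1 j).2.2 ha⟩, (h2 ha).1, h3⟩]
    congr 2
    funext j
    simp only [tits, if_pos ha, cutR_eq b _ _ (h3 j).1 (h3 j).2]
  · rw [if_neg ha]
    congr 2
    funext j
    simp only [tits, if_neg ha]

/-- Potential. -/
noncomputable def Phi (its : E.ι → List (Item E.Γ)) : ℕ :=
  ((js E).map fun j => (encIs (its j)).length).sum

noncomputable def core : P E N :=
  .seq (forL slots (js E)) (.seq (.ite (fun v => v.1.1.a = true)
    (.seq simP (.seq (orBad fun c _ _ => c.q ≠ c.qe) (forL split (js E)))) (forL unks (js E)))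
    (setC fun c _ _ => { c with q := c.qe }))

theorem sum_map_le {α : Type} (l : List α) (f g : α → ℕ) (c : ℕ) (h : ∀ x, f x ≤ g x + c) :
    (l.map f).sum ≤ (l.map g).sum + l.length * c := by
  induction l with
  | nil => simp
  | cons x l ih =>
    have := h x
    simp only [List.map_cons, List.sum_cons, List.length_cons, add_one_mul]; omega

theorem run_core (b : ℕ) (y y' g a d : List (Sy E)) (r : Rec E) (st : VSt E) (A : Bool)
    (B : Prop) (h : Cl r.cp r.cb (js E) y y') :
    ∃ n, Run (core : P E N) ⟨st.q, r.qe, r.mv, A, B⟩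
      (mk y g (toks E b) [] [] [] [] [] a d (fun _ => []) fun j => encIs (st.its j))
      ⟨r.qe, r.qe, r.mv, A, B ∨ tbad b A r st⟩
      (mk y' g (toks E b) [] [] [] [] [] a d (fun _ => []) fun j => encIs (tits b A r st j)) n ∧
      n + 36 * y'.length + 36 * Phi (tits b A r st) ≤
        36 * y.length + 36 * Phi st.its + ((js E).length + 1) * (200 * ab A b + 200) := by
  obtain ⟨n1, a1, a2, a3⟩ := run_slotsL (N := N) b g a d r.cp r.cb (js E) js_nodup y y'
    (fun _ => []) st.its ⟨st.q, r.qe, r.mv, A, B⟩ h (fun _ _ => rfl)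
  simp only [mem_js, if_true, true_and] at a1 a2 a3
  have hset : ∀ (c : Ct E) (S : Stk E), Run (setC fun c _ _ => { c with q := c.qe } : P E N) c S
      { c with q := c.qe } S 1 := fun c S sc r => ⟨sc, r, exec_setC _ _ _ _ _⟩
  cases A with
  | true =>
    have e : (fun j => con2 b true (st.its j) (r.cp j) (r.cb j)) = fun j =>
        ((st.itP j).val (E.zeros b) (r.cp j)).getD [] ++
          ((st.itB j).val (E.zeros b) (r.cb j)).getD [] := by
      funext j; simp only [con2, cont_true]; rfl
    have a4 := run_simP (N := N) b y' g a d (fun j => encIs ((st.its j).drop 2))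
      ((⟨st.q, r.qe, r.mv, true, B⟩ : Ct E).orb
        (∃ j, bad2 b true (st.its j) (r.cp j) (r.cb j)))
      fun j => con2 b true (st.its j) (r.cp j) (r.cb j)
    have e2 : E.step^[b] (st.q, fun j => con2 b true (st.its j) (r.cp j) (r.cb j)) =
        st.sim b r := by rw [e]; rfl
    simp only [Ct.orb_q, e2] at a4
    have a5 : ∀ (c : Ct E) (S : Stk E), Run (orBad fun c _ _ => c.q ≠ c.qe : P E N) c S
        (c.orb (c.q ≠ c.qe)) S 1 := fun c S sc r => ⟨sc, r, exec_setC _ _ _ _ _⟩
    refine ⟨_, (a1.seq ((Run.iteT (C := fun c => c.a = true) rfl (a4.seq ((a5 _ _).seq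
      (run_splitL b y' g a d (st.sim b r).2 (js E) js_nodup _ _ _ fun _ _ => rfl)))).seq
      (hset _ _))).of_eq ?_ ?_ le_rfl, ?_⟩
    · simp [Ct.orb, tbad, or_assoc]
    · simp [tits, encIs]
    · have l1 := sum_map_le (js E) (fun j => ((st.sim b r).2 j).length)
        (fun j => (con2 b true (st.its j) (r.cp j) (r.cb j)).length) b
        fun j => by rw [← e2]; exact E.iter_length b _ j
      have l2 := sum_map_le (js E) (fun j => (encIs (tits b true r st j)).length)
        (fun j => (encIs ((st.its j).drop 2)).length) (3 * b + 3) fun j => by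
          have h1 := cutR_len b (r.mv j) ((st.sim b r).2 j).reverse
          have h2 : ((r.mv j : ℕ) + 1) * (b + 1) ≤ 3 * (b + 1) :=
            Nat.mul_le_mul_right _ (by omega)
          simp only [encIs] at h1
          simp only [tits, if_true, encIs, List.flatMap_append, List.length_append]
          omega
      simp only [Phi, ab, if_true] at *
      nlinarith
  | false =>
    refine ⟨_, (a1.seq ((Run.iteF (C := fun c => c.a = true) (by simp)
      (run_unksL b y' g a d _ _ (js E) js_nodup _)).seq (hset _ _))).of_eq ?_ ?_ le_rfl, ?_⟩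
    · simp [Ct.orb, tbad]
    · simp [tits, encIs, sel, encI, List.flatMap_replicate]
    · have l2 := sum_map_le (js E) (fun j => (encIs (tits b false r st j)).length)
        (fun j => (encIs ((st.its j).drop 2)).length) 3 fun j => by
          simp [tits, encIs, encI]; omega
      simp only [Phi, ab, Bool.false_eq_true, if_false] at *
      nlinarith

/-! ### The main loop -/

def isHdr : Sy E → Prop
  | .hdr _ _ => True
  | _ => False

def setHdr (c : Ct E) : Option (Sy E) → Ct E
  | some (.hdr q mv) => { c with qe := q, mv := mv }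
  | _ => c

def isT : Option (Sy E) → Bool
  | some (.raw b) => b
  | _ => false

theorem isT_head (l : List Bool) : isT (l.map (Sy.raw (E := E))).head? = l.getD 0 false := by
  cases l <;> rfl

noncomputable def body : P E N :=
  .seq (setC fun c _ r => setHdr c r) (.seq (pop .a) (.seq (setC fun c _ r => { c with a := isT r })
    (.seq (pop .d) (.seq (setC fun c _ r => { c with a := c.a || isT r }) core))))

noncomputable def mainP : P E N := whileP .y isHdr body

/-- The stream `s` is read as the records `recs`. -/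
inductive Recs : List (Sy E) → List (Rec E) → Prop
  | nil (s : List (Sy E)) : (∀ γ, s.head? = some γ → ¬ isHdr γ) → Recs s []
  | cons (r : Rec E) (s s' : List (Sy E)) (rs : List (Rec E)) :
      Cl r.cp r.cb (js E) s s' → Recs s' rs → Recs (.hdr r.qe r.mv :: s) (r :: rs)

/-- Number of simulated blocks times `b`. -/
def cntA (b : ℕ) (f : ℕ → Bool) (n : ℕ) : ℕ := ∑ i ∈ Finset.range n, ab (f i) b

theorem Cl1.len {y y' : List (Sy E)} {c : Option (List E.Γ)} (h : Cl1 y c y') :
    y'.length ≤ y.length := by
  obtain ⟨l, tl, rfl, -, rfl, -⟩ := h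
  simp; omega

theorem Cl.len {cp cb : E.ι → Option (List E.Γ)} : ∀ {l : List E.ι} {y y' : List (Sy E)},
    Cl cp cb l y y' → y'.length ≤ y.length
  | [], _, _, h => by rw [show _ = _ from h]
  | _ :: _, _, _, ⟨_, _, h1, h2, h3⟩ => h3.len.trans (h2.len.trans h1.len)

theorem run_mainP (b : ℕ) (g : List (Sy E)) {y : List (Sy E)} {recs : List (Rec E)}
    (h : Recs y recs) : ∀ (st : VSt E) (c : Ct E) (as ds : List Bool) (f : ℕ → Bool),
    c.q = st.q → (∀ i, f i = (as.getD i false || ds.getD i false)) →
    ∃ c' S', Run (mainP : P E N) c (mk y g (toks E b) [] [] [] [] [] (as.map .raw) (ds.map .raw)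
        (fun _ => []) fun j => encIs (st.its j)) c' S'
      ((200 * ((js E).length + 1) + 43) * y.length + 36 * Phi st.its +
        200 * ((js E).length + 1) * cntA b f recs.length + 2) ∧
      (c'.bad ↔ c.bad ∨ vrun b recs f st = none) ∧
      ∀ s', vrun b recs f st = some s' → c'.q = s'.q := by
  induction h with
  | nil s hs =>
    intro st c as ds f hq _
    refine ⟨c, _, fun sc r => ⟨sc, _, (whileP_stop _ _ _ _ r _ hs).weak (by omega)⟩,
      by simp [vrun], fun s' h => ?_⟩
    simp only [vrun, Option.some.injEq] at h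
    rw [← h, hq]
  | cons r s s' rs hc _ ih =>
    intro st c as ds f hq hf
    obtain ⟨n1, a1, a2⟩ := run_core (N := N) b s s' g (as.tail.map .raw) (ds.tail.map .raw) r st
      (f 0) c.bad hc
    obtain ⟨c', S', a3, a4, a5⟩ := ih ⟨r.qe, tits b (f 0) r st⟩
      ⟨r.qe, r.qe, r.mv, f 0, c.bad ∨ tbad b (f 0) r st⟩ as.tail ds.tail (fun i => f (i + 1)) rfl
      fun i => by rw [hf]; cases as <;> cases ds <;> simp
    refine ⟨c', S', fun sc r0 => ?_, ?_, ?_⟩
    · obtain ⟨sc1, r1, b1⟩ := a1 sc (ds.map .raw).head?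
      obtain ⟨sc2, r2, b2⟩ := a3 sc1 r1
      refine ⟨sc2, r2, (whileP_cons (i := St.y) (r := r0) (γ := .hdr r.qe r.mv) (l := s)
        (m := n1 + 5) rfl trivial ?_ b2).weak ?_⟩
      · have b3 := (exec_setC (fun c _ r => setHdr c r) c sc (some (.hdr r.qe r.mv))
          (mk s g (toks E b) [] [] [] [] [] (as.map .raw) (ds.map .raw) (fun _ => [])
            fun j => encIs (st.its j)))
        rw [up_y]
        refine (b3.seq ((exec_pop _ _ _ _).seq ((exec_setC _ _ _ _ _).seq ((exec_pop _ _ _ _).seq
          (((exec_setC _ _ _ _ _).of_eq ?_ (le_refl 1)).seq b1))))).weak ?_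
        · simp only [setHdr, mk_a, mk_d, up_a, up_d, isT_head, hf, hq, List.map_tail]
        · omega
      · have l1 := hc.len
        have l2 : cntA b f (r :: rs).length =
            cntA b (fun i => f (i + 1)) rs.length + ab (f 0) b := by
          simp only [cntA, List.length_cons, Finset.sum_range_succ']
        rw [l2, List.length_cons]
        have l3 := Nat.mul_le_mul_left (200 * ((js E).length + 1) + 7) l1
        nlinarith
    · rw [a4]
      by_cases hb : tbad b (f 0) r st
      · simp [vrun, vstep_bad hb, hb]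
      · simp [vrun, vstep_good hb, hb]
    · intro s2 h2
      by_cases hb : tbad b (f 0) r st
      · simp [vrun, vstep_bad hb] at h2
      · exact a5 s2 (by simpa [vrun, vstep_good hb] using h2)

/-! ### Every stream parses -/

theorem split_while {α : Type} (C : α → Prop) (s : List α) :
    ∃ l tl, s = l ++ tl ∧ (∀ x ∈ l, C x) ∧ ∀ x, tl.head? = some x → ¬ C x := by
  induction s with
  | nil => exact ⟨[], [], rfl, by simp, by simp⟩
  | cons a s ih =>
    by_cases h : C a
    · obtain ⟨l, tl, rfl, h1, h2⟩ := ih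
      exact ⟨a :: l, tl, rfl, by simpa [h] using h1, h2⟩
    · exact ⟨[], a :: s, rfl, by simp, by simpa using h⟩

theorem exists_Cl1 (s : List (Sy E)) : ∃ c s', Cl1 s c s' := by
  obtain ⟨l, tl, rfl, h1, h2⟩ := split_while isSym s
  obtain ⟨l', rfl⟩ : ∃ l' : List E.Γ, l = l'.map .sym := by
    clear h2
    induction l with
    | nil => exact ⟨[], rfl⟩
    | cons a l ih =>
      obtain ⟨l', rfl⟩ := ih fun x h => h1 x (by simp [h])
      have := h1 a (by simp)
      cases a <;> first | exact this.elim | exact ⟨_ :: l', rfl⟩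
  exact ⟨_, _, l', tl, rfl, h2, rfl, rfl⟩

theorem Cl.congr {cp cb cp' cb' : E.ι → Option (List E.Γ)} : ∀ {l : List E.ι}
    {y y' : List (Sy E)}, (∀ j ∈ l, cp j = cp' j ∧ cb j = cb' j) → Cl cp cb l y y' →
    Cl cp' cb' l y y'
  | [], _, _, _, h => h
  | j :: _, _, _, he, ⟨s1, s2, h1, h2, h3⟩ =>
    ⟨s1, s2, (he j (by simp)).1 ▸ h1, (he j (by simp)).2 ▸ h2,
      h3.congr fun j' h => he j' (by simp [h])⟩

theorem exists_Cl (l : List E.ι) (hl : l.Nodup) : ∀ s : List (Sy E),
    ∃ cp cb s', Cl cp cb l s s' := by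
  induction l with
  | nil => intro s; exact ⟨fun _ => none, fun _ => none, s, rfl⟩
  | cons j l ih =>
    intro s
    obtain ⟨hj, hl'⟩ := List.nodup_cons.1 hl
    obtain ⟨c1, s1, h1⟩ := exists_Cl1 s
    obtain ⟨c2, s2, h2⟩ := exists_Cl1 s1
    obtain ⟨cp, cb, s3, h3⟩ := ih hl' s2
    refine ⟨update cp j c1, update cb j c2, s3, s1, s2, by simpa, by simpa, h3.congr fun j' h => ?_⟩
    have : j' ≠ j := fun e => hj (e ▸ h)
    simp [update_of_ne this]

theorem exists_Recs (n : ℕ) : ∀ s : List (Sy E), s.length ≤ n →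
    ∃ recs, Recs s recs ∧ recs.length ≤ s.length := by
  induction n with
  | zero =>
    intro s h
    obtain rfl : s = [] := List.length_eq_zero_iff.1 (by omega)
    exact ⟨[], .nil _ (by simp), le_rfl⟩
  | succ n ih =>
    intro s h
    by_cases hh : ∀ γ, s.head? = some γ → ¬ isHdr γ
    · exact ⟨[], .nil _ hh, Nat.zero_le _⟩
    · push Not at hh
      obtain ⟨γ, h1, h2⟩ := hh
      cases s with
      | nil => simp at h1
      | cons a s =>
        obtain rfl : a = γ := by simpa using h1
        cases a with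
        | hdr q mv =>
          obtain ⟨cp, cb, s', h3⟩ := exists_Cl (js E) js_nodup s
          have := h3.len
          obtain ⟨recs, h4, h5⟩ := ih s' (by simp at h; omega)
          exact ⟨⟨q, mv, cp, cb⟩ :: recs, .cons ⟨q, mv, cp, cb⟩ s s' recs h3 h4, by simp; omega⟩
        | _ => exact h2.elim

/-! ### Encoding of records -/

def encC : Option (List E.Γ) → List (Sy E)
  | none => [.unk]
  | some l => l.map .sym ++ [.fin]

noncomputable def encRec (r : Rec E) : List (Sy E) :=
  .hdr r.qe r.mv :: (js E).flatMap fun j => encC (r.cp j) ++ encC (r.cb j)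

theorem Cl1_enc (c : Option (List E.Γ)) (s : List (Sy E)) : Cl1 (encC c ++ s) c s := by
  cases c with
  | none => exact ⟨[], .unk :: s, rfl, by simp [isSym], rfl, by simp⟩
  | some l => exact ⟨l, .fin :: s, by simp [encC], by simp [isSym], rfl, by simp⟩

theorem Cl_enc (cp cb : E.ι → Option (List E.Γ)) (l : List E.ι) (s : List (Sy E)) :
    Cl cp cb l ((l.flatMap fun j => encC (cp j) ++ encC (cb j)) ++ s) s := by
  induction l with
  | nil => rfl
  | cons j l ih =>
    refine ⟨_, _, ?_, Cl1_enc (cb j) _, ih⟩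
    simpa only [List.flatMap_cons, List.append_assoc] using Cl1_enc (cp j) _

theorem Recs_enc (recs : List (Rec E)) (p : ℕ) :
    Recs (recs.flatMap encRec ++ List.replicate p .fin) recs := by
  induction recs with
  | nil => exact .nil _ (by cases p <;> simp [List.replicate_succ, isHdr])
  | cons r rs ih =>
    have := Recs.cons r _ _ rs (Cl_enc r.cp r.cb (js E) _) ih
    simpa only [List.flatMap_cons, encRec, List.append_assoc, List.cons_append] using this

theorem encRec_len (r : Rec E) : (encRec r).length ≤ (2 * (js E).length + 1) * r.size := by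
  have h1 : ∀ c : Option (List E.Γ), (encC c).length = (c.getD []).length + 1 := by
    intro c; cases c <;> simp [encC]
  have h2 := sum_map_le (js E) (fun j => (encC (r.cp j) ++ encC (r.cb j)).length)
    (fun j => ((r.cp j).getD []).length + ((r.cb j).getD []).length) 2
    fun j => by simp only [List.length_append, h1]; omega
  have h3 : ((js E).map fun j => ((r.cp j).getD []).length + ((r.cb j).getD []).length).sum =
      ∑ j, (((r.cp j).getD []).length + ((r.cb j).getD []).length) := by
    rw [js, Finset.sum_map_toList]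
  rw [encRec, List.length_cons, List.length_flatMap, Rec.size, ← h3]
  generalize ((js E).map fun j => ((r.cp j).getD []).length + ((r.cb j).getD []).length).sum = T
    at h2 ⊢
  nlinarith [Nat.zero_le ((js E).length * T)]

end Pool.Agent.MP_8c2300_lc.PP.VI
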