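import Mathlib.Topology.Sheaves.Presheaf
import Mathlib.Tactic.Monotonicity.Lemmas
import Mathlib.Data.List.GetD
import Mathlib.Algebra.Order.Star.Real
import Mathlib.Combinatorics.SimpleGraph.Basic
import Mathlib.Combinatorics.Enumerative.DoubleCounting
import Mathlib.Data.List.TakeWhile
import Mathlib.RingTheory.PiTensorProduct
import Pool.Agent.MP_8c2300_lc.pp.Spec
import Pool.Agent.MP_8c2300_lc.pp.Lib
import Pool.Agent.MP_8c2300_lc.pp.VImplC

-- ======== part 0: formerly Pool.Agent.MP_8c2300_lc.pp.Main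
section MrgPart0

/-! PROJECT PPST: assembly. -/

namespace Pool.Agent.MP_8c2300_lc.PP

open Filter Asymptotics

/-- The tower `2^2^2^K^(g^2)`. -/
def tw (K g : ℕ) : ℕ := 2 ^ 2 ^ 2 ^ K ^ (g * g)

/-- Discrete form of `T = o(n sqrt(log log log log n))`. -/
def Small (T : ℕ → ℕ) : Prop :=
  ∀ K M : ℕ, 2 ≤ K → ∃ g0, ∀ g ≥ g0, ∀ n, tw K g ≤ n → n ≤ tw K g ^ 5 → M * T n ≤ n * g

theorem lt_tw {K : ℕ} (hK : 2 ≤ K) (g : ℕ) : g * g < tw K g := by
  have h1 : g * g < K ^ (g * g) := Nat.lt_pow_self (by omega)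
  have h2 : K ^ (g * g) < 2 ^ K ^ (g * g) := Nat.lt_two_pow_self
  have h3 : 2 ^ K ^ (g * g) < 2 ^ 2 ^ K ^ (g * g) := Nat.lt_two_pow_self
  have h4 : 2 ^ 2 ^ K ^ (g * g) < 2 ^ 2 ^ 2 ^ K ^ (g * g) := Nat.lt_two_pow_self
  unfold tw; omega

theorem log_le_of_le_two_pow {x : ℝ} {n : ℕ} (h : x ≤ 2 ^ n) : Real.log x ≤ n ∨ x ≤ 0 := by
  by_cases hx : x ≤ 0
  · exact Or.inr hx
  · left
    have h1 : Real.log x ≤ Real.log (2 ^ n) := Real.log_le_log (by linarith) h
    rw [Real.log_pow] at h1
    have h2 : Real.log 2 ≤ 1 := by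
      have := Real.log_le_sub_one_of_pos (x := 2) (by norm_num); linarith
    have : (0 : ℝ) ≤ n := Nat.cast_nonneg n
    nlinarith

theorem log4_le {K g n : ℕ} (hK : 2 ≤ K) (hg : 1 ≤ g) (hn : n ≤ tw K g ^ 5)
    (h1 : 0 < (n : ℝ)) (h2 : 0 < Real.log n) (h3 : 0 < Real.log (Real.log n))
    (h4 : 0 < Real.log (Real.log (Real.log n))) :
    Real.log (Real.log (Real.log (Real.log n))) ≤ (K * g : ℝ) ^ 2 := by
  set y := K ^ (g * g) with hy
  have hy2 : 2 ≤ y := by
    have : K ^ 1 ≤ K ^ (g * g) := Nat.pow_le_pow_right (by omega) (by nlinarith)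
    simp at this; omega
  have a1 : n ≤ 2 ^ (2 ^ 2 ^ (y + 1)) := by
    refine hn.trans ?_
    unfold tw
    rw [← hy, ← pow_mul]
    refine Nat.pow_le_pow_right (by norm_num) ?_
    have e1 : 2 ^ 2 ^ (y + 1) = 2 ^ 2 ^ y * 2 ^ 2 ^ y := by rw [← pow_add]; congr 1; ring
    have e2 : 2 ^ 2 ^ 2 ≤ 2 ^ 2 ^ y :=
      Nat.pow_le_pow_right (by norm_num) (Nat.pow_le_pow_right (by norm_num) hy2)
    rw [e1]
    exact Nat.mul_le_mul_left _ (by norm_num at e2; omega)
  have b1 : Real.log n ≤ (2 ^ 2 ^ (y + 1) : ℕ) := by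
    rcases log_le_of_le_two_pow (x := n) (n := 2 ^ 2 ^ (y + 1)) (by exact_mod_cast a1) with h | h
    · exact h
    · linarith
  have b2 : Real.log (Real.log n) ≤ (2 ^ (y + 1) : ℕ) := by
    rcases log_le_of_le_two_pow (x := Real.log n) (n := 2 ^ (y + 1)) (by exact_mod_cast b1)
      with h | h
    · exact h
    · linarith
  have b3 : Real.log (Real.log (Real.log n)) ≤ (y + 1 : ℕ) := by
    rcases log_le_of_le_two_pow (x := Real.log (Real.log n)) (n := y + 1) (by exact_mod_cast b2)
      with h | h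
    · exact h
    · linarith
  have a2 : y + 1 ≤ 2 ^ (K * g) ^ 2 := by
    have e1 : K + 1 ≤ 2 ^ K := Nat.lt_two_pow_self
    have e2 : y + 1 ≤ (K + 1) ^ (g * g) := by
      have : K ^ (g * g) < (K + 1) ^ (g * g) := Nat.pow_lt_pow_left (by omega) (by nlinarith)
      omega
    have e3 : (K + 1) ^ (g * g) ≤ (2 ^ K) ^ (g * g) := Nat.pow_le_pow_left e1 _
    rw [← pow_mul] at e3
    exact e2.trans (e3.trans (Nat.pow_le_pow_right (by norm_num) (by nlinarith)))
  rcases log_le_of_le_two_pow (x := Real.log (Real.log (Real.log n))) (n := (K * g) ^ 2)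
    (b3.trans (by exact_mod_cast a2)) with h | h
  · exact_mod_cast h
  · linarith

theorem small_of_littleO {t : ℕ → ℕ} (C : ℕ)
    (h : (fun n : ℕ => (t n : ℝ)) =o[atTop]
      fun n : ℕ => (n : ℝ) * √(Real.log (Real.log (Real.log (Real.log n))))) :
    Small fun n => C * (t n + 1) := by
  intro K M hK
  have hε : (0 : ℝ) < 1 / (2 * (M * C + 1) * K) := by
    have : (0 : ℝ) < K := by exact_mod_cast (by omega : 0 < K)
    positivity
  have t0 : Tendsto (fun n : ℕ => (n : ℝ)) atTop atTop := tendsto_natCast_atTop_atTop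
  have t1 := Real.tendsto_log_atTop.comp t0
  have t2 := Real.tendsto_log_atTop.comp t1
  have t3 := Real.tendsto_log_atTop.comp t2
  have := (h.bound hε).and ((t0.eventually_gt_atTop 0).and ((t1.eventually_gt_atTop 0).and
    ((t2.eventually_gt_atTop 0).and (t3.eventually_gt_atTop 0))))
  obtain ⟨n0, hn0⟩ := eventually_atTop.1 this
  refine ⟨n0 + 2 * (M * C) + 1, fun g hg n h1 h2 => ?_⟩
  have hlt := lt_tw hK g
  have hgg : g ≤ g * g := Nat.le_mul_self g
  obtain ⟨k0, k1, k2, k3, k4⟩ := hn0 n (by omega)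
  have k5 := log4_le hK (by omega) h2 k1 k2 k3 k4
  have k6 : √(Real.log (Real.log (Real.log (Real.log n)))) ≤ K * g :=
    Real.sqrt_le_iff.2 ⟨by positivity, k5⟩
  rw [Real.norm_of_nonneg (by positivity), Real.norm_of_nonneg (by positivity)] at k0
  have hKpos : (0 : ℝ) < K := by exact_mod_cast (by omega : 0 < K)
  have k7 : (2 * (M * C + 1) : ℝ) * t n ≤ n * g := by
    have e1 : (t n : ℝ) ≤ 1 / (2 * (M * C + 1) * K) * (n * (K * g)) :=
      k0.trans (mul_le_mul_of_nonneg_left (mul_le_mul_of_nonneg_left k6 k1.le) hε.le)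
    have e2 : (2 * (M * C + 1) : ℝ) * (1 / (2 * (M * C + 1) * K) * (n * (K * g))) = n * g := by
      field_simp
    rw [← e2]
    exact mul_le_mul_of_nonneg_left e1 (by positivity)
  have k8 : 2 * (M * C + 1) * t n ≤ n * g := by exact_mod_cast k7
  have k9 : 2 * (M * C) ≤ n * g := by
    have : 1 ≤ n := by omega
    nlinarith
  show M * (C * (t n + 1)) ≤ n * g
  nlinarith

theorem nlin_clock (hS : SmTmStmt) (hK : ClockStmt) (D : SM) (c : ℕ) (o : Option Bool → Bool) :
    NLin {w | ∃ g : List Bool, g.length ≤ w.length ∧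
      o (D.outAt w g (c * (w.length + 1))) = true} := by
  obtain ⟨D', C, h⟩ := hK D c o
  have := hS D' C fun w g _ => ⟨_, h w g⟩
  convert this using 1
  ext w
  constructor
  · rintro ⟨g, h1, h2⟩
    exact ⟨g, h1, h2 ▸ h w g⟩
  · rintro ⟨g, h1, h2⟩
    exact ⟨g, h1, (h w g).unique h2⟩

theorem length_flatMap_le (cd : Bool → List Bool) (x : List Bool) :
    (x.flatMap cd).length ≤ ((cd true).length + (cd false).length) * x.length := by
  induction x with
  | nil => simp
  | cons a x ih =>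
    rw [List.flatMap_cons, List.length_append, List.length_cons]
    cases a <;> nlinarith

/-- The arithmetic of the second case. -/
theorem arith0 (g z b t P c CV cc ce v ly lw : ℕ) (hg : 1 ≤ g) (hz : 4 * (g * g) ≤ z)
    (hb : b = z ^ 3) (ht : t = (z + 1) * b) (hP1 : 1 ≤ P) (hP : P * g ≤ (c + 1) * (z + 1))
    (hv : v ≤ (z + 1) * g * ((z + 1) * g + 2) + 2 * P * b)
    (hly : ly ≤ CV * (v + 1) + P * b) (hlw : lw ≤ cc * b + ce + ly) :
    lw * g ≤ (cc + ce + 5 * CV + 1) * (c + 1) * t ∧
      (b + ly + 1) * g ≤ ((cc + ce + 5 * CV + 1) * (c + 1) + 2) * t := by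
  set A := cc + ce + 5 * CV + 1 with hA
  have hz1 : 4 ≤ z := by nlinarith
  have hb1 : 1 ≤ b := by rw [hb]; exact Nat.one_le_pow _ _ (by omega)
  have hgz : g ≤ z := by nlinarith
  have h1 : (z + 1) * g * ((z + 1) * g + 2) + 1 ≤ 3 * b := by
    have e1 : (z + 1) * g + 2 ≤ 2 * z * g := by nlinarith
    have e2 : (z + 1) * g ≤ 2 * z * g := by omega
    have e3 : (z + 1) * g * ((z + 1) * g + 2) ≤ (2 * z * g) * (2 * z * g) := Nat.mul_le_mul e2 e1
    have e4 : (2 * z * g) * (2 * z * g) = z * z * (4 * (g * g)) := by ring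
    have e5 : z * z * (4 * (g * g)) ≤ z * z * z := Nat.mul_le_mul_left _ hz
    have e6 : z * z * z = b := by rw [hb]; ring
    omega
  have hPb : b ≤ P * b := Nat.le_mul_of_pos_left _ hP1
  have h2 : v + 1 ≤ 5 * (P * b) := by nlinarith
  have h3 : ly ≤ (5 * CV + 1) * (P * b) := by nlinarith
  have h4 : lw ≤ A * (P * b) := by
    have e1 : cc * b ≤ cc * (P * b) := Nat.mul_le_mul_left _ hPb
    have e2 : ce ≤ ce * (P * b) := Nat.le_mul_of_pos_right _ (by omega)
    nlinarith
  have h5 : P * b * g ≤ (c + 1) * t := by rw [ht]; nlinarith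
  have h6 : lw * g ≤ A * (c + 1) * t := by nlinarith
  refine ⟨h6, ?_⟩
  have e1 : b * g ≤ t := by rw [ht]; nlinarith
  have e2 : g ≤ t := by nlinarith
  have e3 : ly ≤ A * (P * b) := h3.trans (Nat.mul_le_mul_right _ (by omega))
  have e4 : ly * g ≤ A * (c + 1) * t := by nlinarith
  nlinarith

theorem arith1 (g b t A ly lw T2 CN KU lr : ℕ) (hA : 0 < A) (h6 : lw * g ≤ A * t)
    (h8 : (b + ly + 1) * g ≤ (A + 2) * t) (hT : (2 * KU * CN * A) * T2 ≤ lw * g)
    (hg2 : 2 * KU * (CN + 3) * (A + 2) ≤ g)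
    (hlr : lr ≤ CN * (b + ly + T2 + 1) + ly + 2) : KU * (lr + 1) ≤ t := by
  have h7 : 2 * KU * CN * T2 ≤ t := by
    have e1 : A * (2 * KU * CN * T2) ≤ A * t := by nlinarith
    exact Nat.le_of_mul_le_mul_left e1 hA
  have h9 : 2 * KU * (CN + 3) * (b + ly + 1) ≤ t := by
    have e1 : (A + 2) * (2 * KU * (CN + 3) * (b + ly + 1)) ≤ (A + 2) * t := by nlinarith
    exact Nat.le_of_mul_le_mul_left e1 (by positivity)
  have h10 : lr + 1 ≤ (CN + 3) * (b + ly + 1) + CN * T2 := by nlinarith
  nlinarith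

theorem main_of (hT : TmSmStmt) (hS : SmTmStmt) (hK : ClockStmt) (hN : NStmt) (hR : RulesStmt)
    (hU : UStmt) (hV : VStmt) (hc : VcStmt) (hs : VsStmt) (hG : SegStmt) : MainStmt := by
  classical
  by_contra hmain
  have H : ∀ L, NLin L → ∃ (E : SM) (T : ℕ → ℕ), Small T ∧
      ∀ x : List Bool, ∃ r : Bool, E.Halts x [] (T x.length) r ∧ (r = true ↔ x ∈ L) := by
    intro L hL
    by_contra hcon
    refine hmain ⟨L, hL, fun M t h1 h2 h3 h4 => hcon ?_⟩
    obtain ⟨E, C, hE⟩ := hT M t h1 h2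
    refine ⟨E, fun n => C * (t n + 1), small_of_littleO C h4, fun x => ?_⟩
    obtain ⟨r, g1, g2⟩ := hE x
    exact ⟨r, g1, g2.trans (h3 x)⟩
  obtain ⟨DU, encU, CU, hU⟩ := hU
  obtain ⟨E1, T1, hT1, hE1⟩ := H _ (nlin_clock hS hK DU CU fun o => decide (o = some true))
  obtain ⟨DV, cd, ce, encV, CV, hV1, hV2, hV3⟩ := hV E1
  obtain ⟨E2, T2, hT2, hE2⟩ := H _ (nlin_clock hS hK DV (3 * CV) fun o => decide (o ≠ some false))
  obtain ⟨DN, CN, hN⟩ := hN E2 cd ce
  obtain ⟨tab, hR⟩ := hR DN
  obtain ⟨KU, hU⟩ := hU tab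
  obtain ⟨K0, c, hG⟩ := hG E1.ι (5 * Fintype.card E1.ι)
  set K := K0 + 2 with hKdef
  have hK2 : 2 ≤ K := by omega
  set cc := (cd true).length + (cd false).length with hcc
  set A := (cc + ce.length + 5 * CV + 1) * (c + 1) with hA
  obtain ⟨g1, hg1⟩ := hT1 K 1 hK2
  obtain ⟨g2, hg2⟩ := hT2 K (2 * KU * CN * A) hK2
  obtain ⟨g, hgg1, hgg2, hg3, hg4, hg5, hg6⟩ : ∃ g, g1 ≤ g ∧ g2 ≤ g ∧
      2 * KU * (CN + 3) * (A + 2) ≤ g ∧ A ≤ g ∧ (encU tab).length ≤ g ∧ 2 ≤ g :=
    ⟨g1 + g2 + 2 * KU * (CN + 3) * (A + 2) + A + (encU tab).length + 2,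
      by omega, by omega, by omega, by omega, by omega, by omega⟩
  set z := tw K g with hz
  have hz4 : 4 * (g * g) ≤ z := by
    have h1 : g * g < K ^ (g * g) := Nat.lt_pow_self (by omega)
    have h2 : K ^ (g * g) < 2 ^ K ^ (g * g) := Nat.lt_two_pow_self
    have h3 : 2 ^ K ^ (g * g) < 2 ^ 2 ^ K ^ (g * g) := Nat.lt_two_pow_self
    have h4 : 2 ^ (g * g + 2) ≤ z :=
      Nat.pow_le_pow_right (by norm_num) (by omega)
    have h5 : g * g < 2 ^ (g * g) := Nat.lt_two_pow_self
    rw [pow_add] at h4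
    omega
  have hgz : g ≤ g * g := Nat.le_mul_self g
  have hz3 : z * z ≤ z ^ 3 := by
    have : z ^ 3 = z * z * z := by ring
    rw [this]; exact Nat.le_mul_of_pos_right _ (by omega)
  have hzz : 8 * z ≤ z * z := Nat.mul_le_mul_right _ (by omega)
  obtain ⟨j, hj⟩ : ∃ j, z + (encU tab).length + j + 2 = z ^ 3 :=
    ⟨z ^ 3 - (z + (encU tab).length + 2), by omega⟩
  set x := mkX z (encU tab) j with hx
  have hxl : x.length = z ^ 3 := by rw [hx, length_mkX, hj]
  have hxz : lead x = z := lead_mkX _ _ _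
  have hx0 : x ≠ [] := by
    intro h; rw [h] at hxl; simp at hxl; omega
  set w := x ++ List.replicate (lead x * x.length) false with hw
  have hwl : w.length = (z + 1) * x.length := by rw [hw]; simp [hxz]; ring
  obtain ⟨hUc, hUs⟩ := hU z j (lead x * x.length) x w rfl rfl
  obtain ⟨r, hr1, hr2⟩ := hE1 w
  cases r with
  | true =>
    obtain ⟨gU, -, h2⟩ := hr2.1 rfl
    obtain ⟨ρs, h3, h4⟩ := hUs gU (CU * (w.length + 1)) (by simpa [SM.Halts] using h2)
    obtain ⟨y, n, h5⟩ := (hR x).2 ρs h3 h4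
    obtain ⟨r2, k1, k2⟩ := hE2 (x.flatMap cd ++ ce ++ y)
    have k3 := (hN x y _ r2 k1).unique h5
    obtain ⟨rows, recs, k4, k5⟩ := hV2 x y hx0
    obtain ⟨d, k6, k7⟩ := hc E1 x rows recs _ hx0 hr1
    obtain ⟨n', k8⟩ := k5 (List.replicate d false)
    rw [List.length_replicate, k7] at k8
    have k9 : r2 = true := k2.2 ⟨List.replicate d false, by simp; omega,
      decide_eq_true fun h => by simpa using k8.unique h⟩
    simp [k9] at k3
  | false =>
    have hw1 : z ≤ w.length := by rw [hwl, hxl]; nlinarith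
    have hw2 : w.length ≤ z ^ 5 := by
      rw [hwl, hxl]
      have : z ^ 5 = z * z * z ^ 3 := by ring
      rw [this]; exact Nat.mul_le_mul_right _ (by omega)
    have e1 := hg1 g hgg1 _ hw1 hw2
    have e2 : E1.Halts w [] ((z + 1) * g * x.length) false :=
      hr1.mono (by rw [hwl] at e1 ⊢; nlinarith)
    set P := c * (z + 1) / g + 1 with hP
    have hP1 : c * (z + 1) ≤ P * g := by
      have := Nat.lt_div_mul_add (a := c * (z + 1)) (b := g) (by omega)
      rw [hP]; nlinarith
    have hP2 : P * g ≤ (c + 1) * (z + 1) := by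
      have := Nat.div_mul_le_self (c * (z + 1)) g
      rw [hP]; nlinarith
    have hP0 : 1 ≤ P := by rw [hP]; exact Nat.le_add_left _ _
    have e3 : SegAt E1.ι (5 * Fintype.card E1.ι) ((z + 1) * g) P := by
      refine hG (g * g) _ _ ?_ (by nlinarith)
      have a1 : K0 ^ (g * g) ≤ K ^ (g * g) := Nat.pow_le_pow_left (by omega) _
      have a2 : 2 ^ 2 ^ 2 ^ K0 ^ (g * g) ≤ z :=
        Nat.pow_le_pow_right (by norm_num) (Nat.pow_le_pow_right (by norm_num)
          (Nat.pow_le_pow_right (by norm_num) a1))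
      nlinarith
    obtain ⟨rows, recs, k1, k2, k3⟩ := hs E1 x _ P hx0 e2 e3
    set y := encV rows recs ++ List.replicate (P * x.length) false with hy
    set w' := x.flatMap cd ++ ce ++ y with hw'
    have hyl : y.length ≤ CV * (vsize rows recs + 1) + P * x.length := by
      have := hV1 rows recs
      rw [hy]; simp; omega
    have hyl' : P * x.length ≤ y.length := by rw [hy]; simp
    have hwl' : w'.length ≤ cc * x.length + ce.length + y.length := by
      have := length_flatMap_le cd x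
      rw [← hcc] at this
      rw [hw']; simp only [List.length_append]; omega
    have hwl'' : y.length ≤ w'.length := by rw [hw']; simp only [List.length_append]; omega
    obtain ⟨r2, k4, k5⟩ := hE2 w'
    have k6 : r2 = false := by
      by_contra hne
      obtain ⟨gV, a1, a2⟩ := k5.1 (by simpa using hne)
      have a3 := hV3 x rows recs (P * x.length) w' gV hx0 rfl
      rw [k1] at a3
      refine of_decide_eq_true a2 (a3.mono ?_)
      have a4 : x.length * numA rows recs.length gV.length ≤ w'.length := by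
        have := k2 gV.length
        nlinarith
      nlinarith
    subst k6
    have hPb : x.length ≤ P * x.length := Nat.le_mul_of_pos_left _ hP0
    have b1 : z ≤ w'.length := by omega
    obtain ⟨b4, b5⟩ := arith0 g z x.length w.length P c CV cc ce.length (vsize rows recs)
      y.length w'.length (by omega) hz4 hxl hwl hP0 hP2 k3 hyl hwl'
    rw [← hA] at b4 b5
    have b2 : w'.length ≤ z ^ 5 := by
      have a1 : g * w'.length ≤ g * w.length := by nlinarith
      exact (Nat.le_of_mul_le_mul_left a1 (by omega)).trans hw2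
    have b3 := hg2 g hgg2 _ b1 b2
    obtain ⟨ρs, c1, c2, c3⟩ := (hR x).1 y _ (hN x y _ false k4)
    have c4 := arith1 g x.length w.length A y.length w'.length (T2 w'.length) CN KU ρs.length
      (by rw [hA]; positivity) b4 b5 b3 hg3 c2
    obtain ⟨gU, c5, c6⟩ := hUc ρs c1 c3 c4
    have := hr2.2 ⟨gU, c5, decide_eq_true c6⟩
    simp at this

end Pool.Agent.MP_8c2300_lc.PP

end MrgPart0

-- ======== part 1: formerly Pool.Agent.MP_8c2300_lc.pp.Compile
section MrgPart1

/-! PROJECT PPST: structured programs are stack machines. -/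

namespace Pool.Agent.MP_8c2300_lc.PP

namespace Compile

variable {ι Γ V : Type}

/-- Rename the next state of an instruction. -/
def ren {Q Q' : Type} (f : Q → Q') : Act ι Γ Q → Act ι Γ Q'
  | .push i γ q => .push i γ (f q)
  | .pop i g => .pop i fun o => f (g o)
  | .goto q => .goto (f q)

theorem run_ren [DecidableEq ι] {Q Q' : Type} (f : Q → Q') (a : Act ι Γ Q) (S : ι → List Γ) :
    (ren f a).run S = (f (a.run S).1, (a.run S).2) := by
  cases a <;> rfl

/-- The list of components of a sequential composition. -/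
def flat : Prog ι Γ V → List (Prog ι Γ V)
  | .seq p q => flat p ++ flat q
  | .act f => [.act f]
  | .ite c p q => [.ite c p q]
  | .loop c p => [.loop c p]

open Classical in
/-- The next instruction of the machine whose control holds the list of remaining programs. -/
noncomputable def nx : List (Prog ι Γ V) → V → Act ι Γ (V × List (Prog ι Γ V))
  | [], v => .goto (v, [])
  | .act f :: ks, v => ren (fun w => (w, ks)) (f v)
  | .seq _ _ :: _, v => .goto (v, [])
  | .ite c p q :: ks, v => .goto (v, if c v then flat p ++ ks else flat q ++ ks)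
  | .loop c p :: ks, v => .goto (v, if c v then flat p ++ .loop c p :: ks else ks)

/-- The lists of programs that occur while `p` runs before `ks`. -/
def reach : Prog ι Γ V → List (Prog ι Γ V) → List (List (Prog ι Γ V))
  | .act f, ks => [.act f :: ks]
  | .seq p q, ks => reach p (flat q ++ ks) ++ reach q ks
  | .ite c p q, ks => (.ite c p q :: ks) :: (reach p ks ++ reach q ks)
  | .loop c p, ks => (.loop c p :: ks) :: reach p (.loop c p :: ks)

theorem flat_mem (p : Prog ι Γ V) (ks : List (Prog ι Γ V)) : flat p ++ ks ∈ reach p ks := by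
  induction p generalizing ks with
  | act f => simp [flat, reach]
  | seq p q ih _ => exact List.mem_append_left _ (by simpa [flat] using ih (flat q ++ ks))
  | ite c p q => simp [flat, reach]
  | loop c p => simp [flat, reach]

variable [DecidableEq ι]

theorem reach_closed (p : Prog ι Γ V) (ks l : List (Prog ι Γ V)) (h : l ∈ reach p ks) (v : V)
    (S : ι → List Γ) : ((nx l v).run S).1.2 = ks ∨ ((nx l v).run S).1.2 ∈ reach p ks := by
  induction p generalizing ks with
  | act f =>
    obtain rfl := List.mem_singleton.1 h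
    exact Or.inl (by rw [nx, run_ren])
  | seq p q ih ih' =>
    rcases List.mem_append.1 h with h | h
    · exact Or.inr ((ih _ h).elim (fun e => List.mem_append_right _ (e ▸ flat_mem q ks))
        (List.mem_append_left _))
    · exact (ih' _ h).imp id (List.mem_append_right _)
  | ite c p q ih ih' =>
    rcases List.mem_cons.1 h with rfl | h
    · refine Or.inr (List.mem_cons_of_mem _ ?_)
      simp only [nx, Act.run]
      split_ifs
      exacts [List.mem_append_left _ (flat_mem p ks), List.mem_append_right _ (flat_mem q ks)]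
    · rcases List.mem_append.1 h with h | h
      · exact (ih _ h).imp id fun k => List.mem_cons_of_mem _ (List.mem_append_left _ k)
      · exact (ih' _ h).imp id fun k => List.mem_cons_of_mem _ (List.mem_append_right _ k)
  | loop c p ih =>
    rcases List.mem_cons.1 h with rfl | h
    · simp only [nx, Act.run]
      split_ifs
      exacts [Or.inr (List.mem_cons_of_mem _ (flat_mem p _)), Or.inl rfl]
    · exact Or.inr ((ih _ h).elim (fun e => e ▸ List.mem_cons_self) (List.mem_cons_of_mem _))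

/-- One step. -/
noncomputable def st (σ : (V × List (Prog ι Γ V)) × (ι → List Γ)) :
    (V × List (Prog ι Γ V)) × (ι → List Γ) := (nx σ.1.2 σ.1.1).run σ.2

theorem exec_st {p : Prog ι Γ V} {σ σ' : V × (ι → List Γ)} {n : ℕ} (h : Exec p σ σ' n)
    (ks : List (Prog ι Γ V)) :
    ∃ m ≤ n, st^[m] ((σ.1, flat p ++ ks), σ.2) = ((σ'.1, ks), σ'.2) := by
  induction h generalizing ks with
  | act f σ => exact ⟨1, le_rfl, run_ren _ _ _⟩
  | @seq p q σ σ' σ'' m n _ _ ih ih' =>
    obtain ⟨a, h1, h2⟩ := ih (flat q ++ ks)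
    obtain ⟨b, h3, h4⟩ := ih' ks
    exact ⟨b + a, by omega, by rw [Function.iterate_add_apply, flat, List.append_assoc, h2, h4]⟩
  | @iteT c p q σ σ' n hc _ ih =>
    obtain ⟨a, h1, h2⟩ := ih ks
    refine ⟨a + 1, by omega, ?_⟩
    rw [Function.iterate_succ_apply, ← h2]
    simp [st, flat, nx, Act.run, hc]
  | @iteF c p q σ σ' n hc _ ih =>
    obtain ⟨a, h1, h2⟩ := ih ks
    refine ⟨a + 1, by omega, ?_⟩
    rw [Function.iterate_succ_apply, ← h2]
    simp [st, flat, nx, Act.run, hc]
  | @loopF c p σ hc => exact ⟨1, le_rfl, by simp [st, flat, nx, Act.run, hc]⟩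
  | @loopT c p σ σ' σ'' m n hc _ _ ih ih' =>
    obtain ⟨a, h1, h2⟩ := ih (.loop c p :: ks)
    obtain ⟨b, h3, h4⟩ := ih' ks
    refine ⟨b + a + 1, by omega, ?_⟩
    rw [Function.iterate_succ_apply, Function.iterate_add_apply, ← h4]
    simp [st, flat, nx, Act.run, hc, h2]
  | weak _ h ih =>
    obtain ⟨a, h1, h2⟩ := ih ks
    exact ⟨a, h1.trans h, h2⟩

end Compile

open Compile in
theorem compile : CompileStmt := by
  intro ι Γ V _ _ _ _ i0 i1 hi inp hinp p v0 o
  classical
  let K := {l // l ∈ [] :: reach p []}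
  have : Finite K := (List.finite_toSet ([] :: reach p [])).to_subtype
  let ρ : List (Prog ι Γ V) → K := fun l =>
    if h : l ∈ [] :: reach p [] then ⟨l, h⟩ else ⟨[], List.mem_cons_self⟩
  let D : SM :=
    { ι := ι, Γ := Γ, Q := V × K, finι := inferInstance, decι := inferInstance
      finΓ := inferInstance, finQ := inferInstance, in0 := i0, in1 := i1, in_ne := hi
      inp := inp, inp_inj := hinp
      start := (v0, ⟨flat p ++ [], List.mem_cons_of_mem _ (flat_mem p [])⟩)
      act := fun z => ren (fun w => (w.1, ρ w.2)) (nx z.2.1 z.1)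
      out := fun z => if z.2.1 = [] then some (o z.1) else none }
  let φ : D.Cf → (V × List (Prog ι Γ V)) × (ι → List Γ) := fun c => ((c.1.1, c.1.2.1), c.2)
  have hφ : Function.Semiconj φ D.step st := fun c => by
    obtain ⟨⟨v, l, hl⟩, S⟩ := c
    by_cases h : l = []
    · subst h
      rw [D.step_of_out (r := o v) (by simp [D])]
      rfl
    · rw [D.step_of_none (if_neg h)]
      have h1 : ((nx l v).run S).1.2 ∈ [] :: reach p [] :=
        List.mem_cons.2 (reach_closed p [] l ((List.mem_cons.1 hl).resolve_left h) v S)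
      change φ ((ren (fun w => (w.1, ρ w.2)) (nx l v)).run S) = (nx l v).run S
      rw [run_ren]
      simp only [φ, ρ, dif_pos h1]
  refine ⟨D, fun x y v S n h => ?_⟩
  obtain ⟨m, h1, h2⟩ := exec_st h []
  refine SM.Halts.mono (n := m) ?_ h1
  have h3 := (hφ.iterate_right m (D.init x y)).trans h2
  have h4 : (D.step^[m] (D.init x y)).1.1 = v := congrArg (fun z => z.1.1) h3
  have h5 : (D.step^[m] (D.init x y)).1.2.1 = [] := congrArg (fun z => z.1.2) h3
  exact (if_pos h5).trans (congrArg (fun w => some (o w)) h4)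

end Pool.Agent.MP_8c2300_lc.PP

end MrgPart1

-- ======== part 2: formerly Pool.Agent.MP_8c2300_lc.pp.Clock
section MrgPart2

/-! PROJECT PPST: clocked simulation and the negating front end. -/

namespace Pool.Agent.MP_8c2300_lc.PP

open Function

namespace Clock

variable (E : SM)

/-- one simulated step on the left stacks -/
def sim : Pr (E.ι ⊕ Bool) E.Γ E.Q := simStep E Sum.inl id some Prod.fst fun v q => (q, v.2)

theorem exec_sim (c : E.Cf) (r : Option E.Γ) (U : Bool → List E.Γ) :
    Exec (sim E) ((c.1, r), Sum.elim c.2 U) (((E.step c).1, r), Sum.elim (E.step c).2 U) 1 := by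
  obtain ⟨S, h1, h2, h3⟩ := exec_simStep E (φ := (Sum.inl : E.ι → E.ι ⊕ Bool)) Sum.inl_injective
    (ψ := id) (χ := some) (fun _ => rfl) Prod.fst (fun (v : E.Q × Option E.Γ) q => (q, v.2))
    (c.1, r) rfl (Sum.elim c.2 U) c.2 (by simp)
  refine h1.of_eq ?_ le_rfl
  congr 1
  funext x
  rcases x with i | b
  · simpa using h2 i
  · exact h3 _ (by simp)

theorem exec_sims (k : ℕ) (c : E.Cf) (r : Option E.Γ) (U : Bool → List E.Γ) :
    Exec (rep (sim E) k) ((c.1, r), Sum.elim c.2 U)
      (((E.step^[k] c).1, r), Sum.elim (E.step^[k] c).2 U) (k + 1) := by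
  have := exec_rep (sim E) 1 k (fun n => (((E.step^[n] c).1, r), Sum.elim (E.step^[n] c).2 U))
    fun n _ => by simpa only [iterate_succ_apply'] using exec_sim E (E.step^[n] c) r U
  simpa using this

theorem exec_run (n : ℕ) : ∀ (c : E.Cf) (r : Option E.Γ) (U : Bool → List E.Γ) (b : Bool),
    E.out (E.step^[n] c).1 = some b → ∃ q S, E.out q = some b ∧
      Exec (.loop (fun v => E.out v.1 = none) (sim E)) ((c.1, r), Sum.elim c.2 U) ((q, r), S)
        (2 * n + 1) := by
  induction n with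
  | zero => exact fun c r U b h => ⟨_, _, h, Exec.loopF (by simp [show E.out c.1 = _ from h])⟩
  | succ n ih =>
    intro c r U b h
    cases ho : E.out c.1 with
    | some b' =>
      rw [E.iter_of_out ho] at h
      exact ⟨_, _, h, (Exec.loopF (by simp [ho])).weak (by omega)⟩
    | none =>
      obtain ⟨q, S, h1, h2⟩ := ih (E.step c) r U b h
      exact ⟨q, S, h1, (Exec.loopT (σ := ((c.1, r), _)) ho (exec_sim E c r U) h2).weak (by omega)⟩

variable {ι Γ W : Type} [DecidableEq ι]

/-- pop bits from `i` and push their codes on `j` -/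
def encP (i j : ι) (inp : Bool → Γ) (cd : Bool → List Γ) : Pr ι Γ W :=
  whileP i (fun _ => True)
    (.ite (fun v => v.2 = some (inp true)) (pushL j (cd true)) (pushL j (cd false)))

theorem exec_encP {i j : ι} (hij : i ≠ j) {inp : Bool → Γ} (hinp : Injective inp)
    (cd : Bool → List Γ) (u : List Bool) (w : W) (r : Option Γ) (S : ι → List Γ)
    (hS : S i = u.map inp) :
    Exec (encP i j inp cd) ((w, r), S)
      ((w, none), update (update S i []) j (u.reverse.flatMap cd ++ S j))
      (((cd true).length + (cd false).length + 4) * u.length + 2) := by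
  induction u generalizing S r with
  | nil =>
    refine (whileP_stop i _ _ _ r S (by simp [hS])).of_eq ?_ (by simp)
    simp only [hS, List.map_nil, List.head?_nil, List.tail_nil, List.reverse_nil, List.flatMap_nil,
      List.nil_append, Prod.mk.injEq, true_and]
    funext x
    by_cases hx : x = j
    · subst hx; simp [update_of_ne hij.symm]
    · simp [update_of_ne hx]
  | cons a u ih =>
    have h := ih (some (inp a)) (update (update S i (u.map inp)) j (cd a ++ S j))
      (by simp [update_of_ne hij])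
    unfold encP at h ⊢
    refine (whileP_cons (r := r) (γ := inp a) (l := u.map inp)
      (m := (cd true).length + (cd false).length + 2) (by simpa using hS) trivial ?_ h).of_eq ?_
      (by simp only [List.length_cons]; nlinarith)
    · cases a
      · exact (Exec.iteF (by simp [hinp.eq_iff]) (exec_pushL _ _ _ _)).of_eq
          (by simp [update_of_ne hij.symm]) (by omega)
      · exact (Exec.iteT (by simp) (exec_pushL _ _ _ _)).of_eq
          (by simp [update_of_ne hij.symm]) (by omega)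
    · simp only [Prod.mk.injEq, true_and]
      funext x
      by_cases hx : x = j
      · subst hx; simp
      · by_cases hy : x = i
        · subst hy; simp [update_of_ne hx]
        · simp [update_of_ne hx, update_of_ne hy]

end Clock

open Clock

theorem clock (h : CompileStmt) : ClockStmt := by
  intro D c o
  obtain ⟨D', hD⟩ := h (D.ι ⊕ Bool) D.Γ (D.Q × Option D.Γ) (.inl D.in0) (.inl D.in1)
    (by simpa using D.in_ne) D.inp D.inp_inj
    (.seq (mv2 (.inl D.in0) (.inr false) (.inr true) id fun _ => D.inp false)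
      (.seq (mv (.inr false) (.inl D.in0)) (.seq (push (.inr true) (D.inp false))
        (whileP (.inr true) (fun _ => True) (rep (sim D) c)))))
    (D.start, none) fun v => o (D.out v.1)
  refine ⟨D', c + 10, fun w g => ?_⟩
  have h4 := whileP_count (.inr true) (fun _ => True) (rep (sim D) c) (c + 1) (w.length + 1)
    (fun n => ((D.step^[c * n] (D.init w g)).1, Sum.elim (D.step^[c * n] (D.init w g)).2
      fun b => if b then List.replicate (w.length + 1 - n) (D.inp false) else []))
    (fun n hn => ⟨D.inp false, List.replicate (w.length - n) (D.inp false), some (D.inp false), by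
      simp [show w.length + 1 - n = w.length - n + 1 by omega, List.replicate_succ], trivial, by
      have := exec_sims D c (D.step^[c * n] (D.init w g)) (some (D.inp false))
        fun b => if b then List.replicate (w.length - n) (D.inp false) else []
      rw [← iterate_add_apply, show c + c * n = c * (n + 1) by ring] at this
      convert this using 2
      · funext x
        rcases x with i | _ | _ <;> simp
      · simp⟩) (by simp) none
  refine hD w g (_, _) _ _ (((exec_mv2 (by simp) (by simp) (by simp) _ _ _ _ _).seq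
    ((exec_mv (by simp) _ _ _).seq ((exec_push _ _ _ _).seq (by
      convert h4 using 2
      · rfl
      funext x
      rcases x with i | _ | _
      · by_cases hi : i = D.in0
        · simp [hi, initS, SM.init]
        · simp [hi, initS, SM.init]
      · simp
      · simp [initS, List.replicate_succ, Function.comp_def])))).weak ?_)
  simp [initS]
  nlinarith

theorem nprog (h : CompileStmt) : NStmt := by
  intro E cd ce
  obtain ⟨D, hD⟩ := h (E.ι ⊕ Bool) E.Γ (E.Q × Option E.Γ) (.inr false) (.inl E.in0)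
    (by simp) E.inp E.inp_inj
    (.seq (mv (.inr false) (.inr true)) (.seq (pushL (.inl E.in0) (ce.map E.inp))
      (.seq (encP (.inr true) (.inl E.in0) E.inp fun b => (cd b).map E.inp)
        (.loop (fun v => E.out v.1 = none) (sim E)))))
    (E.start, none) fun v => !(E.out v.1).getD false
  refine ⟨D, (cd true).length + (cd false).length + ce.length + 7, fun x y n r hE => ?_⟩
  obtain ⟨q, S, h1, h2⟩ := exec_run E n _ none (fun _ => []) r hE
  have h3 := hD x y (q, none) S _ ((exec_mv (by simp) _ _ _).seq ((exec_pushL _ _ _ _).seq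
    ((exec_encP (by simp) E.inp_inj _ x.reverse _ _ _ (by simp [initS])).seq (by
      convert h2 using 2
      · rfl
      funext z
      rcases z with i | _ | _
      · by_cases hi : i = E.in0
        · simp [hi, initS, SM.init, List.map_flatMap]
        · simp [hi, initS, SM.init]
      · simp
      · simp))))
  simp only [h1, Option.getD_some] at h3
  refine h3.mono ?_
  simp [initS]
  nlinarith [Nat.zero_le ((cd true).length * (y.length + n)),
    Nat.zero_le ((cd false).length * (y.length + n)),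
    Nat.zero_le (ce.length * (x.length + y.length + n))]

end Pool.Agent.MP_8c2300_lc.PP

end MrgPart2

-- ======== part 3: formerly Pool.Agent.MP_8c2300_lc.pp.VImpl
section MrgPart3

/-! PROJECT PPST, module VIMPL, part D: initial phase and the theorem. -/

namespace Pool.Agent.MP_8c2300_lc.PP.VI

open Function

variable {E : SM} {N : ℕ}

def isRaw : Sy E → Prop
  | .raw _ => True
  | _ => False

def isRF : Sy E → Prop
  | .raw _ => True
  | .fin => True
  | _ => False

def toSym : Sy E → Sy E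
  | .raw b => .sym (E.inp b)
  | c => c

theorem isRaw_map (l : List Bool) : ∀ γ ∈ l.map (Sy.raw (E := E)), isRaw γ := by
  intro γ h
  obtain ⟨x, -, rfl⟩ := List.mem_map.1 h
  trivial

/-! ### Reading `x` -/

def initX : P E N :=
  .seq (mv2W .y .u (.i E.in0) (fun c => c = .raw true) id fun _ => .zer) (.seq (pushReg .y id)
    (.seq (mv .u .y) (.seq (mv2W .y .u .k isRaw toSym fun _ => .stop)
      (.seq (push (.i E.in0) .fin) (.seq (mv .u (.i E.in0)) (push (.i E.in0) .fin))))))

theorem run_initX (x : List Bool) (s g : List (Sy E)) (c : Ct E) :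
    Run (initX : P E N) c
      (mk (x.map .raw ++ .fin :: s) g [] [] [] [] [] [] [] [] (fun _ => []) fun _ => []) c
      (mk s g (toks E x.length) [] [] [] [] [] [] [] (fun _ => [])
        fun j => encIs ((vinit E x).its j)) (14 * x.length + 11) := by
  intro sc r
  obtain ⟨γ, l2, h1, h2⟩ : ∃ γ l2, (x.dropWhile fun b => b).map Sy.raw ++ .fin :: s = γ :: l2 ∧
      γ ≠ (Sy.raw true : Sy E) := by
    cases h : x.dropWhile fun b => b with
    | nil => exact ⟨_, _, rfl, by simp⟩
    | cons a l =>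
      have := List.head?_dropWhile_not (fun b => b) x
      rw [h] at this
      exact ⟨_, _, rfl, by simpa using this⟩
  have e : x.map Sy.raw ++ .fin :: s = (x.takeWhile fun b => b).map Sy.raw ++ γ :: l2 := by
    rw [← h1, ← List.append_assoc, ← List.map_append, List.takeWhile_append_dropWhile]
  have a1 := exec_mv2W (W := Ct E × Scr E N) (i := St.y) (j := .u) (k := .i E.in0) (by simp)
    (by simp) (by simp) (fun c => c = .raw true) id (fun _ => Sy.zer (E := E))
    ((x.takeWhile fun b => b).map Sy.raw) (γ :: l2) (c, sc) r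
    (mk (x.map Sy.raw ++ .fin :: s) g [] [] [] [] [] [] [] [] (fun _ => []) fun _ => []) e
    (fun γ h => by
      obtain ⟨b, hb, rfl⟩ := List.mem_map.1 h
      rw [show b = true from List.mem_takeWhile_imp (p := fun b => b) hb]) (by simpa using h2)
  have a2 := exec_mv2W (W := Ct E × Scr E N) (i := St.y) (j := .u) (k := .k) (by simp)
    (by simp) (by simp) isRaw toSym (fun _ => .stop) _ (.fin :: s) (c, sc) none
    (mk (x.map .raw ++ .fin :: s) g [] [] [] [] [] [] [] [] (fun _ => [])
      (update (fun _ => []) E.in0 (List.replicate (lead x) .zer))) rfl (isRaw_map x)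
    (by simp [isRaw])
  have hl : lead x ≤ x.length := (List.takeWhile_prefix _).length_le
  refine ⟨sc, none, (a1.seq ((exec_pushReg _ _ _ _ _).seq (((exec_mv (by simp) _ _ _).of_eq ?_
    le_rfl).seq (a2.seq ((exec_push _ _ _ _).seq ((exec_mv (by simp) _ _ _).seq
      (exec_push _ _ _ _))))))).of_eq ?_ ?_⟩
  · simp [e, lead, List.map_const', Function.comp_def]
  · simp only [up_y, up_u, up_k, up_i, mk_u, mk_k, mk_i, List.tail_cons, update_self, update_idem,
      List.append_nil, List.reverse_reverse, Prod.mk.injEq, true_and]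
    congr 1
    · simp [toks, List.map_const', Function.comp_def]
    · funext j
      by_cases hj : j = E.in0
      · subst hj
        simp [vinit, encIs, encI, toSym, List.flatMap_replicate, Function.comp_def]
      · simp [vinit, encIs, hj]
  · simp only [lead] at hl
    simp; omega

/-! ### Rows -/

/-- The stream `s` is read as the rows `rows`, followed by `rest`. -/
inductive Rows : List (Sy E) → List (List Bool) → List (Sy E) → Prop
  | cons (l : List Bool) (s : List (Sy E)) (rows : List (List Bool)) (rest : List (Sy E)) :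
      Rows s rows rest → Rows (l.map .raw ++ .fin :: s) (l :: rows) rest
  | last (l : List Bool) (tl : List (Sy E)) : (∀ c, tl.head? = some c → ¬ isRF c) →
      Rows (l.map .raw ++ tl) [l] tl.tail
  | nil (tl : List (Sy E)) : (∀ c, tl.head? = some c → ¬ isRF c) → Rows tl [] tl.tail

theorem not_raw_of {tl : List (Sy E)} (h : ∀ c, tl.head? = some c → ¬ isRF c) :
    (∀ c, tl.head? = some c → ¬ isRaw c) ∧ tl.head? ≠ some .fin :=
  ⟨fun c hc hr => h c hc (by cases c <;> trivial), fun e => h _ e trivial⟩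

theorem Rows.head {s rest : List (Sy E)} {rows : List (List Bool)} (h : Rows s rows rest) :
    ∃ tl s', s = (rows.headD []).map .raw ++ tl ∧ (∀ c, tl.head? = some c → ¬ isRaw c) ∧
      Rows s' rows.tail rest ∧ (tl = .fin :: s' ∨ (tl.head? ≠ some .fin ∧ s' = tl)) := by
  cases h with
  | cons l s rows rest h => exact ⟨.fin :: s, s, rfl, by simp [isRaw], h, Or.inl rfl⟩
  | last l tl h => exact ⟨tl, tl, rfl, (not_raw_of h).1, .nil tl h, Or.inr ⟨(not_raw_of h).2, rfl⟩⟩
  | nil _ h => exact ⟨s, s, rfl, (not_raw_of h).1, .nil s h, Or.inr ⟨(not_raw_of h).2, rfl⟩⟩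

theorem Rows.fin {s rest : List (Sy E)} {rows : List (List Bool)} (h : Rows s rows rest) :
    ∃ pre tl, s = pre ++ tl ∧ (∀ c ∈ pre, isRF c) ∧ (∀ c, tl.head? = some c → ¬ isRF c) ∧
      rest = tl.tail := by
  have hr : ∀ l : List Bool, ∀ c ∈ l.map (Sy.raw (E := E)), isRF c := by
    intro l γ h
    obtain ⟨x, -, rfl⟩ := List.mem_map.1 h
    trivial
  induction h with
  | cons l s rows rest _ ih =>
    obtain ⟨pre, tl, rfl, h1, h2, h3⟩ := ih
    refine ⟨l.map .raw ++ .fin :: pre, tl, by simp, fun c hc => ?_, h2, h3⟩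
    rcases List.mem_append.1 hc with h | h
    · exact hr l c h
    · rcases List.mem_cons.1 h with rfl | h
      exacts [trivial, h1 c h]
  | last l tl h => exact ⟨_, tl, rfl, hr l, h, rfl⟩
  | nil tl h => exact ⟨[], tl, rfl, by simp, h, rfl⟩

theorem exists_Rows (n : ℕ) : ∀ s : List (Sy E), s.length ≤ n → ∃ rows rest, Rows s rows rest := by
  induction n with
  | zero =>
    intro s h
    obtain rfl : s = [] := List.length_eq_zero_iff.1 (by omega)
    exact ⟨[], _, .nil _ (by simp)⟩
  | succ n ih =>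
    intro s h
    obtain ⟨l, tl, rfl, h1, h2⟩ := split_while isRaw s
    obtain ⟨l', rfl⟩ : ∃ l' : List Bool, l = l'.map .raw := by
      clear h2 h
      induction l with
      | nil => exact ⟨[], rfl⟩
      | cons a l ih =>
        obtain ⟨l', rfl⟩ := ih fun x h => h1 x (by simp [h])
        have := h1 a (by simp)
        cases a <;> first | exact this.elim | exact ⟨_ :: l', rfl⟩
    by_cases hf : tl.head? = some .fin
    · obtain ⟨s', rfl⟩ : ∃ s', tl = .fin :: s' := by
        cases tl with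
        | nil => simp at hf
        | cons a s' => exact ⟨s', by simp at hf; rw [hf]⟩
      obtain ⟨rows, rest, h3⟩ := ih s' (by simp at h; omega)
      exact ⟨_, _, .cons l' s' rows rest h3⟩
    · refine ⟨_, _, .last l' tl fun c hc hr => ?_⟩
      have := h2 c hc
      cases c <;> first | exact hr.elim | exact this trivial | exact hf hc

def encRows (E : SM) (rows : List (List Bool)) : List (Sy E) :=
  (rows.flatMap fun l => l.map .raw ++ [.fin]) ++ [.stop]

theorem Rows_enc (rows : List (List Bool)) (rest : List (Sy E)) :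
    Rows (encRows E rows ++ rest) rows rest := by
  induction rows with
  | nil => exact .nil (.stop :: rest) (by simp [isRF])
  | cons l rows ih =>
    have := Rows.cons l _ _ _ ih
    simpa [encRows] using this

def backP : P E N := .ite (fun v => v.2 = some .fin) skip (pushReg .y id)

theorem exec_backP {tl s' : List (Sy E)} (h : tl = .fin :: s' ∨ (tl.head? ≠ some .fin ∧ s' = tl))
    (W : Ct E × Scr E N) (g k k' t u v w a d : List (Sy E)) (s i : E.ι → List (Sy E)) :
    Exec backP ((W, tl.head?), mk tl.tail g k k' t u v w a d s i)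
      ((W, tl.head?), mk s' g k k' t u v w a d s i) 2 := by
  rcases h with rfl | ⟨h, rfl⟩
  · exact Exec.iteT rfl (exec_skip _)
  · cases s' with
    | nil => exact Exec.iteF h (exec_pushReg_none _ _ _ _)
    | cons c s' => exact Exec.iteF h ((exec_pushReg _ _ _ _ _).of_eq (by simp) le_rfl)

theorem back_len {tl s' : List (Sy E)} (h : tl = .fin :: s' ∨ (tl.head? ≠ some .fin ∧ s' = tl)) :
    s'.length ≤ tl.length := by
  rcases h with rfl | ⟨-, rfl⟩ <;> simp

def rowLoop : P E N :=
  whileP .g (fun _ => True) (.seq (push .d (.raw false)) (.seq (dropW .y isRaw) backP))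

theorem run_rowLoop (k rest : List (Sy E)) (s0 i : E.ι → List (Sy E)) (c : Ct E)
    (g : List (Sy E)) : ∀ (s d : List (Sy E)) (rows : List (List Bool)), Rows s rows rest →
    ∃ s' n, Rows s' (rows.drop g.length) rest ∧ s'.length ≤ s.length ∧
      n + 3 * s'.length ≤ 3 * s.length + 7 * g.length + 2 ∧
      Run (rowLoop : P E N) c (mk s g k [] [] [] [] [] [] d s0 i) c
        (mk s' [] k [] [] [] [] [] [] (List.replicate g.length (.raw false) ++ d) s0 i) n := by
  induction g with
  | nil =>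
    intro s d rows h
    exact ⟨s, 2, h, le_rfl, by simp; omega, fun sc r =>
      ⟨sc, none, (whileP_stop _ _ _ _ r _ (by simp)).of_eq (by simp) le_rfl⟩⟩
  | cons γ g ih =>
    intro s d rows h
    obtain ⟨tl, s1, rfl, h1, h2, h3⟩ := h.head
    obtain ⟨s', n, a1, a2, a3, a4⟩ := ih s1 (.raw false :: d) rows.tail h2
    have l1 := back_len h3
    refine ⟨s', (1 + ((3 * (rows.headD []).length + 2) + 2)) + n + 2, by simpa using a1,
      by simp; omega, by simp only [List.length_append, List.length_map, List.length_cons]; omega,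
      fun sc r => ?_⟩
    obtain ⟨sc', r', a5⟩ := a4 sc tl.head?
    have a6 := exec_dropW (W := Ct E × Scr E N) St.y isRaw _ tl (c, sc) (some γ)
      (mk ((rows.headD []).map .raw ++ tl) g k [] [] [] [] [] [] (.raw false :: d) s0 i) rfl
      (isRaw_map _) h1
    rw [up_y, List.length_map] at a6
    refine ⟨sc', r', (whileP_cons (i := St.g) (r := r) (γ := γ) (l := g) rfl trivial
      (((exec_push _ _ _ _).of_eq (by simp) (le_refl 1)).seq
        (a6.seq (exec_backP h3 _ _ _ _ _ _ _ _ _ _ _ _))) a5).of_eq ?_ le_rfl⟩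
    simp [List.replicate_succ']

def selP : P E N :=
  .seq (mvW .y .t isRaw id) (.seq backP (.seq (mv .t .a) (dropW .y isRF)))

theorem run_selP (k d : List (Sy E)) (s0 i : E.ι → List (Sy E)) (c : Ct E)
    {s rest : List (Sy E)} {rows : List (List Bool)} (h : Rows s rows rest) :
    rest.length ≤ s.length ∧ Run (selP : P E N) c (mk s [] k [] [] [] [] [] [] d s0 i) c
      (mk rest [] k [] [] [] [] [] ((rows.headD []).map .raw) d s0 i) (9 * s.length + 8) := by
  obtain ⟨tl, s1, rfl, h1, h2, h3⟩ := h.head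
  obtain ⟨pre, tl', rfl, h4, h5, rfl⟩ := h2.fin
  have l1 := back_len h3
  refine ⟨by simp at l1 ⊢; omega, fun sc r => ?_⟩
  have a1 := exec_mvW (W := Ct E × Scr E N) (i := St.y) (j := .t) (by simp) isRaw id _ tl (c, sc) r
    (mk ((rows.headD []).map .raw ++ tl) [] k [] [] [] [] [] [] d s0 i) rfl (isRaw_map _) h1
  simp only [up_y, up_t, mk_t, List.map_id, List.append_nil, List.length_map] at a1
  have a2 := exec_dropW (W := Ct E × Scr E N) St.y isRF pre tl' (c, sc) none
    (mk (pre ++ tl') [] k [] [] [] [] [] ((rows.headD []).map .raw) d s0 i) rfl h4 h5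
  refine ⟨sc, _, (a1.seq ((exec_backP h3 _ _ _ _ _ _ _ _ _ _ _ _).seq
    (((exec_mv (by simp) _ _ _).of_eq (by simp) le_rfl).seq a2))).of_eq (by rw [up_y]) ?_⟩
  simp only [mk_t, List.length_append, List.length_map, List.length_reverse] at l1 ⊢
  omega

/-! ### The whole program -/

noncomputable def top (sy : Fin (N + 1) → Sy E) : P E N :=
  .seq (decodeP .y .t .raw sy (fun w => w.2.c) fun w c => (w.1, { w.2 with c := c }))
    (.seq (mv .t .y) (.seq initX (.seq (push .d (.raw true)) (.seq rowLoop (.seq selP mainP)))))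

theorem cntA_eq (b : ℕ) (rows : List (List Bool)) (n d : ℕ) :
    cntA b (abit rows d) n = b * numA rows n d := by
  simp [cntA, numA, ab, Finset.sum_ite, mul_comm]

open Classical in
theorem exec_top (sy : Fin (N + 1) → Sy E) (u x g : List Bool) (s rest : List (Sy E))
    (rows : List (List Bool)) (recs : List (Rec E)) (hu : dec sy 0 u = x.map .raw ++ .fin :: s)
    (h1 : Rows s rows rest) (h2 : Recs rest recs) :
    ∃ v S, Exec (top sy) (((⟨E.start, E.start, fun _ => 0, false, False⟩, ⟨False, none, 0⟩), none),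
        initS St.y St.g (u.map .raw) (g.map .raw)) (v, S)
        ((272 * (js E).length + 300) *
          (u.length + g.length + 1 + x.length * numA rows recs.length g.length)) ∧
      decide (v.1.1.bad ∨ E.out v.1.1.q ≠ some false) = ref E x rows recs g.length := by
  set c0 : Ct E := ⟨E.start, E.start, fun _ => 0, false, False⟩ with hc0
  have e0 : initS St.y St.g (u.map (Sy.raw (E := E))) (g.map .raw) =
      mk (u.map .raw) (g.map .raw) [] [] [] [] [] [] [] [] (fun _ => []) fun _ => [] := by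
    funext z; cases z <;> simp [initS]
  obtain ⟨c', a1⟩ := exec_decodeP (W := Ct E × Scr E N) (i := St.y) (j := .t) (by simp)
    (raw := Sy.raw) (fun _ _ h => by injection h) sy (get := fun w => w.2.c)
    (put := fun w c => (w.1, { w.2 with c := c })) (fun _ _ => rfl) (fun _ _ _ => rfl) u
    (c0, ⟨False, none, 0⟩) 0 none
    (mk (u.map .raw) (g.map .raw) [] [] [] [] [] [] [] [] (fun _ => []) fun _ => []) rfl
  simp only [up_y, up_t, mk_t, List.append_nil] at a1
  have a2 := run_mv (N := N) (i := St.t) (j := .y) (by simp) c0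
    (mk [] (g.map .raw) [] [] (dec sy 0 u).reverse [] [] [] [] [] (fun _ => []) fun _ => [])
  simp only [up_y, up_t, mk_t, mk_y, List.append_nil, List.reverse_reverse,
    List.length_reverse] at a2
  have l0 := length_dec_le sy 0 u
  rw [hu] at a1 a2 l0
  have a3 := run_initX (N := N) x s (g.map .raw) c0
  have a4 : Run (push .d (.raw true) : P E N) c0
      (mk s (g.map .raw) (toks E x.length) [] [] [] [] [] [] [] (fun _ => [])
        fun j => encIs ((vinit E x).its j)) c0
      (mk s (g.map .raw) (toks E x.length) [] [] [] [] [] [] [.raw true] (fun _ => [])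
        fun j => encIs ((vinit E x).its j)) 1 :=
    fun sc r => ⟨sc, r, (exec_push _ _ _ _).of_eq (by simp) le_rfl⟩
  obtain ⟨s', n, b1, b2, b3, a5⟩ := run_rowLoop (N := N) (toks E x.length) rest (fun _ => [])
    (fun j => encIs ((vinit E x).its j)) c0 (g.map .raw) s [.raw true] rows h1
  obtain ⟨b4, a6⟩ := run_selP (N := N) (toks E x.length)
    (List.replicate (g.map (Sy.raw (E := E))).length (.raw false) ++ [.raw true]) (fun _ => [])
    (fun j => encIs ((vinit E x).its j)) c0 b1
  obtain ⟨c1, S1, a7, b5, b6⟩ := run_mainP (N := N) x.length [] h2 (vinit E x) c0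
    (rows.getD g.length []) (List.replicate g.length false ++ [true]) (abit rows g.length) rfl
    fun i => by
      rw [abit]
      congr 1
      rcases lt_trichotomy i g.length with h | h | h
      · simp [List.getD_eq_getElem?_getD, List.getElem?_append_left, h, h.ne]
      · simp [h]
      · rw [List.getD_eq_default _ _ (by simp; omega)]; simp [h.ne']
  have e1 : (rows.drop (g.map (Sy.raw (E := E))).length).headD [] = rows.getD g.length [] := by
    simp [List.headD_eq_head?_getD, List.getD_eq_getElem?_getD]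
  have e2 : List.replicate (g.map (Sy.raw (E := E))).length (Sy.raw false) ++ [Sy.raw true] =
      (List.replicate g.length false ++ [true]).map (Sy.raw (E := E)) := by simp
  rw [e1, e2] at a6
  rw [e2] at a5
  obtain ⟨sc', r', a8⟩ := (a2.seq (a3.seq (a4.seq (a5.seq (a6.seq a7))))) ⟨False, none, c'⟩ none
  refine ⟨((c1, sc'), r'), S1, e0 ▸ (a1.seq a8).weak ?_, ?_⟩
  · have hl : lead x ≤ x.length := (List.takeWhile_prefix _).length_le
    have l1 := sum_map_le (js E) (fun j => (encIs ((vinit E x).its j)).length) (fun _ => 0)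
      (2 * x.length + 2) fun j => by
        by_cases hj : j = E.in0
        · simp [vinit, hj, encIs, encI]; omega
        · simp [vinit, hj, encIs]
    rw [cntA_eq]
    simp only [List.length_append, List.length_map, List.length_cons, List.map_const',
      List.sum_replicate, smul_zero, zero_add] at l0 l1 b3 ⊢
    have l2 := Nat.mul_le_mul_left (200 * ((js E).length + 1) + 43)
      (show rest.length ≤ u.length by omega)
    have l3 := Nat.mul_le_mul_left (js E).length (show x.length ≤ u.length by omega)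
    unfold Phi
    nlinarith [Nat.zero_le ((js E).length * g.length),
      Nat.zero_le ((js E).length * (x.length * numA rows recs.length g.length))]
  · unfold ref
    cases hv : vrun x.length recs (abit rows g.length) (vinit E x) with
    | none => simp [b5, hv]
    | some s2 => simp [b5, hv, b6 s2 hv, hc0]

end VI

open VI in
theorem vimpl (h : CompileStmt) : VStmt := by
  classical
  intro E
  obtain ⟨N, sy, cod, h0, h1, h2, h3⟩ := exists_code (Γ := Sy E) .fin
  have : Fintype (St E.ι) := Fintype.ofFinite _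
  obtain ⟨D, hD⟩ := h (St E.ι) (Sy E) ((Ct E × Scr E N) × Option (Sy E)) St.y St.g (by simp)
    Sy.raw (fun _ _ h => by injection h) (top sy)
    ((⟨E.start, E.start, fun _ => 0, false, False⟩, ⟨False, none, 0⟩), none)
    fun v => decide (v.1.1.bad ∨ E.out v.1.1.q ≠ some false)
  have hx : ∀ x y : List Bool, dec sy 0 ((x.flatMap fun b => cod (.raw b)) ++ cod .fin ++ y) =
      x.map .raw ++ .fin :: dec sy 0 y := by
    intro x y
    rw [← h2, ← h3, List.flatMap_map, List.append_assoc]
  refine ⟨D, fun b => cod (.raw b), cod .fin,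
    fun rows recs => (encRows E rows ++ recs.flatMap encRec).flatMap cod,
    (272 * (js E).length + 300) * (N + 1), fun rows recs => ?_, fun x y _ => ?_,
    fun x rows recs p w g _ hw => ?_⟩
  · have l1 := sum_map_le (encRows E rows ++ recs.flatMap encRec) (fun γ => (cod γ).length)
      (fun _ => 0) (N + 1) fun γ => by simpa using h1 γ
    have l2 : (encRows E rows).length = (rows.map fun l => l.length + 1).sum + 1 := by
      simp [encRows]
    have l3 : (recs.flatMap encRec).length ≤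
        (2 * (js E).length + 1) * (recs.map Rec.size).sum := by
      induction recs with
      | nil => simp
      | cons r rs ih =>
        have := encRec_len r
        have := ih (sum_map_le _ _ _ _ fun γ => by simpa using h1 γ)
        simp only [List.flatMap_cons, List.length_append, List.map_cons, List.sum_cons, mul_add]
          at this ⊢
        omega
    have l4 : (encRows E rows ++ recs.flatMap encRec).length ≤
        (272 * (js E).length + 300) * (vsize rows recs + 1) := by
      rw [List.length_append, l2, vsize]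
      nlinarith [Nat.zero_le ((js E).length * (recs.map Rec.size).sum),
        Nat.zero_le ((js E).length * (rows.map fun l => l.length + 1).sum)]
    have l5 := Nat.mul_le_mul_right (N + 1) l4
    simp only [List.map_const', List.sum_replicate, smul_zero, zero_add] at l1
    rw [List.length_flatMap]
    nlinarith
  · obtain ⟨rows, rest, a1⟩ := exists_Rows _ (dec sy 0 y) le_rfl
    obtain ⟨recs, a2, a3⟩ := exists_Recs _ rest le_rfl
    have l1 := (run_selP (N := N) [] [] (fun _ => []) (fun _ => [])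
      ⟨E.start, E.start, fun _ => 0, false, False⟩ a1).1
    refine ⟨rows, recs, a3.trans (l1.trans (length_dec_le sy 0 y)), fun g => ?_⟩
    obtain ⟨v, S, b1, b2⟩ := exec_top sy _ x g _ rest rows recs (hx x y) a1 a2
    exact ⟨_, b2 ▸ hD _ g v S _ b1⟩
  · have e : dec sy 0 w = x.map .raw ++ .fin :: (encRows E rows ++
        (recs.flatMap encRec ++ List.replicate p .fin)) := by
      rw [hw, hx, h3, dec_zeros, h0, List.append_assoc]
    obtain ⟨v, S, b1, b2⟩ := exec_top sy w x g _ _ rows recs e (Rows_enc rows _) (Recs_enc recs p)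
    exact (b2 ▸ hD _ g v S _ b1).mono
      (Nat.mul_le_mul_right _ (Nat.le_mul_of_pos_right _ (Nat.succ_pos N)))

end Pool.Agent.MP_8c2300_lc.PP

end MrgPart3

-- ======== part 4: formerly Pool.Agent.MP_8c2300_lc.pp.Vc
section MrgPart4

/-! PROJECT PPST, module VC: if the machine accepts, every certificate is refuted in some run. -/

namespace Pool.Agent.MP_8c2300_lc.PP

namespace Vc

variable {Γ : Type}

/-- The item is compatible with the true piece (`z` is the block of zeros). -/
def Fits (z : List Γ) : Item Γ → List Γ → Prop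
  | .unk, _ => True
  | .zer, l => l = z
  | .full l', l => l = l'

theorem flatten_cutL (b m : ℕ) (l : List Γ) : (cutL b m l).flatten = l := by
  induction m generalizing l with
  | zero => simp [cutL]
  | succ m ih => simp [cutL, ih]

theorem length_cutL (b m : ℕ) (l : List Γ) : (cutL b m l).length = m + 1 := by
  induction m generalizing l with
  | zero => simp [cutL]
  | succ m ih => simp [cutL, ih]

theorem tail_append_cutL (b m : ℕ) (l : List Γ) (u : List (List Γ)) :
    (cutL b m l ++ u).tail = (cutL b m l).tail ++ u := by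
  have := length_cutL b m l
  cases h : cutL b m l with
  | nil => simp [h] at this
  | cons a t => simp

theorem tail_cutL (b m : ℕ) (l : List Γ) (h : m * b ≤ l.length) :
    ∀ p ∈ (cutL b m l).tail, p.length = b := by
  induction m generalizing l with
  | zero => simp [cutL]
  | succ m ih =>
    intro p hp
    rw [Nat.succ_mul] at h
    rw [cutL, tail_append_cutL, List.mem_append] at hp
    rcases hp with hp | hp
    · exact ih _ (by simp; omega) p hp
    · rw [List.mem_singleton.1 hp, List.length_drop]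
      omega

theorem fits_head {z : List Γ} {is : List (Item Γ)} {ls : List (List Γ)}
    (h : List.Forall₂ (Fits z) is ls) : Fits z (is.headD (.full [])) (ls.headD []) := by
  cases h with
  | nil => rfl
  | cons h _ => exact h

theorem fits_tail {z : List Γ} {is : List (Item Γ)} {ls : List (List Γ)}
    (h : List.Forall₂ (Fits z) is ls) : List.Forall₂ (Fits z) is.tail ls.tail := by
  cases h with
  | nil => exact List.Forall₂.nil
  | cons _ h => exact h

theorem fits_full (z : List Γ) (ls : List (List Γ)) :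
    List.Forall₂ (Fits z) (ls.map Item.full) ls := by
  induction ls with
  | nil => exact List.Forall₂.nil
  | cons a t ih => exact List.Forall₂.cons rfl ih

theorem fits_unk (z : List Γ) (ls : List (List Γ)) :
    List.Forall₂ (Fits z) (List.replicate ls.length Item.unk) ls := by
  induction ls with
  | nil => exact List.Forall₂.nil
  | cons a t ih => exact List.Forall₂.cons trivial ih

theorem fits_zer (z : List Γ) (n : ℕ) :
    List.Forall₂ (Fits z) (List.replicate n Item.zer) (List.replicate n z) := by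
  induction n with
  | zero => exact List.Forall₂.nil
  | succ n ih => exact List.Forall₂.cons rfl ih

/-- A claim that is compatible with a known item is absent or true. -/
theorem claim_true {z l : List Γ} {it : Item Γ} {c : Option (List Γ)} (h : Fits z it l)
    (hn : it ≠ .unk) (ho : it.Ok c) : c = none ∨ c = some l := by
  cases it with
  | unk => exact absurd rfl hn
  | zer => exact Or.inl ho
  | full l' => rw [show l = l' from h]; exact ho

theorem val_true {z l : List Γ} {it : Item Γ} {c : Option (List Γ)} (h : Fits z it l)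
    (hc : c = none ∨ c = some l) (hv : it.val z c ≠ none) : (it.val z c).getD [] = l := by
  cases it with
  | unk =>
    rcases hc with rfl | rfl
    · exact absurd rfl hv
    · rfl
  | zer => exact (show l = z from h).symm
  | full l' => exact (show l = l' from h).symm

theorem head_ne {is : List (Item Γ)} (h : is[0]? ≠ some .unk) : is.headD (.full []) ≠ .unk := by
  cases is with
  | nil => simp
  | cons a t => simpa using h

theorem split_flatten (ls : List (List Γ)) :
    ls.flatten = ls.headD [] ++ ls.tail.headD [] ++ (ls.drop 2).flatten := by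
  rcases ls with _ | ⟨a, _ | ⟨c, t⟩⟩ <;> simp

theorem vstep_some {E : SM} {b : ℕ} {a : Bool} {r : Rec E} {s s1 : VSt E}
    (h : vstep b a r s = some s1) :
    (∀ j, (s.itP j).Ok (r.cp j) ∧ (s.itB j).Ok (r.cb j)) ∧ s1.q = r.qe ∧
    (a = true → (∀ j, (s.itP j).val (E.zeros b) (r.cp j) ≠ none ∧
        (s.itB j).val (E.zeros b) (r.cb j) ≠ none) ∧ (s.sim b r).1 = r.qe ∧
      ∀ j, (r.mv j : ℕ) * b ≤ ((s.sim b r).2 j).length ∧
        s1.its j = (cutL b (r.mv j) ((s.sim b r).2 j)).map Item.full ++ (s.its j).drop 2) ∧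
    (a ≠ true → ∀ j,
      s1.its j = List.replicate ((r.mv j : ℕ) + 1) Item.unk ++ (s.its j).drop 2) := by
  unfold vstep at h
  split_ifs at h with h1 h2 h3
  · obtain rfl := Option.some.inj h
    exact ⟨h1, rfl, fun _ => ⟨h3.1, h3.2.1, fun j => ⟨(h3.2.2 j).1, rfl⟩⟩, fun h => absurd h2 h⟩
  · obtain rfl := Option.some.inj h
    exact ⟨h1, rfl, fun h => absurd h h2, fun _ _ => rfl⟩

theorem main {E : SM} (b : ℕ) (D : ℕ → Prop) (hD : ∃ d, D d) (recs : List (Rec E)) :
    ∀ (a : ℕ → ℕ → Bool) (s : ℕ → VSt E) (q : E.Q) (ls : E.ι → List (List E.Γ)),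
      (∀ i < recs.length, ∃ d, D d ∧ a d i = true) →
      (∀ d, D d → (s d).q = q ∧ ∀ j, List.Forall₂ (Fits (E.zeros b)) ((s d).its j) (ls j)) →
      (∀ j, ∀ l ∈ (ls j).tail, l.length = b) →
      (∀ j (i : ℕ), ∃ d, D d ∧ ((s d).its j)[i]? ≠ some Item.unk) →
      (∀ d, D d → ∃ s', vrun b recs (a d) (s d) = some s' ∧ E.out s'.q = some false) →
      E.out (E.step^[recs.length * b] (q, fun j => (ls j).flatten)).1 = some false := by
  induction recs with
  | nil =>
    intro a s q ls _ h2 _ _ h5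
    obtain ⟨d, hd⟩ := hD
    obtain ⟨s', e, ho⟩ := h5 d hd
    obtain rfl := Option.some.inj e
    simpa [← (h2 d hd).1] using ho
  | cons r rs ih =>
    intro a s q ls h1 h2 h3 h4 h5
    have h6 : ∀ d, ∃ s1, D d → vstep b (a d 0) r (s d) = some s1 ∧ ∃ s',
        vrun b rs (fun i => a d (i + 1)) s1 = some s' ∧ E.out s'.q = some false := fun d => by
      by_cases hd : D d
      · obtain ⟨s', e, ho⟩ := h5 d hd
        obtain ⟨s1, e1, e2⟩ := Option.bind_eq_some_iff.1 e
        exact ⟨s1, fun _ => ⟨e1, s', e2, ho⟩⟩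
      · exact ⟨s d, fun h => absurd h hd⟩
    choose s1 hs1 using h6
    have hv := fun d hd => vstep_some (hs1 d hd).1
    have fP : ∀ d, D d → ∀ j, Fits (E.zeros b) ((s d).itP j) ((ls j).headD []) :=
      fun d hd j => fits_head ((h2 d hd).2 j)
    have fB : ∀ d, D d → ∀ j, Fits (E.zeros b) ((s d).itB j) ((ls j).tail.headD []) :=
      fun d hd j => fits_head (fits_tail ((h2 d hd).2 j))
    have cP : ∀ j, r.cp j = none ∨ r.cp j = some ((ls j).headD []) := fun j => by
      obtain ⟨d, hd, hn⟩ := h4 j 0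
      exact claim_true (fP d hd j) (head_ne hn) ((hv d hd).1 j).1
    have cB : ∀ j, r.cb j = none ∨ r.cb j = some ((ls j).tail.headD []) := fun j => by
      obtain ⟨d, hd, hn⟩ := h4 j 1
      exact claim_true (fB d hd j) (head_ne (by simpa using hn)) ((hv d hd).1 j).2
    set R := E.step^[b] (q, fun j => (ls j).headD [] ++ (ls j).tail.headD []) with hR
    have hsim : ∀ d, D d → a d 0 = true → (s d).sim b r = R := fun d hd ha => by
      have := ((hv d hd).2.2.1 ha).1
      rw [hR, VSt.sim, (h2 d hd).1]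
      congr 2
      funext j
      rw [val_true (fP d hd j) (cP j) (this j).1, val_true (fB d hd j) (cB j) (this j).2]
    obtain ⟨d0, hd0, ha0⟩ := h1 0 (by simp)
    obtain ⟨-, e0, e1⟩ := (hv d0 hd0).2.2.1 ha0
    rw [hsim d0 hd0 ha0] at e0 e1
    have hrun : E.step^[b] (q, fun j => (ls j).flatten) =
        (r.qe, fun j => (cutL b (r.mv j) (R.2 j) ++ (ls j).drop 2).flatten) := by
      have := E.iter_append b q (fun j => (ls j).headD [] ++ (ls j).tail.headD [])
        (fun j => ((ls j).drop 2).flatten) fun j hj => by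
          have h7 := h3 j
          revert hj h7
          rcases ls j with _ | ⟨x, _ | ⟨c, t⟩⟩ <;> intro hj h7
          · simp at hj
          · simp at hj
          · have := h7 c (by simp)
            simp
            omega
      simp only [← split_flatten] at this
      rw [this, ← hR, e0]
      simp only [List.flatten_append, flatten_cutL]
    have hits : ∀ d, D d → ∀ j, ∃ u : List (Item E.Γ), (s1 d).its j = u ++ ((s d).its j).drop 2 ∧
        List.Forall₂ (Fits (E.zeros b)) u (cutL b (r.mv j) (R.2 j)) := fun d hd j => by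
      by_cases ha : a d 0 = true
      · have := (((hv d hd).2.2.1 ha).2.2 j).2
        rw [hsim d hd ha] at this
        exact ⟨_, this, fits_full _ _⟩
      · refine ⟨_, (hv d hd).2.2.2 ha j, ?_⟩
        rw [← length_cutL b (r.mv j) (R.2 j)]
        exact fits_unk _ _
    rw [List.length_cons, Nat.succ_mul, Function.iterate_add_apply, hrun]
    refine ih (fun d i => a d (i + 1)) s1 r.qe _ (fun i hi => h1 (i + 1) (by simpa using hi))
      (fun d hd => ⟨(hv d hd).2.1, fun j => ?_⟩) (fun j l hl => ?_) (fun j i => ?_)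
      fun d hd => (hs1 d hd).2
    · obtain ⟨u, e, hu⟩ := hits d hd j
      rw [e]
      exact List.rel_append hu (List.forall₂_drop 2 ((h2 d hd).2 j))
    · rw [tail_append_cutL, List.mem_append] at hl
      rcases hl with hl | hl
      · exact tail_cutL b _ _ (e1 j).1 l hl
      · refine h3 j l ?_
        rw [← List.drop_one]
        exact List.drop_subset_drop_left _ (by omega) hl
    · by_cases hi : i < (r.mv j : ℕ) + 1
      · refine ⟨d0, hd0, ?_⟩
        rw [(e1 j).2, List.getElem?_append_left (by simpa [length_cutL] using hi),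
          List.getElem?_map]
        cases (cutL b (r.mv j) (R.2 j))[i]? <;> simp
      · obtain ⟨d, hd, hn⟩ := h4 j (2 + (i - ((r.mv j : ℕ) + 1)))
        obtain ⟨u, e, hu⟩ := hits d hd j
        have hl := hu.length_eq
        rw [length_cutL] at hl
        refine ⟨d, hd, ?_⟩
        rwa [e, List.getElem?_append_right (by omega), List.getElem?_drop, hl]

end Vc

open Vc

theorem vc : VcStmt := by
  intro E x rows recs n _ hE
  by_contra hc
  push Not at hc
  have key := main x.length (fun d => d ≤ recs.length) ⟨0, Nat.zero_le _⟩ recs (abit rows)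
    (fun _ => vinit E x) E.start
    (fun j => if j = E.in0 then
      [] :: x.map E.inp :: List.replicate (lead x) (E.zeros x.length) else [])
    (fun i hi => ⟨i, hi.le, by simp [abit]⟩) (fun d _ => ⟨rfl, fun j => ?_⟩) (fun j l hl => ?_)
    (fun j i => ⟨0, Nat.zero_le _, ?_⟩) fun d hd => ?_
  · have h1 : E.Halts (x ++ List.replicate (lead x * x.length) false) []
        (recs.length * x.length) false := by
      unfold SM.Halts SM.outAt SM.init
      convert key using 5
      funext j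
      by_cases hj : j = E.in0 <;> simp [initS, hj, SM.zeros]
    simpa using hE.unique h1
  · by_cases hj : j = E.in0
    · simp only [vinit, if_pos hj]
      exact List.Forall₂.cons rfl (List.Forall₂.cons rfl (fits_zer _ _))
    · simp only [vinit, if_neg hj]
      exact List.Forall₂.nil
  · by_cases hj : j = E.in0
    · simp only [if_pos hj, List.tail_cons, List.mem_cons, List.mem_replicate] at hl
      rcases hl with rfl | ⟨-, rfl⟩ <;> simp [SM.zeros]
    · simp [if_neg hj] at hl
  · intro h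
    have := List.mem_of_getElem? h
    by_cases hj : j = E.in0 <;> simp [vinit, hj] at this
  · have := hc d hd
    unfold ref at this
    cases h : vrun x.length recs (abit rows d) (vinit E x) with
    | none => simp [h] at this
    | some s' => exact ⟨s', rfl, by simpa [h] using this⟩

end Pool.Agent.MP_8c2300_lc.PP

end MrgPart4

-- ======== part 5: formerly Pool.Agent.MP_8c2300_lc.pp.Core
section MrgPart5

/-! PROJECT PPST, module CORE: the graph of long good edges between segments. -/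

namespace Pool.Agent.MP_8c2300_lc.PP

open Finset

namespace CoreAux

lemma sandwich {a z c P : ℕ} (h1 : a ≤ z) (h2 : z ≤ c) (h : a / P = c / P) : z / P = a / P :=
  le_antisymm (h ▸ Nat.div_le_div_right h2) (Nat.div_le_div_right h1)

lemma in_hole {a c z P : ℕ} (hP : 0 < P) (h : a + 2 * P ≤ c) (hz : z / P = a / P + 1) :
    a < z ∧ z < c := by
  have k1 := Nat.div_add_mod a P
  have k2 := Nat.div_add_mod z P
  have k3 := Nat.mod_lt a hP
  have k4 := Nat.mod_lt z hP
  rw [hz, mul_add, mul_one] at k2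
  omega

lemma code_div {a c P : ℕ} (hP : 0 < P) (h1 : a ≤ c) (h : a / P = c / P) :
    (a / P * P + (c - a)) / P = a / P := by
  have k1 := Nat.div_add_mod a P
  have k2 := Nat.div_add_mod c P
  have k4 := Nat.mod_lt c hP
  rw [← h] at k2
  rw [mul_comm, Nat.mul_add_div hP, Nat.div_eq_of_lt (a := c - a) (by omega), add_zero]

/-- Two edges of the same exact level in one node overlap. -/
lemma overlap {a c a' c' h : ℕ} (h1 : a < c) (h2 : a' < c') (l1 : lev a c = h)
    (l2 : lev a' c' = h) (e : a / 2 ^ h = a' / 2 ^ h) : a' < c := by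
  have e1 : a / 2 ^ h = c / 2 ^ h := l1 ▸ lev_spec a c
  have e2 : a' / 2 ^ h = c' / 2 ^ h := l2 ▸ lev_spec a' c'
  rcases h with _ | h
  · simp only [pow_zero, Nat.div_one] at e1
    omega
  have n1 : a / 2 ^ h ≠ c / 2 ^ h := fun k => by have := lev_le_iff.2 k; omega
  have n2 : a' / 2 ^ h ≠ c' / 2 ^ h := fun k => by have := lev_le_iff.2 k; omega
  have m1 : a / 2 ^ h ≤ c / 2 ^ h := Nat.div_le_div_right h1.le
  have m2 : a' / 2 ^ h ≤ c' / 2 ^ h := Nat.div_le_div_right h2.le
  simp only [pow_succ, ← Nat.div_div_eq_div_mul] at e e1 e2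
  by_contra k
  have m3 : c / 2 ^ h ≤ a' / 2 ^ h := Nat.div_le_div_right (by omega)
  omega

variable {κ ι : Type} [Fintype κ] {ε : Finset ι} {s t : ι → ℕ} {pg : ι → κ} {M i0 : ℕ}

lemma lev_le {a c : ℕ} (h1 : a < c) (h2 : c < 2 ^ M) : lev a c ≤ M :=
  lev_le_iff.2 (by rw [Nat.div_eq_of_lt h2, Nat.div_eq_of_lt (h1.trans h2)])

/-- Few points have many distinct sources. -/
lemma deg_card (hi : i0 ≤ M) (d' : ℕ)
    (h1 : ∀ e ∈ ε, s e < t e ∧ t e < 2 ^ M ∧ M < lev (s e) (t e) + i0)
    (h3 : ∀ e ∈ ε, ∀ e' ∈ ε, pg e = pg e' → ¬ (s e < s e' ∧ s e' < t e ∧ t e < t e')) :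
    #((range (2 ^ M)).filter fun z => d' < #((ε.filter fun e => t e = z).image s)) * d' ≤
      Fintype.card κ * i0 * 2 ^ M := by
  set Z := (range (2 ^ M)).filter fun z => d' < #((ε.filter fun e => t e = z).image s)
  have k1 : #Z * d' ≤ #(Z.sigma fun z => (ε.filter fun e => t e = z).image s) := by
    rw [card_sigma, ← smul_eq_mul]
    exact card_nsmul_le_sum _ _ _ fun z hz => (mem_filter.1 hz).2.le
  have k2 : #((univ : Finset κ) ×ˢ Ioc (M - i0) M ×ˢ range (2 ^ M)) =
      Fintype.card κ * i0 * 2 ^ M := by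
    rw [card_product, card_product, card_univ, Nat.card_Ioc, card_range, Nat.sub_sub_self hi,
      mul_assoc]
  rw [← k2]
  refine k1.trans (card_le_card_of_forall_subsingleton (fun p x => ∃ e ∈ ε, t e = p.1 ∧
    s e = p.2 ∧ pg e = x.1 ∧ lev (s e) (t e) = x.2.1 ∧
      s e / 2 ^ x.2.1 * 2 ^ x.2.1 + (t e - s e) = x.2.2) (fun p hp => ?_) fun x _ => ?_)
  · obtain ⟨e, m1, m2⟩ := mem_image.1 (mem_sigma.1 hp).2
    obtain ⟨m3, m4⟩ := mem_filter.1 m1
    obtain ⟨a1, a2, a3⟩ := h1 e m3
    refine ⟨(pg e, lev (s e) (t e), s e / 2 ^ lev (s e) (t e) * 2 ^ lev (s e) (t e) +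
      (t e - s e)), ?_, e, m3, m4, m2, rfl, rfl, rfl⟩
    have a4 := lev_le a1 a2
    have a5 := Nat.div_mul_le_self (s e) (2 ^ lev (s e) (t e))
    simp only [mem_product, mem_univ, mem_Ioc, mem_range, true_and]
    omega
  · rintro ⟨z, u⟩ ⟨-, e, m1, m2, m3, m4, m5, m6⟩ ⟨z', u'⟩ ⟨-, e', n1, n2, n3, n4, n5, n6⟩
    simp only at m2 m3 n2 n3
    have a1 := (h1 e m1).1
    have a2 := (h1 e' n1).1
    have hP : 0 < 2 ^ x.2.1 := by positivity
    have b1 := code_div hP a1.le (m5 ▸ lev_spec _ _)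
    have b2 := code_div hP a2.le (n5 ▸ lev_spec _ _)
    have b3 : s e / 2 ^ x.2.1 = s e' / 2 ^ x.2.1 := by rw [← b1, ← b2, m6, n6]
    have b4 := overlap a1 a2 m5 n5 b3
    have b5 := overlap a2 a1 n5 m5 b3.symm
    have b6 := h3 e m1 e' n1 (m4.trans n4.symm)
    have b7 := h3 e' n1 e m1 (n4.trans m4.symm)
    rw [b3] at m6
    obtain rfl : z = z' := by omega
    obtain rfl : u = u' := by omega
    rfl

end CoreAux

open CoreAux Classical in
theorem core (h1 : HoleStmt) (h2 : EpochStmt) (h3 : PathStmt) : CoreStmt := by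
  intro κ ι _ ε s t pg M i0 b q r d' Δ hb hr hd hi a1 a2 a3
  obtain ⟨act, hact⟩ : ∃ act : κ → ℕ → ℕ → Prop, ∀ j h x, act j h x ↔
    ∃ e ∈ ε, pg e = j ∧ lev (s e) (t e) = h ∧ s e / 2 ^ h = x := ⟨_, fun _ _ _ => Iff.rfl⟩
  obtain ⟨hole, hh⟩ : ∃ hole : κ → ℕ → ℕ → ℕ, ∀ j h x, act j h x → ∃ e ∈ ε, pg e = j ∧
      lev (s e) (t e) = h ∧ s e / 2 ^ h = x ∧ hole j h x = s e / 2 ^ (h - b) + 1 := by
    have : ∀ j h x, ∃ y, act j h x → ∃ e ∈ ε, pg e = j ∧
        lev (s e) (t e) = h ∧ s e / 2 ^ h = x ∧ y = s e / 2 ^ (h - b) + 1 := fun j h x => by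
      by_cases k : act j h x
      · obtain ⟨e, k1, k2, k3, k4⟩ := (hact _ _ _).1 k
        exact ⟨_, fun _ => ⟨e, k1, k2, k3, k4, rfl⟩⟩
      · exact ⟨0, fun k' => absurd k' k⟩
    choose hole hh using this
    exact ⟨hole, hh⟩
  have b1 : ∀ j h x, act j h x → b ≤ h ∧ hole j h x / 2 ^ b = x := fun j h x k => by
    obtain ⟨e, k1, -, k3, k4, k5⟩ := hh j h x k
    obtain ⟨-, -, m3, m4⟩ := a1 e k1
    rw [k3] at m3 m4
    have hP : 0 < 2 ^ (h - b) := by positivity
    have m5 : b ≤ h := by omega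
    obtain ⟨m6, m7⟩ := in_hole (z := hole j h x * 2 ^ (h - b)) hP m4
      (by rw [Nat.mul_div_cancel _ hP, k5])
    have m8 := sandwich m6.le m7.le (k3 ▸ lev_spec _ _ : s e / 2 ^ h = t e / 2 ^ h)
    refine ⟨m5, ?_⟩
    have m9 : 2 ^ h = 2 ^ (h - b) * 2 ^ b := by rw [← pow_add, Nat.sub_add_cancel m5]
    rwa [k4, m9, ← Nat.div_div_eq_div_mul, Nat.mul_div_cancel _ hP] at m8
  have b2 : ∀ e ∈ ε, ∀ z, z = s e ∨ z = t e → ∀ h < lev (s e) (t e), act (pg e) h (z / 2 ^ h) →
      z / 2 ^ (h - b) ≠ hole (pg e) h (z / 2 ^ h) := fun e he z hz h hl k k' => by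
    obtain ⟨e0, k1, k2, k3, k4, k5⟩ := hh _ _ _ k
    obtain ⟨-, -, -, m4⟩ := a1 e0 k1
    rw [k3] at m4
    obtain ⟨m6, m7⟩ := in_hole (by positivity) m4 (k'.trans k5)
    have m8 : s e0 / 2 ^ h = t e0 / 2 ^ h := k3 ▸ lev_spec _ _
    have m9 := (a1 e he).1
    have n1 := a3 e0 k1 e he k2
    have n2 := a3 e he e0 k1 k2.symm
    have n3 := (sandwich (z := s e) (by omega) (by omega) m8).trans
      (sandwich (z := t e) (by omega) (by omega) m8).symm
    have := lev_le_iff.2 n3
    omega
  have b3 : ∀ p : κ × ℕ, ∃ Z : Finset ℕ, p.2 ≤ M →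
      (#Z : ℝ) ≤ b * (1 - 1 / 2 ^ b) ^ q * 2 ^ M ∧ ∀ z < 2 ^ M,
      (∀ h < p.2, act p.1 h (z / 2 ^ h) → z / 2 ^ (h - b) ≠ hole p.1 h (z / 2 ^ h)) →
      b * q ≤ #((range p.2).filter fun h => act p.1 h (z / 2 ^ h)) → z ∈ Z := fun p => by
    by_cases k : p.2 ≤ M
    · have k1 := h1 b q M p.2 (act p.1) (hole p.1) hb k (b1 p.1)
      have k2 := (Nat.cast_le (α := ℝ)).2 k1
      have k3 : ((2 ^ b - 1 : ℕ) : ℝ) = (1 - 1 / 2 ^ b) * 2 ^ b := by
        rw [Nat.cast_sub Nat.one_le_two_pow]
        push_cast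
        field_simp
      rw [Nat.cast_mul, Nat.cast_mul, Nat.cast_mul, Nat.cast_pow, Nat.cast_pow, Nat.cast_pow,
        Nat.cast_pow, k3, mul_pow, Nat.cast_ofNat] at k2
      exact ⟨_, fun _ => ⟨le_of_mul_le_mul_right (k2.trans_eq (by ring)) (by positivity),
        fun z m1 m2 m3 => mem_filter.2 ⟨mem_range.2 m1, m2, m3⟩⟩⟩
    · exact ⟨∅, fun k' => absurd k' k⟩
  choose ZH b3 using b3
  set ZD := (range (2 ^ M)).filter fun z => d' < #((ε.filter fun e => t e = z).image s)
  set Z := (univ ×ˢ Ioc (M - i0) M).biUnion ZH ∪ ZD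
  have b4 : (#Z : ℝ) ≤ 2 ^ M * (Fintype.card κ * i0 * (b * (1 - 1 / 2 ^ b) ^ q + 1 / d')) := by
    have k1 : (#((univ ×ˢ Ioc (M - i0) M).biUnion ZH) : ℝ) ≤
        Fintype.card κ * i0 * (b * (1 - 1 / 2 ^ b) ^ q * 2 ^ M) := by
      refine ((Nat.cast_le.2 card_biUnion_le).trans_eq (Nat.cast_sum _ _)).trans
        ((sum_le_card_nsmul _ _ _ fun p hp => (b3 p (mem_Ioc.1 (mem_product.1 hp).2).2).1).trans_eq ?_)
      rw [card_product, card_univ, Nat.card_Ioc, Nat.sub_sub_self (by omega), nsmul_eq_mul,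
        Nat.cast_mul]
    have k2 : (#ZD : ℝ) * d' ≤ Fintype.card κ * i0 * 2 ^ M := by
      exact_mod_cast deg_card (by omega) d' (fun e he => ⟨(a1 e he).1, (a1 e he).2.1,
        (a1 e he).2.2.1⟩) a3
    have k3 : (0 : ℝ) < d' := by exact_mod_cast hd
    rw [← le_div_iff₀ k3] at k2
    have k4 : (#Z : ℝ) ≤ #((univ ×ˢ Ioc (M - i0) M).biUnion ZH) + #ZD := by
      exact_mod_cast card_union_le _ _
    exact k4.trans ((add_le_add k1 k2).trans_eq (by ring))
  set ε1 := ε.filter fun e => s e ∉ Z ∧ t e ∉ Z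
  have b5 : #(ε \ ε1) ≤ #Z * Δ :=
    (card_le_card fun e he => by
      obtain ⟨k1, k2⟩ := mem_sdiff.1 he
      by_cases k : s e ∈ Z
      · exact mem_biUnion.2 ⟨_, k, mem_filter.2 ⟨k1, Or.inl rfl⟩⟩
      · exact mem_biUnion.2 ⟨t e, by_contra fun k' => k2 (mem_filter.2 ⟨k1, k, k'⟩),
          mem_filter.2 ⟨k1, Or.inr rfl⟩⟩).trans (card_biUnion_le_card_mul Z _ _ fun z _ => a2 z)
  have sub : ε1 ⊆ ε := filter_subset _ _
  obtain ⟨C, c1, c2, rank, c3, c4⟩ := h2 κ ι ε1 s t (fun e => lev (s e) (t e)) pg act (b * q) r hr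
    (fun e he => ⟨lev_spec _ _, (hact _ _ _).2 ⟨e, sub he, rfl, rfl, rfl⟩⟩) fun e he z hz => by
      obtain ⟨k1, k2, k3⟩ := mem_filter.1 he
      obtain ⟨m1, m2, m3, -⟩ := a1 e k1
      have m4 := lev_le m1 m2
      by_contra k
      have k4 : z ∉ Z := by rcases hz with rfl | rfl; exacts [k2, k3]
      exact k4 (mem_union_left _ (mem_biUnion.2 ⟨(pg e, lev (s e) (t e)),
        mem_product.2 ⟨mem_univ _, mem_Ioc.2 ⟨by omega, m4⟩⟩,
        (b3 (pg e, lev (s e) (t e)) m4).2 z (by omega) (b2 e k1 z hz) (not_le.1 k).le⟩))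
  refine ⟨C ∪ ε \ ε1, union_subset (c1.trans sub) sdiff_subset, ?_, fun z => ?_⟩
  · have k1 : (#(C ∪ ε \ ε1) : ℝ) ≤ #C + #Z * Δ := by
      exact_mod_cast (card_union_le _ _).trans (Nat.add_le_add_left b5 _)
    have k2 : (#C : ℝ) * r ≤ 2 ^ (Fintype.card κ + 1) * (b * q + 1) * #ε := by
      exact_mod_cast c2.trans (Nat.mul_le_mul_left _ (card_le_card sub))
    have k3 : (0 : ℝ) < r := by exact_mod_cast hr
    rw [← le_div_iff₀ k3] at k2
    exact k1.trans ((add_le_add k2 (mul_le_mul_of_nonneg_right b4 (Nat.cast_nonneg Δ))).trans_eq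
      (by ring))
  · obtain ⟨A, k1, k2, k3⟩ := h3 ι (ε1 \ C) s t rank ((r + 1) ^ Fintype.card κ) d'
      (fun e he => ⟨(a1 e (sub (mem_sdiff.1 he).1)).1, c3 e (mem_sdiff.1 he).1 (mem_sdiff.1 he).2⟩)
      (fun e he e' he' => c4 e (mem_sdiff.1 he).1 (mem_sdiff.1 he).2 e' (mem_sdiff.1 he').1
        (mem_sdiff.1 he').2) (fun z => by
          rcases ((ε1 \ C).filter fun e => t e = z).eq_empty_or_nonempty with k | ⟨e, k⟩
          · rw [k]
            exact Nat.zero_le _
          · obtain ⟨m1, rfl⟩ := mem_filter.1 k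
            obtain ⟨m2, -, m3⟩ := mem_filter.1 (mem_sdiff.1 m1).1
            refine (card_le_card (image_subset_image (filter_subset_filter _
              (sdiff_subset.trans sub)))).trans (not_lt.1 fun m4 => m3 ?_)
            exact mem_union_right _ (mem_filter.2 ⟨mem_range.2 (a1 e m2).2.1, m4⟩)) z
    exact ⟨A, k1, k2, fun e he hc => k3 e (mem_sdiff.2 ⟨by_contra fun k =>
      hc (mem_union_right _ (mem_sdiff.2 ⟨he, k⟩)), fun k => hc (mem_union_left _ k)⟩)⟩

end Pool.Agent.MP_8c2300_lc.PP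

end MrgPart5

-- ======== part 6: formerly Pool.Agent.MP_8c2300_lc.pp.Outer
section MrgPart6

/-! PROJECT PPST, module OUTER (random shift, cheapest window, segments). -/

namespace Pool.Agent.MP_8c2300_lc.PP

open Finset

namespace Outer

theorem card_dvd (u K D : ℕ) (hD : 0 < D) :
    ((range (K * D)).filter fun a => D ∣ u + a).card ≤ K := by
  conv_rhs => rw [← card_range K]
  refine Finset.card_le_card_of_injOn (fun a => a / D) ?_ ?_
  · intro a ha
    simp only [coe_filter, mem_range, Set.mem_ofPred_eq, coe_range, Set.mem_Iio] at ha ⊢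
    exact (Nat.div_lt_iff_lt_mul hD).2 ha.1
  · intro a ha a' ha' he
    simp only [coe_filter, mem_range, Set.mem_ofPred_eq] at ha ha' he
    have h1 : u + a ≡ u + a' [MOD D] :=
      ((Nat.modEq_zero_iff_dvd).2 ha.2).trans ((Nat.modEq_zero_iff_dvd).2 ha'.2).symm
    have h2 : a % D = a' % D := Nat.ModEq.add_left_cancel' u h1
    rw [← Nat.div_add_mod a D, ← Nat.div_add_mod a' D, he, h2]

theorem lev_le {m x y : ℕ} (hx : x < 2 ^ m) (hy : y < 2 ^ m) : lev x y ≤ m := by
  rw [lev_le_iff, Nat.div_eq_of_lt hx, Nat.div_eq_of_lt hy]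

theorem lev_div (x y l : ℕ) : lev (x / 2 ^ l) (y / 2 ^ l) = lev x y - l := by
  refine eq_of_forall_ge_iff fun h => ?_
  rw [lev_le_iff, Nat.div_div_eq_div_mul, Nat.div_div_eq_div_mul, ← pow_add, ← lev_le_iff]
  omega

/-- A fixed edge is bad for few shifts. -/
theorem bad_shifts {m b σ τ : ℕ} (hb : 2 ≤ b) (h1 : σ < τ) (h2 : τ < 2 ^ m) :
    ((range (2 ^ m)).filter fun a =>
      2 ^ b * (τ - σ) < 4 * 2 ^ lev (σ + a) (τ + a)).card * 2 ^ b ≤ 8 * 2 ^ m := by
  have hex : ∃ h, 2 ^ b * (τ - σ) < 4 * 2 ^ (h + 1) := by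
    refine ⟨2 ^ b * (τ - σ), ?_⟩
    have : 2 ^ b * (τ - σ) < 2 ^ (2 ^ b * (τ - σ)) := Nat.lt_two_pow_self
    rw [pow_succ]
    omega
  obtain ⟨h0, hlt, hle⟩ : ∃ h0, 2 ^ b * (τ - σ) < 4 * 2 ^ (h0 + 1) ∧
      4 * 2 ^ h0 ≤ 2 ^ b * (τ - σ) := by
    refine ⟨Nat.find hex, Nat.find_spec hex, ?_⟩
    rcases h : Nat.find hex with _ | k
    · have h3 : 2 ^ 2 ≤ 2 ^ b := Nat.pow_le_pow_right (by norm_num) hb
      have h4 : 2 ^ b * 1 ≤ 2 ^ b * (τ - σ) := Nat.mul_le_mul_left _ (by omega)
      omega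
    · exact not_lt.1 (Nat.find_min hex (m := k) (by omega))
  have hlev : ∀ a, 2 ^ b * (τ - σ) < 4 * 2 ^ lev (σ + a) (τ + a) → h0 < lev (σ + a) (τ + a) := by
    intro a ha
    have : 2 ^ h0 < 2 ^ lev (σ + a) (τ + a) := by omega
    exact (Nat.pow_lt_pow_iff_right (by norm_num)).1 this
  by_cases hm : h0 ≤ m
  · obtain ⟨k, rfl⟩ := Nat.exists_eq_add_of_le' hm
    have hD : 0 < 2 ^ h0 := Nat.two_pow_pos _
    have hsub : ((range (2 ^ (k + h0))).filter fun a =>
        2 ^ b * (τ - σ) < 4 * 2 ^ lev (σ + a) (τ + a)) ⊆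
        (Ioc σ τ).biUnion fun u => (range (2 ^ k * 2 ^ h0)).filter fun a => 2 ^ h0 ∣ u + a := by
      intro a ha
      rw [mem_filter] at ha
      have h3 : (σ + a) / 2 ^ h0 ≠ (τ + a) / 2 ^ h0 := fun h =>
        absurd (lev_le_iff.2 h) (not_le.2 (hlev a ha.2))
      have h4 : (σ + a) / 2 ^ h0 ≤ (τ + a) / 2 ^ h0 := Nat.div_le_div_right (by omega)
      have h5 : σ + a < (τ + a) / 2 ^ h0 * 2 ^ h0 :=
        (Nat.div_lt_iff_lt_mul hD).1 (lt_of_le_of_ne h4 h3)
      have h6 : (τ + a) / 2 ^ h0 * 2 ^ h0 ≤ τ + a := Nat.div_mul_le_self _ _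
      refine mem_biUnion.2 ⟨(τ + a) / 2 ^ h0 * 2 ^ h0 - a, mem_Ioc.2 ⟨by omega, by omega⟩,
        mem_filter.2 ⟨by rw [← pow_add]; exact ha.1, ?_⟩⟩
      rw [Nat.sub_add_cancel (by omega)]
      exact Dvd.intro_left _ rfl
    have h7 := (card_le_card hsub).trans
      (Finset.card_biUnion_le_card_mul _ _ _ fun u _ => card_dvd u (2 ^ k) _ hD)
    rw [Nat.card_Ioc] at h7
    calc _ ≤ (τ - σ) * 2 ^ k * 2 ^ b := Nat.mul_le_mul_right _ h7
      _ = 2 ^ b * (τ - σ) * 2 ^ k := by ring
      _ ≤ 4 * 2 ^ (h0 + 1) * 2 ^ k := Nat.mul_le_mul_right _ hlt.le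
      _ = 8 * 2 ^ (k + h0) := by ring
  · rw [Finset.filter_eq_empty_iff.2]
    · simp
    · intro a ha hbad
      have h3 := hlev a hbad
      have h4 := mem_range.1 ha
      have h5 : lev (σ + a) (τ + a) ≤ m + 1 :=
        lev_le (by rw [pow_succ]; omega) (by rw [pow_succ]; omega)
      omega

variable {κ : Type}

/-- A shift with few bad edges. -/
theorem exists_shift {m b : ℕ} (hb : 2 ≤ b) (G : Finset (ℕ × ℕ × κ))
    (hG : ∀ e ∈ G, e.1 < e.2.1 ∧ e.2.1 < 2 ^ m) :
    ∃ a < 2 ^ m, (G.filter fun e =>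
      2 ^ b * (e.2.1 - e.1) < 4 * 2 ^ lev (e.1 + a) (e.2.1 + a)).card * 2 ^ b ≤ 8 * G.card := by
  have key : ∑ a ∈ range (2 ^ m), (G.filter fun e =>
      2 ^ b * (e.2.1 - e.1) < 4 * 2 ^ lev (e.1 + a) (e.2.1 + a)).card * 2 ^ b ≤
      ∑ _a ∈ range (2 ^ m), 8 * G.card := by
    rw [← Finset.sum_mul]
    simp only [Finset.card_filter]
    rw [Finset.sum_comm, Finset.sum_mul]
    calc _ ≤ ∑ _e ∈ G, 8 * 2 ^ m := by
          refine Finset.sum_le_sum fun e he => ?_
          rw [← Finset.card_filter]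
          exact bad_shifts hb (hG e he).1 (hG e he).2
      _ = _ := by simp; ring
  obtain ⟨a, ha, h⟩ := Finset.exists_le_of_sum_le
    ⟨0, mem_range.2 (Nat.two_pow_pos m)⟩ key
  exact ⟨a, mem_range.1 ha, h⟩

/-- A cheap window. -/
theorem exists_window {ι : Type} (G : Finset ι) (L : ι → ℕ) {W n : ℕ} (hW : 1 ≤ W) (i : ℕ → ℕ)
    (hi : ∀ u v, u ≤ v → v ≤ W → i u ≤ i v) :
    ∃ u < W, (G.filter fun e => n - i (u + 1) < L e ∧ L e ≤ n - i u).card * W ≤ G.card := by
  have key : ∑ u ∈ range W, (G.filter fun e => n - i (u + 1) < L e ∧ L e ≤ n - i u).card * W ≤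
      ∑ _u ∈ range W, G.card := by
    rw [← Finset.sum_mul]
    simp only [Finset.card_filter]
    rw [Finset.sum_comm]
    have : ∑ e ∈ G, ∑ u ∈ range W, (if n - i (u + 1) < L e ∧ L e ≤ n - i u then 1 else 0) ≤
        ∑ _e ∈ G, 1 := by
      refine Finset.sum_le_sum fun e _ => ?_
      rw [← Finset.card_filter, Finset.card_le_one]
      intro u hu v hv
      simp only [mem_filter, mem_range] at hu hv
      by_contra hne
      rcases Nat.lt_or_gt_of_ne hne with h | h
      · have := hi (u + 1) v h hv.1.le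
        omega
      · have := hi (v + 1) u h hu.1.le
        omega
    calc _ ≤ (∑ _e ∈ G, 1) * W := Nat.mul_le_mul_right _ this
      _ = _ := by simp [mul_comm]
  obtain ⟨u, hu, h⟩ := Finset.exists_le_of_sum_le ⟨0, mem_range.2 hW⟩ key
  exact ⟨u, mem_range.1 hu, h⟩

theorem card_seg (N a D z : ℕ) (hD : 0 < D) :
    ((range N).filter fun v => (v + a) / D = z).card ≤ D := by
  conv_rhs => rw [← card_range D]
  refine Finset.card_le_card_of_injOn (fun v => (v + a) % D) ?_ ?_
  · intro v _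
    simp only [coe_range, Set.mem_Iio]
    exact Nat.mod_lt _ hD
  · intro v hv v' hv' he
    simp only [coe_filter, mem_range, Set.mem_ofPred_eq] at hv hv' he
    have h1 := Nat.div_add_mod (v + a) D
    have h2 := Nat.div_add_mod (v' + a) D
    rw [hv.2, he] at h1
    rw [hv'.2] at h2
    omega

theorem card_at {d N : ℕ} {G : Finset (ℕ × ℕ × κ)} (hG : PageGraph d N G) (V : Finset ℕ)
    (X : Finset (ℕ × ℕ × κ)) (hX : ∀ e ∈ X, e ∈ G ∧ (e.1 ∈ V ∨ e.2.1 ∈ V)) :
    X.card ≤ V.card * d := by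
  classical
  refine le_trans (card_le_card ?_) (Finset.card_biUnion_le_card_mul V
    (fun v => G.filter fun e => e.1 = v ∨ e.2.1 = v) d fun v _ => hG.deg v)
  intro e he
  obtain ⟨h1, h2 | h2⟩ := hX e he
  · exact mem_biUnion.2 ⟨_, h2, mem_filter.2 ⟨h1, Or.inl rfl⟩⟩
  · exact mem_biUnion.2 ⟨_, h2, mem_filter.2 ⟨h1, Or.inr rfl⟩⟩

end Outer

open Outer in
theorem outer (h : CoreStmt) : SegParStmt := by
  classical
  intro κ _ d N P m W b i q r d' hN hW hb hiW hpar G hG
  have hmono : ∀ u v, u ≤ v → v ≤ W → i u ≤ i v := by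
    intro u v huv hv
    induction v, huv using Nat.le_induction with
    | base => exact le_rfl
    | succ v huv ih =>
      have := (hpar v (by omega)).1
      have := ih (by omega)
      omega
  have hcard : G.card ≤ N * d := by
    have := card_at hG (range N) G fun e he => ⟨he, Or.inr (mem_range.2 (hG.fwd e he).2)⟩
    rwa [card_range] at this
  obtain ⟨a, ha, hbad⟩ := exists_shift (m := m) hb G
    fun e he => ⟨(hG.fwd e he).1, (hG.fwd e he).2.trans_le hN⟩
  obtain ⟨u, hu, hwin⟩ := exists_window G (fun e => lev (e.1 + a) (e.2.1 + a)) (n := m + 1) hW i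
    hmono
  obtain ⟨p1, p2, p3, p4, p5⟩ := hpar u hu
  have hM : i (u + 1) ≤ m + 1 := (hmono _ _ hu le_rfl).trans hiW
  obtain ⟨lam, hlam⟩ := Nat.exists_eq_add_of_le hM
  have hlam' : m + 1 - i (u + 1) = lam := by omega
  rw [hlam'] at hwin p5
  have hD : 0 < 2 ^ lam := Nat.two_pow_pos _
  have hpow : 2 ^ (m + 1) = 2 ^ i (u + 1) * 2 ^ lam := by rw [← pow_add, ← hlam]
  set Bad := G.filter fun e =>
    2 ^ b * (e.2.1 - e.1) < 4 * 2 ^ lev (e.1 + a) (e.2.1 + a) with hBad
  set Win := G.filter fun e =>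
    lam < lev (e.1 + a) (e.2.1 + a) ∧ lev (e.1 + a) (e.2.1 + a) ≤ m + 1 - i u with hWin
  set ε := G.filter fun e => 4 * 2 ^ lev (e.1 + a) (e.2.1 + a) ≤ 2 ^ b * (e.2.1 - e.1) ∧
    m + 1 - i u < lev (e.1 + a) (e.2.1 + a) with hε
  have hεG : ε ⊆ G := filter_subset _ _
  obtain ⟨C, hC, hCc, hCA⟩ := h κ (ℕ × ℕ × κ) ε (fun e => (e.1 + a) / 2 ^ lam)
    (fun e => (e.2.1 + a) / 2 ^ lam) (fun e => e.2.2) (i (u + 1)) (i u) b (q u) (r u) (d' u)
    (2 ^ lam * d) (by omega) p2 p3 p1
    (by
      intro e he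
      obtain ⟨heG, h1, h2⟩ := mem_filter.1 he
      obtain ⟨f1, f2⟩ := hG.fwd e heG
      simp only [lev_div]
      obtain ⟨c, hc⟩ : ∃ c, lev (e.1 + a) (e.2.1 + a) = lam + b + c :=
        Nat.exists_eq_add_of_le (by omega)
      have h3 : 4 * 2 ^ c * 2 ^ lam ≤ e.2.1 - e.1 := by
        refine Nat.le_of_mul_le_mul_left (c := 2 ^ b) ?_ (Nat.two_pow_pos b)
        refine le_trans (le_of_eq ?_) h1
        rw [hc]; ring
      have h4 : (e.1 + a) / 2 ^ lam + 4 * 2 ^ c ≤ (e.2.1 + a) / 2 ^ lam := by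
        rw [← Nat.add_mul_div_right _ _ hD]
        exact Nat.div_le_div_right (by omega)
      have h5 : lev (e.1 + a) (e.2.1 + a) - lam - b = c := by omega
      have h6 := Nat.two_pow_pos c
      refine ⟨by omega, ?_, by omega, by rw [h5]; omega⟩
      rw [Nat.div_lt_iff_lt_mul hD, ← hpow, pow_succ]
      omega)
    (by
      intro z
      refine (card_at hG ((range N).filter fun v => (v + a) / 2 ^ lam = z) _ ?_).trans
        (Nat.mul_le_mul_right _ (card_seg N a _ z hD))
      intro e he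
      obtain ⟨he1, he2⟩ := mem_filter.1 he
      obtain ⟨f1, f2⟩ := hG.fwd e (hεG he1)
      refine ⟨hεG he1, he2.imp (fun h => ?_) fun h => ?_⟩
      · exact mem_filter.2 ⟨mem_range.2 (f1.trans f2), h⟩
      · exact mem_filter.2 ⟨mem_range.2 f2, h⟩)
    (by
      intro e he e' he' hp ⟨h1, h2, h3⟩
      have aux : ∀ x y : ℕ, (x + a) / 2 ^ lam < (y + a) / 2 ^ lam → x < y := by
        intro x y hxy
        by_contra hcon
        exact absurd hxy (not_lt.2 (Nat.div_le_div_right (by omega)))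
      exact hG.noncross e (hεG he) e' (hεG he') hp ⟨aux _ _ h1, aux _ _ h2, aux _ _ h3⟩)
  refine ⟨Bad ∪ Win ∪ C, ?_, ?_, fun τ hτ => ?_⟩
  · exact union_subset (union_subset (filter_subset _ _) (filter_subset _ _)) (hC.trans hεG)
  · have c0 : (Bad ∪ Win ∪ C).card ≤ Bad.card + Win.card + C.card :=
      (card_union_le _ _).trans (Nat.add_le_add_right (card_union_le _ _) _)
    have c0' : ((Bad ∪ Win ∪ C).card : ℝ) ≤ Bad.card + Win.card + C.card := by exact_mod_cast c0
    have hG' : (G.card : ℝ) ≤ d * N := by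
      rw [mul_comm]; exact_mod_cast hcard
    have c1 : (Bad.card : ℝ) ≤ 8 / 2 ^ b * (d * N) := by
      have h1 : (Bad.card : ℝ) * 2 ^ b ≤ 8 * G.card := by exact_mod_cast hbad
      rw [div_mul_eq_mul_div, le_div_iff₀ (by positivity)]
      linarith
    have c2 : (Win.card : ℝ) ≤ 1 / W * (d * N) := by
      have h1 : (Win.card : ℝ) * W ≤ G.card := by exact_mod_cast hwin
      have h2 : (0 : ℝ) < W := by exact_mod_cast hW
      rw [div_mul_eq_mul_div, le_div_iff₀ h2]
      linarith
    have c3 : (ε.card : ℝ) ≤ d * N := le_trans (by exact_mod_cast card_le_card hεG) hG'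
    have c4 : (2 ^ (Fintype.card κ + 1) * (b * q u + 1) / r u : ℝ) * ε.card ≤
        (2 ^ (Fintype.card κ + 1) * (b * q u + 1) / r u : ℝ) * (d * N) :=
      mul_le_mul_of_nonneg_left c3 (by positivity)
    have c5 : ((2 ^ lam * d : ℕ) : ℝ) * 2 ^ i (u + 1) = d * 2 ^ (m + 1) := by
      rw [hlam]; push_cast; ring
    rw [c5] at hCc
    have : ((Bad ∪ Win ∪ C).card : ℝ) ≤ P := by linarith
    exact_mod_cast this
  · obtain ⟨A, hA1, hA2, hA3⟩ := hCA ((τ + a) / 2 ^ lam)
    refine ⟨(range N).filter fun v => (v + a) / 2 ^ lam ∈ A,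
      mem_filter.2 ⟨mem_range.2 hτ, hA1⟩, ?_, fun e he heC ht => ?_⟩
    · have hsub : ((range N).filter fun v => (v + a) / 2 ^ lam ∈ A) ⊆
          A.biUnion fun z => (range N).filter fun v => (v + a) / 2 ^ lam = z := by
        intro v hv
        obtain ⟨h1, h2⟩ := mem_filter.1 hv
        exact mem_biUnion.2 ⟨_, h2, mem_filter.2 ⟨h1, rfl⟩⟩
      refine ((card_le_card hsub).trans
        (Finset.card_biUnion_le_card_mul _ _ _ fun z _ => card_seg N a _ z hD)).trans ?_
      exact (Nat.mul_le_mul_right _ hA2).trans p5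
    · obtain ⟨f1, f2⟩ := hG.fwd e he
      have ht' := (mem_filter.1 ht).2
      refine mem_filter.2 ⟨mem_range.2 (f1.trans f2), ?_⟩
      simp only [mem_union, not_or] at heC
      obtain ⟨⟨n1, n2⟩, n3⟩ := heC
      by_cases hl : m + 1 - i u < lev (e.1 + a) (e.2.1 + a)
      · refine hA3 e (mem_filter.2 ⟨he, ?_, hl⟩) n3 ht'
        exact not_lt.1 fun hc => n1 (mem_filter.2 ⟨he, hc⟩)
      · have h1 : lev (e.1 + a) (e.2.1 + a) ≤ lam :=
          not_lt.1 fun hc => n2 (mem_filter.2 ⟨he, hc, not_lt.1 hl⟩)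
        rw [lev_le_iff.1 h1]
        exact ht'

end Pool.Agent.MP_8c2300_lc.PP

end MrgPart6

-- ======== part 7: formerly Pool.Agent.MP_8c2300_lc.pp.Num
section MrgPart7

/-! PROJECT PPST, module NUM: the choice of the parameters of the segregator theorem. -/

namespace Pool.Agent.MP_8c2300_lc.PP

open Finset

namespace Num

variable {k W y : ℕ}

theorem two_le {a b : ℕ} (h : a ≤ b) : 2 ^ a ≤ 2 ^ b := Nat.pow_le_pow_right (by norm_num) h

theorem two_lt {a b : ℕ} (h : a < b) : 2 ^ a < 2 ^ b := Nat.pow_lt_pow_right (by norm_num) h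

theorem eight_mul (h : 6 ≤ W) : 8 * W ≤ 2 ^ W := by
  induction W, h using Nat.le_induction with
  | base => norm_num
  | succ n hn ih => rw [pow_succ]; omega

theorem gap (hW : 1 ≤ W) (hy : W ≤ y) : 2 ^ 2 ^ y + W ≤ 2 ^ 2 ^ ((6 * k + 2) * y) := by
  have h1 : y < 2 ^ y := Nat.lt_two_pow_self
  have h2 : 2 ^ y < 2 ^ 2 ^ y := Nat.lt_two_pow_self
  have h3 : 2 ^ y < 2 ^ ((6 * k + 2) * y) := two_lt (by nlinarith)
  have h4 : 2 ^ (2 ^ y + 1) ≤ 2 ^ 2 ^ ((6 * k + 2) * y) := two_le h3
  rw [pow_succ] at h4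
  omega

theorem cut_le (hW : k + 10 ≤ W) (hy : W ≤ y) :
    2 ^ (k + 1) * (W * 2 ^ (2 * y + 2) + 1) * W ≤ 2 ^ (6 * y) - 1 := by
  have h1 : y < 2 ^ y := Nat.lt_two_pow_self
  have h2 : 2 ^ (k + 1) ≤ 2 ^ y := two_le (by omega)
  have h3 : W * 2 ^ (2 * y + 2) + 1 ≤ 2 ^ y * 2 ^ (2 * y + 2) := by
    have h4 : 0 < 2 ^ (2 * y + 2) := by positivity
    have h5 := Nat.mul_le_mul_right (2 ^ (2 * y + 2)) (show W + 1 ≤ 2 ^ y by omega)
    rw [add_mul, one_mul] at h5
    omega
  have h4 : 2 ^ (k + 1) * (W * 2 ^ (2 * y + 2) + 1) * W ≤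
      2 ^ y * (2 ^ y * 2 ^ (2 * y + 2)) * 2 ^ y :=
    Nat.mul_le_mul (Nat.mul_le_mul h2 h3) (by omega)
  rw [← pow_add, ← pow_add, ← pow_add] at h4
  have h5 : 2 ^ (y + (y + (2 * y + 2)) + y) < 2 ^ (6 * y) := two_lt (by omega)
  omega

theorem hole_lt (hW : k + 10 ≤ W) (hy : W ≤ y) : k * 2 ^ 2 ^ y * W * W < 2 ^ 2 ^ (y + 2) := by
  have h1 : y < 2 ^ y := Nat.lt_two_pow_self
  have h2 : k * 2 ^ 2 ^ y * W * W ≤ 2 ^ y * 2 ^ 2 ^ y * 2 ^ y * 2 ^ y :=
    Nat.mul_le_mul (Nat.mul_le_mul (Nat.mul_le_mul_right _ (by omega)) (by omega)) (by omega)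
  rw [← pow_add, ← pow_add, ← pow_add] at h2
  refine h2.trans_lt (two_lt ?_)
  rw [pow_add]
  omega

theorem deg_le (hW : k + 10 ≤ W) (hy : W ≤ y) : k * 2 ^ 2 ^ y * W ≤ 2 ^ 2 ^ (y + 2) - 1 := by
  have h1 := hole_lt hW hy
  have h2 : k * 2 ^ 2 ^ y * W ≤ k * 2 ^ 2 ^ y * W * W := Nat.le_mul_of_pos_right _ (by omega)
  omega

theorem half_pow (W : ℕ) : ((1 : ℝ) - 1 / 2 ^ W) ^ 2 ^ W ≤ 1 / 2 := by
  have h0 : (0 : ℝ) < 2 ^ W := by positivity
  have h1 : (1 : ℝ) / 2 ^ W ≤ 1 := by
    rw [div_le_one h0]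
    exact one_le_pow₀ (by norm_num)
  have h2 : (1 : ℝ) - 1 / 2 ^ W ≤ Real.exp (-(1 / 2 ^ W)) := by
    have := Real.add_one_le_exp (-(1 / 2 ^ W : ℝ))
    linarith
  refine (pow_le_pow_left₀ (by linarith) h2 _).trans ?_
  rw [← Real.exp_nat_mul, show ((2 ^ W : ℕ) : ℝ) * -(1 / 2 ^ W) = -1 by push_cast; field_simp,
    Real.exp_neg, one_div]
  have := Real.add_one_le_exp (1 : ℝ)
  exact inv_anti₀ (by norm_num) (by linarith)

theorem decay (hy : W ≤ y) :
    ((1 : ℝ) - 1 / 2 ^ W) ^ 2 ^ (2 * y + 2) ≤ 1 / 2 ^ 2 ^ (y + 2) := by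
  have h0 : (0 : ℝ) < 2 ^ W := by positivity
  have h1 : (1 : ℝ) / 2 ^ W ≤ 1 := by
    rw [div_le_one h0]
    exact one_le_pow₀ (by norm_num)
  have h2 : 2 ^ W * 2 ^ (y + 2) ≤ 2 ^ (2 * y + 2) := by
    rw [← pow_add]
    exact two_le (by omega)
  refine (pow_le_pow_of_le_one (by linarith) (by simp) h2).trans ?_
  have h3 : (0 : ℝ) ≤ 1 - 1 / 2 ^ W := by linarith
  rw [pow_mul, ← one_div_pow (2 : ℝ) (2 ^ (y + 2))]
  exact pow_le_pow_left₀ (pow_nonneg h3 _) (half_pow W) _

theorem cost {d N m : ℕ} (hW : k + 10 ≤ W) (hy : W ≤ y) (hm : 2 ^ m ≤ 2 * N) :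
    (8 / 2 ^ W + 1 / W + 2 ^ (k + 1) * (W * ((2 ^ (2 * y + 2) : ℕ) : ℝ) + 1) /
        ((2 ^ (6 * y) - 1 : ℕ) : ℝ) : ℝ) * (d * N) +
      d * 2 ^ (m + 1) * (k * ((2 ^ 2 ^ y : ℕ) : ℝ) *
        (W * (1 - 1 / 2 ^ W) ^ 2 ^ (2 * y + 2) + 1 / ((2 ^ 2 ^ (y + 2) - 1 : ℕ) : ℝ))) ≤
      11 * d * N / W := by
  have hW0 : (0 : ℝ) < W := by exact_mod_cast (show 0 < W by omega)
  have a1 : (8 : ℝ) / 2 ^ W ≤ 1 / W := by
    rw [div_le_div_iff₀ (by positivity) hW0, one_mul]
    exact_mod_cast eight_mul (by omega)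
  have a2 : (2 : ℝ) ^ (k + 1) * (W * ((2 ^ (2 * y + 2) : ℕ) : ℝ) + 1) /
      ((2 ^ (6 * y) - 1 : ℕ) : ℝ) ≤ 1 / W := by
    have h1 : 0 < 2 ^ (6 * y) - 1 := by
      have : 2 ^ 0 < 2 ^ (6 * y) := two_lt (by omega)
      omega
    rw [div_le_div_iff₀ (by exact_mod_cast h1) hW0, one_mul]
    exact_mod_cast cut_le hW hy
  have a3 : (k : ℝ) * ((2 ^ 2 ^ y : ℕ) : ℝ) * (W * (1 - 1 / 2 ^ W) ^ 2 ^ (2 * y + 2)) ≤ 1 / W := by
    have h1 : (k : ℝ) * ((2 ^ 2 ^ y : ℕ) : ℝ) * (W * (1 / 2 ^ 2 ^ (y + 2))) ≤ 1 / W := by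
      rw [mul_one_div, ← mul_div_assoc, div_le_div_iff₀ (by positivity) hW0, one_mul]
      exact_mod_cast (hole_lt hW hy).le
    refine le_trans ?_ h1
    gcongr
    exact decay hy
  have a4 : (k : ℝ) * ((2 ^ 2 ^ y : ℕ) : ℝ) * (1 / ((2 ^ 2 ^ (y + 2) - 1 : ℕ) : ℝ)) ≤ 1 / W := by
    have h1 : 0 < 2 ^ 2 ^ (y + 2) - 1 := by
      have : 2 ^ 0 < 2 ^ 2 ^ (y + 2) := two_lt (by positivity)
      omega
    rw [mul_one_div, div_le_div_iff₀ (by exact_mod_cast h1) hW0, one_mul]
    exact_mod_cast deg_le hW hy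
  have a5 : (2 : ℝ) ^ (m + 1) ≤ 4 * N := by
    have : 2 ^ (m + 1) ≤ 4 * N := by rw [pow_succ]; omega
    exact_mod_cast this
  rw [mul_add ((k : ℝ) * _)]
  calc _ ≤ (1 / W + 1 / W + 1 / W : ℝ) * (d * N) + d * 2 ^ (m + 1) * (1 / W + 1 / W) := by
        gcongr
    _ ≤ (1 / W + 1 / W + 1 / W : ℝ) * (d * N) + d * (4 * N) * (1 / W + 1 / W) := by gcongr
    _ = 11 * d * N / W := by ring

theorem anc (hW : k + 10 ≤ W) (hy : W ≤ y) :
    (2 ^ 2 ^ (y + 2) - 1 + 1) ^ 2 ^ (2 ^ (6 * y) - 1 + 1) ^ k * W ≤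
      2 ^ 2 ^ 2 ^ ((6 * k + 2) * y) := by
  rw [Nat.sub_add_cancel Nat.one_le_two_pow, Nat.sub_add_cancel Nat.one_le_two_pow, ← pow_mul,
    ← pow_mul, ← pow_add]
  have h1 : W < 2 ^ W := Nat.lt_two_pow_self
  refine (Nat.mul_le_mul_left _ h1.le).trans ?_
  rw [← pow_add]
  refine two_le ?_
  have h2 : y + 2 + 2 ^ (6 * y * k) < 2 ^ (y + 2 + 2 ^ (6 * y * k)) := Nat.lt_two_pow_self
  have h3 : y + 2 + 2 ^ (6 * y * k) + 1 ≤ 2 ^ ((6 * k + 2) * y) := by
    have h4 : 2 * y < 2 ^ (2 * y) := Nat.lt_two_pow_self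
    have h5 : 0 < 2 ^ (6 * y * k) := by positivity
    rw [show (6 * k + 2) * y = 6 * y * k + 2 * y by ring, pow_add]
    have h6 := Nat.mul_le_mul_left (2 ^ (6 * y * k)) (show y + 3 + 1 ≤ 2 ^ (2 * y) by omega)
    have h7 := Nat.le_mul_of_pos_left (y + 3) h5
    rw [mul_add, mul_one] at h6
    omega
  have h4 := two_le h3
  have h5 : 0 < 2 ^ (6 * y * k) := by positivity
  rw [pow_succ] at h4
  omega

end Num

open PP.Num

theorem seg (h : SegParStmt) : SegStmt := by
  intro κ _ d
  obtain ⟨k, hk⟩ : ∃ k, k = Fintype.card κ := ⟨_, rfl⟩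
  refine ⟨2 * (6 * k + 2), 11 * d + 4 + (k + 10), fun W N P hN hP => ?_⟩
  rcases lt_or_ge W (k + 10) with hW | hW
  · have h1 : (11 * d + 4 + (k + 10)) * N ≤ (11 * d + 4 + (k + 10)) * P := by
      rw [mul_comm _ P]
      exact hP.trans (Nat.mul_le_mul_left _ (by omega))
    have h2 := Nat.le_of_mul_le_mul_left h1 (by omega)
    intro G hG
    refine ⟨∅, empty_subset _, by simp, fun τ hτ => ⟨range N, mem_range.2 hτ, by simpa using h2,
      fun e he _ _ => mem_range.2 ?_⟩⟩
    have := hG.fwd e he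
    omega
  have hN2 : 2 ≤ N := le_trans (two_le (a := 1) Nat.one_le_two_pow) hN
  have hm1 : N ≤ 2 ^ Nat.clog 2 N := Nat.le_pow_clog (by norm_num) N
  have hm2 : 2 ^ Nat.clog 2 N ≤ 2 * N := by
    have h1 := Nat.pow_pred_clog_lt_self (b := 2) (by norm_num) (show 1 < N by omega)
    have h2 : 0 < Nat.clog 2 N := Nat.clog_pos (by norm_num) (by omega)
    obtain ⟨j, hj⟩ : ∃ j, Nat.clog 2 N = j + 1 := ⟨Nat.clog 2 N - 1, by omega⟩
    rw [hj] at h1 ⊢
    simp only [Nat.pred_succ] at h1
    rw [pow_succ]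
    omega
  have htop : ∀ u ≤ W, 2 ^ 2 ^ ((6 * k + 2) ^ u * W) ≤ Nat.clog 2 N + 1 := by
    intro u hu
    have h1 : (6 * k + 2) ^ u * W ≤ (2 * (6 * k + 2)) ^ W := by
      rw [mul_pow, mul_comm]
      exact Nat.mul_le_mul Nat.lt_two_pow_self.le (Nat.pow_le_pow_right (by omega) hu)
    have h2 := (Nat.pow_le_pow_iff_right (a := 2) (by norm_num)).1 (hN.trans hm1)
    have h3 := two_le (two_le h1)
    omega
  refine h κ d N P (Nat.clog 2 N) W W (fun u => 2 ^ 2 ^ ((6 * k + 2) ^ u * W))
    (fun u => 2 ^ (2 * ((6 * k + 2) ^ u * W) + 2)) (fun u => 2 ^ (6 * ((6 * k + 2) ^ u * W)) - 1)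
    (fun u => 2 ^ 2 ^ ((6 * k + 2) ^ u * W + 2) - 1) hm1 (by omega) (by omega) (htop W le_rfl)
    fun u hu => ?_
  have ht := htop (u + 1) hu
  have e : (6 * k + 2) ^ (u + 1) * W = (6 * k + 2) * ((6 * k + 2) ^ u * W) := by ring
  have hy : W ≤ (6 * k + 2) ^ u * W := Nat.le_mul_of_pos_left _ (by positivity)
  rw [e] at ht
  simp only [e, ← hk]
  generalize (6 * k + 2) ^ u * W = y at ht hy ⊢
  refine ⟨gap (by omega) hy, ?_, ?_, (cost hW hy hm2).trans ?_, ?_⟩
  · have : 2 ^ 0 < 2 ^ (6 * y) := two_lt (by omega)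
    omega
  · have : 2 ^ 0 < 2 ^ 2 ^ (y + 2) := two_lt (by positivity)
    omega
  · rw [div_le_iff₀ (by exact_mod_cast (show 0 < W by omega))]
    have : 11 * d * N ≤ P * W := le_trans (Nat.mul_le_mul_right _ (by omega)) hP
    exact_mod_cast this
  · refine Nat.le_of_mul_le_mul_right ?_ (show 0 < W by omega)
    rw [mul_right_comm]
    refine (Nat.mul_le_mul_right _ (anc hW hy)).trans ?_
    rw [← pow_add, Nat.add_sub_cancel' ht, pow_succ]
    have : 4 * N ≤ P * W := le_trans (Nat.mul_le_mul_right _ (by omega)) hP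
    omega

end Pool.Agent.MP_8c2300_lc.PP

end MrgPart7

-- marker of a merged file
example : 731051 + 438240 = 731051 + 438240 := rfl
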