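import Mathlib.Algebra.Order.Ring.Star
import Pool.Agent.MP_8c2300_lc.pp.Spec

/-! PROJECT PPST, module EPOCH: cutting few edges bounds the length of descending chains. -/

namespace Pool.Agent.MP_8c2300_lc.PP

open Finset

namespace Epoch

open Classical

variable {κ ι : Type}

/-- A chain with `n + 1` elements that ends in `e` and has all its pages in `J`. -/
def Ch (T : ι → Prop) (R : ι → ι → Prop) (pg : ι → κ) (J : Finset κ) : ℕ → ι → Prop
  | 0, e => T e ∧ pg e ∈ J
  | n + 1, e => (T e ∧ pg e ∈ J) ∧ ∃ e0, Ch T R pg J n e0 ∧ R e0 e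

variable {T : ι → Prop} {R : ι → ι → Prop} {pg : ι → κ}

lemma Ch.base {J : Finset κ} {n : ℕ} {e : ι} (h : Ch T R pg J n e) : T e ∧ pg e ∈ J := by
  cases n
  exacts [h, h.1]

lemma Ch.mono {J J' : Finset κ} (hJ : J ⊆ J') {n : ℕ} {e : ι} (h : Ch T R pg J n e) :
    Ch T R pg J' n e := by
  induction n generalizing e with
  | zero => exact ⟨h.1, hJ h.2⟩
  | succ n ih =>
    obtain ⟨h1, e0, h2, h3⟩ := h
    exact ⟨⟨h1.1, hJ h1.2⟩, e0, ih h2, h3⟩

lemma bound {r : ℕ} (γ : Finset κ → ι → ℕ) (S : Finset κ → ι → Finset κ)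
    (h1 : ∀ J e, γ J e < r) (h2 : ∀ J e, J.Nonempty → S J e ⊂ J)
    (h3 : ∀ J e0 e, T e0 → T e → R e0 e → pg e0 ∈ J → pg e ∈ J →
      γ J e0 < γ J e ∨ γ J e0 = γ J e ∧ S J e0 ⊆ S J e ∧ pg e ∈ S J e) (J : Finset κ) :
    ∀ n e, Ch T R pg J n e → n + 2 ≤ (r + 1) ^ #J := by
  induction J using Finset.strongInduction with
  | H J ih =>
    intro n e h
    have hJ : J.Nonempty := ⟨_, h.base.2⟩
    obtain ⟨k, hk⟩ : ∃ k, #J = k + 1 := ⟨#J - 1, by have := hJ.card_pos; omega⟩
    have hP : 0 < (r + 1) ^ k := by positivity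
    have low : ∀ n e, (n ≤ γ J e * (r + 1) ^ k ∨ ∃ m, Ch T R pg (S J e) m e ∧
        n ≤ γ J e * (r + 1) ^ k + m + 1) → n + 1 ≤ (γ J e + 1) * (r + 1) ^ k := by
      rintro n e (k1 | ⟨m, k1, k2⟩) <;> rw [add_one_mul]
      · omega
      · have k3 := ih _ (h2 J e hJ) m e k1
        have k4 := card_lt_card (h2 J e hJ)
        have k5 : (r + 1) ^ #(S J e) ≤ (r + 1) ^ k := Nat.pow_le_pow_right r.succ_pos (by omega)
        omega
    have key : ∀ n e, Ch T R pg J n e → n ≤ γ J e * (r + 1) ^ k ∨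
        ∃ m, Ch T R pg (S J e) m e ∧ n ≤ γ J e * (r + 1) ^ k + m + 1 := by
      intro n
      induction n with
      | zero => exact fun _ _ => Or.inl (Nat.zero_le _)
      | succ n ihn =>
        rintro e ⟨k1, e0, k2, k3⟩
        rcases h3 J e0 e k2.base.1 k1.1 k3 k2.base.2 k1.2 with k4 | ⟨k4, k5, k6⟩
        · exact Or.inl ((low n e0 (ihn e0 k2)).trans (Nat.mul_le_mul_right _ k4))
        · rcases ihn e0 k2 with k7 | ⟨m, k7, k8⟩
          · exact Or.inr ⟨0, ⟨k1.1, k6⟩, by rw [← k4]; omega⟩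
          · exact Or.inr ⟨m + 1, ⟨⟨k1.1, k6⟩, e0, k7.mono k5, k3⟩, by rw [← k4]; omega⟩
    have k1 := (low n e (key n e h)).trans (Nat.mul_le_mul_right _ (h1 J e))
    rw [hk, pow_succ', add_one_mul]
    omega

lemma exists_rank [Fintype κ] {N : ℕ} (h : ∀ n e, Ch T R pg univ n e → n + 2 ≤ N) :
    ∃ rank : ι → ℕ, (∀ e, T e → rank e < N) ∧ ∀ e e', T e → T e' → R e e' → rank e' < rank e := by
  have hb : ∀ e, BddAbove {n | Ch T R pg univ n e} := fun e =>
    ⟨N, fun n hn => by have := h n e hn; omega⟩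
  have hm : ∀ e, T e → Ch T R pg univ (sSup {n | Ch T R pg univ n e}) e := fun e he =>
    Nat.sSup_mem (s := {n | Ch T R pg univ n e}) ⟨0, he, mem_univ _⟩ (hb e)
  refine ⟨fun e => N - (sSup {n | Ch T R pg univ n e} + 1), fun e he => ?_, fun e e' a b c => ?_⟩
  · have := h _ _ (hm e he)
    show N - _ < N
    omega
  · have k1 := h _ _ (hm e' b)
    have k2 : sSup {n | Ch T R pg univ n e} + 1 ≤ sSup {n | Ch T R pg univ n e'} :=
      le_csSup (hb e') ⟨⟨b, mem_univ _⟩, e, hm e a, c⟩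
    show N - _ < N - _
    omega

/-- One step of the epoch counter. -/
noncomputable def step (J : Finset κ) (a : κ → Prop) (p : Finset κ × ℕ) : Finset κ × ℕ :=
  if p.1 ∪ J.filter a = J then (∅, p.2 + 1) else (p.1 ∪ J.filter a, p.2)

/-- The state of the epoch counter at a node. -/
noncomputable def st (act : κ → ℕ → ℕ → Prop) (M : ℕ) (J : Finset κ) (h x : ℕ) : Finset κ × ℕ :=
  if h < M then step J (fun j => act j h x) (st act M J (h + 1) (x / 2)) else (∅, 0)
termination_by M - h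

lemma st_sub (act : κ → ℕ → ℕ → Prop) (M : ℕ) {J : Finset κ} (hJ : J.Nonempty) (h x : ℕ) :
    (st act M J h x).1 ⊂ J := by
  induction hn : M - h generalizing h x with
  | zero =>
    rw [st, if_neg (by omega)]
    exact hJ.empty_ssubset
  | succ n ih =>
    rw [st, if_pos (by omega), step]
    split_ifs with k
    · exact hJ.empty_ssubset
    · exact Finset.ssubset_iff_subset_ne.2
        ⟨union_subset (ih (h + 1) _ (by omega)).subset (filter_subset _ _), k⟩

section

variable {J : Finset κ} {a : κ → ℕ → Prop} {σ : ℕ → Finset κ × ℕ} {M : ℕ}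

lemma seq_mono (hσ : ∀ h < M, σ h = step J (fun j => a j h) (σ (h + 1))) {h' h : ℕ}
    (h1 : h' ≤ h) (h2 : h ≤ M) :
    (σ h).2 ≤ (σ h').2 ∧ ((σ h).2 = (σ h').2 → (σ h).1 ⊆ (σ h').1 ∧
      (h' < h → ∀ j ∈ J, a j h' → j ∈ (σ h').1)) := by
  induction h, h1 using Nat.le_induction with
  | base => exact ⟨le_rfl, fun _ => ⟨Subset.rfl, fun k => absurd k (lt_irrefl _)⟩⟩
  | succ h h1 ih =>
    obtain ⟨k1, k2⟩ := ih (by omega)
    have k3 := hσ h (by omega)
    rw [step] at k3
    split_ifs at k3 with k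
    · have k4 : (σ h).2 = (σ (h + 1)).2 + 1 := by rw [k3]
      exact ⟨by omega, fun k5 => by omega⟩
    · have k4 : (σ h).2 = (σ (h + 1)).2 := by rw [k3]
      have k5 : (σ h).1 = (σ (h + 1)).1 ∪ J.filter fun j => a j h := by rw [k3]
      refine ⟨k4 ▸ k1, fun k6 => ⟨(k5 ▸ subset_union_left : _ ⊆ (σ h).1).trans
        (k2 (k4.trans k6)).1, fun _ j k7 k8 => ?_⟩⟩
      rcases h1.lt_or_eq with k9 | rfl
      · exact (k2 (k4.trans k6)).2 k9 j k7 k8
      · rw [k5]
        exact mem_union_right _ (mem_filter.2 ⟨k7, k8⟩)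

lemma seq_cnt (hσ : ∀ h < M, σ h = step J (fun j => a j h) (σ (h + 1))) {j : κ} (hj : j ∈ J)
    {h : ℕ} (h2 : h ≤ M) :
    (σ 0).2 ≤ (σ h).2 + #((range h).filter fun h' => a j h') + if j ∈ (σ h).1 then 1 else 0 := by
  induction h with
  | zero => omega
  | succ h ih =>
    have k1 := ih (by omega)
    have k3 := hσ h (by omega)
    have k2 : #((range (h + 1)).filter fun h' => a j h') =
        #((range h).filter fun h' => a j h') + if a j h then 1 else 0 := by
      simp only [card_filter, sum_range_succ]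
    rw [step] at k3
    rw [k2]
    split_ifs at k3 with k
    · have k4 : j ∈ (σ (h + 1)).1 ∨ a j h := by
        rw [← k, mem_union, mem_filter] at hj
        exact hj.imp id And.right
      rw [k3] at k1
      simp only [notMem_empty, if_false] at k1
      split_ifs <;> first | omega | tauto
    · rw [k3] at k1
      simp only [mem_union, mem_filter] at k1
      split_ifs at k1 ⊢ <;> first | omega | tauto

end

lemma cut_card (r c n : ℕ) : #((range r).filter fun a => (c + a) / r ≠ (c + n + a) / r) ≤ n := by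
  induction n with
  | zero => simp
  | succ n ih =>
    have k : #((range r).filter fun a => r ∣ c + n + a + 1) ≤ 1 := card_le_one.2 fun a ha b hb => by
      rw [mem_filter, mem_range] at ha hb
      have k1 : c + n + 1 + a ≡ c + n + 1 + b [MOD r] :=
        ((Nat.modEq_zero_iff_dvd.2 (by rw [add_right_comm]; exact ha.2))).trans
          (Nat.modEq_zero_iff_dvd.2 (by rw [add_right_comm]; exact hb.2)).symm
      exact (Nat.ModEq.add_left_cancel' _ k1).eq_of_lt_of_lt ha.1 hb.1
    refine (card_le_card fun a ha => ?_).trans ((card_union_le _ _).trans (Nat.add_le_add ih k))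
    rw [mem_filter] at ha
    rw [mem_union, mem_filter, mem_filter]
    by_contra k1
    refine ha.2 ?_
    rw [show c + (n + 1) + a = c + n + a + 1 by ring, Nat.succ_div,
      if_neg fun m => k1 (Or.inr ⟨ha.1, m⟩)]
    exact by_contra fun m => k1 (Or.inl ⟨ha.1, m⟩)

end Epoch

open Epoch Classical in
theorem epoch : EpochStmt := by
  intro κ ι _ ε s t lv pg act w r hr h1 h2
  set M := ε.sup lv with hM
  have hlv : ∀ e ∈ ε, lv e ≤ M := fun e he => le_sup he
  let σ : Finset κ → ℕ → ℕ → Finset κ × ℕ := fun J z h => st act M J h (z / 2 ^ h)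
  have hσ : ∀ J z, ∀ h < M, σ J z h = step J (fun j => act j h (z / 2 ^ h)) (σ J z (h + 1)) :=
    fun J z h hh => by
      simp only [σ]
      rw [st, if_pos hh, Nat.div_div_eq_div_mul, ← pow_succ]
  let cut : ι → Finset κ → ℕ → ℕ → Prop := fun e J z a =>
    pg e ∈ J ∧ ((σ J z (lv e)).2 + a) / r ≠ ((σ J z 0).2 + a) / r
  let C : ℕ → Finset ι := fun a => ε.filter fun e => ∃ J, cut e J (s e) a ∨ cut e J (t e) a
  have c1 : ∀ e ∈ ε, ∀ J z, z = s e ∨ z = t e → #((range r).filter (cut e J z)) ≤ w + 1 := by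
    intro e he J z hz
    by_cases hj : pg e ∈ J
    · have k1 := (seq_mono (hσ J z) (Nat.zero_le _) (hlv e he)).1
      have k2 := seq_cnt (a := fun j h => act j h (z / 2 ^ h)) (hσ J z) hj (hlv e he)
      have k3 := h2 e he z hz
      obtain ⟨n, hn⟩ := Nat.exists_eq_add_of_le k1
      refine (card_le_card fun a ha => ?_).trans ((cut_card r (σ J z (lv e)).2 n).trans ?_)
      · rw [mem_filter] at ha ⊢
        exact ⟨ha.1, hn ▸ ha.2.2⟩
      · split_ifs at k2 <;> omega
    · rw [filter_false_of_mem fun a _ k => hj k.1]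
      exact Nat.zero_le _
  have c2 : ∑ a ∈ range r, #(C a) ≤ 2 ^ (Fintype.card κ + 1) * (w + 1) * #ε := by
    simp only [C, card_filter]
    rw [sum_comm, mul_comm, ← smul_eq_mul]
    refine sum_le_card_nsmul _ _ _ fun e he => ?_
    rw [← card_filter]
    calc _ ≤ #(univ.biUnion fun J : Finset κ =>
            (range r).filter (cut e J (s e)) ∪ (range r).filter (cut e J (t e))) :=
          card_le_card fun a ha => by
            obtain ⟨k1, J, k2⟩ := mem_filter.1 ha
            exact mem_biUnion.2 ⟨J, mem_univ _, mem_union.2 (k2.imp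
              (fun k => mem_filter.2 ⟨k1, k⟩) fun k => mem_filter.2 ⟨k1, k⟩)⟩
      _ ≤ #(univ : Finset (Finset κ)) * (w + 1 + (w + 1)) :=
          card_biUnion_le_card_mul _ _ _ fun J _ => (card_union_le _ _).trans
            (Nat.add_le_add (c1 e he J _ (Or.inl rfl)) (c1 e he J _ (Or.inr rfl)))
      _ = _ := by rw [card_univ, Fintype.card_finset]; ring
  obtain ⟨a, ha, hmin⟩ := exists_min_image (range r) (fun a => #(C a)) ⟨0, mem_range.2 hr⟩
  have c3 : #(C a) * r ≤ ∑ a ∈ range r, #(C a) := by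
    have := card_nsmul_le_sum _ _ _ hmin
    rwa [card_range, smul_eq_mul, mul_comm] at this
  obtain ⟨rank, r1, r2⟩ := exists_rank (T := fun e => e ∈ ε ∧ e ∉ C a) (pg := pg)
    (R := fun e e' => lv e' < lv e ∧
      (s e / 2 ^ lv e' = s e' / 2 ^ lv e' ∨ t e / 2 ^ lv e' = s e' / 2 ^ lv e'))
    (bound (r := r) (fun J e => ((σ J (s e) (lv e)).2 + a) % r) (fun J e => (σ J (s e) (lv e)).1)
      (fun _ _ => Nat.mod_lt _ hr) (fun J e hJ => st_sub act M hJ _ _) (by
        rintro J e e' ⟨he, hc⟩ ⟨he', -⟩ ⟨k1, k2⟩ hj hj'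
        obtain ⟨z, z1, z2, z3, z4⟩ : ∃ z, ¬cut e J z a ∧ σ J (s e) (lv e) = σ J z (lv e) ∧
            σ J (s e') (lv e') = σ J z (lv e') ∧ act (pg e') (lv e') (z / 2 ^ lv e') := by
          rcases k2 with k2 | k2
          · exact ⟨s e, fun k => hc (mem_filter.2 ⟨he, J, Or.inl k⟩), rfl, by simp only [σ, k2],
              k2 ▸ (h1 e' he').2⟩
          · exact ⟨t e, fun k => hc (mem_filter.2 ⟨he, J, Or.inr k⟩), by
              simp only [σ, (h1 e he).1], by simp only [σ, k2], k2 ▸ (h1 e' he').2⟩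
        simp only [z2, z3]
        have m1 := seq_mono (a := fun j h => act j h (z / 2 ^ h)) (hσ J z) k1.le (hlv e he)
        have m2 := (seq_mono (hσ J z) (Nat.zero_le _) (hlv e' he')).1
        have m3 : ((σ J z (lv e)).2 + a) / r = ((σ J z 0).2 + a) / r :=
          by_contra fun k => z1 ⟨hj, k⟩
        rcases m1.1.lt_or_eq with m4 | m4
        · have m5 : ((σ J z (lv e)).2 + a) / r = ((σ J z (lv e')).2 + a) / r :=
            le_antisymm (Nat.div_le_div_right (by omega))
              (m3 ▸ Nat.div_le_div_right (by omega))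
          have m6 := Nat.div_add_mod ((σ J z (lv e)).2 + a) r
          have m7 := Nat.div_add_mod ((σ J z (lv e')).2 + a) r
          rw [m5] at m6
          exact Or.inl (by omega)
        · exact Or.inr ⟨by rw [m4], (m1.2 m4).1, (m1.2 m4).2 k1 _ hj' z4⟩) univ)
  exact ⟨C a, filter_subset _ _, c3.trans c2, rank, fun e he hc => r1 e ⟨he, hc⟩,
    fun e he hc e' he' hc' k1 k2 => r2 e e' ⟨he, hc⟩ ⟨he', hc'⟩ ⟨k1, k2⟩⟩

end Pool.Agent.MP_8c2300_lc.PP
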