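import Pool.Agent.MP_8c2300_lc.pp.Spec

/-! PROJECT PPST, module RULES: accepting computations of a stack machine are the valid
transcripts of a finite table of pop / push rules. -/

namespace Pool.Agent.MP_8c2300_lc.PP

namespace Rules

open Function

/-- All columns run from `B`, and column `0` ends empty. -/
def Ok (B : ℕ → List Bool) (ρs : List Rule) : Prop :=
  (∀ j, runCol (col ρs j) (B j) ≠ none) ∧ runCol (col ρs 0) (B 0) = some []

theorem ok_nil (B : ℕ → List Bool) : Ok B [] ↔ B 0 = [] := by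
  simp [Ok, col, runCol]

theorem ok_cons (B : ℕ → List Bool) (ρ : Rule) (ρs : List Rule) :
    Ok B (ρ :: ρs) ↔ (∀ j, (ρ.getD j ([], [])).1 <+: B j) ∧
      Ok (fun j => (ρ.getD j ([], [])).2 ++ (B j).drop (ρ.getD j ([], [])).1.length) ρs := by
  have e : ∀ j, col (ρ :: ρs) j = ρ.getD j ([], []) :: col ρs j := fun _ => rfl
  unfold Ok
  simp only [e, runCol]
  constructor
  · rintro ⟨h1, h2⟩
    have h : ∀ j, (ρ.getD j ([], [])).1 <+: B j := fun j => by
      by_contra hj
      exact h1 j (if_neg hj)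
    exact ⟨h, fun j => by simpa only [if_pos (h j)] using h1 j,
      by simpa only [if_pos (h 0)] using h2⟩
  · rintro ⟨h, h1, h2⟩
    exact ⟨fun j => by simpa only [if_pos (h j)] using h1 j, by simpa only [if_pos (h 0)] using h2⟩

theorem ok_empty (B : ℕ → List Bool) (ρs : List Rule) : Ok B ([] :: ρs) ↔ Ok B ρs := by
  simp [ok_cons]

/-- A rule that acts on column `0` and on column `j`. -/
def mkR (f0 : Field) (j : ℕ) (f : Field) : Rule :=
  (List.range (j + 1)).map fun k => if k = 0 then f0 else if k = j then f else ([], [])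

theorem mkR_getD (f0 : Field) (j : ℕ) (f : Field) (k : ℕ) :
    (mkR f0 j f).getD k ([], []) = if k = 0 then f0 else if k = j then f else ([], []) := by
  by_cases hk : k < j + 1
  · simp [mkR, hk]
  · have h1 : k ≠ 0 := by omega
    have h2 : k ≠ j := by omega
    simp [mkR, hk, h1, h2]

theorem ok_mkR (B : ℕ → List Bool) (f0 : Field) {j : ℕ} (hj : j ≠ 0) (f : Field)
    (ρs : List Rule) :
    Ok B (mkR f0 j f :: ρs) ↔ f0.1 <+: B 0 ∧ f.1 <+: B j ∧
      Ok (update (update B 0 (f0.2 ++ (B 0).drop f0.1.length)) j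
        (f.2 ++ (B j).drop f.1.length)) ρs := by
  rw [ok_cons]
  have e : (fun k => ((mkR f0 j f).getD k ([], [])).2 ++
      (B k).drop ((mkR f0 j f).getD k ([], [])).1.length) =
      update (update B 0 (f0.2 ++ (B 0).drop f0.1.length)) j (f.2 ++ (B j).drop f.1.length) := by
    funext k
    rw [mkR_getD]
    by_cases h0 : k = 0
    · subst h0; simp [update_of_ne hj.symm]
    · by_cases h1 : k = j
      · subst h1; simp [h0]
      · simp [h0, h1]
  rw [e, ← and_assoc]
  refine and_congr_left' ⟨fun h => ⟨?_, ?_⟩, fun h k => ?_⟩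
  · have := h 0
    rwa [mkR_getD, if_pos rfl] at this
  · have := h j
    rwa [mkR_getD, if_neg hj, if_pos rfl] at this
  · rw [mkR_getD]
    split_ifs with h0 h1
    · exact h0 ▸ h.1
    · exact h1 ▸ h.2
    · exact List.nil_prefix

theorem unary_pre {a b : ℕ} {u v : List Bool}
    (h : List.replicate a true ++ false :: u <+: List.replicate b true ++ false :: v) : a = b := by
  induction a generalizing b with
  | zero => cases b with
    | zero => rfl
    | succ b => simp [List.replicate_succ] at h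
  | succ a ih => cases b with
    | zero => simp [List.replicate_succ] at h
    | succ b => exact congrArg _ (ih (by simpa [List.replicate_succ] using h))

variable (D : SM)

open Classical in
/-- Column of a stack. -/
noncomputable def cl (i : D.ι) : ℕ := if i = D.in0 then 1 else (Fintype.equivFin D.ι i : ℕ) + 2

theorem cl_ne (i : D.ι) : cl D i ≠ 0 := by
  unfold cl
  split_ifs <;> omega

theorem cl_inj : Injective (cl D) := by
  intro i j h
  unfold cl at h
  split_ifs at h with h1 h2 h2
  · rw [h1, h2]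
  · omega
  · omega
  · exact (Fintype.equivFin D.ι).injective (Fin.ext (by omega))

/-- Code of a state. -/
noncomputable def cw (q : D.Q) : List Bool :=
  List.replicate ((Finite.equivFin D.Q q : ℕ) + 1) true ++ [false]

theorem cw_pre {q q' : D.Q} (h : cw D q <+: cw D q') : q = q' :=
  (Finite.equivFin D.Q).injective (Fin.ext (by have := unary_pre h; omega))

theorem cw_guess (q : D.Q) : ¬ cw D q <+: [false] := by
  simp [cw, List.replicate_succ]

theorem guess_cw (q : D.Q) : ¬ [false] <+: cw D q := by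
  simp [cw, List.replicate_succ]

open Classical in
/-- Code of a stack symbol. -/
noncomputable def cs (γ : D.Γ) : List Bool :=
  if h : ∃ b, D.inp b = γ then [true, h.choose]
  else false :: true :: (List.replicate (Finite.equivFin D.Γ γ : ℕ) true ++ [false])

theorem cs_inp (b : Bool) : cs D (D.inp b) = [true, b] := by
  have h : ∃ b', D.inp b' = D.inp b := ⟨b, rfl⟩
  rw [cs, dif_pos h, D.inp_inj h.choose_spec]

theorem cs_cases (γ : D.Γ) : (∃ b, γ = D.inp b ∧ cs D γ = [true, b]) ∨
    cs D γ = false :: true :: (List.replicate (Finite.equivFin D.Γ γ : ℕ) true ++ [false]) := by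
  by_cases h : ∃ b, D.inp b = γ
  · obtain ⟨b, rfl⟩ := h
    exact Or.inl ⟨b, rfl, cs_inp D b⟩
  · exact Or.inr (dif_neg h)

/-- Code of a stack. -/
noncomputable def stk (l : List D.Γ) : List Bool := l.flatMap (cs D) ++ [false, false]

theorem stk_cons (γ : D.Γ) (l : List D.Γ) : stk D (γ :: l) = cs D γ ++ stk D l := by
  simp [stk]

theorem cs_pre {γ : D.Γ} {l : List D.Γ} (h : cs D γ <+: stk D l) : l.head? = some γ := by
  cases l with
  | nil => rcases cs_cases D γ with ⟨b, _, e⟩ | e <;> simp [e, stk] at h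
  | cons γ' l =>
    rw [stk_cons] at h
    rcases cs_cases D γ with ⟨b, rfl, e⟩ | e <;> rcases cs_cases D γ' with ⟨b', rfl, e'⟩ | e' <;>
      rw [e, e'] at h
    · simp at h
      simp [h]
    · simp at h
    · simp at h
    · simp only [List.cons_append, List.cons_prefix_cons, true_and, List.append_assoc] at h
      exact congrArg some ((Finite.equivFin D.Γ).injective (Fin.ext (unary_pre h).symm))

theorem bot_pre {l : List D.Γ} (h : [false, false] <+: stk D l) : l = [] := by
  cases l with
  | nil => rfl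
  | cons γ l =>
    rw [stk_cons] at h
    rcases cs_cases D γ with ⟨b, _, e⟩ | e <;> simp [e] at h

/-- The columns `B` hold the control word `c` and the stacks `S`. -/
def Rep (B : ℕ → List Bool) (c : List Bool) (S : D.ι → List D.Γ) : Prop :=
  B 0 = c ∧ ∀ i, B (cl D i) = stk D (S i)

variable {D}

theorem Rep.upd {B : ℕ → List Bool} {c : List Bool} {S : D.ι → List D.Γ} (h : Rep D B c S)
    (c' : List Bool) (i : D.ι) (l : List D.Γ) :
    Rep D (update (update B 0 c') (cl D i) (stk D l)) c' (update S i l) := by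
  refine ⟨by simp [update_of_ne (cl_ne D i).symm], fun k => ?_⟩
  by_cases hk : k = i
  · subst hk; simp
  · rw [update_of_ne ((cl_inj D).ne hk), update_of_ne (cl_ne D k), update_of_ne hk, h.2]

/-- A rule that pops the whole control word. -/
theorem Rep.rule {B : ℕ → List Bool} {c : List Bool} {S : D.ι → List D.Γ} (h : Rep D B c S)
    (c' : List Bool) (i : D.ι) (l : List D.Γ) (f : Field) (u : List Bool)
    (h1 : stk D (S i) = f.1 ++ u) (h2 : stk D l = f.2 ++ u) :
    ∃ B', Rep D B' c' (update S i l) ∧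
      ∀ ρs, Ok B (mkR (c, c') (cl D i) f :: ρs) ↔ Ok B' ρs := by
  refine ⟨_, h.upd c' i l, fun ρs => ?_⟩
  rw [ok_mkR B _ (cl_ne D i), h.1, h.2, h1, h2]
  simp

variable (D)

noncomputable def gR (b : Bool) : Rule := mkR ([false], [false]) (cl D D.in1) ([], [true, b])

noncomputable def sR : Rule := mkR ([false], cw D D.start) (cl D D.in0) ([], [])

noncomputable def aR (q : D.Q) (o : Option D.Γ) : Act D.ι D.Γ D.Q → Rule
  | .goto q' => mkR (cw D q, cw D q') (cl D D.in0) ([], [])
  | .push i γ q' => mkR (cw D q, cw D q') (cl D i) ([], cs D γ)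
  | .pop i f => mkR (cw D q, cw D (f o)) (cl D i) (match o with
    | some γ => (cs D γ, [])
    | none => ([false, false], [false, false]))

noncomputable def qR (q : D.Q) (o : Option D.Γ) : Rule :=
  match D.out q with
  | some true => mkR (cw D q, []) (cl D D.in0) ([], [])
  | some false => []
  | none => aR D q o (D.act q)

/-- The rules of `D`. -/
def IsR (ρ : Rule) : Prop := (∃ b, ρ = gR D b) ∨ ρ = sR D ∨ ∃ q o, ρ = qR D q o

theorem exists_tab : ∃ tab : List Rule, ∀ ρ, ρ ∈ tab ↔ IsR D ρ := by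
  refine ⟨gR D false :: gR D true :: sR D ::
    (Set.finite_range fun p : D.Q × Option D.Γ => qR D p.1 p.2).toFinset.toList, fun ρ => ?_⟩
  simp [IsR, or_assoc, eq_comm]

variable {D}

theorem qR_pre {B : ℕ → List Bool} {q : D.Q} {o : Option D.Γ} {ρs : List Rule}
    (h : Ok B (qR D q o :: ρs)) : qR D q o = [] ∨ cw D q <+: B 0 := by
  unfold qR at h ⊢
  rcases ho : D.out q with _ | _ | _ <;> simp only [ho] at h ⊢
  · right
    cases ha : D.act q <;> rw [ha] at h <;> exact ((ok_mkR B _ (cl_ne D _) _ _).1 h).1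
  · simp
  · exact Or.inr ((ok_mkR B _ (cl_ne D _) _ _).1 h).1

/-- The rule of one instruction, with the right guess of the popped symbol. -/
theorem act_rule {B : ℕ → List Bool} {q : D.Q} {S : D.ι → List D.Γ} (h : Rep D B (cw D q) S)
    (a : Act D.ι D.Γ D.Q) (o : Option D.Γ) (ho : ∀ i f, a = .pop i f → o = (S i).head?) :
    ∃ B', Rep D B' (cw D (a.run S).1) (a.run S).2 ∧
      ∀ ρs, Ok B (aR D q o a :: ρs) ↔ Ok B' ρs := by
  cases a with
  | goto q' => simpa [aR, Act.run] using h.rule (cw D q') D.in0 _ ([], []) _ rfl rfl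
  | push i γ q' => exact h.rule (cw D q') i _ ([], cs D γ) _ rfl (stk_cons D _ _)
  | pop i f =>
    obtain rfl := ho i f rfl
    cases hS : S i with
    | nil =>
      simpa [aR, Act.run, hS] using h.rule (cw D (f none)) i [] ([false, false], [false, false])
        [] (by simp [hS, stk]) (by simp [stk])
    | cons γ l =>
      simpa [aR, Act.run, hS] using h.rule (cw D (f (some γ))) i l (cs D γ, []) (stk D l)
        (by simp [hS, stk_cons]) rfl

theorem act_guess {B : ℕ → List Bool} {q : D.Q} {c : List Bool} {S : D.ι → List D.Γ}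
    (h : Rep D B c S) (a : Act D.ι D.Γ D.Q) (o : Option D.Γ) {ρs : List Rule}
    (hk : Ok B (aR D q o a :: ρs)) : ∀ i f, a = .pop i f → o = (S i).head? := by
  rintro i f rfl
  have := ((ok_mkR B _ (cl_ne D _) _ _).1 hk).2.1
  rw [h.2] at this
  cases o with
  | none => rw [bot_pre D this]; rfl
  | some γ => exact (cs_pre D this).symm

theorem run_complete (n : ℕ) : ∀ (q : D.Q) (S : D.ι → List D.Γ) (B : ℕ → List Bool),
    Rep D B (cw D q) S → D.out (D.step^[n] (q, S)).1 = some true →
      ∃ ρs : List Rule, (∀ ρ ∈ ρs, IsR D ρ) ∧ ρs.length ≤ n + 1 ∧ Ok B ρs := by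
  have acc : ∀ (q : D.Q) (S : D.ι → List D.Γ) (B : ℕ → List Bool) (n : ℕ),
      Rep D B (cw D q) S → D.out q = some true →
        ∃ ρs : List Rule, (∀ ρ ∈ ρs, IsR D ρ) ∧ ρs.length ≤ n + 1 ∧ Ok B ρs := by
    intro q S B n h ho
    refine ⟨[qR D q none], List.forall_mem_singleton.2 (Or.inr (Or.inr ⟨q, none, rfl⟩)), by simp,
      ?_⟩
    obtain ⟨B', h1, h2⟩ := h.rule [] D.in0 _ ([], []) _ rfl rfl
    simp only [qR, ho]
    exact (h2 []).2 ((ok_nil _).2 h1.1)
  induction n with
  | zero => exact fun q S B h ho => acc q S B 0 h ho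
  | succ n ih =>
    intro q S B h ho
    cases hq : D.out q with
    | some r =>
      rw [D.iter_of_out (c := (q, S)) hq] at ho
      exact acc q S B _ h ho
    | none =>
      rw [iterate_succ_apply, D.step_of_none (c := (q, S)) hq] at ho
      obtain ⟨o, ho'⟩ : ∃ o, ∀ i f, D.act q = .pop i f → o = (S i).head? := by
        cases D.act q with
        | pop i f => exact ⟨(S i).head?, fun _ _ h => by cases h; rfl⟩
        | goto q' => exact ⟨none, fun _ _ h => by cases h⟩
        | push i γ q' => exact ⟨none, fun _ _ h => by cases h⟩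
      obtain ⟨B', h1, h2⟩ := act_rule h (D.act q) o ho'
      obtain ⟨ρs, h3, h4, h5⟩ := ih _ _ B' h1 ho
      refine ⟨qR D q o :: ρs, ?_, by simpa using h4, ?_⟩
      · exact List.forall_mem_cons.2 ⟨Or.inr (Or.inr ⟨q, o, rfl⟩), h3⟩
      · simp only [qR, hq]
        exact (h2 ρs).2 h5

theorem run_sound (ρs : List Rule) : ∀ (q : D.Q) (S : D.ι → List D.Γ) (B : ℕ → List Bool),
    Rep D B (cw D q) S → (∀ ρ ∈ ρs, IsR D ρ ∨ ρ = []) → Ok B ρs →
      ∃ n, D.out (D.step^[n] (q, S)).1 = some true := by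
  induction ρs with
  | nil =>
    intro q S B h _ hk
    have := h.1.symm.trans ((ok_nil B).1 hk)
    simp [cw] at this
  | cons ρ ρs ih =>
    intro q S B h hr hk
    obtain ⟨h1, h2⟩ := List.forall_mem_cons.1 hr
    have emp : ρ = [] → ∃ n, D.out (D.step^[n] (q, S)).1 = some true := fun e =>
      ih q S B h h2 ((ok_empty B ρs).1 (e ▸ hk))
    rcases h1 with (⟨b, rfl⟩ | rfl | ⟨q', o, rfl⟩) | h1
    · exact absurd (h.1 ▸ ((ok_mkR B _ (cl_ne D _) _ _).1 hk).1) (guess_cw D q)
    · exact absurd (h.1 ▸ ((ok_mkR B _ (cl_ne D _) _ _).1 hk).1) (guess_cw D q)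
    · rcases qR_pre hk with e | e
      · exact emp e
      · obtain rfl := cw_pre D (h.1 ▸ e)
        rcases hq : D.out q' with _ | _ | _
        · simp only [qR, hq] at hk
          obtain ⟨B', h3, h4⟩ := act_rule h (D.act q') o (act_guess h _ o hk)
          obtain ⟨n, hn⟩ := ih _ _ B' h3 h2 ((h4 ρs).1 hk)
          exact ⟨n + 1, by rwa [iterate_succ_apply, D.step_of_none (c := (q', S)) hq]⟩
        · exact emp (by simp only [qR, hq])
        · exact ⟨0, hq⟩
    · exact emp h1

theorem guess_rule {B : ℕ → List Bool} {x y : List Bool}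
    (h : Rep D B [false] (D.init x y).2) (b : Bool) :
    ∃ B', Rep D B' [false] (D.init x (b :: y)).2 ∧ ∀ ρs, Ok B (gR D b :: ρs) ↔ Ok B' ρs := by
  obtain ⟨B', h1, h2⟩ := h.rule [false] D.in1 ((b :: y).map D.inp) ([], [true, b]) _ rfl
    (by simp [SM.init, initS, D.in_ne.symm, stk, cs_inp])
  refine ⟨B', ?_, h2⟩
  convert h1 using 1
  funext i
  by_cases hi : i = D.in1
  · subst hi; simp [SM.init, initS, D.in_ne.symm]
  · simp [SM.init, initS, hi]

theorem start_rule {B : ℕ → List Bool} {S : D.ι → List D.Γ} (h : Rep D B [false] S) :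
    ∃ B', Rep D B' (cw D D.start) S ∧ ∀ ρs, Ok B (sR D :: ρs) ↔ Ok B' ρs := by
  simpa [sR] using h.rule (cw D D.start) D.in0 _ ([], []) _ rfl rfl

theorem rep_init (x : List Bool) : Rep D (initB x) [false] (D.init x []).2 := by
  refine ⟨rfl, fun i => ?_⟩
  by_cases hi : i = D.in0
  · simp [hi, cl, SM.init, initS, initB, stk, List.flatMap_map, cs_inp]
  · simp [hi, cl, SM.init, initS, initB, stk]

theorem guess_complete (x y : List Bool) : ∃ B, Rep D B [false] (D.init x y).2 ∧
    ∀ ρs, Ok B ρs → Ok (initB x) (y.reverse.map (gR D) ++ ρs) := by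
  induction y with
  | nil => exact ⟨_, rep_init x, fun _ h => h⟩
  | cons b y ih =>
    obtain ⟨B, h1, h2⟩ := ih
    obtain ⟨B', h3, h4⟩ := guess_rule h1 b
    exact ⟨B', h3, fun ρs h => by simpa using h2 _ ((h4 ρs).2 h)⟩

theorem guess_sound (x : List Bool) (ρs : List Rule) : ∀ (y : List Bool) (B : ℕ → List Bool),
    Rep D B [false] (D.init x y).2 → (∀ ρ ∈ ρs, IsR D ρ ∨ ρ = []) → Ok B ρs →
      ∃ y n, D.Halts x y n true := by
  induction ρs with
  | nil =>
    intro y B h _ hk
    have := h.1.symm.trans ((ok_nil B).1 hk)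
    simp at this
  | cons ρ ρs ih =>
    intro y B h hr hk
    obtain ⟨h1, h2⟩ := List.forall_mem_cons.1 hr
    have emp : ρ = [] → ∃ y n, D.Halts x y n true := fun e =>
      ih y B h h2 ((ok_empty B ρs).1 (e ▸ hk))
    rcases h1 with (⟨b, rfl⟩ | rfl | ⟨q', o, rfl⟩) | h1
    · obtain ⟨B', h3, h4⟩ := guess_rule h b
      exact ih _ B' h3 h2 ((h4 ρs).1 hk)
    · obtain ⟨B', h3, h4⟩ := start_rule h
      exact ⟨y, run_sound ρs _ _ B' h3 h2 ((h4 ρs).1 hk)⟩
    · rcases qR_pre hk with e | e
      · exact emp e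
      · exact absurd (h.1 ▸ e) (cw_guess D q')
    · exact emp h1

end Rules

open Rules in
theorem rules : RulesStmt := by
  intro D
  obtain ⟨tab, htab⟩ := exists_tab D
  refine ⟨tab, fun x => ⟨fun y n h => ?_, fun ρs h1 h2 => ?_⟩⟩
  · obtain ⟨B, h1, h2⟩ := guess_complete (D := D) x y
    obtain ⟨B', h3, h4⟩ := start_rule h1
    obtain ⟨ρs, h5, h6, h7⟩ := run_complete n _ _ B' h3 h
    refine ⟨_, fun ρ hρ => (htab ρ).2 ?_, ?_, h2 _ ((h4 ρs).2 h7)⟩
    · simp only [List.mem_append, List.mem_map, List.mem_cons] at hρ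
      rcases hρ with ⟨b, _, rfl⟩ | rfl | hρ
      · exact Or.inl ⟨b, rfl⟩
      · exact Or.inr (Or.inl rfl)
      · exact h5 ρ hρ
    · simp
      omega
  · exact guess_sound x ρs [] _ (rep_init x) (fun ρ hρ => (h1 ρ hρ).imp_left (htab ρ).1) h2

end Pool.Agent.MP_8c2300_lc.PP
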