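import Mathlib.CategoryTheory.Category.Basic
import Mathlib.Data.Int.Star
import Mathlib.Algebra.Order.Ring.Star
import Mathlib.Combinatorics.SimpleGraph.Basic
import Mathlib.Order.Interval.Finset.Box
import Pool.Agent.MP_8c2300_lc.pp.Spec

/-! SMTM: a nondeterministic Turing machine guesses the second input and runs a stack machine. -/

namespace Pool.Agent.MP_8c2300_lc.PP

namespace SmTm

open Function
open scoped Classical

/-- A tape that holds the list `l` from the cell `h` on. -/
def tp {Γ : Type} (l : List Γ) (h : ℤ) : ℤ → Option Γ :=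
  fun p => if h ≤ p then l[(p - h).toNat]? else none

section tp

variable {Γ : Type} (l : List Γ) (h : ℤ)

theorem tp_head : tp l h h = l.head? := by simp [tp, List.head?_eq_getElem?]

theorem tp_pop : update (tp l h) h none = tp l.tail (h + 1) := by
  funext p
  by_cases e : p = h
  · simp [e, tp]
  · rw [update_of_ne e]
    unfold tp
    by_cases h1 : h ≤ p
    · rw [if_pos h1, if_pos (by omega), List.getElem?_tail]
      congr 1
      omega
    · rw [if_neg h1, if_neg (by omega)]

theorem tp_push (a : Γ) : update (tp l h) (h - 1) (some a) = tp (a :: l) (h - 1) := by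
  funext p
  by_cases e : p = h - 1
  · simp [e, tp]
  · rw [update_of_ne e]
    unfold tp
    by_cases h1 : h ≤ p
    · rw [if_pos h1, if_pos (by omega), show (p - (h - 1)).toNat = (p - h).toNat + 1 by omega,
        List.getElem?_cons_succ]
    · rw [if_neg h1, if_neg (by omega)]

theorem tp_nat (m : ℕ) : tp l 0 m = none ↔ l.length ≤ m := by simp [tp]

theorem tp_neg : tp l 0 (-1) = none := by simp [tp]

end tp

variable (D : SM)

/-- States: guess and rewind, simulate, finish a push. -/
abbrev St : Type := Bool ⊕ D.Q ⊕ (D.ι × D.Γ × D.Q)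

abbrev Mv : Type := St D × (D.ι → Option D.Γ × SignType)

/-- Configurations with the tapes indexed by the stacks. -/
abbrev Vw : Type := St D × (D.ι → ℤ → Option D.Γ) × (D.ι → ℤ)

variable {D}

/-- Write and move on one tape only. -/
def mv (s : D.ι → Option D.Γ) (i : D.ι) (γ : Option D.Γ) (d : SignType) :
    D.ι → Option D.Γ × SignType := update (fun j => (s j, 0)) i (γ, d)

/-- The first move of the simulation of an instruction. -/
def simMv : Act D.ι D.Γ D.Q → (D.ι → Option D.Γ) → Mv D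
  | .push i γ q, s => (.inr (.inr (i, γ, q)), mv s i (s i) (-1))
  | .pop i f, s => (.inr (.inl (f (s i))), mv s i none 1)
  | .goto q, s => (.inr (.inl q), fun j => (s j, 0))

/-- The transition relation. -/
def del : St D → (D.ι → Option D.Γ) → Set (Mv D)
  | .inl true, s => {a | (s D.in0 ≠ none ∧
      ∃ b, a = (.inl true, update (mv s D.in0 (s D.in0) 1) D.in1 (some (D.inp b), -1))) ∨
      a = (.inl false, update (mv s D.in0 (s D.in0) (-1)) D.in1 (s D.in1, 1))}
  | .inl false, s => {a | (s D.in0 = none ∧ a = (.inr (.inl D.start), mv s D.in0 (s D.in0) 1)) ∨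
      (s D.in0 ≠ none ∧ a = (.inl false, mv s D.in0 (s D.in0) (-1)))}
  | .inr (.inl q), s => {a | D.out q = none ∧ a = simMv (D.act q) s}
  | .inr (.inr (i, γ, q)), s => {a | a = (.inr (.inl q), mv s i (some γ) 0)}

def scan (c : Vw D) : D.ι → Option D.Γ := fun i => c.2.1 i (c.2.2 i)

def app (a : Mv D) (c : Vw D) : Vw D :=
  (a.1, fun i => update (c.2.1 i) (c.2.2 i) (a.2 i).1, fun i => c.2.2 i + ((a.2 i).2 : ℤ))

def StepV (c c' : Vw D) : Prop := ∃ a ∈ del c.1 (scan c), c' = app a c

theorem app_mv (q : St D) (c : Vw D) (i : D.ι) (γ : Option D.Γ) (d : SignType) :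
    app (q, mv (scan c) i γ d) c =
      (q, update c.2.1 i (update (c.2.1 i) (c.2.2 i) γ), update c.2.2 i (c.2.2 i + (d : ℤ))) := by
  refine Prod.ext rfl (Prod.ext (funext fun j => ?_) (funext fun j => ?_))
  · by_cases e : j = i
    · simp [app, mv, e]
    · simp [app, mv, scan, e]
  · by_cases e : j = i
    · simp [app, mv, e]
    · simp [app, mv, e]

/-- The stacks at the start. -/
def S0 (D : SM) (w g : List Bool) : D.ι → List D.Γ := (D.init w g).2

/-- Guessing. -/
def cG (w g : List Bool) (P : D.ι → ℤ) : Vw D :=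
  (.inl true, fun i => tp (S0 D w g i) (update P D.in0 0 i),
    update (update P D.in0 g.length) D.in1 (P D.in1 - 1))

/-- Rewinding. -/
def cB (w g : List Bool) (P : D.ι → ℤ) (m : ℕ) : Vw D :=
  (.inl false, fun i => tp (S0 D w g i) (update P D.in0 0 i), update P D.in0 (m - 1))

/-- Simulating. -/
def cS (c : D.Cf) (P : D.ι → ℤ) : Vw D := (.inr (.inl c.1), fun i => tp (c.2 i) (P i), P)

/-- In the middle of a push. -/
def cP (i : D.ι) (γ : D.Γ) (q : D.Q) (S : D.ι → List D.Γ) (P : D.ι → ℤ) : Vw D :=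
  (.inr (.inr (i, γ, q)), fun j => tp (S j) (P j), update P i (P i - 1))

variable {w g : List Bool} {P : D.ι → ℤ} {c' : Vw D}

theorem S0_in0 : S0 D w g D.in0 = w.map D.inp := by simp [S0, SM.init, initS]

theorem S0_in1 : S0 D w g D.in1 = g.map D.inp := by simp [S0, SM.init, initS, D.in_ne.symm]

theorem S0_ne {i : D.ι} (h0 : i ≠ D.in0) (h1 : i ≠ D.in1) : S0 D w g i = [] := by
  simp [S0, SM.init, initS, h0, h1]

theorem step_cG : StepV (cG w g P) c' ↔
    (g.length < w.length ∧ ∃ b, c' = cG w (b :: g) (update P D.in1 (P D.in1 - 1))) ∨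
      c' = cB w g P g.length := by
  have hn := D.in_ne
  have h0 : scan (cG w g P) D.in0 ≠ none ↔ g.length < w.length := by
    simp [scan, cG, hn, S0_in0, tp_nat]
  have h1 : ∀ b, app (.inl true, update (mv (scan (cG w g P)) D.in0 (scan (cG w g P) D.in0) 1)
      D.in1 (some (D.inp b), -1)) (cG w g P) = cG w (b :: g) (update P D.in1 (P D.in1 - 1)) := by
    intro b
    refine Prod.ext rfl (Prod.ext (funext fun j => ?_) (funext fun j => ?_))
    · by_cases e : j = D.in1
      · simp [app, cG, e, hn.symm, S0_in1, tp_push]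
      · by_cases e' : j = D.in0
        · simp [app, mv, scan, cG, e', hn, S0_in0]
        · simp [app, mv, scan, cG, e, e', S0_ne]
    · by_cases e : j = D.in1
      · simp [app, cG, e, sub_eq_add_neg]
      · by_cases e' : j = D.in0
        · simp [app, mv, cG, e', hn]
        · simp [app, mv, cG, e, e']
  have h2 : app (.inl false, update (mv (scan (cG w g P)) D.in0 (scan (cG w g P) D.in0) (-1))
      D.in1 (scan (cG w g P) D.in1, 1)) (cG w g P) = cB w g P g.length := by
    refine Prod.ext rfl (Prod.ext (funext fun j => ?_) (funext fun j => ?_))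
    · by_cases e : j = D.in1
      · simp [app, scan, cG, cB, e]
      · by_cases e' : j = D.in0
        · simp [app, mv, scan, cG, cB, e', hn]
        · simp [app, mv, scan, cG, cB, e, e']
    · by_cases e : j = D.in1
      · simp [app, cG, cB, e, hn.symm]
      · by_cases e' : j = D.in0
        · simp [app, mv, cG, cB, e', hn, sub_eq_add_neg]
        · simp [app, mv, cG, cB, e, e']
  constructor
  · rintro ⟨a, ⟨k, b, rfl⟩ | rfl, rfl⟩
    exacts [Or.inl ⟨h0.1 k, b, h1 b⟩, Or.inr h2]
  · rintro (⟨k, b, rfl⟩ | rfl)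
    exacts [⟨_, Or.inl ⟨h0.2 k, b, rfl⟩, (h1 b).symm⟩, ⟨_, Or.inr rfl, h2.symm⟩]

theorem step_cB0 : StepV (cB w g P 0) c' ↔ c' = cS (D.init w g) (update P D.in0 0) := by
  have h0 : scan (cB w g P 0) D.in0 = none := by simp [scan, cB, tp_neg]
  have h1 : app (.inr (.inl D.start), mv (scan (cB w g P 0)) D.in0 (scan (cB w g P 0) D.in0) 1)
      (cB w g P 0) = cS (D.init w g) (update P D.in0 0) := by
    rw [app_mv]
    simp only [scan, update_eq_self]
    simp [cB, cS, S0, SM.init]
  constructor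
  · rintro ⟨a, ⟨-, rfl⟩ | ⟨k, -⟩, rfl⟩
    exacts [h1, absurd h0 k]
  · rintro rfl
    exact ⟨_, Or.inl ⟨h0, rfl⟩, h1.symm⟩

theorem step_cB {m : ℕ} (hm : m < w.length) :
    StepV (cB w g P (m + 1)) c' ↔ c' = cB w g P m := by
  have h0 : scan (cB w g P (m + 1)) D.in0 ≠ none := by simp [scan, cB, tp_nat, S0_in0, hm]
  have h1 : app (.inl false, mv (scan (cB w g P (m + 1))) D.in0
      (scan (cB w g P (m + 1)) D.in0) (-1)) (cB w g P (m + 1)) = cB w g P m := by
    rw [app_mv]
    simp only [scan, update_eq_self]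
    simp [cB, sub_eq_add_neg]
  constructor
  · rintro ⟨a, ⟨k, -⟩ | ⟨-, rfl⟩, rfl⟩
    exacts [absurd k h0, h1]
  · rintro rfl
    exact ⟨_, Or.inr ⟨h0, rfl⟩, h1.symm⟩

theorem step_cP {i : D.ι} {γ : D.Γ} {q : D.Q} {S : D.ι → List D.Γ} :
    StepV (cP i γ q S P) c' ↔ c' = cS (q, update S i (γ :: S i)) (update P i (P i - 1)) := by
  have h1 : app (.inr (.inl q), mv (scan (cP i γ q S P)) i (some γ) 0) (cP i γ q S P) =
      cS (q, update S i (γ :: S i)) (update P i (P i - 1)) := by
    rw [app_mv]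
    refine Prod.ext rfl (Prod.ext (funext fun j => ?_) (by simp [cP, cS]))
    by_cases e : j = i
    · simp [cP, cS, e, tp_push]
    · simp [cP, cS, e]
  constructor
  · rintro ⟨a, rfl, rfl⟩
    exact h1
  · rintro rfl
    exact ⟨_, rfl, h1.symm⟩

theorem step_cS {c : D.Cf} : StepV (cS c P) c' ↔
    D.out c.1 = none ∧ c' = app (simMv (D.act c.1) (scan (cS c P))) (cS c P) := by
  constructor
  · rintro ⟨a, ⟨k, rfl⟩, rfl⟩
    exact ⟨k, rfl⟩
  · rintro ⟨k, rfl⟩
    exact ⟨_, ⟨k, rfl⟩, rfl⟩

theorem app_sim (c : D.Cf) (A : Act D.ι D.Γ D.Q) :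
    (∃ P', app (simMv A (scan (cS c P))) (cS c P) = cS (A.run c.2) P') ∨
      ∃ i γ q, app (simMv A (scan (cS c P))) (cS c P) = cP i γ q c.2 P ∧
        A.run c.2 = (q, update c.2 i (γ :: c.2 i)) := by
  cases A with
  | push i γ q =>
    refine Or.inr ⟨i, γ, q, ?_, rfl⟩
    rw [simMv, app_mv]
    simp only [scan, update_eq_self]
    simp [cS, cP, sub_eq_add_neg]
  | pop i f =>
    refine Or.inl ⟨update P i (P i + 1), ?_⟩
    rw [simMv, app_mv]
    refine Prod.ext (by simp [scan, cS, Act.run, tp_head])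
      (Prod.ext (funext fun j => ?_) (by simp [cS]))
    by_cases e : j = i
    · simp [cS, Act.run, e, tp_pop]
    · simp [cS, Act.run, e]
  | goto q => exact Or.inl ⟨P, by simp [simMv, app, scan, cS, Act.run]⟩

/-- The configurations that occur on the input `w`, with a bound for the remaining time. -/
inductive Inv (w : List Bool) (B : ℕ) : Vw D → ℕ → Prop
  | guess (g : List Bool) (P : D.ι → ℤ) : g.length ≤ w.length →
      Inv w B (cG w g P) (2 * w.length - g.length + 2 + 2 * B)
  | back (g : List Bool) (P : D.ι → ℤ) (m : ℕ) : g.length ≤ w.length → m ≤ w.length →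
      Inv w B (cB w g P m) (m + 1 + 2 * B)
  | sim (g : List Bool) (P : D.ι → ℤ) (j : ℕ) : g.length ≤ w.length → j ≤ B →
      Inv w B (cS (D.step^[j] (D.init w g)) P) (2 * (B - j))
  | psh (g : List Bool) (P : D.ι → ℤ) (j : ℕ) (i : D.ι) (γ : D.Γ) (q : D.Q)
      (S : D.ι → List D.Γ) : g.length ≤ w.length → j < B →
      D.step^[j + 1] (D.init w g) = (q, update S i (γ :: S i)) →
      Inv w B (cP i γ q S P) (2 * (B - j) - 1)

theorem Inv.step {B n : ℕ} {c : Vw D}
    (hD : ∀ g : List Bool, g.length ≤ w.length → ∃ r, D.Halts w g B r) (h : Inv w B c n)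
    (hs : StepV c c') : ∃ n' < n, Inv w B c' n' := by
  cases h with
  | guess g P h1 =>
    rcases step_cG.1 hs with ⟨k, b, rfl⟩ | rfl
    · exact ⟨_, by simp only [List.length_cons]; omega, .guess (b :: g) _ k⟩
    · exact ⟨_, by omega, .back g P _ h1 h1⟩
  | back g P m h1 h2 =>
    cases m with
    | zero =>
      rw [step_cB0.1 hs]
      exact ⟨_, by omega, .sim g _ 0 h1 (Nat.zero_le _)⟩
    | succ m =>
      rw [(step_cB h2).1 hs]
      exact ⟨_, by omega, .back g P m h1 (by omega)⟩
  | sim g P j h1 h2 =>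
    obtain ⟨k, rfl⟩ := step_cS.1 hs
    have hj : j < B := lt_of_le_of_ne h2 fun e => by
      obtain ⟨r, hr⟩ := hD g h1
      rw [SM.Halts, SM.outAt, ← e, k] at hr
      cases hr
    have e := (iterate_succ_apply' D.step j (D.init w g)).trans (D.step_of_none k)
    rcases app_sim (P := P) _ (D.act (D.step^[j] (D.init w g)).1) with
      ⟨P', k1⟩ | ⟨i, γ, q, k1, k2⟩
    · rw [k1, ← e]
      exact ⟨_, by omega, .sim g P' (j + 1) h1 hj⟩
    · rw [k1]
      exact ⟨_, by omega, .psh g P j i γ q _ h1 hj (e.trans k2)⟩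
  | psh g P j i γ q S h1 h2 h3 =>
    rw [step_cP.1 hs, ← h3]
    exact ⟨_, by omega, .sim g _ (j + 1) h1 h2⟩

theorem Inv.acc {B n : ℕ} {c : Vw D} {q : D.Q} (h : Inv w B c n) (h1 : c.1 = .inr (.inl q))
    (h2 : D.out q = some true) : ∃ g : List Bool, g.length ≤ w.length ∧ D.Halts w g B true := by
  cases h with
  | guess g P _ => cases h1
  | back g P m _ _ => cases h1
  | sim g P j k1 k2 =>
    cases h1
    exact ⟨g, k1, SM.Halts.mono h2 k2⟩
  | psh g P j i γ q S _ _ _ => cases h1

theorem reach_cG (P : D.ι → ℤ) (h : g.length ≤ w.length) :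
    ∃ P', Relation.ReflTransGen StepV (cG w [] P) (cG w g P') := by
  induction g with
  | nil => exact ⟨P, .refl⟩
  | cons b g ih =>
    obtain ⟨P', k⟩ := ih (by simp only [List.length_cons] at h; omega)
    exact ⟨_, k.tail (step_cG.2 (Or.inl ⟨h, b, rfl⟩))⟩

theorem reach_cB {m : ℕ} (h : m ≤ w.length) :
    Relation.ReflTransGen StepV (cB w g P m) (cB w g P 0) := by
  induction m with
  | zero => exact .refl
  | succ m ih => exact .head ((step_cB h).2 rfl) (ih (by omega))

theorem reach_cS (c : D.Cf) (P : D.ι → ℤ) (j : ℕ) :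
    ∃ P', Relation.ReflTransGen StepV (cS c P) (cS (D.step^[j] c) P') := by
  induction j with
  | zero => exact ⟨P, .refl⟩
  | succ j ih =>
    obtain ⟨P', k⟩ := ih
    rw [iterate_succ_apply']
    cases ho : D.out (D.step^[j] c).1 with
    | some r => exact ⟨P', (D.step_of_out ho).symm ▸ k⟩
    | none =>
      rw [D.step_of_none ho]
      rcases app_sim (P := P') _ (D.act (D.step^[j] c).1) with ⟨P'', k1⟩ | ⟨i, γ, q, k1, k2⟩
      · exact ⟨P'', k.tail (step_cS.2 ⟨ho, k1.symm⟩)⟩
      · exact ⟨_, (k.tail (step_cS.2 ⟨ho, k1.symm⟩)).tail (step_cP.2 (by rw [k2]))⟩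

/-- The Turing machine. -/
def tm (D : SM) (k : ℕ) (e : D.ι ≃ Fin (k + 1)) : TM where
  k := k
  Q := St D
  Γ := Option D.Γ
  finQ := inferInstance
  finΓ := inferInstance
  blank := none
  inp := fun b => some (D.inp b)
  inp_inj := fun _ _ h => D.inp_inj (Option.some.inj h)
  inp_ne := fun _ h => by cases h
  start := .inl true
  acc := {x | ∃ q, x = .inr (.inl q) ∧ D.out q = some true}
  δ := fun q s => {a | (a.1, fun i => a.2 (e i)) ∈ del q fun i => s (e i)}

variable {k : ℕ} {e : D.ι ≃ Fin (k + 1)}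

/-- The configuration seen through the numbering of the stacks. -/
def view (c : (tm D k e).Cfg) : Vw D := (c.q, fun i => c.tape (e i), fun i => c.head (e i))

theorem view_step {c d : (tm D k e).Cfg} (h : (tm D k e).Step c d) :
    StepV (view c) (view d) := by
  obtain ⟨a, h1, h2, h3, h4⟩ := h
  exact ⟨_, h1, Prod.ext h2 (Prod.ext (funext fun i => h3 (e i)) (funext fun i => h4 (e i)))⟩

theorem step_view {c : (tm D k e).Cfg} (h : StepV (view c) c') :
    ∃ d, (tm D k e).Step c d ∧ view d = c' := by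
  obtain ⟨a, h1, rfl⟩ := h
  refine ⟨⟨a.1, fun j => update (c.tape j) (c.head j) (a.2 (e.symm j)).1,
    fun j => c.head j + ((a.2 (e.symm j)).2 : ℤ)⟩,
    ⟨(a.1, fun j => a.2 (e.symm j)), ?_, rfl, fun _ => rfl, fun _ => rfl⟩, ?_⟩
  · show (a.1, fun i => a.2 (e.symm (e i))) ∈ del c.q fun i => c.tape (e i) (c.head (e i))
    simp only [Equiv.symm_apply_apply]
    exact h1
  · simp only [view, app, Equiv.symm_apply_apply]
    rfl

theorem view_init (he : e D.in0 = 0) :
    view ((tm D k e).init w) = cG w [] (update (fun _ => 0) D.in1 1) := by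
  have hn := D.in_ne
  refine Prod.ext rfl (Prod.ext (funext fun j => funext fun p => ?_) (funext fun j => ?_))
  · show (if e j = 0 ∧ 0 ≤ p then (w[p.toNat]?.map fun b => some (D.inp b)).getD none
      else none) = tp (S0 D w [] j) (update (update (fun _ => (0 : ℤ)) D.in1 1) D.in0 0 j) p
    by_cases h0 : j = D.in0
    · subst h0
      simp only [he, true_and, S0_in0, update_self, tp, sub_zero, List.getElem?_map]
      cases w[p.toNat]? <;> rfl
    · have h1 : e j ≠ 0 := fun h => h0 (e.injective (h.trans he.symm))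
      have h2 : S0 D w [] j = [] := by
        by_cases h3 : j = D.in1
        · simp [h3, S0_in1]
        · exact S0_ne h0 h3
      simp [h1, h2, tp]
  · show (0 : ℤ) = _
    by_cases h1 : j = D.in1
    · simp [cG, h1]
    · by_cases h0 : j = D.in0
      · simp [cG, h0, hn]
      · simp [cG, h0, h1]

theorem run_inv {B : ℕ} (hD : ∀ g : List Bool, g.length ≤ w.length → ∃ r, D.Halts w g B r)
    {n N : ℕ} {c d : (tm D k e).Cfg} (h : (tm D k e).Run n c d) (hI : Inv w B (view c) N) :
    n ≤ N ∧ ∃ N', Inv w B (view d) N' := by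
  induction n generalizing c N with
  | zero =>
    cases h
    exact ⟨Nat.zero_le _, N, hI⟩
  | succ n ih =>
    obtain ⟨c1, h1, h2⟩ := h
    obtain ⟨N1, k1, k2⟩ := hI.step hD (view_step h1)
    have := ih h2 k2
    exact ⟨by omega, this.2⟩

theorem run_of_reach {v v' : Vw D} (h : Relation.ReflTransGen StepV v v')
    {c : (tm D k e).Cfg} (hc : view c = v) : ∃ n d, (tm D k e).Run n c d ∧ view d = v' := by
  induction h using Relation.ReflTransGen.head_induction_on generalizing c with
  | refl => exact ⟨0, c, rfl, hc⟩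
  | head h1 _ ih =>
    obtain ⟨c1, k1, k2⟩ := step_view (hc ▸ h1)
    obtain ⟨n, d, k3, k4⟩ := ih k2
    exact ⟨n + 1, d, ⟨c1, k1, k3⟩, k4⟩

end SmTm

open SmTm in
theorem smtm : SmTmStmt := by
  intro D C hD
  obtain ⟨k, hk⟩ : ∃ k, Fintype.card D.ι = k + 1 :=
    Nat.exists_eq_succ_of_ne_zero (Fintype.card_pos_iff.2 ⟨D.in0⟩).ne'
  let e0 : D.ι ≃ Fin (k + 1) := Fintype.equivFinOfCardEq hk
  let e : D.ι ≃ Fin (k + 1) := e0.trans (Equiv.swap (e0 D.in0) 0)
  have he : e D.in0 = 0 := by simp [e]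
  have h0 : ∀ w, Inv w (C * (w.length + 1)) (view ((tm D k e).init w)) _ := fun w =>
    view_init he ▸ Inv.guess [] _ (Nat.zero_le _)
  refine ⟨tm D k e, 2 * C + 2, fun w n c h => ?_, fun w => ⟨?_, ?_⟩⟩
  · have := (run_inv (hD w) h (h0 w)).1
    simp only [List.length_nil, Nat.sub_zero] at this ⊢
    nlinarith
  · rintro ⟨n, c, h1, q, h2, h3⟩
    obtain ⟨-, N, h4⟩ := run_inv (hD w) h1 (h0 w)
    exact h4.acc h2 h3
  · rintro ⟨g, h1, h2⟩
    obtain ⟨P, k1⟩ := reach_cG (D := D) (Function.update (fun _ => 0) D.in1 1) h1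
    obtain ⟨P', k2⟩ := reach_cS (D.init w g) (Function.update P D.in0 0) (C * (w.length + 1))
    obtain ⟨n, d, k3, k4⟩ := run_of_reach
      ((((k1.tail (step_cG.2 (Or.inr rfl))).trans (reach_cB h1)).tail (step_cB0.2 rfl)).trans k2)
      (view_init he)
    exact ⟨n, d, k3, _, congrArg Prod.fst k4, h2⟩

end Pool.Agent.MP_8c2300_lc.PP
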