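import Pool.Agent.MP_8c2300_lc.pp.Lib

/-! PROJECT PPST, module TMSM: a deterministic multi-tape Turing machine is simulated by a stack
machine in linear time.  Every tape is cut at the head into two stacks; the scanned symbols are
kept in the finite control. -/

namespace Pool.Agent.MP_8c2300_lc.PP

open Function

namespace TmSm

/-- The tape `f` with head `h` is represented by the scanned symbol `a`, the left stack `L` and
the right stack `R`. -/
def Rep {Γ : Type} (bl : Γ) (f : ℤ → Γ) (h : ℤ) (a : Γ) (L R : List Γ) : Prop :=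
  f h = a ∧ (∀ p : ℕ, f (h + 1 + p) = R[p]?.getD bl) ∧ ∀ p : ℕ, f (h - 1 - p) = L[p]?.getD bl

theorem Rep.stay {Γ : Type} {bl : Γ} {f : ℤ → Γ} {h : ℤ} {a : Γ} {L R : List Γ}
    (H : Rep bl f h a L R) (γ : Γ) : Rep bl (update f h γ) h γ L R := by
  obtain ⟨_, h2, h3⟩ := H
  refine ⟨by simp, fun p => ?_, fun p => ?_⟩
  · rw [update_of_ne (by omega), h2]
  · rw [update_of_ne (by omega), h3]

theorem Rep.right {Γ : Type} {bl : Γ} {f : ℤ → Γ} {h : ℤ} {a : Γ} {L R : List Γ}
    (H : Rep bl f h a L R) (γ : Γ) :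
    Rep bl (update f h γ) (h + 1) (R.head?.getD bl) (γ :: L) R.tail := by
  obtain ⟨_, h2, h3⟩ := H
  refine ⟨?_, fun p => ?_, fun p => ?_⟩
  · rw [update_of_ne (by omega)]
    have := h2 0
    simp only [Nat.cast_zero, add_zero] at this
    rw [this, List.head?_eq_getElem?]
  · rw [update_of_ne (by omega)]
    have := h2 (p + 1)
    rw [show h + 1 + 1 + (p : ℤ) = h + 1 + ((p + 1 : ℕ) : ℤ) by push_cast; ring, this,
      List.getElem?_tail]
  · cases p with
    | zero => simp
    | succ p =>
      rw [update_of_ne (by omega)]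
      have := h3 p
      rw [show h + 1 - 1 - ((p + 1 : ℕ) : ℤ) = h - 1 - (p : ℤ) by push_cast; ring, this]
      simp

theorem Rep.left {Γ : Type} {bl : Γ} {f : ℤ → Γ} {h : ℤ} {a : Γ} {L R : List Γ}
    (H : Rep bl f h a L R) (γ : Γ) :
    Rep bl (update f h γ) (h + -1) (L.head?.getD bl) L.tail (γ :: R) := by
  obtain ⟨_, h2, h3⟩ := H
  refine ⟨?_, fun p => ?_, fun p => ?_⟩
  · rw [update_of_ne (by omega)]
    have := h3 0
    simp only [Nat.cast_zero, sub_zero] at this
    rw [show h + -1 = h - 1 by ring, this, List.head?_eq_getElem?]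
  · cases p with
    | zero => simp
    | succ p =>
      rw [update_of_ne (by omega)]
      have := h2 p
      rw [show h + -1 + 1 + ((p + 1 : ℕ) : ℤ) = h + 1 + (p : ℤ) by push_cast; ring, this]
      simp
  · rw [update_of_ne (by omega)]
    have := h3 (p + 1)
    rw [show h + -1 - 1 - (p : ℤ) = h - 1 - ((p + 1 : ℕ) : ℤ) by push_cast; ring, this,
      List.getElem?_tail]

variable (M : TM)

/-- Finite control: state, scanned symbols, the move in progress, the answer. -/
abbrev V : Type :=
  M.Q × (Fin (M.k + 1) → M.Γ) × (Fin (M.k + 1) → M.Γ × SignType) × Option Bool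

/-- The stack with flag false is the left part of a tape, with flag true the right part. -/
abbrev I : Type := Fin (M.k + 1) × Bool

/-- Put `γ` in the scanned position of tape `i`. -/
def setS (v : V M) (i : Fin (M.k + 1)) (γ : M.Γ) : V M :=
  (v.1, update v.2.1 i γ, v.2.2.1, v.2.2.2)

/-- First half of the move on tape `i`: push the written symbol. -/
def wr (i : Fin (M.k + 1)) : Prog (I M) M.Γ (V M) := .act fun v =>
  match (v.2.2.1 i).2 with
  | .zero => .goto v
  | .neg => .push (i, true) (v.2.2.1 i).1 v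
  | .pos => .push (i, false) (v.2.2.1 i).1 v

/-- Second half of the move on tape `i`: read the new scanned symbol. -/
def rd (i : Fin (M.k + 1)) : Prog (I M) M.Γ (V M) := .act fun v =>
  match (v.2.2.1 i).2 with
  | .zero => .goto (setS M v i (v.2.2.1 i).1)
  | .neg => .pop (i, false) fun o => setS M v i (o.getD M.blank)
  | .pos => .pop (i, true) fun o => setS M v i (o.getD M.blank)

/-- The move on tape `i`. -/
def mvT (i : Fin (M.k + 1)) : Prog (I M) M.Γ (V M) := .seq (wr M i) (rd M i)

theorem exec_mvT (i : Fin (M.k + 1)) (v : V M) (S : I M → List M.Γ) (f : ℤ → M.Γ) (h : ℤ)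
    (H : Rep M.blank f h (v.2.1 i) (S (i, false)) (S (i, true))) :
    ∃ γ S', Exec (mvT M i) (v, S) (setS M v i γ, S') 2 ∧
      Rep M.blank (update f h (v.2.2.1 i).1) (h + ((v.2.2.1 i).2 : ℤ)) γ
        (S' (i, false)) (S' (i, true)) ∧ ∀ j b, j ≠ i → S' (j, b) = S (j, b) := by
  have hw := Exec.act (fun v : V M => (match (v.2.2.1 i).2 with
    | .zero => .goto v
    | .neg => .push (i, true) (v.2.2.1 i).1 v
    | .pos => .push (i, false) (v.2.2.1 i).1 v : Act (I M) M.Γ (V M)))
  have hr := Exec.act (fun v : V M => (match (v.2.2.1 i).2 with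
    | .zero => .goto (setS M v i (v.2.2.1 i).1)
    | .neg => .pop (i, false) fun o => setS M v i (o.getD M.blank)
    | .pos => .pop (i, true) fun o => setS M v i (o.getD M.blank) : Act (I M) M.Γ (V M)))
  have hne : ((i, false) : I M) ≠ (i, true) := by simp
  cases hm : (v.2.2.1 i).2 with
  | zero =>
    refine ⟨(v.2.2.1 i).1, S, ?_, ?_, fun _ _ _ => rfl⟩
    · have h1 : Exec (wr M i) (v, S) (v, S) 1 :=
        (hw (v, S)).of_eq (by simp [hm, Act.run]) le_rfl
      have h2 : Exec (rd M i) (v, S) (setS M v i (v.2.2.1 i).1, S) 1 :=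
        (hr (v, S)).of_eq (by simp [hm, Act.run]) le_rfl
      exact h1.seq h2
    · simpa using H.stay (v.2.2.1 i).1
  | neg =>
    refine ⟨(S (i, false)).head?.getD M.blank,
      update (update S (i, true) ((v.2.2.1 i).1 :: S (i, true))) (i, false) (S (i, false)).tail,
      ?_, ?_, fun j b hj => ?_⟩
    · have h1 : Exec (wr M i) (v, S) (v, update S (i, true) ((v.2.2.1 i).1 :: S (i, true))) 1 :=
        (hw (v, S)).of_eq (by simp [hm, Act.run]) le_rfl
      exact h1.seq ((hr _).of_eq (by simp [hm, Act.run]) le_rfl)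
    · simpa [update_of_ne hne, update_of_ne hne.symm] using H.left (v.2.2.1 i).1
    · rw [update_of_ne (by simp [hj]), update_of_ne (by simp [hj])]
  | pos =>
    refine ⟨(S (i, true)).head?.getD M.blank,
      update (update S (i, false) ((v.2.2.1 i).1 :: S (i, false))) (i, true) (S (i, true)).tail,
      ?_, ?_, fun j b hj => ?_⟩
    · have h1 : Exec (wr M i) (v, S) (v, update S (i, false) ((v.2.2.1 i).1 :: S (i, false))) 1 :=
        (hw (v, S)).of_eq (by simp [hm, Act.run]) le_rfl
      exact h1.seq ((hr _).of_eq (by simp [hm, Act.run]) le_rfl)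
    · simpa [update_of_ne hne, update_of_ne hne.symm] using H.right (v.2.2.1 i).1
    · rw [update_of_ne (by simp [hj]), update_of_ne (by simp [hj])]

/-- All the tapes of a list make their move. -/
theorem exec_all (c : M.Cfg) (l : List (Fin (M.k + 1))) (hl : l.Nodup) :
    ∀ (v : V M) (S : I M → List M.Γ),
      (∀ i ∈ l, Rep M.blank (c.tape i) (c.head i) (v.2.1 i) (S (i, false)) (S (i, true))) →
      ∃ (s : Fin (M.k + 1) → M.Γ) (S' : I M → List M.Γ),
        Exec (forL (mvT M) l) (v, S) ((v.1, s, v.2.2.1, v.2.2.2), S') (2 * l.length + 1) ∧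
        (∀ i ∈ l, Rep M.blank (update (c.tape i) (c.head i) (v.2.2.1 i).1)
          (c.head i + ((v.2.2.1 i).2 : ℤ)) (s i) (S' (i, false)) (S' (i, true))) ∧
        ∀ j, j ∉ l → s j = v.2.1 j ∧ ∀ b, S' (j, b) = S (j, b) := by
  induction l with
  | nil =>
    intro v S _
    exact ⟨v.2.1, S, exec_skip _, by simp, fun _ _ => ⟨rfl, fun _ => rfl⟩⟩
  | cons a l ih =>
    intro v S H
    obtain ⟨ha, hl'⟩ := List.nodup_cons.mp hl
    obtain ⟨γ, S1, e1, r1, o1⟩ := exec_mvT M a v S _ _ (H a (by simp))
    obtain ⟨s, S2, e2, r2, o2⟩ := ih hl' (setS M v a γ) S1 (fun i hi => by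
      have hia : i ≠ a := fun e => ha (e ▸ hi)
      have := H i (by simp [hi])
      simpa [setS, update_of_ne hia, o1 i _ hia] using this)
    refine ⟨s, S2, (e1.seq e2).weak (by simp; omega), fun i hi => ?_, fun j hj => ?_⟩
    · rcases List.mem_cons.mp hi with rfl | hi
      · obtain ⟨g1, g2⟩ := o2 i ha
        rw [g1, g2, g2]
        simpa [setS] using r1
      · exact r2 i hi
    · have hja : j ≠ a := fun e => hj (by simp [e])
      obtain ⟨g1, g2⟩ := o2 j fun h => hj (by simp [h])
      exact ⟨by simpa [setS, update_of_ne hja] using g1, fun b => (g2 b).trans (o1 j b hja)⟩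

open Classical in
/-- Load an allowed move into the control. -/
noncomputable def pick (v : V M) : V M :=
  if h : (M.δ v.1 v.2.1).Nonempty then (h.some.1, v.2.1, h.some.2, v.2.2.2) else v

/-- Set the answer. -/
def ans (r : Bool) (v : V M) : V M := (v.1, v.2.1, v.2.2.1, some r)

/-- One round of the simulation. -/
noncomputable def body : Prog (I M) M.Γ (V M) :=
  .ite (fun v => v.1 ∈ M.acc) (setV (ans M true))
    (.ite (fun v => (M.δ v.1 v.2.1).Nonempty)
      (.seq (setV (pick M)) (forL (mvT M) (List.finRange (M.k + 1)))) (setV (ans M false)))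

/-- The main loop. -/
noncomputable def main : Prog (I M) M.Γ (V M) := .loop (fun v => v.2.2.2 = none) (body M)

/-- The configuration `c` is represented by the control `v` and the stacks `S`. -/
def RepC (c : M.Cfg) (v : V M) (S : I M → List M.Γ) : Prop :=
  v.1 = c.q ∧ v.2.2.2 = none ∧
    ∀ i, Rep M.blank (c.tape i) (c.head i) (v.2.1 i) (S (i, false)) (S (i, true))

theorem step_det {M : TM} (hd : M.Det) {c d d' : M.Cfg} (h : M.Step c d) (h' : M.Step c d') :
    d = d' := by
  obtain ⟨a, ha, h1, h2, h3⟩ := h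
  obtain ⟨a', ha', h1', h2', h3'⟩ := h'
  obtain rfl := hd _ _ ha ha'
  cases d
  cases d'
  simp only [TM.Cfg.mk.injEq] at *
  exact ⟨h1.trans h1'.symm, funext fun i => (h2 i).trans (h2' i).symm,
    funext fun i => (h3 i).trans (h3' i).symm⟩

theorem exec_main (hd : M.Det) (n : ℕ) : ∀ (c : M.Cfg) (v : V M) (S : I M → List M.Γ),
    RepC M c v S → (∀ m c', M.Run m c c' → m ≤ n) →
      ∃ (v' : V M) (S' : I M → List M.Γ),
        Exec (main M) (v, S) (v', S') ((2 * M.k + 7) * n + 5) ∧
          (v'.2.2.2 = some true ↔ ∃ m c', M.Run m c c' ∧ c'.q ∈ M.acc) := by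
  induction n using Nat.strong_induction_on with
  | _ n ih =>
  intro c v S ⟨hq, hf, hr⟩ hb
  have hs : v.2.1 = fun i => c.tape i (c.head i) := funext fun i => ((hr i).1).symm
  by_cases hacc : v.1 ∈ M.acc
  · refine ⟨ans M true v, S, ?_, ?_⟩
    · exact (Exec.loopT (σ := (v, S)) hf (Exec.iteT (σ := (v, S)) hacc (exec_setV _ v S))
        (Exec.loopF (by simp [ans]))).weak (by omega)
    · simp only [ans, true_iff]
      exact ⟨0, c, rfl, hq ▸ hacc⟩
  by_cases hne : (M.δ v.1 v.2.1).Nonempty
  · let d : M.Cfg := ⟨hne.some.1, fun i => update (c.tape i) (c.head i) (hne.some.2 i).1,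
      fun i => c.head i + ((hne.some.2 i).2 : ℤ)⟩
    have hst : M.Step c d := ⟨hne.some, by
      have := hne.some_mem
      rwa [← hq, ← hs], rfl, fun _ => rfl, fun _ => rfl⟩
    have hp : pick M v = (hne.some.1, v.2.1, hne.some.2, v.2.2.2) := by simp [pick, hne]
    obtain ⟨s, S1, e1, r1, -⟩ := exec_all M c _ (List.nodup_finRange (M.k + 1)) (pick M v) S
      (fun i _ => by rw [hp]; exact hr i)
    have hn : 1 ≤ n := hb 1 d ⟨d, hst, rfl⟩
    obtain ⟨v2, S2, e2, r2⟩ := ih (n - 1) (by omega) d
      ((pick M v).1, s, (pick M v).2.2.1, (pick M v).2.2.2) S1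
      ⟨by rw [hp], by rw [hp]; exact hf, fun i => by
        have := r1 i (List.mem_finRange i)
        rw [hp] at this
        exact this⟩
      (fun m c' h => by
        have := hb (m + 1) c' ⟨d, hst, h⟩
        omega)
    refine ⟨v2, S2, ?_, r2.trans ⟨?_, ?_⟩⟩
    · refine (Exec.loopT (σ := (v, S)) hf (Exec.iteF (σ := (v, S)) hacc
        (Exec.iteT (σ := (v, S)) hne ((exec_setV _ v S).seq e1))) e2).weak ?_
      obtain ⟨n', rfl⟩ : ∃ n', n = n' + 1 := ⟨n - 1, by omega⟩
      simp only [List.length_finRange, Nat.add_sub_cancel]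
      nlinarith
    · rintro ⟨m, c', h1, h2⟩
      exact ⟨m + 1, c', ⟨d, hst, h1⟩, h2⟩
    · rintro ⟨m, c', h1, h2⟩
      cases m with
      | zero =>
        obtain rfl : c = c' := h1
        exact absurd (hq ▸ h2) hacc
      | succ m =>
        obtain ⟨d', h3, h4⟩ := h1
        obtain rfl := step_det hd hst h3
        exact ⟨m, c', h4, h2⟩
  · refine ⟨ans M false v, S, ?_, ?_⟩
    · exact (Exec.loopT (σ := (v, S)) hf (Exec.iteF (σ := (v, S)) hacc
        (Exec.iteF (σ := (v, S)) hne (exec_setV _ v S)))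
        (Exec.loopF (by simp [ans]))).weak (by omega)
    · simp only [ans, Option.some.injEq, Bool.false_eq_true, false_iff]
      rintro ⟨m, c', h1, h2⟩
      cases m with
      | zero =>
        obtain rfl : c = c' := h1
        exact hacc (hq ▸ h2)
      | succ m =>
        obtain ⟨d', ⟨a, ha, -⟩, -⟩ := h1
        exact hne ⟨a, by rwa [hq, hs]⟩

/-- Read the first input symbol into the control. -/
def first : Prog (I M) M.Γ (V M) := .act fun v =>
  .pop (0, true) fun o => setS M v 0 (o.getD M.blank)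

/-- Initial control. -/
def v0 : V M := (M.start, fun _ => M.blank, fun _ => (M.blank, 0), none)

theorem rep_init (x : List Bool) :
    RepC M (M.init x) (setS M (v0 M) 0 ((x.map M.inp).head?.getD M.blank))
      (update (initS ((0, true) : I M) (0, false) (x.map M.inp) []) (0, true)
        (x.map M.inp).tail) := by
  refine ⟨rfl, rfl, fun i => ?_⟩
  by_cases hi : i = 0
  · subst hi
    refine ⟨?_, fun p => ?_, fun p => ?_⟩
    · simp [TM.init, setS, List.head?_eq_getElem?]
    · have h1 : (0 : ℤ) ≤ 1 + p := by omega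
      have h2 : ((1 : ℤ) + p).toNat = p + 1 := by omega
      simp [TM.init, h1, h2]
    · have h1 : ¬ (0 : ℤ) ≤ 0 - 1 - p := by omega
      simp only [TM.init, h1, and_false, if_false]
      simp [initS]
  · refine ⟨?_, fun p => ?_, fun p => ?_⟩ <;> simp [TM.init, setS, v0, initS, hi]

end TmSm

open TmSm in
/-- TMSM. -/
theorem tmsm (h : CompileStmt) : TmSmStmt := by
  intro M t hd hb
  have := M.finQ
  have := M.finΓ
  obtain ⟨D, hD⟩ := h (I M) M.Γ (V M) (0, true) (0, false) (by simp) M.inp M.inp_inj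
    (.seq (first M) (main M)) (v0 M) (fun v => decide (v.2.2.2 = some true))
  refine ⟨D, 2 * M.k + 7, fun x => ?_⟩
  obtain ⟨v, S, e, hr⟩ := exec_main M hd (t x.length) _ _ _ (rep_init M x) (hb x)
  refine ⟨decide (v.2.2.2 = some true), hD x [] v S _ ?_, by simpa [TM.Accepts] using hr⟩
  have e0 := Exec.act (fun v : V M => (.pop (0, true) fun o => setS M v 0 (o.getD M.blank) :
    Act (I M) M.Γ (V M))) (v0 M, initS ((0, true) : I M) (0, false) (x.map M.inp) [])
  refine (Exec.seq (e0.of_eq ?_ le_rfl) e).weak (by nlinarith)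
  simp [Act.run, initS]

end Pool.Agent.MP_8c2300_lc.PP
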