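import Pool.Agent.MP_8c2300_lc.pp.UProgA

/-! PROJECT PPST, module UPROG: a universal checker of transcripts.  The table is encoded as a
small program for an interpreter; the guess is a list of unary indices into the table. -/

namespace Pool.Agent.MP_8c2300_lc.PP

namespace UP

open Function

/-! ### Fields and `runCol` -/

theorem exS_false {x : X} (h : x.1 = false) (s : Sym) : (exS true x s).1 = false := by
  cases s <;> simp [exS, h]

theorem fold_fail {α : Type} (F : X → α → X) (hF : ∀ x a, x.1 = false → (F x a).1 = false)
    (l : List α) : ∀ x : X, x.1 = false → (l.foldl F x).1 = false := by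
  induction l with
  | nil => exact fun x h => h
  | cons a l ih => exact fun x h => ih _ (hF x a h)

theorem exF_false (x : X) (f : Field) (h : x.1 = false) : (exF x f).1 = false :=
  fold_fail _ (fun _ a h => exS_false h a) _ x h

theorem fold_push (ok : Bool) (w : List Bool) : ∀ b : List Sym,
    (w.map Sym.p).foldl (exS true) (ok, b) = (ok, w.reverse.map .bit ++ b) := by
  induction w with
  | nil => simp
  | cons a w ih => intro b; simp [exS, ih]

theorem fold_pop (u : List Sym) (hu : ∀ b, u.head? ≠ some (.bit b)) (w : List Bool) :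
    ∀ (ok : Bool) (s : List Bool),
      (w <+: s → (w.map Sym.c).foldl (exS true) (ok, s.map .bit ++ u) =
        (ok, (s.drop w.length).map .bit ++ u)) ∧
      (¬ w <+: s → ((w.map Sym.c).foldl (exS true) (ok, s.map .bit ++ u)).1 = false) := by
  induction w with
  | nil => intro ok s; simp
  | cons a w ih =>
    intro ok s
    have hf := fold_fail _ (fun _ a h => exS_false h a) (w.map Sym.c)
    cases s with
    | nil =>
      refine ⟨fun h => by simp at h, fun _ => hf _ ?_⟩
      simp [exS, hu]
    | cons a' s =>
      by_cases h : a = a'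
      · subst h
        simpa [exS] using ih ok s
      · refine ⟨fun h' => absurd (List.cons_prefix_cons.1 h').1 h, fun _ => hf _ ?_⟩
        simp [exS, Ne.symm h]

theorem fold_exF (u : List Sym) (hu : ∀ b, u.head? ≠ some (.bit b)) (fs : List Field) :
    ∀ (ok : Bool) (s : List Bool),
      (∀ s', runCol fs s = some s' →
        fs.foldl exF (ok, s.map .bit ++ u) = (ok, s'.map .bit ++ u)) ∧
      (runCol fs s = none → (fs.foldl exF (ok, s.map .bit ++ u)).1 = false) := by
  induction fs with
  | nil => intro ok s; simp [runCol]
  | cons f fs ih =>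
    intro ok s
    by_cases h : f.1 <+: s
    · have e : exF (ok, s.map .bit ++ u) f = (ok, (f.2 ++ s.drop f.1.length).map .bit ++ u) := by
        rw [exF, ins, List.foldl_append, (fold_pop u hu f.1 ok s).1 h, fold_push]
        simp
      simpa only [runCol, h, if_true, List.foldl_cons, e] using ih ok _
    · have e : (exF (ok, s.map .bit ++ u) f).1 = false := by
        rw [exF, ins, List.foldl_append]
        exact fold_fail _ (fun _ a h => exS_false h a) _ _ ((fold_pop u hu f.1 ok s).2 h)
      simp only [runCol, h, if_false, List.foldl_cons]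
      exact ⟨fun _ h => by simp at h, fun _ => fold_fail _ exF_false _ _ e⟩

theorem col_sel (tab : List Rule) (j : ℕ) (g : List Bool) : ∀ rest : List Rule,
    col (sel [] tab g rest) j = sel ([], []) (col tab j) g (col rest j) := by
  induction g with
  | nil => intro rest; rfl
  | cons b g ih =>
    intro rest
    cases b with
    | true => simpa [sel, col] using ih rest.tail
    | false => cases rest <;> simpa [sel, col] using ih tab

theorem sel_mem (tab : List Rule) (g : List Bool) : ∀ rest : List Rule, (∀ ρ ∈ rest, ρ ∈ tab) →
    ∀ ρ ∈ sel [] tab g rest, ρ ∈ tab ∨ ρ = [] := by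
  induction g with
  | nil => intro rest _ ρ h; simp [sel] at h
  | cons b g ih =>
    intro rest hr ρ h
    cases b with
    | true => exact ih _ (fun ρ h => hr ρ (List.mem_of_mem_tail h)) ρ h
    | false =>
      rcases List.mem_cons.1 h with h | h
      · cases rest with
        | nil => exact Or.inr h
        | cons a rest => exact Or.inl (h ▸ hr a (by simp))
      · exact ih _ (fun _ h => h) ρ h

theorem sel_skip (tab : List Rule) (g : List Bool) (l : List Rule) (rest : List Rule) :
    sel [] tab (List.replicate l.length true ++ g) (l ++ rest) = sel [] tab g rest := by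
  induction l with
  | nil => rfl
  | cons a l ih => simpa [List.replicate_succ, sel] using ih

theorem sel_surj (tab : List Rule) (ρs : List Rule) (h : ∀ ρ ∈ ρs, ρ ∈ tab) :
    ∃ g : List Bool, g.length ≤ tab.length * ρs.length ∧ sel [] tab g tab = ρs := by
  induction ρs with
  | nil => exact ⟨[], by simp, rfl⟩
  | cons ρ ρs ih =>
    obtain ⟨g, h1, h2⟩ := ih fun ρ' h' => h ρ' (by simp [h'])
    obtain ⟨l, l', e⟩ := List.append_of_mem (h ρ (by simp))
    have hl : l.length + 1 ≤ tab.length := by simp [e]
    refine ⟨List.replicate l.length true ++ false :: g, by simp; nlinarith, ?_⟩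
    have := sel_skip tab (false :: g) l (ρ :: l')
    rw [← e] at this
    rw [this]
    simp [sel, h2]

theorem runCol_triv (ρs : List Rule) (j : ℕ) (h : ∀ ρ ∈ ρs, ρ.length ≤ j) (s : List Bool) :
    runCol (col ρs j) s = some s := by
  induction ρs with
  | nil => rfl
  | cons ρ ρs ih =>
    have e : ρ[j]? = none := List.getElem?_eq_none (h ρ (by simp))
    have := ih fun ρ' h' => h ρ' (by simp [h'])
    simpa [col, runCol, e] using this

/-! ### The interpreter -/

def top1 : P := .act fun v => match v.2 with
  | some (.bit b) => .push .B (.bit b) v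
  | some .mk => .push .B .mk v
  | some .chk => .pop .B fun o => (v.1 && decide (o = some .mk), v.2)
  | some s => .push .T s v
  | none => .goto v

def top : P := .ite (fun v => v.2 = some .run) pass top1

/-- The interpreter on program `r` ends with flag `res`. -/
def Go (i : List Sym) (g : List Bool) (r : List Sym) (x : X) (t : List Sym) (res : Bool)
    (n : ℕ) : Prop :=
  ∃ S, Exec (lp .R top) (ld .R x.1 (mkS i (g.map .bit) [] x.2 r t [])) ((res, none), S) n

section
variable {i : List Sym} {g : List Bool} {r : List Sym} {x : X} {t : List Sym} {res : Bool} {n : ℕ}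

theorem Go.weak (h : Go i g r x t res n) {m : ℕ} (hm : n ≤ m) : Go i g r x t res m :=
  h.imp fun _ h => h.weak hm

theorem go_nil : Go i g [] x t x.1 1 := ⟨_, lp_nil rfl⟩

theorem go_one (s : Sym) (y : X) (t' : List Sym) (hs : s ≠ .run)
    (h1 : Exec top1 ((x.1, some s), mkS i (g.map .bit) [] x.2 r t [])
      ((y.1, some s), mkS i (g.map .bit) [] y.2 r t' []) 1)
    (h : Go i g r y t' res n) : Go i g (s :: r) x t res (n + 4) := by
  obtain ⟨S, h⟩ := h
  have hb : Exec top _ _ _ := Exec.iteF (by simpa using hs) h1
  exact ⟨S, (lp_cons' hb h (by simp) (by simp)).weak (by omega)⟩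

theorem go_bit (b : Bool) (h : Go i g r (x.1, .bit b :: x.2) t res n) :
    Go i g (.bit b :: r) x t res (n + 4) :=
  go_one _ _ _ (by simp) (ecast (Exec.act _ _) (by simp [Act.run]) le_rfl) h

theorem go_mk (h : Go i g r (x.1, .mk :: x.2) t res n) : Go i g (.mk :: r) x t res (n + 4) :=
  go_one _ _ _ (by simp) (ecast (Exec.act _ _) (by simp [Act.run]) le_rfl) h

theorem go_chk (h : Go i g r (x.1 && decide (x.2.head? = some .mk), x.2.tail) t res n) :
    Go i g (.chk :: r) x t res (n + 4) :=
  go_one _ _ _ (by simp) (ecast (Exec.act _ _) (by simp [Act.run]; congr) le_rfl) h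

theorem go_load (l : List Sym) (hl : ∀ s ∈ l, s = .ef ∨ ∃ b, s = .c b ∨ s = .p b) :
    ∀ t, Go i g r x (l.reverse ++ t) res n → Go i g (l ++ r) x t res (n + 4 * l.length) := by
  induction l with
  | nil => exact fun t h => h
  | cons s l ih =>
    intro t h
    have h1 := ih (fun s' h' => hl s' (by simp [h'])) (s :: t) (by simpa using h)
    refine (go_one s x (s :: t) ?_ (ecast (Exec.act _ _) ?_ le_rfl) h1).weak (by simp; omega)
    · rcases hl s (by simp) with h | ⟨b, h | h⟩ <;> simp [h]
    · rcases hl s (by simp) with h | ⟨b, h | h⟩ <;> simp [h, Act.run]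

/-- Program of one column. -/
def blk (fs : List Field) : List Sym := (cc fs).reverse ++ [.run]

theorem go_blk (fs : List Field)
    (h : Go i g r ((sel ([], []) fs g fs).foldl exF x) [] res n) :
    Go i g (blk fs ++ r) x [] res (n + (g.length + 1) * (11 * (cc fs).length + 14)) := by
  obtain ⟨S, h⟩ := h
  have hb : Exec top _ _ _ := Exec.iteT rfl (pass_ex fs i r g x (some .run))
  have h1 : Go i g (.run :: r) x (cc fs) res _ := ⟨S, lp_cons' hb h (by simp) (by simp)⟩
  have h2 := go_load (r := .run :: r) (cc fs).reverse ?_ [] (by simpa using h1)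
  · rw [blk, List.append_assoc]
    refine h2.weak ?_
    simp only [List.length_reverse]
    nlinarith
  · intro s hs
    simp only [cc, ins, List.mem_reverse, List.mem_flatMap, List.mem_append, List.mem_map,
      List.mem_singleton] at hs
    obtain ⟨f, _, (⟨b, _, h⟩ | ⟨b, _, h⟩) | h⟩ := hs
    · exact Or.inr ⟨b, Or.inl h.symm⟩
    · exact Or.inr ⟨b, Or.inr h.symm⟩
    · exact Or.inl h

end

/-- Program of the columns `2, ..., J + 1`. -/
def tailP (tab : List Rule) : ℕ → List Sym
  | 0 => []
  | J + 1 => .mk :: .bit false :: .bit false :: (blk (col tab (J + 2)) ++ tailP tab J)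

theorem blk_res (tab : List Rule) (g : List Bool) (j : ℕ) (ok : Bool) (s : List Bool)
    (u : List Sym) (hu : ∀ b, u.head? ≠ some (.bit b)) :
    ((sel ([], []) (col tab j) g (col tab j)).foldl exF (ok, s.map .bit ++ u)).1 = true ↔
      ok = true ∧ runCol (col (sel [] tab g tab) j) s ≠ none := by
  rw [← col_sel]
  have := fold_exF u hu (col (sel [] tab g tab) j) ok s
  cases h : runCol (col (sel [] tab g tab) j) s with
  | none => simp [this.2 h]
  | some s' => simp [this.1 s' h]

theorem go_tail (tab : List Rule) (J : ℕ) : ∃ K : ℕ, ∀ (i : List Sym) (g : List Bool) (x : X),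
    ∃ res, Go i g (tailP tab J) x [] res (K * (g.length + 1)) ∧ (res = true ↔ x.1 = true ∧
      ∀ j < J, runCol (col (sel [] tab g tab) (j + 2)) [false, false] ≠ none) := by
  induction J with
  | zero => exact ⟨1, fun i g x => ⟨x.1, go_nil.weak (by omega), by simp⟩⟩
  | succ J ih =>
    obtain ⟨K, hK⟩ := ih
    refine ⟨K + (11 * (cc (col tab (J + 2))).length + 14) + 12, fun i g x => ?_⟩
    obtain ⟨res, h1, h2⟩ := hK i g ((sel ([], []) (col tab (J + 2)) g (col tab (J + 2))).foldl exF
      (x.1, [false, false].map .bit ++ .mk :: x.2))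
    refine ⟨res, (go_mk (go_bit _ (go_bit _ (go_blk _ h1)))).weak (by nlinarith), ?_⟩
    rw [h2, blk_res tab g _ _ _ _ (by simp), Nat.forall_lt_succ_right]
    tauto

/-- The whole program of a table. -/
def prog (tab : List Rule) : List Sym :=
  blk (col tab 1) ++ .mk :: .bit false :: (blk (col tab 0) ++
    .chk :: tailP tab (tab.map List.length).sum)

theorem go_prog (tab : List Rule) : ∃ K : ℕ, ∀ (i : List Sym) (g x : List Bool),
    ∃ res, Go i g (prog tab) (true, (initB x 1).map .bit) [] res (K * (g.length + 1)) ∧
      (res = true ↔ Valid x (sel [] tab g tab)) := by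
  obtain ⟨K, hK⟩ := go_tail tab (tab.map List.length).sum
  refine ⟨K + (11 * (cc (col tab 1)).length + 14) + (11 * (cc (col tab 0)).length + 14) + 12,
    fun i g x => ?_⟩
  set y1 := (sel ([], []) (col tab 1) g (col tab 1)).foldl exF (true, (initB x 1).map .bit)
    with hy1
  set y0 := (sel ([], []) (col tab 0) g (col tab 0)).foldl exF
    (y1.1, [false].map .bit ++ .mk :: y1.2) with hy0
  obtain ⟨res, h1, h2⟩ := hK i g (y0.1 && decide (y0.2.head? = some .mk), y0.2.tail)
  refine ⟨res, (go_blk _ (go_mk (go_bit _ (go_blk _ (go_chk h1))))).weak (by nlinarith), ?_⟩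
  have e1 : y1.1 = true ↔ runCol (col (sel [] tab g tab) 1) (initB x 1) ≠ none := by
    simpa using blk_res tab g 1 true (initB x 1) [] (by simp)
  have e0 : (y0.1 = true ∧ y0.2.head? = some .mk) ↔
      y1.1 = true ∧ runCol (col (sel [] tab g tab) 0) [false] = some [] := by
    have := fold_exF (.mk :: y1.2) (by simp) (col (sel [] tab g tab) 0) y1.1 [false]
    rw [hy0, ← col_sel]
    cases h : runCol (col (sel [] tab g tab) 0) [false] with
    | none => simp only [this.2 h]; simp
    | some s' => rw [this.1 s' h]; cases s' <;> simp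
  rw [h2]
  simp only [Bool.and_eq_true, decide_eq_true_eq, e0, e1, Valid]
  constructor
  · rintro ⟨⟨a1, a0⟩, a2⟩
    refine ⟨fun j => ?_, a0⟩
    match j with
    | 0 => simp [initB, a0]
    | 1 => exact a1
    | j + 2 =>
      by_cases hj : j < (tab.map List.length).sum
      · exact a2 j hj
      · rw [runCol_triv]
        · simp
        · intro ρ hρ
          rcases sel_mem tab g tab (fun _ h => h) ρ hρ with h | h
          · have := List.single_le_sum (l := tab.map List.length) (by simp) _
              (List.mem_map_of_mem h)
            omega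
          · simp [h]
  · exact fun h => ⟨⟨h.1 1, h.2⟩, fun j _ => h.1 (j + 2)⟩

/-! ### Reading the input -/

def code : Sym → List Bool
  | .bit b => [false, false, false, b]
  | .c b => [false, false, true, b]
  | .p b => [false, true, false, b]
  | .mk => [false, true, true, false]
  | .ef => [false, true, true, true]
  | .chk => [true, false, false, false]
  | .run => [true, false, false, true]

def dec : List Bool → Option Sym
  | [false, false, false, b] => some (.bit b)
  | [false, false, true, b] => some (.c b)
  | [false, true, false, b] => some (.p b)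
  | [false, true, true, false] => some .mk
  | [false, true, true, true] => some .ef
  | [true, false, false, false] => some .chk
  | [true, false, false, true] => some .run
  | _ => none

/-- Read `n` more bits and decode. -/
def dtree : ℕ → List Bool → P
  | 0, acc => .act fun v => .goto (v.1, dec acc)
  | n + 1, acc => .seq (popA .I) (.ite (fun v => v.2 = some (.bit true))
      (dtree n (acc ++ [true])) (dtree n (acc ++ [false])))

theorem dtree_ex (ok : Bool) (i g a b r t u : List Sym) (l : List Bool) :
    ∀ (acc : List Bool) (a0 : Option Sym),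
      Exec (dtree l.length acc) ((ok, a0), mkS (l.map .bit ++ i) g a b r t u)
        ((ok, dec (acc ++ l)), mkS i g a b r t u) (2 * l.length + 1) := by
  induction l with
  | nil => intro acc a0; exact ecast (Exec.act _ _) (by simp [Act.run]) (by simp)
  | cons c l ih =>
    intro acc a0
    have h1 := popA_ex .I ok a0 (mkS ((c :: l).map .bit ++ i) g a b r t u)
    rw [ld_cons (s := .bit c) (l := l.map .bit ++ i) (by simp), up_I] at h1
    have h2 := ih (acc ++ [c]) (some (.bit c))
    cases c with
    | true => exact ecast (h1.seq (Exec.iteT rfl h2)) (by simp) (by simp; omega)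
    | false => exact ecast (h1.seq (Exec.iteF (by simp) h2)) (by simp) (by simp; omega)

def decL : P := .loop (fun v => v.2 ≠ none) (.seq (dtree 4 []) (pushA .R))

theorem decL_ex (ok : Bool) (i g a b t u : List Sym) (l : List Sym) : ∀ (s : Sym) (r : List Sym),
    Exec decL ((ok, some s),
        mkS ((l.flatMap code ++ [true, true, true, true]).map .bit ++ i) g a b r t u)
      ((ok, none), mkS i g a b (l.reverse ++ r) t u) (11 * l.length + 12) := by
  induction l with
  | nil =>
    intro s r
    have h1 := dtree_ex ok i g a b r t u [true, true, true, true] [] (some s)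
    exact (Exec.loopT (by simp) (Exec.seq h1 (pushA_none .R ok _))
      (Exec.loopF (by simp))).weak (by simp)
  | cons c l ih =>
    intro s r
    have h1 := dtree_ex ok ((l.flatMap code ++ [true, true, true, true]).map .bit ++ i)
      g a b r t u (code c) [] (some s)
    have e1 : (code c).length = 4 := by cases c <;> rfl
    have e2 : dec ([] ++ code c) = some c := by cases c <;> rfl
    rw [e1, e2] at h1
    have h2 := pushA_ex .R ok c
      (mkS ((l.flatMap code ++ [true, true, true, true]).map .bit ++ i) g a b r t u)
    rw [up_R, mkS_R] at h2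
    have h3 := Exec.loopT (c := fun v : V => v.2 ≠ none) (by simp) (h1.seq h2) (ih c (c :: r))
    simp only [List.flatMap_cons, List.map_append, List.append_assoc] at h3 ⊢
    exact ecast h3 (by simp) (by simp; omega)

def cbody : P := .seq (pushA .I) (.seq (pushA .B) (pushC .B (.bit true)))

theorem copy_ex (ok : Bool) (g r t u : List Sym) (l : List Bool) : ∀ i b : List Sym,
    Exec (lp .A cbody) (ld .A ok (mkS i g (l.map .bit) b r t u))
      ((ok, none), mkS (l.reverse.map .bit ++ i) g []
        ((l.reverse.flatMap fun c => [true, c]).map .bit ++ b) r t u) (5 * l.length + 1) := by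
  induction l with
  | nil => intro i b; exact ecast (lp_nil rfl) (by simp) (by simp)
  | cons c l ih =>
    intro i b
    have h1 := pushA_ex .I ok (.bit c) (mkS i g (l.map .bit) b r t u)
    have h2 := pushA_ex .B ok (.bit c) (mkS (.bit c :: i) g (l.map .bit) b r t u)
    have h3 := pushC_ex .B (.bit true) (ok, some (.bit c))
      (mkS (.bit c :: i) g (l.map .bit) (.bit c :: b) r t u)
    simp only [up_I, up_B, mkS_I, mkS_B] at h1 h2 h3
    have hb : Exec cbody _ _ _ := h1.seq (h2.seq h3)
    exact ecast (lp_cons' hb (ih _ _) (by simp) (by simp)) (by simp) (by simp; omega)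

def main : P := .seq (each .I (pushA .A)) (.seq (pushC .B (.bit false))
  (.seq (pushC .B (.bit false)) (.seq (popA .A) (.seq (dropW .A (.bit false))
  (.seq (lp .A cbody) (.seq (popA .I) (.seq (dropW .I (.bit true)) (.seq decL
  (each .R top)))))))))

/-- Encoding of a table. -/
def enc (tab : List Rule) : List Bool :=
  (prog tab).reverse.flatMap code ++ [true, true, true, true]

theorem main_ex (tab : List Rule) : ∃ K : ℕ, ∀ (z j p : ℕ) (x w g : List Bool),
    x = mkX z (enc tab) j → w = x ++ List.replicate p false →
      ∃ res S, Exec main ((true, none), initS .I .G (w.map .bit) (g.map .bit)) ((res, none), S)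
        (12 * (w.length + 1) + K * (g.length + 1)) ∧ (res = true ↔ Valid x (sel [] tab g tab)) := by
  obtain ⟨K, hK⟩ := go_prog tab
  refine ⟨K + 11 * (prog tab).length + 12, fun z j p x w g hx hw => ?_⟩
  obtain ⟨res, ⟨S, h10⟩, hres⟩ := hK ((List.replicate (j + 1) true).map .bit) g x
  refine ⟨res, S, ?_, hres⟩
  have e0 : initS St.I St.G (w.map Sym.bit) (g.map Sym.bit) =
      mkS (w.map .bit) (g.map .bit) [] [] [] [] [] := by
    funext k; cases k <;> simp [initS]
  set g' := g.map Sym.bit
  have h1 := mv_ex (i := .I) (j := .A) (by simp) true none (mkS (w.map .bit) g' [] [] [] [] [])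
  have h2 := pushC_ex .B (.bit false) (true, none) (mkS [] g' (w.map .bit).reverse [] [] [] [])
  have h3 := pushC_ex .B (.bit false) (true, none)
    (mkS [] g' (w.map .bit).reverse [.bit false] [] [] [])
  have h4 := popA_ex .A true none (mkS [] g' (w.map .bit).reverse [.bit false, .bit false] [] [] [])
  have h5 := dropW_ex .A (.bit false) true (x.reverse.map .bit)
    (by cases j <;> simp [hx, mkX, List.replicate_succ']) p
    (mkS [] g' (w.map .bit).reverse [.bit false, .bit false] [] [] []) (by simp [hw])
  have h6 := copy_ex true g' [] [] [] x.reverse [] [.bit false, .bit false]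
  have eB : (x.flatMap fun c => [true, c]).map Sym.bit ++ [.bit false, .bit false] =
      (initB x 1).map .bit := by simp [initB]
  have h7 := popA_ex .I true none (mkS (x.map .bit) g' [] ((initB x 1).map .bit) [] [] [])
  have h8 := dropW_ex .I (.bit true) true
    (.bit false :: ((enc tab).map .bit ++ (List.replicate (j + 1) true).map .bit)) (by simp) z
    (mkS (x.map .bit) g' [] ((initB x 1).map .bit) [] [] []) (by simp [hx, mkX])
  have h9 := decL_ex true ((List.replicate (j + 1) true).map .bit) g' [] ((initB x 1).map .bit)
    [] [] (prog tab).reverse (.bit false) []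
  rw [ld_cons (S := update _ _ _) (update_self _ _ _)] at h8
  simp only [up_I, up_A, up_B, mkS_I, mkS_A, mkS_B, List.append_nil, List.reverse_reverse,
    List.length_reverse, List.length_map, eB] at h1 h2 h3 h5 h6 h8 h9
  rw [e0]
  refine (h1.seq (h2.seq (h3.seq (h4.seq (h5.seq (h6.seq (h7.seq (h8.seq (h9.seq
    (each_ex h10)))))))))).weak ?_
  have l1 : w.length = x.length + p := by simp [hw]
  have l2 : z ≤ x.length := by rw [hx, length_mkX]; omega
  nlinarith

end UP

open UP in
theorem uprog (h : CompileStmt) : UStmt := by
  obtain ⟨D, hD⟩ := h St Sym V .I .G (by simp) Sym.bit (fun _ _ h => Sym.bit.inj h) main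
    (true, none) fun v => v.1
  refine ⟨D, enc, 13, fun tab => ?_⟩
  obtain ⟨K, hK⟩ := main_ex tab
  refine ⟨(K + 1) * (tab.length + 1), fun z j p x w hx hw => ⟨fun ρs h1 h2 h3 => ?_, ?_⟩⟩
  · obtain ⟨g, hg, e⟩ := sel_surj tab ρs h1
    obtain ⟨res, S, hex, hres⟩ := hK z j p x w g hx hw
    rw [e] at hres
    have h4 : (K + 1) * (g.length + 1) ≤ w.length := by
      refine le_trans ?_ h3
      rw [mul_assoc]
      exact Nat.mul_le_mul_left _ (by nlinarith)
    refine ⟨g, by nlinarith, ?_⟩
    have := hD w g _ _ _ hex
    simp only [hres.2 h2] at this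
    exact this.mono (by nlinarith)
  · intro g n hn
    obtain ⟨res, S, hex, hres⟩ := hK z j p x w g hx hw
    exact ⟨_, sel_mem tab g tab fun _ h => h, hres.1 ((hD w g _ _ _ hex).unique hn)⟩

end Pool.Agent.MP_8c2300_lc.PP
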