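import Mathlib.Data.List.GetD
import Pool.Agent.MP_8c2300_lc.pp.Spec

/-! PROJECT PPST, module VS: soundness of the block verifier via the page graph. -/

namespace Pool.Agent.MP_8c2300_lc.PP

open Finset

namespace Vs

variable {Γ : Type}

lemma cut_flat (b m : ℕ) (l : List Γ) : (cutL b m l).flatten = l := by
  induction m generalizing l with
  | zero => simp [cutL]
  | succ m ih => simp [cutL, ih]

lemma cut_len (b m : ℕ) (l : List Γ) : (cutL b m l).length = m + 1 := by
  induction m generalizing l with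
  | zero => rfl
  | succ m ih => simp [cutL, ih]

lemma cut_spec (b m : ℕ) (l : List Γ) (h : m * b ≤ l.length) :
    ∃ p T, cutL b m l = p :: T ∧ p.length + m * b = l.length ∧ ∀ u ∈ T, u.length = b := by
  induction m generalizing l with
  | zero => exact ⟨l, [], rfl, by simp, by simp⟩
  | succ m ih =>
    rw [add_one_mul] at h
    obtain ⟨p, T, k1, k2, k3⟩ := ih (l.take (l.length - b)) (by rw [List.length_take]; omega)
    rw [List.length_take] at k2
    refine ⟨p, T ++ [l.drop (l.length - b)], by rw [cutL, k1]; rfl, by rw [add_one_mul]; omega,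
      fun u hu => ?_⟩
    rcases List.mem_append.1 hu with k | k
    · exact k3 u k
    · rw [List.mem_singleton.1 k, List.length_drop]
      omega

/-- First piece (with its origin). -/
def hd (L : List (List Γ × ℕ)) : List Γ × ℕ := L.headD ([], 0)

/-- Contents of a list of pieces. -/
def fl (L : List (List Γ × ℕ)) : List Γ := (L.map Prod.fst).flatten

/-- Shape of a list of pieces. -/
def Sh (b : ℕ) (L : List (List Γ × ℕ)) : Prop :=
  (hd L).1.length < b ∧ ∀ p ∈ L.tail, p.1.length = b

lemma fl_eq (L : List (List Γ × ℕ)) : fl L = (hd L).1 ++ (hd L.tail).1 ++ fl (L.drop 2) := by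
  rcases L with _ | ⟨a, _ | ⟨c, L⟩⟩ <;> simp [fl, hd]

lemma Sh.loc {b : ℕ} {L : List (List Γ × ℕ)} (h : Sh b L) (k : fl (L.drop 2) ≠ []) :
    b ≤ ((hd L).1 ++ (hd L.tail).1).length := by
  rcases L with _ | ⟨a, _ | ⟨c, L⟩⟩
  · exact absurd rfl k
  · exact absurd rfl k
  · have : c.1.length = b := h.2 c (by simp)
    simp only [hd, List.headD_cons, List.tail_cons, List.length_append]
    omega

lemma Sh.snd {b : ℕ} {L : List (List Γ × ℕ)} (h : Sh b L) : (hd L.tail).1.length ≤ b := by
  rcases L with _ | ⟨a, _ | ⟨c, L⟩⟩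
  · exact Nat.zero_le _
  · exact Nat.zero_le _
  · exact (h.2 c (by simp)).le

lemma hd_mem {L : List (List Γ × ℕ)} {p : List Γ × ℕ} (h : p = hd L ∨ p = hd L.tail)
    (k : p.2 ≠ 0) : p ∈ L.take 2 := by
  rcases L with _ | ⟨a, _ | ⟨c, L⟩⟩ <;> rcases h with rfl | rfl <;> simp_all [hd]

variable (E : SM)

/-- The configuration reached by one block above the untouched pieces. -/
def blk (b : ℕ) (T : E.Q × (E.ι → List (List E.Γ × ℕ))) : E.Cf :=
  E.step^[b] (T.1, fun j => (hd (T.2 j)).1 ++ (hd (T.2 j).tail).1)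

/-- The true computation, cut into pieces. -/
def tr (x : List Bool) : ℕ → E.Q × (E.ι → List (List E.Γ × ℕ))
  | 0 => (E.start, fun j => if j = E.in0 then
      ([], 0) :: (x.map E.inp, 0) :: List.replicate (lead x) (E.zeros x.length, 0) else [])
  | τ + 1 => ((blk E x.length (tr x τ)).1, fun j =>
      (cutL x.length (((blk E x.length (tr x τ)).2 j).length / x.length)
        ((blk E x.length (tr x τ)).2 j)).map (·, τ + 1) ++ ((tr x τ).2 j).drop 2)

variable {E} {x : List Bool}

lemma tr_sh (hx : 0 < x.length) (τ : ℕ) (j : E.ι) : Sh x.length ((tr E x τ).2 j) := by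
  induction τ with
  | zero =>
    simp only [tr]
    split_ifs
    · refine ⟨hx, fun p hp => ?_⟩
      rcases List.mem_cons.1 hp with rfl | k
      · simp
      · rw [List.eq_of_mem_replicate k]
        simp [SM.zeros]
    · exact ⟨hx, by simp⟩
  | succ τ ih =>
    obtain ⟨p, T, k1, k2, k3⟩ := cut_spec x.length _ ((blk E x.length (tr E x τ)).2 j)
      (Nat.div_mul_le_self _ _)
    simp only [tr]
    rw [k1]
    refine ⟨?_, fun u hu => ?_⟩
    · have m1 := Nat.div_add_mod' ((blk E x.length (tr E x τ)).2 j).length x.length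
      have m2 := Nat.mod_lt ((blk E x.length (tr E x τ)).2 j).length hx
      show p.length < _
      omega
    · rcases List.mem_append.1 (show u ∈ T.map (·, τ + 1) ++ _ from hu) with k | k
      · obtain ⟨u, k4, rfl⟩ := List.mem_map.1 k
        exact k3 u k4
      · exact ih.2 u (List.mem_of_mem_drop (i := 1) (by simpa using k))

lemma mv_lt (hx : 0 < x.length) (τ : ℕ) (j : E.ι) :
    ((blk E x.length (tr E x τ)).2 j).length / x.length < 3 := by
  have k1 := E.iter_length x.length
    ((tr E x τ).1, fun j => (hd ((tr E x τ).2 j)).1 ++ (hd ((tr E x τ).2 j).tail).1) j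
  have k2 := (tr_sh hx τ j).1
  have k3 := (tr_sh hx τ j).snd
  rw [List.length_append] at k1
  rw [Nat.div_lt_iff_lt_mul hx, blk]
  omega

lemma tr_true (hx : 0 < x.length) (τ : ℕ) :
    E.step^[τ * x.length] (E.init (x ++ List.replicate (lead x * x.length) false) []) =
      ((tr E x τ).1, fun j => fl ((tr E x τ).2 j)) := by
  induction τ with
  | zero =>
    rw [zero_mul, Function.iterate_zero_apply, SM.init]
    refine Prod.ext rfl (funext fun j => ?_)
    simp only [tr, initS]
    split_ifs <;> simp [fl, SM.zeros]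
  | succ τ ih =>
    rw [add_one_mul, add_comm, Function.iterate_add_apply, ih]
    simp only [fl_eq ((tr E x τ).2 _)]
    rw [E.iter_append _ _ _ _ fun j => (tr_sh hx τ j).loc]
    refine Prod.ext rfl (funext fun j => ?_)
    simp only [tr, fl, List.map_append, List.flatten_append, List.map_map]
    rw [show (Prod.fst ∘ fun u : List E.Γ => (u, τ + 1)) = id from rfl, List.map_id, cut_flat]
    rfl

/-- Origins of the pieces. -/
def pv (E : SM) (x : List Bool) (τ : ℕ) (j : E.ι) : List ℕ := ((tr E x τ).2 j).map Prod.snd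

lemma pv_succ (hx : 0 < x.length) (τ : ℕ) (j : E.ι) :
    ∃ m ≤ 3, pv E x (τ + 1) j = List.replicate m (τ + 1) ++ (pv E x τ j).drop 2 := by
  refine ⟨_, mv_lt hx τ j, ?_⟩
  simp only [pv, tr, List.map_append, List.map_map, List.map_drop]
  rw [show (Prod.snd ∘ fun u : List E.Γ => (u, τ + 1)) = fun _ => τ + 1 from rfl, List.map_const',
    cut_len]

section

variable {f : ℕ → List ℕ} (h0 : ∀ p ∈ f 0, p = 0)
  (hs : ∀ τ, ∃ m ≤ 3, f (τ + 1) = List.replicate m (τ + 1) ++ (f τ).drop 2)

include h0 hs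

lemma sorted (τ : ℕ) : (∀ p ∈ f τ, p ≤ τ) ∧ (f τ).Pairwise (· ≥ ·) := by
  induction τ with
  | zero => exact ⟨fun p hp => (h0 p hp).le, List.pairwise_of_forall_mem_list
      fun a ha b hb => by rw [h0 a ha, h0 b hb]⟩
  | succ τ ih =>
    obtain ⟨m, -, k⟩ := hs τ
    rw [k]
    refine ⟨fun p hp => (List.mem_append.1 hp).elim (fun k => (List.eq_of_mem_replicate k).le)
      fun k => (ih.1 p (List.mem_of_mem_drop k)).trans τ.le_succ, List.pairwise_append.2
        ⟨List.pairwise_replicate.2 (Or.inr le_rfl), ih.2.sublist (List.drop_sublist _ _),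
          fun a ha b hb => ?_⟩⟩
    rw [List.eq_of_mem_replicate ha]
    exact (ih.1 b (List.mem_of_mem_drop hb)).trans τ.le_succ

omit h0 in
lemma persist {p τ τ' : ℕ} (h1 : p ≤ τ) (h2 : τ < τ') (h : p ∈ f τ') : p ∈ (f τ).drop 2 := by
  induction τ', h2 using Nat.le_induction with
  | base =>
    obtain ⟨m, -, k⟩ := hs τ
    rw [Nat.succ_eq_add_one, k] at h
    exact (List.mem_append.1 h).resolve_left fun k => by
      have := List.eq_of_mem_replicate k
      omega
  | succ τ' h2 ih =>
    obtain ⟨m, -, k⟩ := hs τ'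
    rw [k] at h
    exact ih (List.mem_of_mem_drop ((List.mem_append.1 h).resolve_left fun k => by
      have := List.eq_of_mem_replicate k
      omega))

lemma outdeg (v n : ℕ) :
    #((range n).filter fun τ => v + 1 ∈ (f τ).take 2) + (f n).count (v + 1) ≤
      if v < n then 3 else 0 := by
  induction n with
  | zero => simpa [List.count_eq_zero] using fun k => absurd (h0 _ k) v.succ_ne_zero
  | succ n ih =>
    obtain ⟨m, hm, k⟩ := hs n
    have k1 : (f n).count (v + 1) =
        ((f n).take 2).count (v + 1) + ((f n).drop 2).count (v + 1) := by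
      rw [← List.count_append, List.take_append_drop]
    have k2 := List.count_pos_iff (a := v + 1) (l := (f n).take 2)
    rw [card_filter] at ih
    rw [k, List.count_append, List.count_replicate, card_filter, sum_range_succ]
    simp only [beq_iff_eq]
    split_ifs at ih ⊢ with a1 a2 a3 <;> first | omega | (have := k2.2 (by assumption); omega)

end

open Classical in
/-- The page graph of the computation. -/
noncomputable def gr (E : SM) (x : List Bool) (N : ℕ) : Finset (ℕ × ℕ × E.ι) :=
  (range N ×ˢ range N ×ˢ univ).filter fun e => e.1 + 1 ∈ (pv E x e.2.1 e.2.2).take 2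

lemma pv_zero (j : E.ι) : ∀ p ∈ pv E x 0 j, p = 0 := by
  intro p hp
  simp only [pv, tr] at hp
  split_ifs at hp
  · simp only [List.map_cons, List.map_replicate, List.mem_cons, List.mem_replicate] at hp
    tauto
  · simp at hp

lemma mem_gr (hx : 0 < x.length) {N : ℕ} {e : ℕ × ℕ × E.ι} :
    e ∈ gr E x N ↔ e.1 < e.2.1 ∧ e.2.1 < N ∧ e.1 + 1 ∈ (pv E x e.2.1 e.2.2).take 2 := by
  simp only [gr, mem_filter, mem_product, mem_range, mem_univ, and_true]
  exact ⟨fun h => ⟨(sorted (f := (pv E x · e.2.2)) (pv_zero _) (pv_succ hx · _) _).1 _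
    (List.mem_of_mem_take h.2), h.1.2, h.2⟩, fun h => ⟨⟨h.1.trans h.2.1, h.2.1⟩, h.2.2⟩⟩

lemma page (hx : 0 < x.length) (N : ℕ) : PageGraph (5 * Fintype.card E.ι) N (gr E x N) := by
  refine ⟨fun e he => ⟨((mem_gr hx).1 he).1, ((mem_gr hx).1 he).2.1⟩, fun v => ?_, ?_⟩
  · rw [mul_comm, ← card_univ]
    refine (card_le_card fun e he => ?_).trans (card_biUnion_le_card_mul univ (fun j : E.ι =>
      ((range N).filter fun τ => v + 1 ∈ (pv E x τ j).take 2).image (fun τ => (v, τ, j)) ∪
        ((pv E x v j).take 2).toFinset.image fun p => (p - 1, v, j)) 5 fun j _ => ?_)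
    · obtain ⟨σ, τ, j⟩ := e
      obtain ⟨k1, k2⟩ := mem_filter.1 he
      obtain ⟨-, k3, k4⟩ := (mem_gr hx).1 k1
      refine mem_biUnion.2 ⟨j, mem_univ _, mem_union.2 (k2.imp ?_ ?_)⟩ <;> rintro rfl
      · exact mem_image.2 ⟨τ, mem_filter.2 ⟨mem_range.2 k3, k4⟩, rfl⟩
      · exact mem_image.2 ⟨σ + 1, List.mem_toFinset.2 k4, rfl⟩
    · have k1 := outdeg (f := (pv E x · j)) (pv_zero j) (pv_succ hx · j) v N
      have k2 := (List.toFinset_card_le ((pv E x v j).take 2)).trans (List.length_take_le _ _)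
      refine (card_union_le _ _).trans ((Nat.add_le_add card_image_le card_image_le).trans ?_)
      split_ifs at k1 <;> omega
  · rintro ⟨σ, τ, j⟩ he ⟨σ', τ', j'⟩ he' rfl ⟨k1, k2, k3⟩
    have m1 := persist (f := (pv E x · j)) (pv_succ hx · j) (show σ' + 1 ≤ τ from k2) k3
      (List.mem_of_mem_take ((mem_gr hx).1 he').2.2)
    have m2 := (sorted (f := (pv E x · j)) (pv_zero j) (pv_succ hx · j) τ).2
    rw [← List.take_append_drop 2 (pv E x τ j), List.pairwise_append] at m2
    have := m2.2.2 _ ((mem_gr hx).1 he).2.2 _ m1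
    simp only at k1 this
    omega

open Classical in
/-- The claim on a piece. -/
noncomputable def clm (C : Finset (ℕ × ℕ × E.ι)) (τ : ℕ) (j : E.ι) (p : List E.Γ × ℕ) :
    Option (List E.Γ) :=
  if p.2 ≠ 0 ∧ (p.2 - 1, τ, j) ∈ C then some p.1 else none

/-- The record of a block. -/
noncomputable def rc (x : List Bool) (C : Finset (ℕ × ℕ × E.ι)) (τ : ℕ) : Rec E where
  qe := (tr E x (τ + 1)).1
  mv := fun j => Fin.ofNat 3 (((blk E x.length (tr E x τ)).2 j).length / x.length)
  cp := fun j => clm C τ j (hd ((tr E x τ).2 j))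
  cb := fun j => clm C τ j (hd ((tr E x τ).2 j).tail)

/-- An item fits a piece. -/
def Fit (z : List Γ) (A : Finset ℕ) : Item Γ → List Γ × ℕ → Prop
  | .unk, p => p.2 ≠ 0 ∧ p.2 - 1 ∉ A
  | .zer, p => p.1 = z ∧ p.2 = 0
  | .full l, p => p.1 = l

lemma fit_hd {z : List Γ} {A : Finset ℕ} {I : List (Item Γ)} {L : List (List Γ × ℕ)}
    (h : List.Forall₂ (Fit z A) I L) :
    Fit z A (I.headD (.full [])) (hd L) ∧ List.Forall₂ (Fit z A) I.tail L.tail := by
  cases h with
  | nil => exact ⟨rfl, .nil⟩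
  | cons h1 h2 => exact ⟨h1, h2⟩

variable {C : Finset (ℕ × ℕ × E.ι)} {A : Finset ℕ} {N τ : ℕ}

lemma fit_ok {z : List E.Γ} {i : Item E.Γ} {p : List E.Γ × ℕ} (h : Fit z A i p) (j : E.ι) :
    i.Ok (clm C τ j p) := by
  cases i with
  | unk => trivial
  | zer => exact if_neg fun k => k.1 h.2
  | full l =>
    simp only [Item.Ok, clm]
    split_ifs
    exacts [Or.inr (congrArg some h), Or.inl rfl]

lemma fit_val {z : List E.Γ} {i : Item E.Γ} {p : List E.Γ × ℕ} (h : Fit z A i p) {j : E.ι}
    (k : p.2 ≠ 0 → (p.2 - 1, τ, j) ∉ C → p.2 - 1 ∈ A) : i.val z (clm C τ j p) = some p.1 := by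
  cases i with
  | unk => exact if_pos ⟨h.1, by_contra fun m => h.2 (k h.1 m)⟩
  | zer => exact congrArg some h.1.symm
  | full l => exact congrArg some (Eq.symm h)

/-- The invariant of a run of the verifier. -/
def Inv (x : List Bool) (A : Finset ℕ) (τ : ℕ) (s : VSt E) : Prop :=
  s.q = (tr E x τ).1 ∧ ∀ j, List.Forall₂ (Fit (E.zeros x.length) A) (s.its j) ((tr E x τ).2 j)

lemma step_inv (hx : 0 < x.length) (hA : ∀ e ∈ gr E x N, e ∉ C → e.2.1 ∈ A → e.1 ∈ A)
    (hτ : τ < N) {a : Bool} (ha : a = true ↔ τ ∈ A) {s : VSt E} (hs : Inv x A τ s) :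
    ∃ s', vstep x.length a (rc x C τ) s = some s' ∧ Inv x A (τ + 1) s' := by
  have f1 := fun j => (fit_hd (hs.2 j)).1
  have f2 := fun j => (fit_hd (fit_hd (hs.2 j)).2).1
  have hm : ∀ j, ((rc x C τ).mv j : ℕ) = ((blk E x.length (tr E x τ)).2 j).length / x.length :=
    fun j => Nat.mod_eq_of_lt (mv_lt hx τ j)
  rw [vstep, if_pos fun j => ⟨fit_ok (f1 j) j, fit_ok (f2 j) j⟩]
  by_cases k : a = true
  · have cl : ∀ j p, p = hd ((tr E x τ).2 j) ∨ p = hd ((tr E x τ).2 j).tail → p.2 ≠ 0 →
        (p.2 - 1, τ, j) ∉ C → p.2 - 1 ∈ A := fun j p h1 h2 h3 => by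
      have h4 : p.2 ∈ (pv E x τ j).take 2 := by
        rw [pv, ← List.map_take]
        exact List.mem_map_of_mem (hd_mem h1 h2)
      have h5 := (sorted (f := (pv E x · j)) (pv_zero j) (pv_succ hx · j) τ).1 _
        (List.mem_of_mem_take h4)
      exact hA _ ((mem_gr hx).2 ⟨by show p.2 - 1 < τ; omega, hτ, by
        show p.2 - 1 + 1 ∈ _
        rwa [Nat.sub_add_cancel (Nat.pos_of_ne_zero h2)]⟩) h3 (ha.1 k)
    have v1 : ∀ j, (s.itP j).val (E.zeros x.length) ((rc x C τ).cp j) = some _ :=
      fun j => fit_val (f1 j) (cl j _ (Or.inl rfl))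
    have v2 : ∀ j, (s.itB j).val (E.zeros x.length) ((rc x C τ).cb j) = some _ :=
      fun j => fit_val (f2 j) (cl j _ (Or.inr rfl))
    have sim : s.sim x.length (rc x C τ) = blk E x.length (tr E x τ) := by
      simp only [VSt.sim, v1, v2, hs.1, Option.getD_some, blk]
    rw [if_pos k, sim, if_pos ⟨fun j => ⟨by simp [v1], by simp [v2]⟩, rfl, fun j => by
      rw [hm]
      exact ⟨Nat.div_mul_le_self _ _, (Nat.div_lt_iff_lt_mul hx).1 (Nat.lt_succ_self _)⟩⟩]
    refine ⟨_, rfl, rfl, fun j => List.rel_append ?_ (List.forall₂_drop 2 (hs.2 j))⟩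
    rw [hm, List.forall₂_map_left_iff, List.forall₂_map_right_iff]
    exact List.forall₂_same.2 fun _ _ => rfl
  · rw [if_neg k]
    refine ⟨_, rfl, rfl, fun j => List.rel_append ?_ (List.forall₂_drop 2 (hs.2 j))⟩
    rw [hm, ← cut_len x.length _ ((blk E x.length (tr E x τ)).2 j), ← List.map_const',
      List.forall₂_map_left_iff, List.forall₂_map_right_iff]
    exact List.forall₂_same.2 fun _ _ => ⟨τ.succ_ne_zero, fun m => k (ha.2 m)⟩

lemma run_inv (hx : 0 < x.length) (hA : ∀ e ∈ gr E x N, e ∉ C → e.2.1 ∈ A → e.1 ∈ A) (n : ℕ) :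
    ∀ (τ : ℕ) (a : ℕ → Bool) (s : VSt E), τ + n ≤ N → (∀ i < n, a i = true ↔ τ + i ∈ A) →
      Inv x A τ s → ∃ s', vrun x.length ((List.range' τ n).map (rc x C)) a s = some s' ∧
        Inv x A (τ + n) s' := by
  induction n with
  | zero => exact fun τ a s _ _ h => ⟨s, rfl, h⟩
  | succ n ih =>
    intro τ a s h1 h2 h3
    obtain ⟨s1, k1, k2⟩ := step_inv hx hA (τ := τ) (by omega) (h2 0 n.succ_pos) h3
    obtain ⟨s2, k3, k4⟩ := ih (τ + 1) (fun i => a (i + 1)) s1 (by omega) (fun i hi => by
      rw [h2 (i + 1) (by omega), add_right_comm, add_assoc]) k2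
    refine ⟨s2, ?_, by rwa [add_comm n, ← add_assoc]⟩
    rw [List.range'_succ, List.map_cons, vrun, k1, Option.bind_some, k3]

lemma init_inv : Inv x A 0 (vinit E x) := by
  refine ⟨rfl, fun j => ?_⟩
  simp only [vinit, tr]
  split_ifs
  · refine .cons rfl (.cons rfl ?_)
    induction lead x with
    | zero => exact .nil
    | succ n ih => exact .cons ⟨rfl, rfl⟩ ih
  · exact .nil

lemma size_le (hx : 0 < x.length) (C : Finset (ℕ × ℕ × E.ι)) (N : ℕ) :
    ∑ τ ∈ range N, (rc x C τ).size ≤ N + 2 * #C * x.length := by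
  have k : ∀ τ j (p : List E.Γ × ℕ), p.1.length ≤ x.length → ((clm C τ j p).getD []).length ≤
      if (τ, j) ∈ C.image Prod.snd then x.length else 0 := fun τ j p hp => by
    rw [clm]
    split_ifs with h1 h2
    exacts [hp, absurd (mem_image.2 ⟨_, h1.2, rfl⟩) h2, Nat.zero_le _, le_rfl]
  have k2 : ∑ τ ∈ range N, ∑ j, (if (τ, j) ∈ C.image Prod.snd then x.length else 0) ≤
      #C * x.length := by
    rw [← sum_product' (f := fun τ j => if (τ, j) ∈ C.image Prod.snd then x.length else 0),
      ← sum_filter, sum_const, smul_eq_mul]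
    exact Nat.mul_le_mul_right _ ((card_le_card fun p hp => (mem_filter.1 hp).2).trans
      card_image_le)
  calc _ ≤ ∑ τ ∈ range N, (1 + 2 * ∑ j, if (τ, j) ∈ C.image Prod.snd then x.length else 0) :=
        sum_le_sum fun τ _ => Nat.add_le_add_left (by
          rw [two_mul, ← sum_add_distrib]
          exact sum_le_sum fun j _ => Nat.add_le_add (k τ j _ (tr_sh hx τ j).1.le)
            (k τ j _ (tr_sh hx τ j).snd)) 1
    _ ≤ _ := by
      rw [sum_add_distrib, ← mul_sum, sum_const, card_range, smul_eq_mul, mul_one, mul_assoc]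
      omega

end Vs

open Vs in
theorem vs : VsStmt := by
  intro E x N P hx hH hS
  have hb : 0 < x.length := List.length_pos_iff.2 hx
  obtain ⟨C, -, c2, c3⟩ := hS _ (page hb N)
  have : ∀ d, ∃ A : Finset ℕ, (d < N → d ∈ A) ∧ (¬d < N → A = ∅) ∧ #A ≤ P ∧
      ∀ e ∈ gr E x N, e ∉ C → e.2.1 ∈ A → e.1 ∈ A := fun d => by
    by_cases h : d < N
    · obtain ⟨A, k1, k2, k3⟩ := c3 d h
      exact ⟨A, fun _ => k1, fun k => absurd h k, k2, k3⟩
    · exact ⟨∅, fun k => absurd k h, fun _ => rfl, Nat.zero_le _, fun _ _ _ k => absurd k (notMem_empty _)⟩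
  choose A a1 a2 a3 a4 using this
  set rows := (List.range N).map fun d => (List.range N).map fun τ => decide (τ ∈ A d) with hr
  have ab : ∀ d, ∀ τ < N, abit rows d τ = true ↔ τ ∈ A d := fun d τ h => by
    by_cases k : d < N
    · have := a1 d k
      simp only [abit, hr, List.getD_eq_getElem?_getD, List.getElem?_map, List.getElem?_range k,
        List.getElem?_range h, Option.map_some, Option.getD_some, Bool.or_eq_true,
        decide_eq_true_eq]
      exact ⟨fun m => m.elim id fun m => m ▸ this, Or.inl⟩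
    · have : rows.getD d [] = [] := List.getD_eq_default _ _ (by simp [hr]; omega)
      simp only [abit, this, a2 d k, List.getD_nil, Bool.false_or, decide_eq_true_eq, notMem_empty,
        iff_false]
      omega
  refine ⟨rows, (List.range' 0 N).map (rc x C), fun d => ?_, fun d => ?_, ?_⟩
  · obtain ⟨s, k1, k2, -⟩ := run_inv hb (a4 d) N 0 (abit rows d) _ (by omega)
      (fun i hi => by rw [ab d i hi, zero_add]) init_inv
    rw [SM.Halts, SM.outAt, tr_true hb] at hH
    rw [zero_add] at k2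
    simp only [ref, k1, k2, hH, ne_eq, not_true, decide_false]
  · rw [List.length_map, List.length_range']
    exact (card_le_card fun τ h =>
      (ab d τ (mem_range.1 (mem_filter.1 h).1)).1 (mem_filter.1 h).2).trans (a3 d)
  · have k1 := size_le hb C N
    have k2 : (rows.map fun l => l.length + 1).sum = N * (N + 1) := by
      simp [hr, Function.comp_def]
    have k3 := Nat.mul_le_mul_right x.length (Nat.mul_le_mul_left 2 c2)
    have k4 : (((List.range' 0 N).map (rc x C)).map Rec.size).sum =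
        ∑ τ ∈ range N, (rc x C τ).size := by
      rw [List.map_map, ← List.range_eq_range']
      rfl
    rw [vsize, k2, k4, mul_add N N 2, mul_add_one]
    omega

end Pool.Agent.MP_8c2300_lc.PP
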