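import Mathlib
import Pool.Agent.MP_8c2300_lc.pp.Num
import Pool.Agent.MP_8c2300_lc.pp.TmSm
import Pool.Agent.MP_8c2300_lc.pp.SmTm
import Pool.Agent.MP_8c2300_lc.pp.Rules
import Pool.Agent.MP_8c2300_lc.pp.UProg
import Pool.Agent.MP_8c2300_lc.pp.Vs
import Pool.Agent.MP_8c2300_lc.pp.Hole
import Pool.Agent.MP_8c2300_lc.pp.Epoch

namespace Pool.Agent.MP_8c2300_lc.LinearTimeGapOld

open Pool.Agent.MP_8c2300_lc.PP

/-- Some language accepted by a nondeterministic multi-tape Turing machine in linear time is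
accepted by no deterministic multi-tape Turing machine in time
`o(n sqrt(log log log log n))`. -/
theorem result : ∃ L : Set (List Bool),
    (∃ (M : TM) (c : ℕ), M.Bounded (fun n => c * n + c) ∧ ∀ x, M.Accepts x ↔ x ∈ L) ∧
    ∀ (M : TM) (t : ℕ → ℕ), M.Det → M.Bounded t → (∀ x, M.Accepts x ↔ x ∈ L) →
      ¬ (fun n : ℕ => (t n : ℝ)) =o[Filter.atTop]
        fun n : ℕ => (n : ℝ) * √(Real.log (Real.log (Real.log (Real.log n)))) :=
  main_of (tmsm compile) smtm (clock compile) (nprog compile) rules (uprog compile)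
    (vimpl compile) vc vs (seg (outer (core hole epoch path)))

end Pool.Agent.MP_8c2300_lc.LinearTimeGapOld
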