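import Mathlib.Data.Int.Star
import Mathlib.Algebra.Order.Ring.Star
import Pool.Agent.MP_8c2300_lc.pp.Spec

/-! PROJECT PPST, module UPROG, first part: stack primitives, execution of one field, and one
pass over the guess (a list of unary indices into a column of the table). -/

namespace Pool.Agent.MP_8c2300_lc.PP

namespace UP

open Function

/-- Stack symbols: bits, a bottom marker, compare / push instructions, end of field, check for
the marker, run a column. -/
inductive Sym : Type
  | bit (b : Bool)
  | mk
  | c (b : Bool)
  | p (b : Bool)
  | ef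
  | chk
  | run
  deriving DecidableEq, Fintype

/-- Stack names. -/
inductive St : Type
  | I | G | A | B | R | T | U
  deriving DecidableEq, Fintype

abbrev V : Type := Bool × Option Sym
abbrev P : Type := Prog St Sym V
abbrev Stk : Type := St → List Sym

/-- Stack contents given one by one. -/
def mkS (i g a b r t u : List Sym) : Stk
  | .I => i
  | .G => g
  | .A => a
  | .B => b
  | .R => r
  | .T => t
  | .U => u

section
variable (i g a b r t u l : List Sym)
@[simp] theorem mkS_I : mkS i g a b r t u .I = i := rfl
@[simp] theorem mkS_G : mkS i g a b r t u .G = g := rfl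
@[simp] theorem mkS_A : mkS i g a b r t u .A = a := rfl
@[simp] theorem mkS_B : mkS i g a b r t u .B = b := rfl
@[simp] theorem mkS_R : mkS i g a b r t u .R = r := rfl
@[simp] theorem mkS_T : mkS i g a b r t u .T = t := rfl
@[simp] theorem mkS_U : mkS i g a b r t u .U = u := rfl
@[simp] theorem up_I : update (mkS i g a b r t u) .I l = mkS l g a b r t u := by
  funext k; cases k <;> simp [update]
@[simp] theorem up_G : update (mkS i g a b r t u) .G l = mkS i l a b r t u := by
  funext k; cases k <;> simp [update]
@[simp] theorem up_A : update (mkS i g a b r t u) .A l = mkS i g l b r t u := by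
  funext k; cases k <;> simp [update]
@[simp] theorem up_B : update (mkS i g a b r t u) .B l = mkS i g a l r t u := by
  funext k; cases k <;> simp [update]
@[simp] theorem up_R : update (mkS i g a b r t u) .R l = mkS i g a b l t u := by
  funext k; cases k <;> simp [update]
@[simp] theorem up_T : update (mkS i g a b r t u) .T l = mkS i g a b r l u := by
  funext k; cases k <;> simp [update]
@[simp] theorem up_U : update (mkS i g a b r t u) .U l = mkS i g a b r t l := by
  funext k; cases k <;> simp [update]
end

theorem ecast {p : P} {σ σ' σ'' : V × Stk} {m n : ℕ} (h : Exec p σ σ' m) (e : σ' = σ'')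
    (hm : m ≤ n) : Exec p σ σ'' n := e ▸ h.weak hm

/-! ### Primitives -/

def popA (i : St) : P := .act fun v => .pop i fun o => (v.1, o)

def pushA (j : St) : P := .act fun v => match v.2 with
  | some s => .push j s v
  | none => .goto v

def pushC (j : St) (s : Sym) : P := .act fun v => .push j s v

def skip : P := .act fun v => .goto v

def lp (i : St) (body : P) : P := .loop (fun v => v.2 ≠ none) (.seq body (popA i))

def each (i : St) (body : P) : P := .seq (popA i) (lp i body)

/-- State after a pop. -/
def ld (i : St) (ok : Bool) (S : Stk) : V × Stk := ((ok, (S i).head?), update S i (S i).tail)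

theorem popA_ex (i : St) (ok : Bool) (a : Option Sym) (S : Stk) :
    Exec (popA i) ((ok, a), S) (ld i ok S) 1 := Exec.act _ _

theorem pushA_ex (j : St) (ok : Bool) (s : Sym) (S : Stk) :
    Exec (pushA j) ((ok, some s), S) ((ok, some s), update S j (s :: S j)) 1 := Exec.act _ _

theorem pushA_none (j : St) (ok : Bool) (S : Stk) :
    Exec (pushA j) ((ok, none), S) ((ok, none), S) 1 := Exec.act _ _

theorem pushC_ex (j : St) (s : Sym) (v : V) (S : Stk) :
    Exec (pushC j s) (v, S) (v, update S j (s :: S j)) 1 := Exec.act _ _

theorem skip_ex (σ : V × Stk) : Exec skip σ σ 1 := Exec.act _ _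

theorem ld_nil {i : St} {ok : Bool} {S : Stk} (h : S i = []) : ld i ok S = ((ok, none), S) := by
  unfold ld
  rw [h]
  simp only [List.head?_nil, List.tail_nil]
  rw [← h, update_eq_self]

theorem ld_cons {i : St} {ok : Bool} {S : Stk} {s : Sym} {l : List Sym} (h : S i = s :: l) :
    ld i ok S = ((ok, some s), update S i l) := by
  unfold ld
  rw [h]
  rfl

theorem lp_nil {i : St} {body : P} {ok : Bool} {S : Stk} (h : S i = []) :
    Exec (lp i body) (ld i ok S) ((ok, none), S) 1 := by
  rw [ld_nil h]
  exact Exec.loopF (by simp)

theorem lp_cons {i : St} {body : P} {ok ok' : Bool} {a' : Option Sym} {S S' : Stk} {s : Sym}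
    {l : List Sym} {σ : V × Stk} {m n : ℕ} (h : S i = s :: l)
    (h1 : Exec body ((ok, some s), update S i l) ((ok', a'), S') m)
    (h2 : Exec (lp i body) (ld i ok' S') σ n) :
    Exec (lp i body) (ld i ok S) σ (m + n + 2) := by
  rw [ld_cons h]
  exact (Exec.loopT (by simp) (h1.seq (popA_ex i ok' a' S')) h2).weak (by omega)

theorem lp_cons' {i : St} {body : P} {ok ok' : Bool} {a' : Option Sym} {S S0 S' : Stk} {s : Sym}
    {σ : V × Stk} {m n : ℕ} (h1 : Exec body ((ok, some s), S0) ((ok', a'), S') m)
    (h2 : Exec (lp i body) (ld i ok' S') σ n) (h : S i = s :: S0 i)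
    (e : update S i (S0 i) = S0) : Exec (lp i body) (ld i ok S) σ (m + n + 2) :=
  lp_cons h (by rw [e]; exact h1) h2

theorem each_ex {i : St} {body : P} {ok : Bool} {a : Option Sym} {S : Stk} {σ : V × Stk} {n : ℕ}
    (h : Exec (lp i body) (ld i ok S) σ n) : Exec (each i body) ((ok, a), S) σ (n + 1) :=
  ((popA_ex i ok a S).seq h).weak (by omega)

theorem mv_lp {i j : St} (hij : j ≠ i) (ok : Bool) (l : List Sym) : ∀ S : Stk, S i = l →
    Exec (lp i (pushA j)) (ld i ok S)
      ((ok, none), update (update S i []) j (l.reverse ++ S j)) (3 * l.length + 1) := by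
  induction l with
  | nil =>
    intro S h
    refine ecast (lp_nil h) ?_ (by simp)
    have e : update S i [] = S := by rw [← h, update_eq_self]
    rw [e]
    simp
  | cons s l ih =>
    intro S h
    refine ecast (lp_cons h (pushA_ex j ok s _) (ih _ ?_)) ?_ (by simp; omega)
    · simp [update_of_ne hij.symm]
    · simp only [update_self, update_of_ne hij, List.reverse_cons, List.append_assoc,
        List.singleton_append, Prod.mk.injEq, true_and]
      funext k
      by_cases h1 : k = j <;> by_cases h2 : k = i <;> simp [update, h1, h2]

theorem mv_ex {i j : St} (hij : j ≠ i) (ok : Bool) (a : Option Sym) (S : Stk) :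
    Exec (each i (pushA j)) ((ok, a), S)
      ((ok, none), update (update S i []) j ((S i).reverse ++ S j)) (3 * (S i).length + 2) :=
  each_ex (mv_lp hij ok _ S rfl)

theorem clear_lp (i : St) (ok : Bool) (l : List Sym) : ∀ S : Stk, S i = l →
    Exec (lp i skip) (ld i ok S) ((ok, none), update S i []) (3 * l.length + 1) := by
  induction l with
  | nil =>
    intro S h
    refine ecast (lp_nil h) ?_ (by simp)
    rw [← h, update_eq_self]
  | cons s l ih =>
    intro S h
    exact ecast (lp_cons h (skip_ex _) (ih _ (by simp))) (by simp) (by simp; omega)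

theorem clear_ex (i : St) (ok : Bool) (a : Option Sym) (S : Stk) :
    Exec (each i skip) ((ok, a), S) ((ok, none), update S i []) (3 * (S i).length + 2) :=
  each_ex (clear_lp i ok _ S rfl)

/-- Drop copies of `s` from the top. -/
def dropW (i : St) (s : Sym) : P := .loop (fun v => v.2 = some s) (popA i)

theorem dropW_ex (i : St) (s : Sym) (ok : Bool) (l : List Sym) (hl : l.head? ≠ some s) (p : ℕ) :
    ∀ S : Stk, S i = List.replicate p s ++ l →
      Exec (dropW i s) (ld i ok S) (ld i ok (update S i l)) (2 * p + 1) := by
  induction p with
  | zero =>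
    intro S h
    simp only [List.replicate_zero, List.nil_append] at h
    rw [← h, update_eq_self]
    exact Exec.loopF (by simpa [ld, h] using hl)
  | succ p ih =>
    intro S h
    rw [List.replicate_succ, List.cons_append] at h
    rw [ld_cons h]
    refine ecast (Exec.loopT rfl (popA_ex i ok _ _) (ih _ (by simp))) (by simp) (by omega)

/-! ### Fields -/

abbrev X : Type := Bool × List Sym

/-- Effect of one instruction on the flag and the work stack. -/
def exS (ex : Bool) (x : X) : Sym → X
  | .c b => if ex then (x.1 && decide (x.2.head? = some (.bit b)), x.2.tail) else x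
  | .p b => if ex then (x.1, .bit b :: x.2) else x
  | _ => x

def doS (ex : Bool) : P := .act fun v => match v.2 with
  | some (.c b) => if ex then .pop .B fun o => (v.1 && decide (o = some (.bit b)), v.2)
      else .goto v
  | some (.p b) => if ex then .push .B (.bit b) v else .goto v
  | _ => .goto v

def nxt : P := .act fun v =>
  if v.2 = some .ef then .goto (v.1, none) else .pop .T fun o => (v.1, o)

def fieldL (ex : Bool) : P :=
  .loop (fun v => v.2 ≠ none) (.seq (pushA .U) (.seq (doS ex) nxt))

def field (ex : Bool) : P := .seq (popA .T) (fieldL ex)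

theorem doS_ex (ex ok : Bool) (s : Sym) (i g a b r t u : List Sym) :
    Exec (doS ex) ((ok, some s), mkS i g a b r t u)
      (((exS ex (ok, b) s).1, some s), mkS i g a (exS ex (ok, b) s).2 r t u) 1 := by
  refine ecast (Exec.act _ _) ?_ le_rfl
  cases s <;> cases ex <;> simp [Act.run, exS]
  congr

theorem fieldL_ex (ex : Bool) (i g a r t : List Sym) (l : List Sym) (hl : Sym.ef ∉ l) :
    ∀ (x : X) (u : List Sym),
    Exec (fieldL ex) (ld .T x.1 (mkS i g a x.2 r (l ++ .ef :: t) u))
      (((l.foldl (exS ex) x).1, none),
        mkS i g a (l.foldl (exS ex) x).2 r t (.ef :: (l.reverse ++ u))) (4 * l.length + 5) := by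
  induction l with
  | nil =>
    intro x u
    rw [ld_cons (s := .ef) (l := t) (by simp)]
    simp only [up_T]
    have h1 := pushA_ex .U x.1 .ef (mkS i g a x.2 r t u)
    simp only [up_U, mkS_U] at h1
    have h2 := doS_ex ex x.1 .ef i g a x.2 r t (.ef :: u)
    have h3 : Exec nxt ((x.1, some .ef), mkS i g a x.2 r t (.ef :: u))
        ((x.1, none), mkS i g a x.2 r t (.ef :: u)) 1 :=
      ecast (Exec.act _ _) (by simp [Act.run]) le_rfl
    exact ecast (Exec.loopT (by simp) (h1.seq (h2.seq h3)) (Exec.loopF (by simp))) (by simp)
      (by simp)
  | cons s l ih =>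
    intro x u
    have hs : s ≠ .ef := fun h => hl (by simp [h])
    rw [ld_cons (s := s) (l := l ++ .ef :: t) (by simp)]
    simp only [up_T]
    have h1 := pushA_ex .U x.1 s (mkS i g a x.2 r (l ++ .ef :: t) u)
    simp only [up_U, mkS_U] at h1
    have h2 := doS_ex ex x.1 s i g a x.2 r (l ++ .ef :: t) (s :: u)
    have h3 : Exec nxt (((exS ex x s).1, some s),
        mkS i g a (exS ex x s).2 r (l ++ .ef :: t) (s :: u))
        (ld .T (exS ex x s).1 (mkS i g a (exS ex x s).2 r (l ++ .ef :: t) (s :: u))) 1 :=
      ecast (Exec.act _ _) (by simp [Act.run, hs, ld]) le_rfl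
    exact ecast (Exec.loopT (by simp) (h1.seq (h2.seq h3))
      (ih (fun h => hl (by simp [h])) (exS ex x s) (s :: u))) (by simp) (by simp; omega)

/-- Instructions of a field. -/
def ins (f : Field) : List Sym := f.1.map .c ++ f.2.reverse.map .p

/-- Code of a list of fields. -/
def cc (fs : List Field) : List Sym := fs.flatMap fun f => ins f ++ [.ef]

/-- Effect of a field. -/
def exF (x : X) (f : Field) : X := (ins f).foldl (exS true) x

theorem fold_false (l : List Sym) (x : X) : l.foldl (exS false) x = x := by
  induction l with
  | nil => rfl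
  | cons s l ih =>
    have : exS false x s = x := by cases s <;> simp [exS]
    rw [List.foldl_cons, this, ih]

theorem field_ex (ex : Bool) (i g a r u : List Sym) (a0 : Option Sym) (x y : X)
    (rest : List Field) (hy : y = if ex then exF x (rest.headD ([], [])) else x) :
    Exec (field ex) ((x.1, a0), mkS i g a x.2 r (cc rest) u)
      ((y.1, none), mkS i g a y.2 r (cc rest.tail) ((cc (rest.take 1)).reverse ++ u))
      (4 * (cc rest).length + 2) := by
  refine ((popA_ex .T x.1 a0 _).seq (?_ : Exec _ _ _ (4 * (cc rest).length + 1))).weak (by omega)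
  cases rest with
  | nil =>
    have e : y = x := by cases ex <;> simp [hy, exF, ins]
    rw [ld_nil (by simp [cc]), e]
    exact ecast (Exec.loopF (by simp)) (by simp [cc]) (by simp)
  | cons f rest =>
    have e : cc (f :: rest) = ins f ++ .ef :: cc rest := by simp [cc]
    have e2 : y = (ins f).foldl (exS ex) x := by cases ex <;> simp [hy, exF, fold_false]
    rw [e, e2]
    exact ecast (fieldL_ex ex i g a r (cc rest) (ins f) (by simp [ins]) x u) (by simp [cc])
      (by simp; omega)

/-! ### One pass over the guess -/

/-- Entries selected by a list of unary indices. -/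
def sel {α : Type} (d : α) (full : List α) : List Bool → List α → List α
  | [], _ => []
  | true :: g, rest => sel d full g rest.tail
  | false :: g, rest => rest.headD d :: sel d full g full

def pbody : P := .seq (pushA .A) (.ite (fun v => v.2 = some (.bit true)) (field false)
  (.seq (field true) (each .U (pushA .T))))

def pass : P := .seq (each .G pbody) (.seq (each .A (pushA .G))
  (.seq (each .T skip) (each .U skip)))

theorem cc_append (l l' : List Field) : cc (l ++ l') = cc l ++ cc l' := by simp [cc]

theorem take_tail (l : List Field) : l.take 1 ++ l.tail = l := by cases l <;> simp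

theorem pass_lp (full : List Field) (i r : List Sym) (g : List Bool) :
    ∀ (done rest : List Field) (x : X) (a : List Sym), done ++ rest = full →
      ∃ t u : List Sym, t.length + u.length = (cc full).length ∧
        Exec (lp .G pbody) (ld .G x.1 (mkS i (g.map .bit) a x.2 r (cc rest) (cc done).reverse))
          ((((sel ([], []) full g rest).foldl exF x).1, none),
            mkS i [] ((g.map .bit).reverse ++ a) ((sel ([], []) full g rest).foldl exF x).2 r t u)
          (g.length * (7 * (cc full).length + 8) + 1) := by
  induction g with
  | nil =>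
    intro done rest x a h
    refine ⟨cc rest, (cc done).reverse, by simp [← h, cc_append]; omega, ?_⟩
    exact ecast (lp_nil (by simp)) (by simp [sel]) (by simp)
  | cons b g ih =>
    intro done rest x a h
    have hlen : (cc done).length + (cc rest).length = (cc full).length := by
      simp [← h, cc_append]
    have h1 := pushA_ex .A x.1 (.bit b) (mkS i (g.map .bit) a x.2 r (cc rest) (cc done).reverse)
    simp only [up_A, mkS_A] at h1
    have e : (cc (rest.take 1)).reverse ++ (cc done).reverse =
        (cc (done ++ rest.take 1)).reverse := by simp [cc_append]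
    have hf : done ++ rest.take 1 ++ rest.tail = full := by
      rw [List.append_assoc, take_tail, h]
    cases b with
    | true =>
      have h2 := field_ex false i (g.map .bit) (.bit true :: a) r (cc done).reverse
        (some (.bit true)) x x rest (by simp)
      rw [e] at h2
      obtain ⟨t, u, htu, h3⟩ := ih (done ++ rest.take 1) rest.tail x (.bit true :: a) hf
      have hb : Exec pbody _ _ _ := h1.seq (Exec.iteT rfl h2)
      refine ⟨t, u, htu, ecast (lp_cons' hb h3 (by simp) (by simp)) (by simp [sel]) ?_⟩
      simp only [List.length_cons]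
      nlinarith
    | false =>
      have h2 := field_ex true i (g.map .bit) (.bit false :: a) r (cc done).reverse
        (some (.bit false)) x _ rest rfl
      rw [e] at h2
      simp only [if_true] at h2
      have h4 := mv_ex (i := .U) (j := .T) (by simp) (exF x (rest.headD ([], []))).1 none
        (mkS i (g.map .bit) (.bit false :: a) (exF x (rest.headD ([], []))).2 r (cc rest.tail)
          (cc (done ++ rest.take 1)).reverse)
      simp only [up_U, up_T, mkS_U, mkS_T, List.reverse_reverse, ← cc_append, hf,
        List.length_reverse] at h4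
      have hl2 : (cc (done ++ rest.take 1)).length ≤ (cc full).length := by
        rw [← hf, cc_append _ rest.tail]
        simp
      obtain ⟨t, u, htu, h3⟩ := ih [] full (exF x (rest.headD ([], []))) (.bit false :: a) rfl
      have hb : Exec pbody _ _ _ := h1.seq (Exec.iteF (by simp) (h2.seq h4))
      refine ⟨t, u, htu, ecast (lp_cons' hb h3 (by simp) (by simp)) (by simp [sel]) ?_⟩
      simp only [List.length_cons]
      nlinarith

theorem pass_ex (full : List Field) (i r : List Sym) (g : List Bool) (x : X) (a0 : Option Sym) :
    Exec pass ((x.1, a0), mkS i (g.map .bit) [] x.2 r (cc full) [])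
      ((((sel ([], []) full g full).foldl exF x).1, none),
        mkS i (g.map .bit) [] ((sel ([], []) full g full).foldl exF x).2 r [] [])
      ((g.length + 1) * (7 * (cc full).length + 11)) := by
  obtain ⟨t, u, htu, h1⟩ := pass_lp full i r g [] full x [] rfl
  set y := (sel ([], []) full g full).foldl exF x
  have h2 := mv_ex (i := .A) (j := .G) (by simp) y.1 none
    (mkS i [] ((g.map .bit).reverse ++ []) y.2 r t u)
  have h3 := clear_ex .T y.1 none (mkS i (g.map .bit) [] y.2 r t u)
  have h4 := clear_ex .U y.1 none (mkS i (g.map .bit) [] y.2 r [] u)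
  simp only [up_A, up_G, up_T, up_U, mkS_A, mkS_G, mkS_T, mkS_U, List.append_nil,
    List.reverse_reverse, List.length_reverse, List.length_map] at h1 h2 h3 h4
  refine ((each_ex h1).seq (h2.seq (h3.seq h4))).weak ?_
  nlinarith

end UP

end Pool.Agent.MP_8c2300_lc.PP
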