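import Pool.Agent.MP_8c2300_lc.pp.Lib

/-! PROJECT PPST, module VIMPL, part A: types and the slot procedure. -/

namespace Pool.Agent.MP_8c2300_lc.PP.VI

open Function

/-- Stacks of the verifier. -/
inductive St (ι : Type) : Type
  | y | g | k | k' | t | u | v | w | a | d
  | s (j : ι)
  | i (j : ι)
  deriving DecidableEq

instance {ι : Type} [Finite ι] : Finite (St ι) := by
  refine Finite.of_surjective (fun x : Fin 10 ⊕ ι ⊕ ι => (match x with
    | .inl n => ![.y, .g, .k, .k', .t, .u, .v, .w, .a, .d] n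
    | .inr (.inl j) => .s j
    | .inr (.inr j) => .i j : St ι)) fun x => ?_
  cases x
  exacts [⟨.inl 0, rfl⟩, ⟨.inl 1, rfl⟩, ⟨.inl 2, rfl⟩, ⟨.inl 3, rfl⟩, ⟨.inl 4, rfl⟩,
    ⟨.inl 5, rfl⟩, ⟨.inl 6, rfl⟩, ⟨.inl 7, rfl⟩, ⟨.inl 8, rfl⟩, ⟨.inl 9, rfl⟩,
    ⟨.inr (.inl _), rfl⟩, ⟨.inr (.inr _), rfl⟩]

/-- Alphabet of the verifier. -/
inductive Sy (E : SM) : Type
  | raw (b : Bool)
  | sym (γ : E.Γ)
  | fin | unk | zer | stop
  | hdr (q : E.Q) (mv : E.ι → Fin 3)

instance {E : SM} : Finite (Sy E) := by
  refine Finite.of_surjective (fun x : Fin 4 ⊕ Bool ⊕ E.Γ ⊕ (E.Q × (E.ι → Fin 3)) => (match x with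
    | .inl n => ![.fin, .unk, .zer, .stop] n
    | .inr (.inl b) => .raw b
    | .inr (.inr (.inl γ)) => .sym γ
    | .inr (.inr (.inr p)) => .hdr p.1 p.2 : Sy E)) fun x => ?_
  cases x
  exacts [⟨.inr (.inl _), rfl⟩, ⟨.inr (.inr (.inl _)), rfl⟩, ⟨.inl 0, rfl⟩, ⟨.inl 1, rfl⟩,
    ⟨.inl 2, rfl⟩, ⟨.inl 3, rfl⟩, ⟨.inr (.inr (.inr (_, _))), rfl⟩]

/-- Persistent control. -/
structure Ct (E : SM) where
  q : E.Q
  qe : E.Q
  mv : E.ι → Fin 3
  a : Bool
  bad : Prop

instance {E : SM} : Finite (Ct E) :=
  Finite.of_surjective (fun x : E.Q × E.Q × (E.ι → Fin 3) × Bool × Prop =>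
    (⟨x.1, x.2.1, x.2.2.1, x.2.2.2.1, x.2.2.2.2⟩ : Ct E))
    fun c => ⟨(c.q, c.qe, c.mv, c.a, c.bad), rfl⟩

/-- Raise the flag if `C` holds. -/
def Ct.orb {E : SM} (c : Ct E) (C : Prop) : Ct E := { c with bad := c.bad ∨ C }

@[simp] theorem Ct.orb_q {E : SM} (c : Ct E) (C : Prop) : (c.orb C).q = c.q := rfl
@[simp] theorem Ct.orb_qe {E : SM} (c : Ct E) (C : Prop) : (c.orb C).qe = c.qe := rfl
@[simp] theorem Ct.orb_mv {E : SM} (c : Ct E) (C : Prop) : (c.orb C).mv = c.mv := rfl
@[simp] theorem Ct.orb_a {E : SM} (c : Ct E) (C : Prop) : (c.orb C).a = c.a := rfl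
@[simp] theorem Ct.orb_bad {E : SM} (c : Ct E) (C : Prop) : (c.orb C).bad = (c.bad ∨ C) := rfl
@[simp] theorem Ct.orb_orb {E : SM} (c : Ct E) (C D : Prop) :
    (c.orb C).orb D = c.orb (C ∨ D) := by simp [Ct.orb, or_assoc]
@[simp] theorem Ct.orb_false {E : SM} (c : Ct E) : c.orb False = c := by simp [Ct.orb]
theorem Ct.orb_congr {E : SM} (c : Ct E) {C D : Prop} (h : C ↔ D) : c.orb C = c.orb D := by
  rw [propext h]

/-- Scratch control. -/
structure Scr (E : SM) (N : ℕ) where
  f : Prop
  r1 : Option (Sy E)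
  c : Fin (N + 1)

instance {E : SM} {N : ℕ} : Finite (Scr E N) :=
  Finite.of_surjective (fun x : Prop × Option (Sy E) × Fin (N + 1) =>
    (⟨x.1, x.2.1, x.2.2⟩ : Scr E N)) fun c => ⟨(c.f, c.r1, c.c), rfl⟩

variable {E : SM} {N : ℕ}

abbrev P (E : SM) (N : ℕ) : Type := Pr (St E.ι) (Sy E) (Ct E × Scr E N)

abbrev Stk (E : SM) : Type := St E.ι → List (Sy E)

/-- All stacks. -/
def mk (y g k k' t u v w a d : List (Sy E)) (s i : E.ι → List (Sy E)) : Stk E
  | .y => y
  | .g => g
  | .k => k
  | .k' => k'
  | .t => t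
  | .u => u
  | .v => v
  | .w => w
  | .a => a
  | .d => d
  | .s j => s j
  | .i j => i j

section mk

variable (y g k k' t u v w a d l : List (Sy E)) (s i : E.ι → List (Sy E)) (j : E.ι)

@[simp] theorem mk_y : mk y g k k' t u v w a d s i .y = y := rfl
@[simp] theorem mk_g : mk y g k k' t u v w a d s i .g = g := rfl
@[simp] theorem mk_k : mk y g k k' t u v w a d s i .k = k := rfl
@[simp] theorem mk_k' : mk y g k k' t u v w a d s i .k' = k' := rfl
@[simp] theorem mk_t : mk y g k k' t u v w a d s i .t = t := rfl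
@[simp] theorem mk_u : mk y g k k' t u v w a d s i .u = u := rfl
@[simp] theorem mk_v : mk y g k k' t u v w a d s i .v = v := rfl
@[simp] theorem mk_w : mk y g k k' t u v w a d s i .w = w := rfl
@[simp] theorem mk_a : mk y g k k' t u v w a d s i .a = a := rfl
@[simp] theorem mk_d : mk y g k k' t u v w a d s i .d = d := rfl
@[simp] theorem mk_s : mk y g k k' t u v w a d s i (.s j) = s j := rfl
@[simp] theorem mk_i : mk y g k k' t u v w a d s i (.i j) = i j := rfl

@[simp] theorem up_y : update (mk y g k k' t u v w a d s i) .y l = mk l g k k' t u v w a d s i := by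
  funext x; cases x <;> simp
@[simp] theorem up_g : update (mk y g k k' t u v w a d s i) .g l = mk y l k k' t u v w a d s i := by
  funext x; cases x <;> simp
@[simp] theorem up_k : update (mk y g k k' t u v w a d s i) .k l = mk y g l k' t u v w a d s i := by
  funext x; cases x <;> simp
@[simp] theorem up_k' : update (mk y g k k' t u v w a d s i) .k' l = mk y g k l t u v w a d s i := by
  funext x; cases x <;> simp
@[simp] theorem up_t : update (mk y g k k' t u v w a d s i) .t l = mk y g k k' l u v w a d s i := by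
  funext x; cases x <;> simp
@[simp] theorem up_u : update (mk y g k k' t u v w a d s i) .u l = mk y g k k' t l v w a d s i := by
  funext x; cases x <;> simp
@[simp] theorem up_v : update (mk y g k k' t u v w a d s i) .v l = mk y g k k' t u l w a d s i := by
  funext x; cases x <;> simp
@[simp] theorem up_w : update (mk y g k k' t u v w a d s i) .w l = mk y g k k' t u v l a d s i := by
  funext x; cases x <;> simp
@[simp] theorem up_a : update (mk y g k k' t u v w a d s i) .a l = mk y g k k' t u v w l d s i := by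
  funext x; cases x <;> simp
@[simp] theorem up_d : update (mk y g k k' t u v w a d s i) .d l = mk y g k k' t u v w a l s i := by
  funext x; cases x <;> simp
@[simp] theorem up_s : update (mk y g k k' t u v w a d s i) (.s j) l =
    mk y g k k' t u v w a d (update s j l) i := by
  funext x; cases x <;> simp [update_apply]
@[simp] theorem up_i : update (mk y g k k' t u v w a d s i) (.i j) l =
    mk y g k k' t u v w a d s (update i j l) := by
  funext x; cases x <;> simp [update_apply]

end mk

/-- Execution with the scratch control and the register hidden. -/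
def Run (p : P E N) (c : Ct E) (S : Stk E) (c' : Ct E) (S' : Stk E) (n : ℕ) : Prop :=
  ∀ sc r, ∃ sc' r', Exec p (((c, sc), r), S) (((c', sc'), r'), S') n

theorem Run.seq {p q : P E N} {c c' c'' : Ct E} {S S' S'' : Stk E} {m n : ℕ}
    (h : Run p c S c' S' m) (h' : Run q c' S' c'' S'' n) : Run (.seq p q) c S c'' S'' (m + n) := by
  intro sc r
  obtain ⟨sc1, r1, h1⟩ := h sc r
  obtain ⟨sc2, r2, h2⟩ := h' sc1 r1
  exact ⟨sc2, r2, h1.seq h2⟩

theorem Run.of_eq {p : P E N} {c c' c'' : Ct E} {S S' S'' : Stk E} {m n : ℕ}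
    (h : Run p c S c' S' m) (hc : c' = c'') (hS : S' = S'') (hm : m ≤ n) :
    Run p c S c'' S'' n := by
  subst hc hS
  intro sc r
  obtain ⟨sc1, r1, h1⟩ := h sc r
  exact ⟨sc1, r1, h1.weak hm⟩

theorem Run.iteT {p q : P E N} {C : Ct E → Prop} {c c' : Ct E} {S S' : Stk E} {n : ℕ}
    (hc : C c) (h : Run p c S c' S' n) : Run (.ite (fun v => C v.1.1) p q) c S c' S' (n + 1) := by
  intro sc r
  obtain ⟨sc1, r1, h1⟩ := h sc r
  exact ⟨sc1, r1, Exec.iteT hc h1⟩

theorem Run.iteF {p q : P E N} {C : Ct E → Prop} {c c' : Ct E} {S S' : Stk E} {n : ℕ}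
    (hc : ¬ C c) (h : Run q c S c' S' n) : Run (.ite (fun v => C v.1.1) p q) c S c' S' (n + 1) := by
  intro sc r
  obtain ⟨sc1, r1, h1⟩ := h sc r
  exact ⟨sc1, r1, Exec.iteF hc h1⟩

theorem run_skip (c : Ct E) (S : Stk E) : Run (skip : P E N) c S c S 1 :=
  fun sc r => ⟨sc, r, exec_skip _⟩

theorem run_mv {i j : St E.ι} (hij : i ≠ j) (c : Ct E) (S : Stk E) :
    Run (mv i j : P E N) c S c (update (update S i []) j ((S i).reverse ++ S j))
      (3 * (S i).length + 2) :=
  fun sc r => ⟨sc, none, exec_mv hij _ r S⟩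

theorem run_clear (i : St E.ι) (c : Ct E) (S : Stk E) :
    Run (clear i : P E N) c S c (update S i []) (3 * (S i).length + 2) :=
  fun sc r => ⟨sc, none, exec_clear i _ r S⟩

theorem run_pushL (i : St E.ι) (l : List (Sy E)) (c : Ct E) (S : Stk E) :
    Run (pushL i l : P E N) c S c (update S i (l ++ S i)) (l.length + 1) :=
  fun sc r => ⟨sc, r, exec_pushL i l _ S⟩

/-- Change the persistent control. -/
def setC (f : Ct E → Scr E N → Option (Sy E) → Ct E) : P E N :=
  setV fun v => ((f v.1.1 v.1.2 v.2, v.1.2), v.2)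

/-- Change the scratch control. -/
def setS (f : Scr E N → Option (Sy E) → Scr E N) : P E N :=
  setV fun v => ((v.1.1, f v.1.2 v.2), v.2)

theorem exec_setC (f : Ct E → Scr E N → Option (Sy E) → Ct E) (c : Ct E) (sc : Scr E N)
    (r : Option (Sy E)) (S : Stk E) :
    Exec (setC f) (((c, sc), r), S) (((f c sc r, sc), r), S) 1 :=
  exec_setV _ _ _

theorem exec_setS (f : Scr E N → Option (Sy E) → Scr E N) (c : Ct E) (sc : Scr E N)
    (r : Option (Sy E)) (S : Stk E) :
    Exec (setS f) (((c, sc), r), S) (((c, f sc r), r), S) 1 :=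
  exec_setV _ _ _

/-- Raise the flag `bad` if `C` holds. -/
def orBad (C : Ct E → Scr E N → Option (Sy E) → Prop) : P E N :=
  setC fun c sc r => c.orb (C c sc r)

/-! ### Encodings -/

def isSym : Sy E → Prop
  | .sym _ => True
  | _ => False

def encI : Item E.Γ → List (Sy E)
  | .unk => [.unk]
  | .zer => [.zer]
  | .full l => l.map .sym ++ [.fin]

def encIs (l : List (Item E.Γ)) : List (Sy E) := l.flatMap encI

open Classical in
/-- Reading one claim `c` from the stream `s` leaves `s'`. -/
def Cl1 (s : List (Sy E)) (c : Option (List E.Γ)) (s' : List (Sy E)) : Prop :=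
  ∃ (l : List E.Γ) (tl : List (Sy E)), s = l.map .sym ++ tl ∧
    (∀ γ, tl.head? = some γ → ¬ isSym γ) ∧ s' = tl.tail ∧
    c = if tl.head? = some .unk then none else some l

/-- The word a slot contributes. -/
def cont (b : ℕ) (a : Bool) : Item E.Γ → Option (List E.Γ) → List E.Γ
  | .unk, c => c.getD []
  | .zer, _ => if a = true then E.zeros b else []
  | .full l, _ => l

theorem cont_true (b : ℕ) (it : Item E.Γ) (c : Option (List E.Γ)) :
    cont b true it c = (it.val (E.zeros b) c).getD [] := by
  cases it <;> simp [cont, Item.val]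

/-- The slot is refuted. -/
def badS (b : ℕ) (a : Bool) (it : Item E.Γ) (c : Option (List E.Γ)) : Prop :=
  ¬ it.Ok c ∨ (a = true ∧ it.val (E.zeros b) c = none)

/-- `b` if the block is simulated, else `0`. -/
def ab (a : Bool) (b : ℕ) : ℕ := if a = true then b else 0

/-- Tokens. -/
def toks (E : SM) (b : ℕ) : List (Sy E) := List.replicate b .stop

/-! ### Comparison -/

def cmpBody : P E N :=
  .seq (setS fun sc r => { sc with r1 := r }) (.seq (pushReg .w id) (.seq (pop .u)
    (orBad fun _ sc r => ¬ sc.f ∧ r ≠ sc.r1)))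

def cmpP : P E N :=
  .seq (whileP .v (fun _ => True) cmpBody) (.seq (pop .u)
    (.seq (orBad fun _ sc r => ¬ sc.f ∧ r ≠ none) (clear .u)))

theorem exec_cmpP (y g k k' t a d : List (Sy E)) (s i : E.ι → List (Sy E)) (f : Prop)
    (cc : Fin (N + 1)) (v : List (Sy E)) : ∀ (u w : List (Sy E)) (c : Ct E)
    (r1 r : Option (Sy E)), ∃ r1', Exec (cmpP : P E N)
      (((c, ⟨f, r1, cc⟩), r), mk y g k k' t u v w a d s i)
      (((c.orb (¬ f ∧ u ≠ v), ⟨f, r1', cc⟩), none),
        mk y g k k' t [] [] (v.reverse ++ w) a d s i) (6 * v.length + 3 * u.length + 6) := by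
  have key : ∀ (v u w : List (Sy E)) (c : Ct E) (r1 r : Option (Sy E)), ∃ r1',
      Exec (whileP .v (fun _ => True) (cmpBody : P E N))
        (((c, ⟨f, r1, cc⟩), r), mk y g k k' t u v w a d s i)
        (((c.orb (¬ f ∧ u.take v.length ≠ v), ⟨f, r1', cc⟩), none),
          mk y g k k' t (u.drop v.length) [] (v.reverse ++ w) a d s i) (6 * v.length + 2) := by
    intro v
    induction v with
    | nil =>
      intro u w c r1 r
      exact ⟨r1, (whileP_stop _ _ _ _ r _ (by simp)).of_eq (by simp) (by simp)⟩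
    | cons x v ih =>
      intro u w c r1 r
      obtain ⟨r1', h⟩ := ih u.tail (x :: w)
        (c.orb (¬ f ∧ u.head? ≠ some x)) (some x) u.head?
      refine ⟨r1', (whileP_cons (i := St.v) (r := r) (γ := x) (l := v) (m := 4) rfl trivial ?_ h).of_eq ?_
        (by simp; omega)⟩
      · exact ((exec_setS _ _ _ _ _).seq ((exec_pushReg _ _ _ _ _).seq ((exec_pop _ _ _ _).seq
          (exec_setC _ _ _ _ _)))).of_eq (by simp) le_rfl
      · cases u with
        | nil => simpa using c.orb_congr (by tauto)
        | cons z u =>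
          simp only [List.tail_cons, List.head?_cons, List.length_cons, List.take_succ_cons,
            List.drop_succ_cons, List.reverse_cons, List.append_assoc, List.singleton_append,
            ne_eq, Option.some.injEq, List.cons.injEq, Prod.mk.injEq, Ct.orb_orb, and_true]
          exact c.orb_congr (by tauto)
  intro u w c r1 r
  obtain ⟨r1', h⟩ := key v u w c r1 r
  refine ⟨r1', (h.seq ((exec_pop _ _ _ _).seq ((exec_setC _ _ _ _ _).seq
    (exec_clear _ _ _ _)))).of_eq ?_ (by simp; omega)⟩
  have e : u = v ↔ u.take v.length = v ∧ u.length ≤ v.length := by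
    constructor
    · rintro rfl; simp
    · rintro ⟨h1, h2⟩; rwa [List.take_of_length_le h2] at h1
  simp only [mk_u, up_u, ne_eq, List.head?_eq_none_iff, List.drop_eq_nil_iff, Prod.mk.injEq,
    Ct.orb_orb, and_true, e]
  exact c.orb_congr (by tauto)

/-! ### One slot -/

def unkP : P E N :=
  .seq (.ite (fun v => v.1.2.f) (.seq (orBad fun c _ _ => c.a = true) (clear .u)) skip)
    (.seq (mv .u .v) (mv .v .t))

def zerP : P E N :=
  .seq (orBad fun _ sc _ => ¬ sc.f) (.seq (clear .u)
    (.ite (fun v => v.1.1.a = true) (timesP .k .k' .stop (push .t (.sym (E.inp false)))) skip))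

def brP : P E N :=
  .ite (fun v => v.2 = some .unk) unkP
    (.ite (fun v => v.2 = some .zer) zerP (.seq cmpP (mv .w .t)))

def slot (j : E.ι) : P E N :=
  .seq (mvW .y .u isSym id) (.seq (setS fun sc r => { sc with f := r = some .unk })
    (.seq (mvW (.i j) .v isSym id) brP))

theorem isSym_map (l : List E.Γ) : ∀ γ ∈ l.map (Sy.sym (E := E)), isSym γ := by
  intro γ h
  obtain ⟨x, -, rfl⟩ := List.mem_map.1 h
  trivial

theorem slot_pre (j : E.ι) (g k t a d tl e : List (Sy E)) (s i : E.ι → List (Sy E))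
    (l l' : List E.Γ) (c : Ct E) (sc : Scr E N) (r : Option (Sy E))
    (h1 : ∀ γ, tl.head? = some γ → ¬ isSym γ) (h2 : ∀ γ, e.head? = some γ → ¬ isSym γ)
    (hi : i j = l'.map .sym ++ e) {σ : ((Ct E × Scr E N) × Option (Sy E)) × Stk E} {n : ℕ}
    (h : Exec brP (((c, ⟨tl.head? = some .unk, sc.r1, sc.c⟩), e.head?),
      mk tl.tail g k [] t (l.map .sym).reverse (l'.map .sym).reverse [] a d s
        (update i j e.tail)) σ n) :
    Exec (slot j) (((c, sc), r), mk (l.map .sym ++ tl) g k [] t [] [] [] a d s i) σ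
      (3 * l.length + 3 * l'.length + 5 + n) := by
  have a1 := exec_mvW (W := Ct E × Scr E N) (i := St.y) (j := .u) (by simp) isSym id _ tl (c, sc)
    r (mk (l.map .sym ++ tl) g k [] t [] [] [] a d s i) rfl (isSym_map l) h1
  have a2 := exec_mvW (W := Ct E × Scr E N) (i := St.i j) (j := .v) (by simp) isSym id _ e
    (c, ⟨tl.head? = some .unk, sc.r1, sc.c⟩) tl.head?
    (mk tl.tail g k [] t (l.map .sym).reverse [] [] a d s i) hi (isSym_map l') h2
  simp only [up_y, up_u, up_i, up_v, mk_u, mk_v, List.map_id, List.append_nil,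
    List.length_map] at a1 a2
  exact (a1.seq ((exec_setS _ _ _ _ _).seq (a2.seq h))).weak (by omega)

theorem run_slot (j : E.ι) (b : ℕ) (y y' g t a d : List (Sy E)) (s i : E.ι → List (Sy E))
    (its : List (Item E.Γ)) (cl : Option (List E.Γ)) (c : Ct E) (hy : Cl1 y cl y')
    (hi : i j = encIs its) :
    ∃ n, Run (slot j : P E N) c (mk y g (toks E b) [] t [] [] [] a d s i)
      (c.orb (badS b c.a (its.headD (.full [])) cl))
      (mk y' g (toks E b) [] (((cont b c.a (its.headD (.full [])) cl).map .sym).reverse ++ t)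
        [] [] [] a d s (update i j (encIs its.tail))) n ∧
      n + 12 * y'.length + 12 * (encIs its.tail).length ≤
        12 * y.length + 12 * (encIs its).length + 7 * ab c.a b + 20 := by
  classical
  obtain ⟨l, tl, rfl, h1, rfl, rfl⟩ := hy
  have htl : tl.tail.length ≤ tl.length := by simp
  have full : ∀ (l' : List E.Γ) (e : List (Sy E)), i j = l'.map .sym ++ e →
      (e.head? = none ∨ e.head? = some .fin) →
      Run (slot j : P E N) c (mk (l.map .sym ++ tl) g (toks E b) [] t [] [] [] a d s i)
        (c.orb (badS b c.a (.full l') (if tl.head? = some .unk then none else some l)))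
        (mk tl.tail g (toks E b) [] ((l'.map .sym).reverse ++ t) [] [] [] a d s
          (update i j e.tail)) (6 * l.length + 12 * l'.length + 15) := by
    intro l' e he1 he2 sc r
    obtain ⟨r1', a3⟩ := exec_cmpP (N := N) tl.tail g (toks E b) [] t a d s (update i j e.tail)
      (tl.head? = some .unk) sc.c (l'.map .sym).reverse (l.map .sym).reverse [] c sc.r1 e.head?
    refine ⟨⟨tl.head? = some .unk, r1', sc.c⟩, none,
      (slot_pre j g _ t a d tl e s i l l' c sc r h1
        (by rcases he2 with h | h <;> simp [h, isSym]) he1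
        (Exec.iteF (by rcases he2 with h | h <;> simp [h])
          (Exec.iteF (by rcases he2 with h | h <;> simp [h])
            (a3.seq (exec_mv (by simp) _ _ _))))).of_eq ?_ (by simp; omega)⟩
    have e1 : List.map (Sy.sym (E := E)) l = List.map Sy.sym l' ↔ l = l' :=
      (List.map_injective_iff.2 fun _ _ h => by injection h).eq_iff
    by_cases hu : tl.head? = some .unk <;> simp [hu, badS, Item.Ok, Item.val, e1]
  cases its with
  | nil =>
    refine ⟨_, (full [] [] (by simpa [encIs] using hi) (by simp)).of_eq rfl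
      (by simp [cont, encIs]) le_rfl, by simp [encIs]; omega⟩
  | cons it its =>
    cases it with
    | full l' =>
      refine ⟨_, (full l' (.fin :: encIs its) (by simpa [encIs, encI] using hi) (by simp)).of_eq
        rfl (by simp [cont]) le_rfl, by simp [encIs, encI]; omega⟩
    | unk =>
      refine ⟨12 * l.length + 20, fun sc r => ?_, by simp [encIs, encI]; omega⟩
      by_cases hu : tl.head? = some .unk
      · refine ⟨⟨tl.head? = some .unk, sc.r1, sc.c⟩, none,
          (slot_pre j g _ t a d tl (.unk :: encIs its) s i l [] c sc r h1 (by simp [isSym])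
            (by simpa [encIs, encI] using hi) (Exec.iteT rfl
              ((Exec.iteT hu ((exec_setC _ _ _ _ _).seq (exec_clear _ _ _ _))).seq
                ((exec_mv (by simp) _ _ _).seq (exec_mv (by simp) _ _ _))))).of_eq ?_
          (by simp; omega)⟩
        simp [hu, badS, Item.Ok, Item.val, cont]
      · refine ⟨⟨tl.head? = some .unk, sc.r1, sc.c⟩, none,
          (slot_pre j g _ t a d tl (.unk :: encIs its) s i l [] c sc r h1 (by simp [isSym])
            (by simpa [encIs, encI] using hi) (Exec.iteT rfl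
              ((Exec.iteF hu (exec_skip _)).seq
                ((exec_mv (by simp) _ _ _).seq (exec_mv (by simp) _ _ _))))).of_eq ?_
          (by simp; omega)⟩
        simp [hu, badS, Item.Ok, Item.val, cont]
    | zer =>
      refine ⟨6 * l.length + 7 * ab c.a b + 20, fun sc r => ?_,
        by simp [encIs, encI]; omega⟩
      have a2 := exec_clear (W := Ct E × Scr E N) St.u
        (c.orb (¬ tl.head? = some .unk), ⟨tl.head? = some .unk, sc.r1, sc.c⟩) (some .zer)
        (mk tl.tail g (toks E b) [] t (l.map .sym).reverse [] [] a d s (update i j (encIs its)))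
      simp only [up_u, mk_u, List.length_reverse, List.length_map] at a2
      by_cases ha : c.a = true
      · have a3 := exec_timesP (W := Ct E × Scr E N) (k := St.k) (k' := .k') (by simp) .stop
          (push .t (.sym (E.inp false))) 1 b
          (fun n => ((c.orb (¬ tl.head? = some .unk), ⟨tl.head? = some .unk, sc.r1, sc.c⟩),
            mk tl.tail g [] [] (List.replicate n (.sym (E.inp false)) ++ t) [] [] [] a d s
              (update i j (encIs its))))
          (fun n _ l1 l2 r => ⟨r, (exec_push _ _ _ _).of_eq (by simp [List.replicate_succ])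
            le_rfl⟩) none
        simp only [up_k, up_k', List.replicate_zero, List.nil_append] at a3
        refine ⟨⟨tl.head? = some .unk, sc.r1, sc.c⟩, none,
          (slot_pre j g _ t a d tl (.zer :: encIs its) s i l [] c sc r h1 (by simp [isSym])
            (by simpa [encIs, encI] using hi) (Exec.iteF (by simp) (Exec.iteT rfl
              ((exec_setC _ _ _ _ _).seq (a2.seq (Exec.iteT ha a3)))))).of_eq ?_
          (by simp [ha, ab]; omega)⟩
        by_cases hu : tl.head? = some .unk <;>
          simp [hu, ha, badS, Item.Ok, Item.val, cont, SM.zeros, toks]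
      · refine ⟨⟨tl.head? = some .unk, sc.r1, sc.c⟩, none,
          (slot_pre j g _ t a d tl (.zer :: encIs its) s i l [] c sc r h1 (by simp [isSym])
            (by simpa [encIs, encI] using hi) (Exec.iteF (by simp) (Exec.iteT rfl
              ((exec_setC _ _ _ _ _).seq (a2.seq (Exec.iteF ha (exec_skip _))))))).of_eq ?_
          (by simp; omega)⟩
        by_cases hu : tl.head? = some .unk <;>
          simp [hu, ha, badS, Item.Ok, Item.val, cont]

end Pool.Agent.MP_8c2300_lc.PP.VI
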