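import Pool.Agent.MP_8c2300_lc.pp.VImplA

/-! PROJECT PPST, module VIMPL, part B: one record. -/

namespace Pool.Agent.MP_8c2300_lc.PP.VI

open Function

variable {E : SM} {N : ℕ}

/-! ### The two slots of every stack -/

def slots (j : E.ι) : P E N :=
  .seq (slot j) (.seq (slot j) (.ite (fun v => v.1.1.a = true) (mv .t (.s j)) (clear .t)))

/-- Reading the claims for the stacks of a list. -/
def Cl (cp cb : E.ι → Option (List E.Γ)) : List E.ι → List (Sy E) → List (Sy E) → Prop
  | [], s, s' => s' = s
  | j :: l, s, s'' => ∃ s1 s', Cl1 s (cp j) s1 ∧ Cl1 s1 (cb j) s' ∧ Cl cp cb l s' s''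

def con2 (b : ℕ) (a : Bool) (its : List (Item E.Γ)) (cp cb : Option (List E.Γ)) : List E.Γ :=
  cont b a (its.headD (.full [])) cp ++ cont b a (its.tail.headD (.full [])) cb

def bad2 (b : ℕ) (a : Bool) (its : List (Item E.Γ)) (cp cb : Option (List E.Γ)) : Prop :=
  badS b a (its.headD (.full [])) cp ∨ badS b a (its.tail.headD (.full [])) cb

def sel (a : Bool) (l : List (Sy E)) : List (Sy E) := if a = true then l else []

theorem cont_len (b : ℕ) (a : Bool) (its : List (Item E.Γ)) {y y' : List (Sy E)}
    {cl : Option (List E.Γ)} (h : Cl1 y cl y') :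
    (cont b a (its.headD (.full [])) cl).length + y'.length + (encIs its.tail).length ≤
      y.length + (encIs its).length + ab a b := by
  obtain ⟨l, tl, rfl, -, rfl, rfl⟩ := h
  cases its with
  | nil => simp [cont, encIs]; omega
  | cons it its =>
    cases it with
    | full l' => simp [cont, encIs, encI]; omega
    | unk => simp only [cont, List.headD_cons]; split_ifs <;> simp [encIs, encI] <;> omega
    | zer => cases a <;> simp [cont, encIs, encI, SM.zeros, ab] <;> omega

theorem run_slots (j : E.ι) (b : ℕ) (y y1 y' g a d : List (Sy E)) (s i : E.ι → List (Sy E))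
    (its : List (Item E.Γ)) (cp cb : Option (List E.Γ)) (c : Ct E) (h1 : Cl1 y cp y1)
    (h2 : Cl1 y1 cb y') (hi : i j = encIs its) (hs : s j = []) :
    ∃ n, Run (slots j : P E N) c (mk y g (toks E b) [] [] [] [] [] a d s i)
      (c.orb (bad2 b c.a its cp cb))
      (mk y' g (toks E b) [] [] [] [] [] a d
        (update s j (sel c.a ((con2 b c.a its cp cb).map .sym)))
        (update i j (encIs (its.drop 2)))) n ∧
      n + 30 * y'.length + 30 * (encIs (its.drop 2)).length ≤
        30 * y.length + 30 * (encIs its).length + (20 * ab c.a b + 50) ∧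
      (con2 b c.a its cp cb).length + y'.length + (encIs (its.drop 2)).length ≤
        y.length + (encIs its).length + 2 * ab c.a b := by
  obtain ⟨n1, a1, a2⟩ := run_slot (N := N) j b y y1 g [] a d s i its cp c h1 hi
  obtain ⟨n2, a3, a4⟩ := run_slot (N := N) j b y1 y' g
    (((cont b c.a (its.headD (.full [])) cp).map .sym).reverse ++ []) a d s
    (update i j (encIs its.tail)) its.tail cb
    (c.orb (badS b c.a (its.headD (.full [])) cp)) h2 (by simp)
  have l1 := cont_len b c.a its h1
  have l2 := cont_len b c.a its.tail h2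
  have e : its.tail.tail = its.drop 2 := by
    rcases its with _ | ⟨_, _ | _⟩ <;> simp
  simp only [Ct.orb_a, e] at a3 a4 l2
  have l3 : (con2 b c.a its cp cb).length + y'.length + (encIs (its.drop 2)).length ≤
      y.length + (encIs its).length + 2 * ab c.a b := by
    rw [con2, List.length_append]; omega
  have l4 : y'.length + (encIs (its.drop 2)).length ≤ y.length + (encIs its).length := by
    obtain ⟨l, tl, rfl, -, rfl, -⟩ := h1
    obtain ⟨l', tl', h3, -, rfl, -⟩ := h2
    have := congrArg List.length h3
    have e2 : (encIs (its.drop 2)).length ≤ (encIs its).length := by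
      conv_rhs => rw [← List.take_append_drop 2 its, encIs, List.flatMap_append]
      rw [List.length_append]; exact Nat.le_add_left _ _
    simp at this ⊢; omega
  by_cases ha : c.a = true
  · refine ⟨_, (a1.seq (a3.seq (Run.iteT (C := fun c => c.a = true) ha
      (run_mv (by simp) _ _)))).of_eq (by simp [bad2]) (by simp [ha, con2, hs, sel]) le_rfl, ?_, l3⟩
    simp only [con2, List.length_append] at l3
    simp only [mk_t, List.length_append, List.length_reverse, List.length_map, List.length_nil]
    omega
  · refine ⟨_, (a1.seq (a3.seq (Run.iteF (C := fun c => c.a = true) ha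
      (run_clear _ _ _)))).of_eq (by simp [bad2]) (by simp [ha, ← hs, sel]) le_rfl, ?_, l3⟩
    simp only [con2, List.length_append] at l3
    simp only [mk_t, List.length_append, List.length_reverse, List.length_map, List.length_nil]
    omega

theorem run_slotsL (b : ℕ) (g a d : List (Sy E)) (cp cb : E.ι → Option (List E.Γ))
    (l : List E.ι) (hl : l.Nodup) : ∀ (y y' : List (Sy E)) (s : E.ι → List (Sy E))
    (its : E.ι → List (Item E.Γ)) (c : Ct E), Cl cp cb l y y' → (∀ j ∈ l, s j = []) →
    ∃ n, Run (forL slots l : P E N) c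
      (mk y g (toks E b) [] [] [] [] [] a d s fun j => encIs (its j))
      (c.orb (∃ j ∈ l, bad2 b c.a (its j) (cp j) (cb j)))
      (mk y' g (toks E b) [] [] [] [] [] a d
        (fun j => if j ∈ l then
          (sel c.a ((con2 b c.a (its j) (cp j) (cb j)).map .sym)) else s j)
        fun j => encIs (if j ∈ l then (its j).drop 2 else its j)) n ∧
      n + 30 * y'.length + 30 * (l.map fun j => (encIs ((its j).drop 2)).length).sum ≤
        30 * y.length + 30 * (l.map fun j => (encIs (its j)).length).sum +
          l.length * (20 * ab c.a b + 50) + 1 ∧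
      (l.map fun j => (con2 b c.a (its j) (cp j) (cb j)).length).sum + y'.length +
          (l.map fun j => (encIs ((its j).drop 2)).length).sum ≤
        y.length + (l.map fun j => (encIs (its j)).length).sum +
          l.length * (2 * ab c.a b) := by
  induction l with
  | nil =>
    intro y y' s its c h _
    obtain rfl : y' = y := h
    exact ⟨1, (run_skip _ _).of_eq (by simp) (by simp) le_rfl, by simp; omega, by simp⟩
  | cons j l ih =>
    intro y y' s its c h hs
    obtain ⟨y1, y2, h1, h2, h3⟩ := h
    obtain ⟨hj, hl'⟩ := List.nodup_cons.1 hl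
    obtain ⟨n1, a1, a2, a3⟩ := run_slots (N := N) j b y y1 y2 g a d s (fun j => encIs (its j))
      (its j) (cp j) (cb j) c h1 h2 rfl (hs j (by simp))
    have hne : ∀ j' ∈ l, j' ≠ j := fun j' h e => hj (e ▸ h)
    obtain ⟨n2, a4, a5, a6⟩ := ih hl' y2 y'
      (update s j (sel c.a ((con2 b c.a (its j) (cp j) (cb j)).map .sym)))
      (update its j ((its j).drop 2)) (c.orb (bad2 b c.a (its j) (cp j) (cb j))) h3
      fun j' h => by rw [update_of_ne (hne j' h)]; exact hs j' (by simp [h])
    have e : ∀ (f : E.ι → List (Item E.Γ) → ℕ),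
        (l.map fun j' => f j' (update its j ((its j).drop 2) j')) = l.map fun j' => f j' (its j') :=
      fun f => List.map_congr_left fun j' h => by rw [update_of_ne (hne j' h)]
    have e1 : (update (fun j => encIs (its j)) j (encIs ((its j).drop 2))) =
        fun j' => encIs (update its j ((its j).drop 2) j') := by
      funext j'
      by_cases h : j' = j
      · subst h; simp
      · simp [update_of_ne h]
    rw [e1] at a1
    simp only [Ct.orb_a] at a4 a5 a6
    rw [e fun _ x => (encIs (x.drop 2)).length, e fun _ x => (encIs x).length] at a5 a6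
    rw [e fun j' x => (con2 b c.a x (cp j') (cb j')).length] at a6
    refine ⟨n1 + n2, (a1.seq a4).of_eq ?_ ?_ le_rfl, ?_, ?_⟩
    · rw [Ct.orb_orb]
      refine c.orb_congr ?_
      simp only [List.mem_cons, exists_eq_or_imp]
      refine or_congr Iff.rfl (exists_congr fun j' => and_congr_right fun h => ?_)
      rw [update_of_ne (hne j' h)]
    · congr 1
      · funext j'
        by_cases h : j' = j
        · subst h; simp [hj]
        · simp [h]
      · funext j'
        by_cases h : j' = j
        · subst h; simp [hj]
        · simp [h]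
    · simp only [List.map_cons, List.sum_cons, List.length_cons, add_one_mul]; omega
    · simp only [List.map_cons, List.sum_cons, List.length_cons, add_one_mul]; omega

/-! ### Cutting a word into blocks -/

def blk (j : E.ι) : P E N :=
  .seq (setS fun sc _ => { sc with f := False }) (.seq (push (.i j) .fin)
    (timesP .k .k' .stop (.seq (pop .t) (.seq (setS fun sc r => { sc with f := sc.f ∨ r = none })
      (pushReg (.i j) id)))))

theorem exec_blk (j : E.ι) (b : ℕ) (y g t a d : List (Sy E)) (s i : E.ι → List (Sy E))
    (c : Ct E) (sc : Scr E N) (r : Option (Sy E)) :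
    Exec (blk j) (((c, sc), r), mk y g (toks E b) [] t [] [] [] a d s i)
      (((c, ⟨t.length < b, sc.r1, sc.c⟩), none), mk y g (toks E b) [] (t.drop b) [] [] [] a d s
        (update i j ((t.take b).reverse ++ .fin :: i j))) (9 * b + 6) := by
  have a3 := exec_timesP (W := Ct E × Scr E N) (k := St.k) (k' := .k') (by simp) .stop
    (.seq (pop .t) (.seq (setS fun sc r => { sc with f := sc.f ∨ r = none })
      (pushReg (.i j) id))) 3 b
    (fun n => ((c, ⟨t.length < n, sc.r1, sc.c⟩), mk y g [] [] (t.drop n) [] [] [] a d s
      (update i j ((t.take n).reverse ++ .fin :: i j))))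
    (fun n _ l1 l2 r => by
      simp only [up_k, up_k']
      by_cases hn : n < t.length
      · have e : (t.drop n).head? = some t[n] := by simp [hn]
        have a1 := exec_pop (W := Ct E × Scr E N) St.t (c, ⟨t.length < n, sc.r1, sc.c⟩) r
          (mk y g l1 l2 (t.drop n) [] [] [] a d s (update i j ((t.take n).reverse ++ .fin :: i j)))
        rw [mk_t, e] at a1
        refine ⟨some t[n], (a1.seq ((exec_setS _ _ _ _ _).seq (exec_pushReg _ _ _ _ _))).of_eq
          ?_ le_rfl⟩
        have e1 : ¬ t.length < n := by omega
        have e3 : ¬ t.length < n + 1 := by omega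
        have e2 : (t.take (n + 1)).reverse = t[n] :: (t.take n).reverse := by
          rw [← List.take_concat_get' t n hn, List.reverse_append]; rfl
        simp [e1, e3, e2]
      · have e : (t.drop n).head? = none := by simp; omega
        have a1 := exec_pop (W := Ct E × Scr E N) St.t (c, ⟨t.length < n, sc.r1, sc.c⟩) r
          (mk y g l1 l2 (t.drop n) [] [] [] a d s (update i j ((t.take n).reverse ++ .fin :: i j)))
        rw [mk_t, e] at a1
        refine ⟨none, (a1.seq ((exec_setS _ _ _ _ _).seq (exec_pushReg_none _ _ _ _))).of_eq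
          ?_ le_rfl⟩
        have e1 : (t.length < n + 1) = True := propext (by simp; omega)
        simp [e1, List.take_of_length_le (show t.length ≤ n by omega),
          List.take_of_length_le (show t.length ≤ n + 1 by omega)]) r
  simp only [up_k, up_k'] at a3
  exact ((exec_setS _ _ _ _ _).seq (((exec_push _ _ _ _).of_eq (by simp [toks]) le_rfl).seq
    a3)).weak (by omega)

def cutP (j : E.ι) : ℕ → P E N
  | 0 => .seq (blk j) (.seq (orBad fun _ sc _ => ¬ sc.f) (clear .t))
  | m + 1 => .seq (blk j) (.seq (orBad fun _ sc _ => sc.f) (cutP j m))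

/-- What `cutP` pushes, from the reversed word. -/
def cutR {Γ : Type} (b : ℕ) : ℕ → List Γ → List (List Γ)
  | 0, t => [(t.take b).reverse]
  | m + 1, t => cutR b m (t.drop b) ++ [(t.take b).reverse]

theorem cutR_eq {Γ : Type} (b m : ℕ) : ∀ l : List Γ, m * b ≤ l.length → l.length < (m + 1) * b →
    cutR b m l.reverse = cutL b m l := by
  induction m with
  | zero =>
    intro l _ h
    simp [cutR, cutL, List.take_of_length_le (show l.reverse.length ≤ b by simp at h ⊢; omega)]
  | succ m ih =>
    intro l h1 h2
    rw [add_one_mul] at h1 h2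
    rw [cutR, cutL, List.drop_reverse, List.take_reverse, List.reverse_reverse, ih]
    · simp; omega
    · simp; omega

theorem cutR_len (b m : ℕ) : ∀ t : List E.Γ,
    (encIs ((cutR b m t).map Item.full)).length ≤ (m + 1) * (b + 1) := by
  induction m with
  | zero => intro t; simp [cutR, encIs, encI]
  | succ m ih =>
    intro t
    have := ih (t.drop b)
    rw [add_one_mul (m + 1)]
    simp only [encIs] at this
    simp only [cutR, encIs, List.map_append, List.flatMap_append, List.length_append]
    have : (List.flatMap encI (List.map Item.full [(t.take b).reverse])).length ≤ b + 1 := by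
      simp [encI]
    omega

theorem run_cutP (j : E.ι) (b : ℕ) (y g a d : List (Sy E)) (s : E.ι → List (Sy E)) (m : ℕ) :
    ∀ (t : List E.Γ) (i : E.ι → List (Sy E)) (c : Ct E),
    Run (cutP j m : P E N) c (mk y g (toks E b) [] (t.map .sym) [] [] [] a d s i)
      (c.orb (¬ (m * b ≤ t.length ∧ t.length < (m + 1) * b)))
      (mk y g (toks E b) [] [] [] [] [] a d s
        (update i j (encIs ((cutR b m t).map .full) ++ i j)))
      ((m + 1) * (9 * b + 7) + 3 * t.length + 2) := by
  induction m with
  | zero =>
    intro t i c sc r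
    refine ⟨⟨t.length < b, sc.r1, sc.c⟩, none, ((exec_blk j b y g _ a d s i c sc r).seq
      ((exec_setC _ _ _ _ _).seq (exec_clear _ _ _ _))).of_eq ?_ (by simp; omega)⟩
    simp [cutR, encIs, encI, List.map_take]
  | succ m ih =>
    intro t i c sc r
    obtain ⟨sc', r', h⟩ := ih (t.drop b) (update i j (((t.map .sym).take b).reverse ++ .fin :: i j))
      (c.orb (t.length < b)) ⟨t.length < b, sc.r1, sc.c⟩ none
    have a1 := exec_blk j b y g (t.map .sym) a d s i c sc r
    rw [List.length_map, ← List.map_drop] at a1
    refine ⟨sc', r', (a1.seq ((exec_setC _ _ _ _ _).seq h)).of_eq ?_ ?_⟩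
    · have e : (t.length < b ∨ ¬ (m * b ≤ (t.drop b).length ∧ (t.drop b).length < (m + 1) * b)) ↔
          ¬ ((m + 1) * b ≤ t.length ∧ t.length < (m + 1 + 1) * b) := by
        simp only [List.length_drop, add_one_mul]; omega
      rw [Ct.orb_orb, c.orb_congr e]
      simp [cutR, encIs, encI, List.map_take]
    · simp only [List.length_drop, add_one_mul]; omega

def byMv (j : E.ι) (p : ℕ → P E N) : P E N :=
  .ite (fun v => v.1.1.mv j = 0) (p 0) (.ite (fun v => v.1.1.mv j = 1) (p 1) (p 2))

theorem run_byMv {j : E.ι} {p : ℕ → P E N} {c c' : Ct E} {S S' : Stk E} {n : ℕ}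
    (h : Run (p (c.mv j)) c S c' S' n) : Run (byMv j p) c S c' S' (n + 2) := by
  have : c.mv j = 0 ∨ c.mv j = 1 ∨ c.mv j = 2 := by omega
  rcases this with e | e | e <;> rw [e] at h
  · exact (Run.iteT (C := fun c => c.mv j = 0) e h).of_eq rfl rfl (by omega)
  · exact Run.iteF (C := fun c => c.mv j = 0) (by simp [e])
      (Run.iteT (C := fun c => c.mv j = 1) e h)
  · exact Run.iteF (C := fun c => c.mv j = 0) (by simp [e])
      (Run.iteF (C := fun c => c.mv j = 1) (by simp [e]) h)

def split (j : E.ι) : P E N := .seq (mv (.s j) .t) (byMv j (cutP j))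

theorem run_splitL (b : ℕ) (y g a d : List (Sy E)) (R : E.ι → List E.Γ) (l : List E.ι)
    (hl : l.Nodup) : ∀ (s i : E.ι → List (Sy E)) (c : Ct E), (∀ j ∈ l, s j = (R j).map .sym) →
    Run (forL split l : P E N) c (mk y g (toks E b) [] [] [] [] [] a d s i)
      (c.orb (∃ j ∈ l, ¬ ((c.mv j : ℕ) * b ≤ (R j).length ∧
        (R j).length < ((c.mv j : ℕ) + 1) * b)))
      (mk y g (toks E b) [] [] [] [] [] a d (fun j => if j ∈ l then [] else s j)
        fun j => if j ∈ l then encIs ((cutR b (c.mv j) (R j).reverse).map .full) ++ i j else i j)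
      (6 * (l.map fun j => (R j).length).sum + l.length * (27 * b + 27) + 1) := by
  induction l with
  | nil => intro s i c _; exact (run_skip _ _).of_eq (by simp) (by simp) (by simp)
  | cons j l ih =>
    intro s i c hs
    obtain ⟨hj, hl'⟩ := List.nodup_cons.1 hl
    have hne : ∀ j' ∈ l, j' ≠ j := fun j' h e => hj (e ▸ h)
    have a1 := run_mv (N := N) (i := St.s j) (j := .t) (by simp) c
      (mk y g (toks E b) [] [] [] [] [] a d s i)
    simp only [up_s, up_t, mk_s, mk_t, hs j (by simp), List.append_nil, ← List.map_reverse,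
      List.length_map] at a1
    have a2 := run_byMv (run_cutP (N := N) j b y g a d (update s j []) (c.mv j) (R j).reverse i c)
    have a3 := ih hl' (update s j [])
      (update i j (encIs ((cutR b (c.mv j) (R j).reverse).map .full) ++ i j))
      (c.orb (¬ ((c.mv j : ℕ) * b ≤ (R j).reverse.length ∧
        (R j).reverse.length < ((c.mv j : ℕ) + 1) * b)))
      fun j' h => by rw [update_of_ne (hne j' h)]; exact hs j' (by simp [h])
    refine ((a1.seq a2).seq a3).of_eq ?_ ?_ ?_
    · rw [Ct.orb_orb]
      exact c.orb_congr (by simp)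
    · congr 1
      · funext j'
        by_cases h : j' = j
        · subst h; simp
        · simp [h]
      · funext j'
        by_cases h : j' = j
        · subst h; simp [hj]
        · simp [h]
    · have : ((c.mv j : ℕ) + 1) * (9 * b + 7) ≤ 3 * (9 * b + 7) :=
        Nat.mul_le_mul_right _ (by omega)
      simp only [List.map_cons, List.sum_cons, List.length_cons, add_one_mul l.length,
        List.length_reverse]
      omega

def unks (j : E.ι) : P E N := byMv j fun m => pushL (.i j) (List.replicate (m + 1) .unk)

theorem run_unksL (b : ℕ) (y g a d : List (Sy E)) (s : E.ι → List (Sy E)) (c : Ct E)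
    (l : List E.ι) (hl : l.Nodup) : ∀ i : E.ι → List (Sy E),
    Run (forL unks l : P E N) c (mk y g (toks E b) [] [] [] [] [] a d s i) c
      (mk y g (toks E b) [] [] [] [] [] a d s
        fun j => if j ∈ l then List.replicate ((c.mv j : ℕ) + 1) .unk ++ i j else i j)
      (l.length * 6 + 1) := by
  induction l with
  | nil => intro i; exact (run_skip _ _).of_eq rfl (by simp) (by simp)
  | cons j l ih =>
    intro i
    obtain ⟨hj, hl'⟩ := List.nodup_cons.1 hl
    have a1 := run_byMv (j := j) (p := fun m => pushL (.i j) (List.replicate (m + 1) .unk))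
      (run_pushL (N := N) (.i j) (List.replicate ((c.mv j : ℕ) + 1) .unk) c
        (mk y g (toks E b) [] [] [] [] [] a d s i))
    simp only [up_i, mk_i] at a1
    refine (a1.seq (ih hl' _)).of_eq rfl ?_ ?_
    · congr 1
      funext j'
      by_cases h : j' = j
      · subst h; simp [hj]
      · simp [h]
    · simp only [List.length_replicate, List.length_cons]; omega

/-! ### Simulation of a block -/

def unSym : Sy E → Option E.Γ
  | .sym γ => some γ
  | _ => none

def simP : P E N :=
  timesP .k .k' .stop (simStep E St.s Sy.sym unSym (fun v => v.1.1.q)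
    fun v q => (({ v.1.1 with q := q }, v.1.2), v.2))

theorem run_simP (b : ℕ) (y g a d : List (Sy E)) (i : E.ι → List (Sy E)) (c : Ct E)
    (T : E.ι → List E.Γ) :
    Run (simP : P E N) c (mk y g (toks E b) [] [] [] [] [] a d (fun j => (T j).map .sym) i)
      { c with q := (E.step^[b] (c.q, T)).1 }
      (mk y g (toks E b) [] [] [] [] [] a d (fun j => ((E.step^[b] (c.q, T)).2 j).map .sym) i)
      (7 * b + 4) := by
  intro sc r
  have a3 := exec_timesP (W := Ct E × Scr E N) (k := St.k) (k' := .k') (by simp) .stop
    (simStep E St.s Sy.sym unSym (fun v => v.1.1.q)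
      fun v q => (({ v.1.1 with q := q }, v.1.2), v.2)) 1 b
    (fun n => (({ c with q := (E.step^[n] (c.q, T)).1 }, sc),
      mk y g [] [] [] [] [] [] a d (fun j => ((E.step^[n] (c.q, T)).2 j).map .sym) i))
    (fun n _ l1 l2 r => by
      simp only [up_k, up_k']
      obtain ⟨S', h1, h2, h3⟩ := exec_simStep (V := (Ct E × Scr E N) × Option (Sy E)) E
        (φ := St.s) (fun _ _ h => by injection h) (ψ := Sy.sym) (χ := unSym) (fun _ => rfl)
        (fun v => v.1.1.q) (fun v q => (({ v.1.1 with q := q }, v.1.2), v.2))
        (({ c with q := (E.step^[n] (c.q, T)).1 }, sc), r) rfl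
        (mk y g l1 l2 [] [] [] [] a d (fun j => ((E.step^[n] (c.q, T)).2 j).map .sym) i)
        (E.step^[n] (c.q, T)).2 fun _ => rfl
      refine ⟨r, h1.of_eq ?_ le_rfl⟩
      rw [iterate_succ_apply']
      refine Prod.ext rfl (funext fun x => ?_)
      cases x
      case s j => exact h2 j
      all_goals exact h3 _ (by simp)) r
  simp only [up_k, up_k'] at a3
  exact ⟨sc, none, a3⟩

end Pool.Agent.MP_8c2300_lc.PP.VI
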